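import Pool.Agent.Lib.TM.Util

set_option autoImplicit false

namespace Pool.Agent.Lib.TM

open Polynomial Pool.Agent.Lib.MP_795114_nt

namespace BA

variable {𝔽 K : Type} [Field 𝔽] [Fintype 𝔽] [Field K] [Algebra 𝔽 K] {n : ℕ}

theorem lam_linear {e : MvPolynomial (Fin n) K} (he : e ∈ Lam (Fintype.card 𝔽) K n) :
    ∃ f : (Fin n → K) →ₗ[𝔽] K, ∀ x, f x = MvPolynomial.eval x e :=
  let ⟨f, hf⟩ := Asp_Pr_linear (𝔽 := 𝔽) (eval_mem_Asp he)
  ⟨f, congrFun hf⟩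

/-- A `q`-variety as an `𝔽`-subspace. -/
def sub {F : Set (Fin n → K)} (hF : IsQVariety (Fintype.card 𝔽) F) : Submodule 𝔽 (Fin n → K) where
  carrier := F
  zero_mem' := by
    obtain ⟨S, hS, rfl⟩ := hF
    intro e he
    obtain ⟨f, hf⟩ := lam_linear (hS e he)
    rw [← hf, map_zero]
  add_mem' := by
    obtain ⟨S, hS, rfl⟩ := hF
    intro x y hx hy e he
    obtain ⟨f, hf⟩ := lam_linear (hS e he)
    rw [← hf, map_add, hf, hf, hx e he, hy e he, add_zero]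
  smul_mem' := by
    obtain ⟨S, hS, rfl⟩ := hF
    intro c x hx e he
    obtain ⟨f, hf⟩ := lam_linear (hS e he)
    rw [← hf, map_smul, hf, hx e he, smul_zero]

variable {δ : 𝔽[X] → K} {F : Set (Fin n → K)} {Φ : 𝔽[X] → Fin n → MvPolynomial (Fin n) K}

/-- The action of `𝔽[X]` through `Φ`. -/
@[reducible] noncomputable def act (h : IsAModule δ F Φ) : Module 𝔽[X] (sub h.isQVariety) where
  smul a x := ⟨polyMap (Φ a) x, (h.isEndo a).2 x x.2⟩
  one_smul x := Subtype.ext <| by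
    have := h.map_C 1 x x.2
    rw [C_1, one_smul] at this
    exact this
  mul_smul a b x := Subtype.ext (h.map_mul a b x x.2)
  smul_zero a := Subtype.ext <| funext fun i => by
    obtain ⟨f, hf⟩ := lam_linear ((h.isEndo a).1 i)
    exact (hf 0).symm.trans f.map_zero
  smul_add a x y := Subtype.ext <| funext fun i => by
    obtain ⟨f, hf⟩ := lam_linear ((h.isEndo a).1 i)
    exact (hf _).symm.trans ((f.map_add _ _).trans (congrArg₂ (· + ·) (hf _) (hf _)))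
  add_smul a b x := Subtype.ext (h.map_add a b x x.2)
  zero_smul x := Subtype.ext <| by
    have := h.map_C 0 x x.2
    rw [C_0, zero_smul] at this
    exact this

end BA

open BA in
theorem blockA (hGEO : St_GEO) (hTAN : St_TAN) : St_A := by
  intro 𝔽 K _ _ _ _ _ δ hδ n F Φ hA ⟨r, m, hm, hab⟩ H ⟨S1, hS1, hH⟩ hHF
  let N := sub hA.isQVariety
  let _ : Module 𝔽[X] N := act hA
  have hs : ∀ (a : 𝔽[X]) (x : N), ((a • x : N) : Fin n → K) = polyMap (Φ a) x := fun _ _ => rfl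
  have : IsScalarTower 𝔽 𝔽[X] N := ⟨fun c a x => Subtype.ext <| by
    rw [smul_eq_C_mul, hs, hA.map_mul _ _ _ x.2, hA.map_C _ _ ((hA.isEndo a).2 x x.2)]
    rfl⟩
  obtain ⟨S0, hS0, hF⟩ := hA.isQVariety
  choose ml hml using fun i => lam_linear (𝔽 := 𝔽) (hm i)
  let co : Fin n → N →ₗ[𝔽] K := fun i => LinearMap.proj i ∘ₗ N.subtype
  let mm : Fin r → N →ₗ[𝔽] K := fun i => ml i ∘ₗ N.subtype
  let E : Set (N → K) := (fun e (x : N) => MvPolynomial.eval (x : Fin n → K) e) '' S1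
  have hres : ∀ {s : ℕ} {f : (Fin n → K) → K}, f ∈ Asp (Fintype.card 𝔽) K s (Pr (Fin n) K) →
      (fun x : N => f x) ∈ Asp (Fintype.card 𝔽) K s (Fn co) := fun hf => by
    refine Asp_transfer (S := Pr (Fin n) K) (S' := Fn co) Subtype.val (RingHom.id K)
      (RingHom.id K) (fun _ => rfl) ?_ hf
    rintro _ ⟨i, rfl⟩
    exact ⟨i, rfl⟩
  have hZ : ∀ x : N, x ∈ Zer E ↔ (x : Fin n → K) ∈ H := fun x => by
    rw [hH]
    exact ⟨fun h e he => h _ ⟨e, he, rfl⟩, fun h _ ⟨e, he, e'⟩ => e' ▸ h e he⟩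
  have hT : ∀ x : N, (∃ a : 𝔽[X], a ≠ 0 ∧ a • x = 0) ↔ (x : Fin n → K) ∈ Tor F Φ := fun x =>
    ⟨fun ⟨a, ha, e⟩ => ⟨x.2, a, ha, congrArg Subtype.val e⟩,
      fun ⟨_, a, ha, e⟩ => ⟨a, ha, Subtype.ext e⟩⟩
  obtain ⟨J, hJ⟩ := hGEO 𝔽 K N n r (δ X) co mm
    ((fun e (x : Fin n → K) => MvPolynomial.eval x e) '' S0) E
    (by
      rw [transcendental_iff_injective]
      have : (aeval (δ X) : 𝔽[X] →ₐ[𝔽] K) = δ := algHom_ext (aeval_X _)
      rwa [this])
    (fun x hx => Subtype.ext (funext hx))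
    (by rintro _ ⟨e, he, rfl⟩; exact eval_mem_Asp (hS0 e he))
    (fun y => ⟨fun h => ⟨⟨y, (hF ▸ fun e he => h _ ⟨e, he, rfl⟩ : y ∈ F)⟩, fun _ => rfl⟩, by
      rintro ⟨x, hx⟩ _ ⟨e, he, rfl⟩
      have hx' : (x : Fin n → K) ∈ F := x.2
      rw [hF] at hx'
      exact (funext hx : (x : Fin n → K) = y) ▸ hx' e he⟩)
    (fun i => by
      obtain ⟨h, hh, e⟩ := hTAN 𝔽 K δ n F Φ hA i
      convert hres hh using 1
      ext x
      exact sub_eq_of_eq_add' (e x x.2))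
    (fun i => by
      convert hres (eval_mem_Asp (hm i)) using 1
      ext x
      exact hml i x)
    (fun f' hf' => by
      obtain ⟨f, hf, rfl⟩ := Asp_exists_comp (S := Pr (Fin n) K) Subtype.val
        (by rintro _ ⟨i, rfl⟩; exact ⟨_, ⟨i, rfl⟩, rfl⟩) hf'
      obtain ⟨e, he, rfl⟩ := exists_Lam_of_Asp hf
      obtain ⟨c, hc⟩ := hab e he
      have : ((fun x => MvPolynomial.eval x e) ∘ Subtype.val : N → K) =
          ∑ p ∈ c.support, c p • fun x : N => mm p.1 ((X : 𝔽[X]) ^ p.2 • x) := by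
        ext x
        rw [Function.comp_apply, hc x x.2, Finsupp.sum, Finset.sum_apply]
        exact Finset.sum_congr rfl fun p _ => congrArg (c p * ·) (hml _ _).symm
      rw [this]
      exact Submodule.sum_mem _ fun p _ =>
        Submodule.smul_mem _ _ (Submodule.subset_span ⟨p.1, p.2, rfl⟩))
    (by rintro _ ⟨e, he, rfl⟩; exact hres (eval_mem_Asp (hS1 e he)))
  refine ⟨J, ?_, FI_mono (FI_image hJ N.subtype.toAddMonoidHom) ?_ ?_⟩
  · rintro _ ⟨z, hz, hz', rfl⟩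
    let z' : Fin (J + 1) → N := fun j => ⟨z j, (hz j).1⟩
    have e : ∑ j, z j = ((∑ j, z' j : N) : Fin n → K) := by simp [z']
    refine ⟨?_, ?_⟩
    · convert hz' 1 using 2 with j
      rw [one_pow, ← hs 1 (z' j), one_smul]
    · have : ∑ j, z' j ∈ Submodule.torsion 𝔽[X] N := Submodule.sum_mem _ fun j _ =>
        let ⟨a, ha, e⟩ := (hT (z' j)).2 (hz j); ⟨⟨a, mem_nonZeroDivisors_of_ne_zero ha⟩, e⟩
      obtain ⟨a, ha⟩ := this
      rw [e]
      exact (hT _).1 ⟨a, nonZeroDivisors.ne_zero a.2, ha⟩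
  · rintro _ ⟨_, ⟨z, hz, hz', rfl⟩, rfl⟩
    refine ⟨fun j => z j, fun j => (hT _).1 (hz j), fun a => ?_, by simp⟩
    have := (hZ _).1 (hz' a)
    rwa [AddSubmonoidClass.coe_finsetSum] at this
  · rintro x ⟨hx, hx'⟩
    exact ⟨⟨x, hx'.1⟩, ⟨(hZ _).2 hx, (hT _).2 hx'⟩, rfl⟩

end Pool.Agent.Lib.TM
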