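import Pool.Agent.Lib.TM.Util

/-! Block ABS: the abstract theorem, from two places. -/

set_option autoImplicit false

namespace Pool.Agent.Lib.TM

open Polynomial Pool.Agent.Lib.MP_795114_nt

namespace BABS

section
variable {𝔽 M : Type} [Field 𝔽] [Fintype 𝔽] [AddCommGroup M] [Module 𝔽[X] M] {Γ : Set M}

theorem tws_succ (J : ℕ) : TwS 𝔽 Γ J ⊆ TwS 𝔽 Γ (J + 1) := by
  rintro _ ⟨z, h1, h2, rfl⟩
  refine ⟨Fin.snoc (α := fun _ => M) z 0, fun j => ?_, fun a => ?_, ?_⟩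
  · refine Fin.lastCases ?_ (fun j => ?_) j
    · exact ⟨1, one_ne_zero, by simp⟩
    · simpa using h1 j
  · rw [Fin.sum_univ_castSucc]
    simpa using h2 a
  · rw [Fin.sum_univ_castSucc (n := J + 1)]
    simp

theorem tws_mono {J J' : ℕ} (h : J ≤ J') : TwS 𝔽 Γ J ⊆ TwS 𝔽 Γ J' := by
  induction h with
  | refl => exact subset_rfl
  | step _ ih => exact ih.trans (tws_succ _)

theorem tws_add (hΓ : ∀ x ∈ Γ, ∀ y ∈ Γ, x + y ∈ Γ) (J : ℕ) :
    ∀ x ∈ TwS 𝔽 Γ J, ∀ y ∈ TwS 𝔽 Γ J, x + y ∈ TwS 𝔽 Γ J := by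
  rintro _ ⟨z, h1, h2, rfl⟩ _ ⟨w, k1, k2, rfl⟩
  refine ⟨z + w, fun j => ?_, fun a => ?_, by simp [Finset.sum_add_distrib]⟩
  · obtain ⟨a, ha, e⟩ := h1 j
    obtain ⟨b, hb, e'⟩ := k1 j
    refine ⟨a * b, mul_ne_zero ha hb, ?_⟩
    rw [Pi.add_apply, smul_add, mul_smul a b (w j), e', mul_comm, mul_smul, e]
    simp
  · simpa [Finset.sum_add_distrib] using hΓ _ (h2 a) _ (k2 a)

end

theorem split_int {B K : Type} [CommRing B] [Field K] [IsAlgClosed K] [Algebra B K] (p : B[X])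
    (hp : p.Monic) : ∃ s : Multiset (integralClosure B K),
      p.map (algebraMap B (integralClosure B K)) = (s.map fun v => X - C v).prod := by
  have h1 := (IsAlgClosed.splits (p.map (algebraMap B K))).eq_prod_roots_of_monic (hp.map _)
  have h2 : ∀ a ∈ (p.map (algebraMap B K)).roots, a ∈ integralClosure B K := fun a ha =>
    ⟨p, hp, by rw [← eval_map]; exact (mem_roots'.1 ha).2⟩
  obtain ⟨s, hs⟩ : ∃ s : Multiset (integralClosure B K),
      s.map Subtype.val = (p.map (algebraMap B K)).roots := CanLift.prf _ h2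
  refine ⟨s, map_injective (algebraMap (integralClosure B K) K) Subtype.val_injective ?_⟩
  rw [map_map, ← IsScalarTower.algebraMap_eq, h1, ← hs, Polynomial.map_multiset_prod,
    Multiset.map_map, Multiset.map_map]
  congr 1
  exact Multiset.map_congr rfl fun v _ => by simp

end BABS

open BABS in
theorem blockABS (hALG : St_ALG) (hARI : St_ARI) (hFIN : St_FIN) (hINT : St_INT) : St_ABS := by
  intro 𝔽 K M ι _ _ _ _ _ _ _ _ _ _ B θ g E hB hθ d hE hG
  have : Algebra.FiniteType 𝔽 B := (Subalgebra.fg_iff_finiteType B).1 hB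
  have : IsNoetherianRing B := Algebra.FiniteType.isNoetherianRing 𝔽 B
  have hint : ∀ i x, g i x ∈ integralClosure B K := fun i x =>
    let ⟨a, ha, e⟩ := d.tors x
    hINT 𝔽 B K M ι g d.b1 x a ha e i
  let g' : ι → M →ₗ[𝔽] integralClosure B K := fun i =>
    { toFun := fun x => ⟨g i x, hint i x⟩
      map_add' := fun x y => Subtype.ext (map_add _ _ _)
      map_smul' := fun c x => Subtype.ext (map_smul _ _ _) }
  have d' : Dat θ g' := ⟨d.tors, fun x hx => d.sep x fun i => congrArg Subtype.val (hx i),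
    d.b1.of_injective (integralClosure B K).val Subtype.val_injective fun _ _ => rfl,
    d.b2.of_injective (integralClosure B K).val Subtype.val_injective fun _ _ => rfl⟩
  have hG' : GalFull B g' := fun γ =>
    let ⟨f, hf⟩ := hG γ
    ⟨f, fun i x => Subtype.ext (hf i x (g' i x) rfl).symm⟩
  have fin : ∀ a : 𝔽[X], a ≠ 0 → {x : M | a • x = 0}.Finite := hFIN 𝔽 K M ι g d.sep
    (d.b1.transfer LinearMap.id (RingHom.id K) (algebraMap B K) (fun _ => rfl) fun _ _ => rfl)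
  have inj : Function.Injective (algebraMap B (integralClosure B K)) := fun a b h =>
    Subtype.ext (congrArg (fun v : integralClosure B K => (v : K)) h)
  have ari := hARI 𝔽 B (integralClosure B K) M ι θ g' hθ inj split_int d' hG' fin
  let Γ : AddSubgroup M := (zerSub hE).toAddSubgroup
  have hΓ : ∀ f, IsGal B g' f → ∀ x ∈ Γ, f x ∈ Γ := by
    rintro f ⟨γ, hγ⟩ x hx e he
    have : ∃ v : integralClosure B K, (v : K) = e x ∧ (γ v : K) = e (f x) := by
      refine Asp_induction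
        (p := fun e => ∃ v : integralClosure B K, (v : K) = e x ∧ (γ v : K) = e (f x)) (hE he)
        ?_ ⟨0, rfl, by simp⟩ ?_ ?_
      · rintro _ ⟨i, rfl⟩ k -
        refine ⟨g' i x ^ Fintype.card 𝔽 ^ k, rfl, ?_⟩
        rw [map_pow, ← hγ]
        rfl
      · rintro _ _ ⟨v, h1, h2⟩ ⟨w, k1, k2⟩
        exact ⟨v + w, by simp [h1, k1], by simp [h2, k2]⟩
      · rintro r _ ⟨v, h1, h2⟩
        exact ⟨r • v, by simp [h1], by simp [h2]⟩
    obtain ⟨v, h1, h2⟩ := this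
    have h0 : v = 0 := Subtype.ext (h1.trans (hx e he))
    rw [← h2, h0, map_zero]
    rfl
  have alg : ∀ (π s : Module.End 𝔽[X] M) (P : 𝔽[X][X]), (∀ x, π (s x) = s x) → P.Monic →
      (∀ x, π x = x → aeval s P x = 0) →
      (∀ g₀ : 𝔽[X], g₀ ≠ 0 → {x | π x = x ∧ aeval s (g₀.map C : 𝔽[X][X]) x = 0}.Finite) →
      (∀ x ∈ Γ, s x ∈ Γ) → ∃ J, FiniteIndexIn (TwS 𝔽 (Zer E) J) (Zer E ∩ {x | π x = x}) :=
    fun π s P h1 h2 h3 h4 h5 => hALG 𝔽 K M ι (algebraMap B K θ) g E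
      (LinearMap.eqLocus π LinearMap.id) s P
      ((transcendental_algebraMap_iff Subtype.val_injective).2 hθ) d.tors fin
      (d.b2.transfer LinearMap.id (RingHom.id K) (algebraMap B K) (fun _ => rfl) fun _ _ => rfl)
      (fun e he => Submodule.span_le_restrictScalars B K _ (hE he)) (fun x _ => h1 x) h2 h3 h4
      fun x _ hx => h5 x hx
  obtain ⟨p₁, π₁, s₁, P₁, a1, -, a3, a4, a5, a6, a7, a8, a9⟩ := ari 1 one_ne_zero
  obtain ⟨p₂, π₂, s₂, P₂, b1, b2, b3, -, b5, b6, b7, b8, b9⟩ := ari p₁ a1.ne_zero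
  obtain ⟨J₁, h₁⟩ := alg π₁ s₁ P₁ a5 a6 a7 a8 fun x hx => (a9 Γ hΓ x hx).2
  obtain ⟨J₂, h₂⟩ := alg π₂ s₂ P₂ b5 b6 b7 b8 fun x hx => (b9 Γ hΓ x hx).2
  refine ⟨max J₁ J₂, FI_add (tws_add (fun x hx y hy => Γ.add_mem hx hy) _)
    (FI_mono h₁ (tws_mono (le_max_left _ _)) subset_rfl)
    (FI_mono h₂ (tws_mono (le_max_right _ _)) subset_rfl) fun x hx => ?_⟩
  have hy := (a9 Γ hΓ x hx).1
  refine ⟨π₁ x, ⟨hy, a4 x⟩, Γ.sub_mem hx hy, ?_⟩
  obtain ⟨k, hk⟩ := a3 x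
  obtain ⟨l, hl⟩ := b3 (x - π₁ x)
  obtain ⟨u, v, huv⟩ : IsCoprime (p₂ ^ l) (p₁ ^ k) := (b1.coprime_iff_not_dvd.2 b2).pow
  have h0 : p₁ ^ k • (x - π₁ x - π₂ (x - π₁ x)) = 0 := by
    rw [smul_sub, ← map_smul, hk, map_zero, sub_zero]
  refine (sub_eq_zero.1 ?_).symm
  rw [← one_smul 𝔽[X] (x - π₁ x - π₂ (x - π₁ x)), ← huv, add_smul, mul_smul, mul_smul, hl, h0]
  simp

end Pool.Agent.Lib.TM
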