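import Pool.Agent.Lib.TM.Util

/-! The algebraic part. -/

set_option autoImplicit false

namespace Pool.Agent.Lib.TM

open Polynomial Pool.Agent.Lib.MP_795114_nt

namespace BALG

theorem aeval_mem {A M : Type} [CommRing A] [AddCommGroup M] [Module A M] {U : Submodule A M}
    {s : Module.End A M} (hs : ∀ x ∈ U, s x ∈ U) (p : A[X]) : ∀ x ∈ U, aeval s p x ∈ U := by
  induction p using Polynomial.induction_on with
  | C c => intro x hx; rw [aeval_C, Module.algebraMap_end_apply]; exact U.smul_mem c hx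
  | add a b ha hb =>
    intro x hx; rw [map_add, LinearMap.add_apply]; exact U.add_mem (ha x hx) (hb x hx)
  | monomial n c ih =>
    intro x hx
    rw [pow_succ, ← mul_assoc, map_mul, aeval_X, Module.End.mul_apply]
    exact ih _ (hs x hx)

theorem rec_sum {A M : Type} [CommRing A] [AddCommGroup M] [Module A M] (s : Module.End A M)
    (w R : A[X]) (l : ℕ) (y : M) :
    ∑ m ∈ Finset.range (R.natDegree + 1), R.coeff m • aeval s (w * X ^ (l + m)) y =
      aeval s (w * X ^ l * R) y := by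
  conv_rhs => rw [R.as_sum_range_C_mul_X_pow, Finset.mul_sum, map_sum, LinearMap.sum_apply]
  refine Finset.sum_congr rfl fun m _ => ?_
  have e : w * X ^ l * (C (R.coeff m) * X ^ m) = R.coeff m • (w * X ^ (l + m)) := by
    rw [smul_eq_C_mul]; ring
  rw [e, map_smul, LinearMap.smul_apply]

end BALG

theorem blockALG (hCNT : St_CNT) (hQ : St_Q) (hSTAB : St_STAB) : St_ALG := by
  intro 𝔽 K M ι _ _ _ _ _ _ _ _ _ _ θ g E U s P hθ tors fin b2 hE hU hP hPU hg hs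
  classical
  obtain ⟨P₀, J, R, u, c, hP₀, hR, eP, hc, eu, cop⟩ := hQ 𝔽 K θ P hθ hP
  set Q := ∏ j ∈ Finset.range (J + 1), R j with hQ'
  set w : ℕ → 𝔽[X][X] := fun j => u j * ∏ j' ∈ (Finset.range (J + 1)).erase j, R j' with hw
  have sub : ∀ x ∈ Zer E, ∀ y ∈ Zer E, x - y ∈ Zer E := fun x hx y hy =>
    (zerSub hE).sub_mem hx hy
  let Y : AddSubgroup M :=
    { carrier := {y | (y ∈ U ∧ c • y ∈ Zer E) ∧ aeval s Q y = 0}
      zero_mem' := ⟨⟨U.zero_mem, by rw [smul_zero]; exact (zerSub hE).zero_mem⟩, map_zero _⟩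
      add_mem' := fun {a b} ha hb => ⟨⟨U.add_mem ha.1.1 hb.1.1, by
        rw [smul_add]; exact (zerSub hE).add_mem ha.1.2 hb.1.2⟩, by
        rw [map_add, ha.2, hb.2, add_zero]⟩
      neg_mem' := fun {a} ha => ⟨⟨U.neg_mem ha.1.1, by
        rw [smul_neg]; exact (zerSub hE).neg_mem ha.1.2⟩, by rw [map_neg, ha.2, neg_zero]⟩ }
  let z : Fin (J + 1) → ℕ → Y →+ M := fun j l =>
    (aeval s (w j * X ^ l)).toAddMonoidHom.comp Y.subtype
  have hz : ∀ j l (y : Y), z j l y = aeval s (w j * X ^ l) (y : M) := fun _ _ _ => rfl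
  have sm : ∀ l (y : Y), ∑ j, z j l y = (s ^ l) (c • (y : M)) := fun l y => by
    simp only [hz]
    rw [Fin.sum_univ_eq_sum_range (fun j => aeval s (w j * X ^ l) (y : M)) (J + 1),
      ← LinearMap.sum_apply, ← map_sum, ← Finset.sum_mul, eu, ← smul_eq_C_mul, map_smul,
      map_pow, aeval_X, LinearMap.smul_apply, map_smul]
  have pw : ∀ l, ∀ x ∈ U, x ∈ Zer E → (s ^ l) x ∈ U ∧ (s ^ l) x ∈ Zer E := fun l x h1 h2 => by
    induction l with
    | zero => exact ⟨h1, h2⟩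
    | succ l ih => rw [pow_succ', Module.End.mul_apply]; exact ⟨hU _ ih.1, hs _ ih.1 ih.2⟩
  obtain ⟨Y₀, fi, hY₀⟩ := hSTAB 𝔽 K M ι Y θ g E J R z b2 hE hR cop (fun j l y => by
    simp only [hz]
    have e : w j * X ^ l * R j = u j * X ^ l * Q := by
      rw [hQ', ← Finset.mul_prod_erase _ R (Finset.mem_range.2 j.2)]
      simp only [hw]; ring
    rw [BALG.rec_sum, e, map_mul, Module.End.mul_apply, y.2.2, map_zero])
    fun l y => by rw [sm]; exact (pw l _ (U.smul_mem c y.2.1.1) y.2.1.2).2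
  let f : M →+ M := DistribSMul.toAddMonoidHom M c
  have hf : ∀ y, f y = c • y := fun _ => rfl
  have h1 : FiniteIndexIn (TwS 𝔽 (Zer E) J) (f '' (Y : Set M)) := by
    refine FI_mono (FI_image (FI_of_finiteIndex Y₀) (f.comp Y.subtype)) ?_ ?_
    · rintro _ ⟨y, hy, rfl⟩
      exact ⟨fun j => z j 0 y, fun j => tors _, hY₀ y hy, (sm 0 y).symm⟩
    · rintro _ ⟨y, hy, rfl⟩
      exact ⟨⟨y, hy⟩, trivial, rfl⟩
  have h2 : FiniteIndexIn (Y : Set M) {y | y ∈ U ∧ c • y ∈ Zer E} := by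
    refine FI_ker (C := {y | y ∈ U ∧ c • y ∈ Zer E}) (fun x hx y hy => ⟨U.sub_mem hx.1 hy.1, by
      rw [smul_sub]; exact sub _ hx.2 _ hy.2⟩) (aeval s Q) (fun x _ y _ => map_sub _ x y)
      ((hg P₀ hP₀).subset ?_)
    rintro _ ⟨x, hx, rfl⟩
    refine ⟨BALG.aeval_mem hU Q x hx.1, ?_⟩
    rw [← Module.End.mul_apply, ← map_mul, ← eP]
    exact hPU x hx.1
  have h3 : FiniteIndexIn (Zer E ∩ (fun y => c • y) '' (U : Set M)) (Zer E ∩ U) := by
    refine FI_inter (hCNT 𝔽[X] M U c tors fin hc) ?_ sub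
    rintro _ ⟨x, hx, rfl⟩ _ ⟨y, hy, rfl⟩
    exact ⟨x - y, U.sub_mem hx hy, smul_sub c x y⟩
  refine ⟨J, FI_trans (FI_trans h1 (FI_image h2 f)) (FI_mono h3 ?_ subset_rfl)⟩
  rintro _ ⟨hx, y, hy, rfl⟩
  exact ⟨y, ⟨hy, hx⟩, rfl⟩

end Pool.Agent.Lib.TM
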