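import Pool.Agent.Lib.TM.Util

/-! The arithmetic part: one place. -/

set_option autoImplicit false

namespace Pool.Agent.Lib.TM

open Polynomial

namespace BARI

theorem core (hL : St_L) (hN1 : St_N1) (hN2 : St_N2) (hN3 : St_N3) (hR : St_R) (hRED : St_RED)
    (hT0 : St_T0) {𝔽 B V M ι k L Ω : Type} [Field 𝔽] [Fintype 𝔽] [CommRing B] [IsDomain B]
    [Algebra 𝔽 B] [CommRing V] [IsDomain V] [Algebra B V] [Algebra.IsIntegral B V] [Algebra 𝔽 V]
    [IsScalarTower 𝔽 B V] [AddCommGroup M] [Module 𝔽 M] [Module 𝔽[X] M]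
    [IsScalarTower 𝔽 𝔽[X] M] [Finite ι] [Field k] [Fintype k] [Algebra 𝔽 k] [Field L]
    [IsAlgClosed L] [Algebra k L] [Algebra 𝔽 L] [IsScalarTower 𝔽 k L] [Field Ω] [IsAlgClosed Ω]
    [Algebra (PowerSeries L) Ω] [Algebra.IsAlgebraic (PowerSeries L) Ω] [Algebra 𝔽 Ω]
    [IsScalarTower 𝔽 (PowerSeries L) Ω] {θ : B} {g : ι → M →ₗ[𝔽] V}
    (hBV : Function.Injective (algebraMap B V))
    (hsplit : ∀ p : B[X], p.Monic → ∃ s : Multiset V,
      p.map (algebraMap B V) = (s.map fun v => X - C v).prod)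
    (hD : Dat θ g) (hG : GalFull B g) (hfin : ∀ a : 𝔽[X], a ≠ 0 → {x : M | a • x = 0}.Finite)
    (hO : Function.Injective (algebraMap (PowerSeries L) Ω)) {c : k} {e : ℕ} (he : 0 < e)
    {j : B →ₐ[𝔽] PowerSeries k} (hj : Function.Injective j)
    (hjθ : j θ = PowerSeries.C c + PowerSeries.X ^ e)
    (hc : ∀ i i', i < i' → i' ≤ e → c ^ Fintype.card 𝔽 ^ i ≠ c ^ Fintype.card 𝔽 ^ i') :
    ∃ (π s : Module.End 𝔽[X] M) (P : 𝔽[X][X]),
      (∀ x, ∃ n : ℕ, minpoly 𝔽 c ^ n • (x - π x) = 0) ∧ (∀ x, π (π x) = π x) ∧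
      (∀ x, π (s x) = s x) ∧ P.Monic ∧ (∀ x, π x = x → aeval s P x = 0) ∧
      (∀ g₀ : 𝔽[X], g₀ ≠ 0 → {x | π x = x ∧ aeval s (g₀.map C : 𝔽[X][X]) x = 0}.Finite) ∧
      ∀ Γ : AddSubgroup M, (∀ f, IsGal B g f → ∀ x ∈ Γ, f x ∈ Γ) →
        ∀ x ∈ Γ, π x ∈ Γ ∧ s x ∈ Γ := by
  have hci : IsIntegral 𝔽 c := IsIntegral.of_finite 𝔽 c
  have hϖ : Irreducible (minpoly 𝔽 c) := minpoly.irreducible hci
  let jO : B →+* PowerSeries L := (PowerSeries.map (algebraMap k L)).comp j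
  have hjO : Function.Injective jO :=
    (PowerSeries.map_injective _ (algebraMap k L).injective).comp hj
  obtain ⟨ρ, hρ, hρj, hpull⟩ :=
    hN2 B V Ω ((algebraMap (PowerSeries L) Ω).comp jO) hBV (hO.comp hjO) hsplit
  have hρj' : ∀ b, ρ (algebraMap B V b) = algebraMap (PowerSeries L) Ω (jO b) := hρj
  have hρF : ∀ a : 𝔽, ρ (algebraMap 𝔽 V a) = algebraMap 𝔽 Ω a := fun a => by
    rw [IsScalarTower.algebraMap_apply 𝔽 B V, hρj', IsScalarTower.algebraMap_apply 𝔽 (PowerSeries L) Ω]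
    congr 1
    change PowerSeries.map _ (j _) = _
    rw [j.commutes, PowerSeries.algebraMap_apply, PowerSeries.algebraMap_apply, PowerSeries.map_C,
      ← IsScalarTower.algebraMap_apply]
  let G : ι → M →ₗ[𝔽] Ω := fun i => (⟨ρ, hρF⟩ : V →ₐ[𝔽] Ω).toLinearMap ∘ₗ g i
  have hGv : ∀ i x, G i x = ρ (g i x) := fun _ _ => rfl
  have hint : ∀ v, ρ v ∈ integralClosure (PowerSeries L) Ω := fun v =>
    (Algebra.IsIntegral.isIntegral (R := B) v).map_of_comp_eq jO ρ (RingHom.ext fun b => (hρj b).symm)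
  obtain ⟨res, hres, hcomp⟩ := hN1 L Ω hO
  let r : V →+* L := res.comp (ρ.codRestrict (integralClosure (PowerSeries L) Ω) hint)
  have hr : ∀ v, r v = res ⟨ρ v, hint v⟩ := fun _ => rfl
  have hrB : ∀ b, r (algebraMap B V b) =
      algebraMap k L (((PowerSeries.constantCoeff (R := k)).comp j.toRingHom) b) := fun b => by
    have : (⟨ρ (algebraMap B V b), hint _⟩ : integralClosure (PowerSeries L) Ω) =
        algebraMap (PowerSeries L) _ (jO b) := Subtype.ext (hρj' b)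
    rw [hr, this, hres]
    rfl
  have hrF : ∀ a : 𝔽, r (algebraMap 𝔽 V a) = algebraMap 𝔽 L a := fun a => by
    rw [IsScalarTower.algebraMap_apply 𝔽 B V, hrB, IsScalarTower.algebraMap_apply 𝔽 k L]
    congr 1
    change PowerSeries.constantCoeff (j _) = _
    rw [j.commutes, PowerSeries.algebraMap_apply, PowerSeries.constantCoeff_C]
  let gb : ι → M →ₗ[𝔽] L := fun i => (⟨r, hrF⟩ : V →ₐ[𝔽] L).toLinearMap ∘ₗ g i
  have hgb : ∀ i x, gb i x = r (g i x) := fun _ _ => rfl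
  have hb1 : B1 k gb := hD.b1.transfer LinearMap.id r _ hrB hgb
  have hb2 := hD.b2.transfer (g' := gb) LinearMap.id r _ hrB hgb
  let T : Submodule 𝔽[X] M :=
    { carrier := {x | ∀ i, gb i x = 0}
      zero_mem' := fun i => map_zero _
      add_mem' := fun hx hy i => by rw [map_add, hx, hy, add_zero]
      smul_mem' := fun a x hx i => Asp_apply_eq_zero Fintype.card_ne_zero
        (hb2.comp_smul a (mem_Asp ⟨i, rfl⟩)) (by rintro _ ⟨i, rfl⟩; exact hx i) }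
  have hT : ∀ x, x ∈ T ↔ ∀ i, gb i x = 0 := fun _ => Iff.rfl
  have hθ' : jO θ = PowerSeries.C (algebraMap k L c) + PowerSeries.X ^ e := by
    change PowerSeries.map _ (j _) = _
    rw [hjθ, map_add, map_pow, PowerSeries.map_C, PowerSeries.map_X]
  have hDG : Dat (PowerSeries.C (algebraMap k L c) + PowerSeries.X ^ e : PowerSeries L) G :=
    ⟨hD.tors, fun x hx => hD.sep x fun i => hρ ((hx i).trans (map_zero ρ).symm),
      hD.b1.transfer LinearMap.id ρ jO hρj' hGv, hθ' ▸ hD.b2.transfer LinearMap.id ρ jO hρj' hGv⟩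
  have hGG : GalFull (PowerSeries L) G := fun γ => by
    obtain ⟨γ', hγ'⟩ := hpull γ fun b => γ.commutes _
    obtain ⟨f, hf⟩ := hG γ'
    exact ⟨f, fun i x => by rw [hGv, hf, hγ']; rfl⟩
  have hgal : ∀ f, IsGal (PowerSeries L) G f → IsGal B g f ∧ ∀ x, f x - x ∈ T := by
    rintro f ⟨γ, hf⟩
    obtain ⟨γ', hγ'⟩ := hpull γ fun b => γ.commutes _
    refine ⟨⟨γ', fun i x => hρ (by rw [hγ', ← hGv, hf]; rfl)⟩, fun x i => ?_⟩
    rw [map_sub, sub_eq_zero, hgb, hgb, hr, hr]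
    exact hcomp γ (RingHom.id L) (fun f => by simp) _ _ (hf i x)
  -- `T` is primary
  have hprim : ∀ x ∈ T, ∃ n : ℕ, minpoly 𝔽 c ^ n • x = 0 := fun x hx => by
    obtain ⟨a, ha, hax⟩ := hD.tors x
    obtain ⟨n, a', hn, rfl⟩ := WfDvdMonoid.max_power_factor ha hϖ
    refine ⟨n, hD.sep _ (hT0 𝔽 B V M ι θ g (RingHom.ker r) (RingHom.ker_isPrime r) hD.b2 _ a'
      (T.smul_mem _ hx) (by rwa [← mul_smul, mul_comm]) fun h => hn (minpoly.dvd 𝔽 c ?_))⟩
    rw [RingHom.mem_ker, hrB, map_eq_zero] at h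
    let κ : B →ₐ[𝔽] k := ⟨(PowerSeries.constantCoeff (R := k)).comp j.toRingHom, fun a => by
      change PowerSeries.constantCoeff (j _) = _
      rw [j.commutes, PowerSeries.algebraMap_apply, PowerSeries.constantCoeff_C]⟩
    have hκ : κ θ = c := by
      change PowerSeries.constantCoeff (j _) = _
      simp [hjθ, he.ne']
    rw [← hκ, aeval_algHom_apply]
    exact h
  let 𝔐 : Submodule (PowerSeries L) Ω :=
    ((RingHom.ker res).restrictScalars (PowerSeries L)).map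
      (integralClosure (PowerSeries L) Ω).val.toLinearMap
  obtain ⟨π, hπ1, hπ2, hπ3⟩ := hR 𝔽[X] M T (minpoly 𝔽 c)
    {s | ∃ f, IsGal (PowerSeries L) G f ∧ s = f - 1} hprim
    (fun n => hfin _ (pow_ne_zero _ hϖ.ne_zero))
    (by rintro _ ⟨f, hf, rfl⟩ x; exact (hgal f hf).2 x) (fun W hW hWs w hw hw0 hws => by
      have h𝔐 : ∀ x ∈ T, ∀ i, G i x ∈ 𝔐 := fun x hx i => ⟨⟨_, hint _⟩, hx i, rfl⟩
      refine hL 𝔽 L Ω M ι (algebraMap k L c) e (minpoly 𝔽 c) G 𝔐 W w hO he hϖ ?_ ?_ hDG hGG ?_ ?_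
        ((hfin _ hϖ.ne_zero).subset fun x hx => (hW x hx).2)
        (fun x hx => ⟨(hW x hx).2, h𝔐 x (hW x hx).1⟩) hw0 (h𝔐 w hw) fun f hf =>
          ⟨fun x hx => ?_, hws _ ⟨f, hf, rfl⟩⟩
      · rw [aeval_algebraMap_apply, minpoly.aeval, map_zero]
      · intro i i' h h' h''
        rw [← map_pow, ← map_pow] at h''
        exact hc i i' h h' ((algebraMap k L).injective h'')
      · rintro ⟨y, hy, e⟩
        have : y = 1 := Subtype.ext e
        subst this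
        exact one_ne_zero ((map_one res).symm.trans hy)
      · rintro _ ⟨y, hy, rfl⟩
        exact ⟨y ^ Fintype.card 𝔽, Ideal.pow_mem_of_mem _ hy _ Fintype.card_pos, rfl⟩
      · simpa using W.add_mem (hWs _ ⟨f, hf, rfl⟩ x hx) hx)
  -- the Frobenius lift
  let τ : L →+* L := FiniteField.frobeniusAlgHom k L
  obtain ⟨σ, hσ⟩ := hN3 (PowerSeries L) Ω (PowerSeries.map τ) hO
    (PowerSeries.map_injective _ τ.injective)
  obtain ⟨σ', hσ'⟩ := hpull σ fun b => by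
    change σ (algebraMap _ Ω (jO b)) = algebraMap _ Ω (jO b)
    rw [hσ]
    congr 1
    ext n
    exact (FiniteField.frobeniusAlgHom k L).commutes _
  obtain ⟨σM, hσM⟩ := hG σ'
  have hidem : ∀ x, π (π x) = π x := fun x => by
    have := hπ2 _ (hπ1 x)
    rw [map_sub, sub_eq_zero] at this
    exact this.symm
  obtain ⟨⟨P, hP, hP'⟩, hker⟩ := hRED 𝔽 k L M ι gb σM π T hb1 (fun i x => by
    rw [hgb, hgb, hσM, hr, hr]
    exact hcomp σ τ hσ _ _ (hσ' _)) hT hπ1 hπ2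
  refine ⟨π, π * σM, P, fun x => hprim _ (hπ1 x), hidem, fun x => hidem _, hP, hP', hker,
    fun Γ hΓ x hx => ?_⟩
  have : ∀ x ∈ Γ, π x ∈ Γ := hπ3 Γ (by
    rintro _ ⟨f, hf, rfl⟩ x hx
    exact Γ.sub_mem (hΓ f (hgal f hf).1 x hx) hx)
  exact ⟨this x hx, this _ (hΓ σM ⟨σ', hσM⟩ x hx)⟩

end BARI

theorem blockARI (hE : St_E) (hL : St_L) (hN1 : St_N1) (hN2 : St_N2) (hN3 : St_N3) (hR : St_R)
    (hRED : St_RED) (hT0 : St_T0) : St_ARI := by
  intro 𝔽 B V M ι _ _ _ _ _ _ _ _ _ _ _ _ _ _ _ _ _ θ g hθ hBV hsplit hD hG hfin β hβ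
  obtain ⟨e, he, hE'⟩ := hE 𝔽 B θ hθ
  obtain ⟨k, _, _, _, c, j, hj, hjθ, hc⟩ := hE' (β * ∏ i' ∈ Finset.range (e + 1),
      ∏ i ∈ Finset.range i', (X ^ Fintype.card 𝔽 ^ i - X ^ Fintype.card 𝔽 ^ i'))
    (mul_ne_zero hβ (Finset.prod_ne_zero_iff.2 fun i' _ => Finset.prod_ne_zero_iff.2 fun i hi h =>
      (Finset.mem_range.1 hi).ne (q_pow_inj 𝔽 (by
        simpa using congrArg natDegree (sub_eq_zero.1 h)))))
  rw [map_mul, map_prod] at hc
  let O := PowerSeries (AlgebraicClosure k)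
  have hO : Function.Injective (algebraMap O (AlgebraicClosure (FractionRing O))) := by
    rw [IsScalarTower.algebraMap_eq O (FractionRing O)]
    exact (algebraMap (FractionRing O) _).injective.comp (IsFractionRing.injective O _)
  have : Algebra.IsAlgebraic O (AlgebraicClosure (FractionRing O)) :=
    IsFractionRing.comap_isAlgebraic_iff.2
      (inferInstance : Algebra.IsAlgebraic (FractionRing O) (AlgebraicClosure (FractionRing O)))
  obtain ⟨π, s, P, h⟩ := BARI.core (L := AlgebraicClosure k)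
    (Ω := AlgebraicClosure (FractionRing O)) hL hN1 hN2 hN3 hR
    hRED hT0 hBV hsplit hD hG hfin hO he hj hjθ
    fun i i' h h' h'' => right_ne_zero_of_mul hc
      (Finset.prod_eq_zero (Finset.mem_range.2 (Nat.lt_succ_of_le h')) (by
        rw [map_prod]
        exact Finset.prod_eq_zero (Finset.mem_range.2 h) (by simp [h''])))
  refine ⟨minpoly 𝔽 c, π, s, P, minpoly.irreducible (IsIntegral.of_finite 𝔽 c), ?_, h⟩
  rintro ⟨b, rfl⟩
  exact left_ne_zero_of_mul hc (by rw [map_mul, minpoly.aeval, zero_mul])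

end Pool.Agent.Lib.TM
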