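import Pool.Agent.Lib.TM.Util

set_option autoImplicit false

namespace Pool.Agent.Lib.TM

open Polynomial Pool.Agent.Lib.MP_795114_nt

namespace BBback

variable {𝔽 K : Type} [Field 𝔽] [Field K] [Algebra 𝔽 K] {n : ℕ}

/-- the diagonal operator -/
noncomputable def dg (t : Fin n → Module.End 𝔽 K) : Module.End 𝔽 (Fin n → K) :=
  LinearMap.pi fun i => t i ∘ₗ LinearMap.proj i

theorem dg_pow (t : Fin n → Module.End 𝔽 K) (m : ℕ) (x : Fin n → K) (i : Fin n) :
    (dg t ^ m) x i = (t i ^ m) (x i) := by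
  induction m with
  | zero => rfl
  | succ m ih => rw [pow_succ', pow_succ', Module.End.mul_apply, Module.End.mul_apply, ← ih]; rfl

theorem aeval_dg (t : Fin n → Module.End 𝔽 K) (b : 𝔽[X]) (x : Fin n → K) (i : Fin n) :
    aeval (dg t) b x i = aeval (t i) b (x i) := by
  simp only [aeval_eq_sum_range, LinearMap.sum_apply, LinearMap.smul_apply, Finset.sum_apply,
    Pi.smul_apply, dg_pow]

/-- torsion points of an operator -/
def tors (T : Module.End 𝔽 (Fin n → K)) : AddSubgroup (Fin n → K) where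
  carrier := {x | ∃ a : 𝔽[X], a ≠ 0 ∧ aeval T a x = 0}
  zero_mem' := ⟨1, one_ne_zero, map_zero _⟩
  add_mem' := by
    rintro x y ⟨a, ha, h⟩ ⟨b, hb, h'⟩
    refine ⟨a * b, mul_ne_zero ha hb, ?_⟩
    rw [map_add, map_mul, Module.End.mul_apply, Module.End.mul_apply, h', map_zero, add_zero,
      ← Module.End.mul_apply, ← map_mul, mul_comm, map_mul, Module.End.mul_apply, h, map_zero]
  neg_mem' := fun ⟨a, ha, h⟩ => ⟨a, ha, by rw [map_neg, h, neg_zero]⟩

end BBback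

open BBback in
theorem blockBback (hA : St_A) (hCIRC : St_CIRC) (hDR : St_DR) (hNOE : St_NOE) (hPROD : St_PROD)
    (hSK1 : St_SK1) (_hSK2 : St_SK2) : St_Bback := by
  intro 𝔽 K _ _ _ _ _ δ hδ n φ hφ hno H hH _
  classical
  obtain ⟨hinj, hmul, -, -, -, hlam⟩ := hSK1 𝔽 K
  obtain ⟨hmod, hab⟩ := hPROD 𝔽 K δ n φ hφ
  obtain ⟨J, -, hFI⟩ := hA 𝔽 K δ hδ n _ _ hmod hab H hH (Set.subset_univ _)
  obtain ⟨S, hS, rfl⟩ := hH
  choose p hp0 _ hp using fun i => hDR 𝔽 K δ (φ i) (hφ i)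
  set T := dg fun i => lin 𝔽 (p i) with hT
  have hΦ : ∀ b x, polyMap (prodPhi φ b) x = aeval T b x := fun b x => funext fun i => by
    rw [aeval_dg, ← hp, polyMap, prodPhi, ← MvPolynomial.aeval_eq_eval, ← aeval_algHom_apply,
      MvPolynomial.aeval_X, coe_aeval_eq_eval]
  have hTor : ∀ x, x ∈ Tor Set.univ (prodPhi φ) ↔ x ∈ tors T := fun x => by
    simp only [Tor, hΦ, Set.mem_univ, true_and]; rfl
  have hθ : Transcendental 𝔽 (δ X) := by
    rw [transcendental_iff_injective, show aeval (δ X) = δ from algHom_ext (by simp)]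
    exact hδ
  choose! r hr using fun e he => (mem_Asp_Pr_iff 𝔽).1 (eval_mem_Asp (hS e he))
  choose! L hL using fun e he => Asp_Pr_linear (𝔽 := 𝔽) (eval_mem_Asp (hS e he))
  have hL' : ∀ e ∈ S, ∀ x, MvPolynomial.eval x e = L e x := fun e he x =>
    (congrFun (hL e he) x).symm
  let cp : Fin (J + 1) → (Fin (J + 1) × Fin n → K) →+ Fin n → K := fun j =>
    { toFun := fun z i => z (j, i), map_zero' := rfl, map_add' := fun _ _ => rfl }
  let Z : Set (Fin (J + 1) × Fin n → K) := {z | (∀ j, cp j z ∈ tors T) ∧ ∀ a : 𝔽[X], ∀ e ∈ S,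
    L e (∑ j : Fin (J + 1), aeval T (a ^ Fintype.card 𝔽 ^ (j : ℕ)) (cp j z)) = 0}
  have hZsub : ∀ x ∈ Z, ∀ y ∈ Z, x - y ∈ Z := fun x hx y hy =>
    ⟨fun j => by rw [map_sub]; exact sub_mem (hx.1 j) (hy.1 j), fun a e he => by
      simp only [map_sub, Finset.sum_sub_distrib, hx.2 a e he, hy.2 a e he, sub_self]⟩
  have hC := hCIRC 𝔽 K (Fin (J + 1) × Fin n) (δ X) (fun a => p a.2) (fun a => a.1) Z hθ
    (fun a => hp0 a.2) (fun z hz => ?_) fun a b k u hk hu => ?_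
  rotate_left
  · have h1 : ∀ j, cp j (fun a => (lin 𝔽 (p a.2) ^ Fintype.card 𝔽 ^ (a.1 : ℕ)) (z a)) =
        aeval T ((X : 𝔽[X]) ^ Fintype.card 𝔽 ^ (j : ℕ)) (cp j z) := fun j => funext fun i => by
      rw [map_pow, aeval_X, dg_pow]; rfl
    refine ⟨fun j => ?_, fun a e he => ?_⟩
    · obtain ⟨a, ha, h⟩ := hz.1 j
      refine ⟨a, ha, ?_⟩
      rw [h1, ← Module.End.mul_apply, ← map_mul, mul_comm, map_mul, Module.End.mul_apply, h,
        map_zero]
    · have h2 := hz.2 (a * X) e he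
      simp only [mul_pow, map_mul, Module.End.mul_apply] at h2
      simpa only [h1] using h2
  · by_contra h0
    obtain ⟨f, hf, hfu⟩ := hlam u
    refine hno ⟨a.2, b.2, k, f, hk, hf, fun h => h0 (hinj ?_), Polynomial.funext fun x => ?_⟩
    · rw [map_zero]; ext x; rw [← hfu, h]; simp
    · rw [eval_comp, eval_comp, hp, hp, hfu, hfu, aeval_X, map_pow, aeval_X]
      exact LinearMap.congr_fun hu x
  let N : Submodule K ((Fin (J + 1) × Fin n → K) → K) :=
    Asp (Fintype.card 𝔽) K 0 (Pr _ K) ⊓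
      { carrier := {f | (f '' Z).Finite}
        zero_mem' := (Set.finite_singleton 0).subset (by rintro _ ⟨z, -, rfl⟩; rfl)
        add_mem' := fun {f g} hf hg => (hf.image2 (· + ·) hg).subset (by
          rintro _ ⟨z, hz, rfl⟩; exact Set.mem_image2_of_mem ⟨z, hz, rfl⟩ ⟨z, hz, rfl⟩)
        smul_mem' := fun c f hf => (hf.image (c * ·)).subset (by
          rintro _ ⟨z, hz, rfl⟩; exact ⟨_, ⟨z, hz, rfl⟩, rfl⟩) }
  obtain ⟨s, hs, hsN, hNs⟩ := hNOE 𝔽 K _ (Pr _ K) N (Set.finite_range _) inf_le_left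
    fun f hf => ⟨Asp_pow_card hf.1, (Set.Finite.image (· ^ Fintype.card 𝔽) hf.2).subset (by
      rintro _ ⟨z, hz, rfl⟩; exact ⟨_, ⟨z, hz, rfl⟩, rfl⟩)⟩
  have := hs.to_subtype
  have hF0 := FI_ker hZsub (fun z (e : s) => e.1 z) (fun x _ y _ => funext fun e => by
      obtain ⟨f, hf⟩ := Asp_Pr_linear (𝔽 := 𝔽) (hsN e.2).1
      simp only [Pi.sub_apply, ← hf, map_sub])
    ((Set.Finite.pi' fun e : s => (hsN e.2).2).subset (by
      rintro _ ⟨z, hz, rfl⟩ e; exact ⟨z, hz, rfl⟩))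
  have key : ∀ z ∈ Z, (fun e : s => e.1 z) = 0 → ∀ j, ∀ e ∈ S, ∀ b : 𝔽[X],
      L e (aeval T b (cp j z)) = 0 := fun z hz h0 j e he b => by
    have h1 : Fv 𝔽 Z fun a => r e a.2 := (Set.finite_singleton 0).subset (by
      rintro _ ⟨y, hy, rfl⟩
      have h2 := hy.2 1 e he
      simp only [one_pow, map_one, Module.End.one_apply] at h2
      rw [map_sum] at h2
      simp only [← hL' e he, congrFun (hr e he)] at h2
      exact (Fintype.sum_prod_type _).trans h2)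
    have h2 : ∀ m : ℕ, ∃ h : Fin (J + 1) × Fin n → K[X], Fv 𝔽 Z h ∧ ∀ a, lin 𝔽 (h a) =
        lin 𝔽 (if (a.1 : ℕ) = j then r e a.2 else 0) * lin 𝔽 (p a.2) ^ m := fun m => by
      induction m with
      | zero => exact ⟨_, (hC _ h1).1 j, fun a => by rw [pow_zero, mul_one]⟩
      | succ m ih =>
        obtain ⟨h, h3, h4⟩ := ih
        choose w hw _ using fun a => hmul (h a) (p a.2) 0 0 (by simp) (by simp)
        exact ⟨w, (hC _ h3).2 w hw, fun a => by rw [hw, h4, pow_succ, mul_assoc]⟩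
    rw [aeval_eq_sum_range, LinearMap.sum_apply, map_sum]
    refine Finset.sum_eq_zero fun m _ => ?_
    obtain ⟨h, h3, h4⟩ := h2 m
    have h5 : (fun y => ∑ a, lin 𝔽 (h a) (y a)) ∈ N := ⟨(mem_Asp_Pr_iff 𝔽).2 ⟨h, rfl⟩, h3⟩
    have h6 := Asp_apply_eq_zero Fintype.card_ne_zero (hNs ▸ h5) fun g hg => congrFun h0 ⟨g, hg⟩
    rw [Fintype.sum_prod_type, Finset.sum_eq_single j (fun i _ hi => by
      simp [h4, Fin.val_ne_of_ne hi]) (by simp)] at h6
    rw [LinearMap.smul_apply, map_smul, ← hL' e he, congrFun (hr e he), smul_eq_zero]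
    simp only [h4, if_true, Module.End.mul_apply] at h6
    simp only [hT, dg_pow]
    exact Or.inr h6
  refine ⟨{x | ∀ b : 𝔽[X], ∀ e ∈ S, L e (aeval T b x) = 0},
    ⟨{f | f ∈ Lam (Fintype.card 𝔽) K n ∧ ∃ b : 𝔽[X], ∃ e ∈ S, ∀ x,
      MvPolynomial.eval x f = L e (aeval T b x)}, fun f hf => hf.1, Set.ext fun x =>
      ⟨fun h f ⟨_, b, e, he, hf⟩ => (hf x).trans (h b e he), fun h b e he => ?_⟩⟩,
    Set.subset_univ _, fun a x hx b e he => ?_, fun x hx e he => ?_,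
    FI_trans (FI_mono (FI_image hF0 (∑ j, cp j)) ?_ ?_) hFI⟩
  · have h0 := Asp_comp (𝔽 := 𝔽) (t := 0) (S' := Pr (Fin n) K)
      (polyMap (prodPhi φ b)) (by rintro _ ⟨i, rfl⟩; exact eval_mem_Asp ((hmod.isEndo b).1 i))
      (eval_mem_Asp (hS e he))
    obtain ⟨f, hf, hf'⟩ := exists_Lam_of_Asp h0
    have h1 : ∀ y, MvPolynomial.eval y f = L e (aeval T b y) := fun y => by
      rw [← hL' e he, ← hΦ]; exact congrFun hf' y
    exact (h1 x).symm.trans (h f ⟨hf, b, e, he, h1⟩)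
  · rw [hΦ, ← Module.End.mul_apply, ← map_mul]; exact hx _ e he
  · simpa [hL' e he] using hx 1 e he
  · rintro _ ⟨z, ⟨hz, h0⟩, rfl⟩
    rw [AddMonoidHom.finsetSum_apply]
    refine ⟨fun b e he => ?_, (hTor _).2 (sum_mem fun j _ => hz.1 j)⟩
    rw [map_sum, map_sum]
    exact Finset.sum_eq_zero fun j _ => key z hz h0 j e he b
  · rintro _ ⟨z, h1, h2, rfl⟩
    refine ⟨fun a => z a.1 a.2, ⟨fun j => (hTor _).1 (h1 j), fun a e he => ?_⟩,
      AddMonoidHom.finsetSum_apply _ _ _⟩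
    have h3 := h2 a e he
    rw [hL' e he] at h3
    simp only [hΦ] at h3
    exact h3

end Pool.Agent.Lib.TM
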