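import Pool.Agent.Lib.TM.Util

set_option autoImplicit false

namespace Pool.Agent.Lib.TM

open Polynomial Pool.Agent.Lib.MP_795114_nt

namespace BBfwd

variable {𝔽 K : Type} [Field 𝔽] [Fintype 𝔽] [Field K] [IsAlgClosed K] [Algebra 𝔽 K]

/-- Powers of `lin p` are of the form `lin w`, with known degree. -/
theorem pow_rep (hSK1 : St_SK1) (p : K[X]) (hp : p.coeff 0 ≠ 0) (m : ℕ) :
    ∃ w : K[X], lin 𝔽 w = lin 𝔽 p ^ m ∧ w.coeff 0 ≠ 0 ∧ w.natDegree = m * p.natDegree := by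
  obtain ⟨-, hmul, hdeg, -, -, -⟩ := hSK1 𝔽 K
  induction m with
  | zero =>
    refine ⟨1, ?_, by simp, by simp⟩
    ext x
    rw [← monomial_zero_one, lin_monomial]
    simp
  | succ m ih =>
    obtain ⟨w, h1, h2, h3⟩ := ih
    obtain ⟨v, h4, -, h5⟩ := hmul w p 0 0 (by simp) (by simp)
    refine ⟨v, by rw [h4, h1, pow_succ], ?_, ?_⟩
    · rw [add_zero] at h5
      rw [h5]
      exact mul_ne_zero h2 (pow_ne_zero _ hp)
    · rw [(hdeg w p v h4 (fun h => h2 (by simp [h])) (fun h => hp (by simp [h]))).2, h3,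
        add_mul, one_mul]

/-- Infinitely many points are killed by a power of `lin p`. -/
theorem tors_infinite (hSK1 : St_SK1) (hSK2 : St_SK2) (p : K[X]) (hp : p.coeff 0 ≠ 0)
    (hd : 0 < p.natDegree) : {y : K | ∃ m : ℕ, (lin 𝔽 p ^ m) y = 0}.Infinite := by
  intro hfin
  obtain ⟨-, -, hker, -⟩ := hSK2 𝔽 K
  have h1 : ∀ y : K, ∃ m : ℕ, (∃ m' : ℕ, (lin 𝔽 p ^ m') y = 0) → (lin 𝔽 p ^ m) y = 0 := fun y => by
    by_cases h : ∃ m' : ℕ, (lin 𝔽 p ^ m') y = 0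
    · obtain ⟨m, hm⟩ := h
      exact ⟨m, fun _ => hm⟩
    · exact ⟨0, fun h' => (h h').elim⟩
  choose μ hμ using h1
  obtain ⟨m, hm⟩ := (hfin.image μ).bddAbove
  obtain ⟨w, h1, h2, h3⟩ := pow_rep (𝔽 := 𝔽) hSK1 p hp m
  obtain ⟨v, h4, h5, h6⟩ := pow_rep (𝔽 := 𝔽) hSK1 p hp (m + 1)
  have hw : w ≠ 0 := fun h => h2 (by simp [h])
  refine hw (hker v w h5 (degree_lt_degree (by rw [h3, h6]; nlinarith)) fun x hx => ?_)
  rw [h4] at hx
  have h7 : μ x ≤ m := hm ⟨x, ⟨_, hx⟩, rfl⟩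
  obtain ⟨c, hc⟩ := Nat.exists_eq_add_of_le' h7
  rw [h1, hc, pow_add, Module.End.mul_apply, hμ x ⟨_, hx⟩, map_zero]

end BBfwd

open BBfwd in
theorem blockBfwd (hDR : St_DR) (hSK1 : St_SK1) (hSK2 : St_SK2) : St_Bfwd := by
  rintro 𝔽 K _ _ _ _ _ δ hδ n φ hφ ⟨i, j, k, u, hk, hu, hu0, hrel⟩ hQ
  classical
  obtain ⟨-, hmul, hdeg, -, hlam, -⟩ := hSK1 𝔽 K
  obtain ⟨-, hfib, -, -⟩ := hSK2 𝔽 K
  choose p hp0 hpd hp using fun i => hDR 𝔽 K δ (φ i) (hφ i)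
  obtain ⟨r, hr, -⟩ := hlam u hu
  have hθ : ∀ l, (p l).coeff 0 ≠ 0 := fun l => by
    rw [hp0]
    exact fun h => X_ne_zero (hδ (h.trans (map_zero δ).symm))
  have hpne : ∀ l, p l ≠ 0 := fun l h => hθ l (by simp [h])
  have hr0 : r ≠ 0 := fun h => hu0 (Polynomial.funext fun x => by rw [hr, h]; simp)
  have hΦ : ∀ b x l, polyMap (prodPhi φ b) x l = aeval (lin 𝔽 (p l)) b (x l) := fun b x l => by
    rw [← hp, polyMap, prodPhi, ← MvPolynomial.aeval_eq_eval, ← aeval_algHom_apply,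
      MvPolynomial.aeval_X, coe_aeval_eq_eval]
  have hcomm : lin 𝔽 r * lin 𝔽 (p j) = lin 𝔽 (p i) ^ Fintype.card 𝔽 ^ k * lin 𝔽 r := by
    ext x
    have h := congrArg (Polynomial.eval x) hrel
    rw [eval_comp, eval_comp, hp, hp, hr, hr, aeval_X, map_pow, aeval_X] at h
    exact h
  have hq : 1 < Fintype.card 𝔽 ^ k := Nat.one_lt_pow hk.ne' Fintype.one_lt_card
  obtain ⟨w, hw1, hw2, hw3⟩ := pow_rep (𝔽 := 𝔽) hSK1 (p i) (hθ i) (Fintype.card 𝔽 ^ k)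
  have hw0 : w ≠ 0 := fun h => hw2 (by simp [h])
  have hlt : (p i).natDegree < w.natDegree := by
    rw [hw3]
    have := hpd i
    nlinarith
  have hij : i ≠ j := by
    rintro rfl
    obtain ⟨v, h4, -, -⟩ := hmul r (p i) 0 0 (by simp) (by simp)
    have h5 := (hdeg r (p i) v h4 hr0 (hpne i)).2
    have h6 := (hdeg w r v (by rw [h4, hcomm, hw1]) hw0 hr0).2
    omega
  let H : Set (Fin n → K) := {x | x i = lin 𝔽 r (x j) ∧ ∀ l, l ≠ i → l ≠ j → x l = 0}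
  have hH : IsQVariety (Fintype.card 𝔽) H := by
    refine ⟨{f | f ∈ Lam (Fintype.card 𝔽) K n ∧ ∀ x ∈ H, MvPolynomial.eval x f = 0},
      fun f hf => hf.1, Set.ext fun x => ⟨fun h f hf => hf.2 x h, fun h => ⟨?_, fun l h1 h2 => ?_⟩⟩⟩
    · have h1 : (fun z : Fin n → K => lin 𝔽 r (z j)) ∈
          Asp (Fintype.card 𝔽) K 0 (Pr (Fin n) K) := by
        refine (mem_Asp_Pr_iff 𝔽).2 ⟨Pi.single j r, funext fun z => ?_⟩
        rw [Finset.sum_eq_single j (fun b _ hb => by simp [hb]) (by simp)]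
        simp
      obtain ⟨e, he, he'⟩ := exists_Lam_of_Asp
        (Submodule.sub_mem _ (mem_Asp (S := Pr (Fin n) K) ⟨i, rfl⟩) h1)
      have h2 : ∀ y, MvPolynomial.eval y e = y i - lin 𝔽 r (y j) := fun y => congrFun he' y
      have h3 := h e ⟨he, fun y hy => by rw [h2, hy.1, sub_self]⟩
      rwa [h2, sub_eq_zero] at h3
    · obtain ⟨e, he, he'⟩ := exists_Lam_of_Asp (q := Fintype.card 𝔽)
        (mem_Asp (S := Pr (Fin n) K) ⟨l, rfl⟩)
      have h3 : ∀ y, MvPolynomial.eval y e = y l := fun y => congrFun he' y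
      have h4 := h e ⟨he, fun y hy => by rw [h3, hy.2 l h1 h2]⟩
      rwa [h3] at h4
  obtain ⟨G, -, -, hst, hGH, R, hR, hcov⟩ := hQ H hH (Set.subset_univ _)
  obtain ⟨v, hv, -, -⟩ := hmul (w - p i) r 0 0 (by simp) (by simp)
  have hv0 : v ≠ 0 := (hdeg _ _ v hv (fun h => hlt.ne' (by rw [sub_eq_zero.1 h])) hr0).1
  have hGj : ((fun x : Fin n → K => x j) '' G).Finite := by
    refine (hfib v hv0 {0} (Set.finite_singleton 0)).subset ?_
    rintro _ ⟨x, hx, rfl⟩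
    have h1 := (hGH (hst X x hx)).1
    rw [hΦ, hΦ, aeval_X, aeval_X, (hGH hx).1, ← Module.End.mul_apply (lin 𝔽 r), hcomm] at h1
    show lin 𝔽 v (x j) = 0
    rw [hv, map_sub, sub_mul, hw1, LinearMap.sub_apply, ← h1, Module.End.mul_apply, sub_self]
  have hpow : ∀ m : ℕ, lin 𝔽 r * lin 𝔽 (p j) ^ m =
      lin 𝔽 (p i) ^ (Fintype.card 𝔽 ^ k * m) * lin 𝔽 r := fun m => by
    induction m with
    | zero => simp
    | succ m ih => rw [pow_succ, ← mul_assoc, ih, mul_assoc, hcomm, ← mul_assoc, ← pow_add, mul_add,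
        mul_one]
  refine tors_infinite (𝔽 := 𝔽) hSK1 hSK2 (p j) (hθ j) (hpd j)
    (((hR.image fun x => x j).image2 (· + ·) hGj).subset ?_)
  rintro y ⟨m, hy⟩
  let x : Fin n → K := fun l => if l = i then lin 𝔽 r y else if l = j then y else 0
  have hxi : x i = lin 𝔽 r y := if_pos rfl
  have hxj : x j = y := by simp [x, hij.symm]
  have hx0 : ∀ l, l ≠ i → l ≠ j → x l = 0 := fun l h1 h2 => by simp [x, h1, h2]
  obtain ⟨s, hs, hG, -⟩ := hcov x ⟨⟨by rw [hxi, hxj], hx0⟩, Set.mem_univ _,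
    X ^ (Fintype.card 𝔽 ^ k * m), pow_ne_zero _ X_ne_zero, funext fun l => by
      rw [hΦ, map_pow, aeval_X, Pi.zero_apply]
      by_cases h1 : l = i
      · rw [h1, hxi, ← Module.End.mul_apply, ← hpow, Module.End.mul_apply, hy, map_zero]
      by_cases h2 : l = j
      · obtain ⟨c, hc⟩ := Nat.exists_eq_add_of_le' (Nat.le_mul_of_pos_left m (by omega) :
          m ≤ Fintype.card 𝔽 ^ k * m)
        rw [h2, hxj, hc, pow_add, Module.End.mul_apply, hy, map_zero]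
      · rw [hx0 l h1 h2, map_zero]⟩
  refine ⟨s j, ⟨s, hs, rfl⟩, (x - s) j, ⟨_, hG, rfl⟩, ?_⟩
  simp [hxj]

end Pool.Agent.Lib.TM
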