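import Pool.Agent.Lib.TM.Util

/-! Block C. -/

set_option autoImplicit false

namespace Pool.Agent.Lib.TM

open Polynomial

namespace BC

variable {𝔽 K W ι : Type} [Fintype 𝔽] [Field K] {g : ι → W → K} {μ : ι → ℕ} {s t : ℕ}

theorem gen (i : ι) {k : ℕ} (h : s ≤ μ i + k) :
    g i ^ Fintype.card 𝔽 ^ k ∈ Flt (Fintype.card 𝔽) g μ s := Submodule.subset_span ⟨i, k, h, rfl⟩

theorem mono (h : t ≤ s) : Flt (Fintype.card 𝔽) g μ s ≤ Flt (Fintype.card 𝔽) g μ t :=
  Submodule.span_mono fun _ ⟨i, k, hk, e⟩ => ⟨i, k, h.trans hk, e⟩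

theorem ind (L : Module.End K (W → K)) {N : Submodule K (W → K)}
    (h : ∀ i k, s ≤ μ i + k → L (g i ^ Fintype.card 𝔽 ^ k) ∈ N) :
    ∀ f ∈ Flt (Fintype.card 𝔽) g μ s, L f ∈ N :=
  Submodule.span_le (p := N.comap L).2 fun _ ⟨i, k, hk, e⟩ => e ▸ h i k hk

variable [Field 𝔽] [Algebra 𝔽 K]

theorem pow {f : W → K} (hf : f ∈ Flt (Fintype.card 𝔽) g μ s) (k : ℕ) :
    f ^ Fintype.card 𝔽 ^ k ∈ Flt (Fintype.card 𝔽) g μ (s + k) := by
  induction hf using Submodule.span_induction with
  | mem _ h =>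
    obtain ⟨i, l, hl, rfl⟩ := h
    rw [← pow_mul, ← pow_add]
    exact gen i (by omega)
  | zero => rw [zero_pow_q]; exact Submodule.zero_mem _
  | add _ _ _ _ h h' => rw [add_pow_q]; exact Submodule.add_mem _ h h'
  | smul _ _ _ h => rw [_root_.smul_pow]; exact Submodule.smul_mem _ _ h

theorem twist (m : W → W) (k : ℕ) (p : K[X]) (f : W → K) :
    aeval (LinearMap.funLeft K K m : Module.End K (W → K)) (tw 𝔽 k p) (f ^ Fintype.card 𝔽 ^ k) =
      aeval (LinearMap.funLeft K K m : Module.End K (W → K)) p f ^ Fintype.card 𝔽 ^ k := by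
  have h : ∀ (n : ℕ) (f : W → K), ((LinearMap.funLeft K K m : Module.End K (W → K)) ^ n)
      (f ^ Fintype.card 𝔽 ^ k) =
      ((LinearMap.funLeft K K m : Module.End K (W → K)) ^ n) f ^ Fintype.card 𝔽 ^ k := by
    intro n
    induction n with
    | zero => exact fun _ => rfl
    | succ n ih => exact fun f => by rw [pow_succ]; exact ih (f ∘ m)
  induction p using Polynomial.induction_on' with
  | add p p' h h' =>
    rw [tw, Polynomial.map_add, map_add, map_add, LinearMap.add_apply, LinearMap.add_apply,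
      add_pow_q, ← h, ← h']
    rfl
  | monomial n c =>
    rw [tw, map_monomial, aeval_monomial, aeval_monomial, Module.End.mul_apply,
      Module.End.mul_apply, Module.algebraMap_end_apply, Module.algebraMap_end_apply, h,
      _root_.smul_pow, ← frob_pow_apply 𝔽 k c]
    rfl

end BC

open BC in
theorem blockC (hC1 : St_C1) (hC2 : St_C2) : St_C := by
  intro 𝔽 K W ι _ _ _ _ _ _ g μ m J θ Q Z hc h1 h2 h3 hQ hZ f hf hfin
  have g0 : ∀ i, g i ∈ Flt (Fintype.card 𝔽) g μ (μ i) := fun i => by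
    simpa using gen (𝔽 := 𝔽) (g := g) (μ := μ) (k := 0) i le_rfl
  have hm : ∀ s, ∀ f ∈ Flt (Fintype.card 𝔽) g μ s,
      LinearMap.funLeft K K m f ∈ Flt (Fintype.card 𝔽) g μ s :=
    fun s => ind _ fun i k hk => mono hk (pow (h1 i) k)
  have ha := fun s (p : K[X]) f hf => aeval_apply_smul_mem_of_le_comap (m := f) hf p
    (LinearMap.funLeft K K m : Module.End K (W → K)) (hm s)
  have key := hC1 K (W → K) (Flt (Fintype.card 𝔽) g μ) (LinearMap.funLeft K K m)
    (LinearMap.funLeft K K J) (fun s => θ ^ Fintype.card 𝔽 ^ s) (Qt 𝔽 Q)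
    (fun s => mono s.le_succ) (LinearMap.ext fun f => funext fun x => congrArg f (hc x).symm) hm
    (fun s => ind (LinearMap.funLeft K K J - θ ^ Fintype.card 𝔽 ^ s • LinearMap.id)
      fun i k hk => ?_) (fun s => ind _ fun i k hk => ?_) hQ
  · let I : Submodule K (W → K) :=
      { carrier := {f | (f '' Z).Finite}
        zero_mem' := (Set.finite_singleton 0).subset (by rintro _ ⟨_, -, rfl⟩; rfl)
        add_mem' := fun h h' => (Set.Finite.image2 (· + ·) h h').subset (by
          rintro _ ⟨x, hx, rfl⟩; exact ⟨_, ⟨x, hx, rfl⟩, _, ⟨x, hx, rfl⟩, rfl⟩)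
        smul_mem' := fun c _ h => (Set.Finite.image (c * ·) h).subset (by
          rintro _ ⟨x, hx, rfl⟩; exact ⟨_, ⟨x, hx, rfl⟩, rfl⟩) }
    obtain ⟨B, hB⟩ := (Set.finite_range μ).bddAbove
    refine hC2 𝔽 K W (Set.range g) Z _ (Set.finite_range g) fun n => ?_
    obtain ⟨r, hr⟩ := key (B + n)
    refine ⟨f ∘ J - _, Submodule.span_mono ?_ (hr f hf), ?_⟩
    · rintro _ ⟨i, k, hk, e⟩
      have := hB ⟨i, rfl⟩
      exact ⟨_, ⟨i, rfl⟩, k, by omega, e⟩
    · have := aeval_apply_smul_mem_of_le_comap (q := I) hfin r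
        (LinearMap.funLeft K K m : Module.End K (W → K)) fun f h => Set.Finite.subset h (by
          rintro _ ⟨x, hx, rfl⟩; exact ⟨_, hZ x hx, rfl⟩)
      rw [sub_sub_cancel (G := W → K)]
      exact this
  · rcases hk.eq_or_lt with rfl | hk
    · have := pow (h2 i) k
      rw [sub_pow_q, _root_.smul_pow, ← pow_mul, ← pow_add, add_right_comm] at this
      exact this
    · have := pow (Submodule.add_mem _ (mono (μ i).le_succ (h2 i))
        (Submodule.smul_mem _ (θ ^ Fintype.card 𝔽 ^ μ i) (g0 i))) k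
      rw [sub_add_cancel] at this
      exact Submodule.sub_mem _ (mono hk this) (Submodule.smul_mem _ _ (gen i hk))
  · rcases hk.eq_or_lt with rfl | hk
    · rw [Qt, ← Finset.prod_erase_mul _ _ (Finset.mem_range.2 (Nat.lt_succ_of_le
        (Nat.le_add_right (μ i) k))), map_mul, Module.End.mul_apply, Nat.add_sub_cancel_left, twist,
        add_right_comm]
      exact ha _ _ _ (pow (h3 i) k)
    · exact ha _ _ _ (gen i hk)

end Pool.Agent.Lib.TM
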