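import Pool.Agent.Lib.TM.Util

set_option autoImplicit false

namespace Pool.Agent.Lib.TM

open Polynomial

theorem blockC1 : St_C1 := by
  intro K V _ _ _ W m J t Q _ hc hm hJ hQ hcop n
  have hp : ∀ (p : K[X]) s, ∀ f ∈ W s, aeval m p f ∈ W s := fun p s f hf =>
    aeval_apply_smul_mem_of_le_comap hf p m (hm s)
  have hcm : ∀ (p : K[X]) f, J (aeval m p f) = aeval m p (J f) := fun p f => by
    have : Commute (aeval m p) J := by
      rw [aeval_eq_sum_range]
      exact Commute.sum_left _ _ _ fun i _ => (hc.pow_left i).smul_left _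
    exact (LinearMap.congr_fun this.eq f).symm
  have hP : ∀ n, ∀ f ∈ W 0, aeval m (∏ s ∈ Finset.range n, Q s) f ∈ W n := fun n f hf => by
    induction n with
    | zero => simpa using hf
    | succ n ih =>
      rw [Finset.prod_range_succ_comm, map_mul]
      exact hQ n _ ih
  induction n with
  | zero => exact ⟨C (t 0), fun f hf => by simpa using ‹∀ s, W (s + 1) ≤ W s› 0 (hJ 0 f hf)⟩
  | succ n ih =>
    obtain ⟨r, hr⟩ := ih
    obtain ⟨a, b, hab⟩ : IsCoprime (Q n) (∏ s ∈ Finset.range n, Q s) :=
      IsCoprime.prod_right fun s hs => hcop (Finset.mem_range.mp hs).ne'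
    refine ⟨a * Q n * r + C (t n) * (b * ∏ s ∈ Finset.range n, Q s), fun f hf => ?_⟩
    have h1 := hp a _ _ (hQ n _ (hr f hf))
    have h2 := hJ n _ (hp b _ _ (hP n f hf))
    have h3 := LinearMap.congr_fun (congrArg (aeval m) hab) (J f)
    rw [hcm, hcm] at h2
    simp only [map_add, map_mul, map_one, LinearMap.add_apply, Module.End.mul_apply,
      Module.End.one_apply, map_sub, aeval_C, Module.algebraMap_end_apply] at h1 h3 ⊢
    have h4 := add_mem h1 h2
    rwa [sub_add_sub_comm, h3] at h4

end Pool.Agent.Lib.TM
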