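import Pool.Agent.Lib.TM.Util

/-! Project tm3, row C2: an intersection theorem for functions with finitely many values. -/

set_option autoImplicit false

namespace Pool.Agent.Lib.TM

open Polynomial

namespace BC2

variable {𝔽 K W : Type} [Field 𝔽] [Fintype 𝔽] [Field K] [Algebra 𝔽 K]

/-- The functions with finitely many values on `Z`. -/
def fv (K : Type) {W : Type} [Field K] (Z : Set W) : Submodule K (W → K) where
  carrier := {u | (u '' Z).Finite}
  add_mem' := fun {u v} hu hv => (Set.Finite.image2 (· + ·) hu hv).subset (by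
    rintro _ ⟨x, hx, rfl⟩
    exact Set.mem_image2_of_mem ⟨x, hx, rfl⟩ ⟨x, hx, rfl⟩)
  zero_mem' := (Set.finite_singleton 0).subset (by
    rintro _ ⟨x, -, rfl⟩
    rfl)
  smul_mem' := fun c u hu => (Set.Finite.image (c * ·) hu).subset (by
    rintro _ ⟨x, hx, rfl⟩
    exact ⟨_, ⟨x, hx, rfl⟩, rfl⟩)

theorem pow_mem {Z : Set W} {u : W → K} (hu : u ∈ fv K Z) (k : ℕ) : u ^ k ∈ fv K Z :=
  (Set.Finite.image (· ^ k) hu).subset (by
    rintro _ ⟨x, hx, rfl⟩
    exact ⟨_, ⟨x, hx, rfl⟩, rfl⟩)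

theorem of_poly {Z : Set W} {u : W → K} {p : K[X]} {k : ℕ} (hk : k ≠ 0) (hp : p.coeff k ≠ 0)
    (hu : (fun x => p.eval (u x)) ∈ fv K Z) : u ∈ fv K Z := by
  classical
  have h := Set.Finite.preimage' (f := fun t => p.eval t) hu fun c _ => by
    have h0 : p - C c ≠ 0 := fun e => hp (by
      rw [sub_eq_zero.1 e, coeff_C, if_neg hk])
    refine (p - C c).roots.toFinset.finite_toSet.subset fun t ht => ?_
    have ht' : p.eval t = c := ht
    simp [h0, ht']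
  refine h.subset ?_
  rintro _ ⟨x, hx, rfl⟩
  exact ⟨x, hx, rfl⟩

theorem of_pow {Z : Set W} {u : W → K} {k : ℕ} (hk : k ≠ 0) (hu : u ^ k ∈ fv K Z) :
    u ∈ fv K Z := by
  refine of_poly (p := X ^ k) hk (by simp) ?_
  have : (fun x => (X ^ k : K[X]).eval (u x)) = u ^ k := by
    funext x
    simp
  rwa [this]

theorem root [IsAlgClosed K] {S : Set (W → K)} {n : ℕ} {h : W → K}
    (hh : h ∈ Asp (Fintype.card 𝔽) K n S) :
    ∃ y ∈ Asp (Fintype.card 𝔽) K 0 S, y ^ Fintype.card 𝔽 ^ n = h := by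
  refine Asp_induction (p := fun h => ∃ y ∈ Asp (Fintype.card 𝔽) K 0 S,
    y ^ Fintype.card 𝔽 ^ n = h) hh ?_ ?_ ?_ ?_
  · intro g hg k hk
    refine ⟨_, pow_mem_Asp hg (Nat.zero_le (k - n)), ?_⟩
    rw [← pow_mul, ← pow_add, Nat.sub_add_cancel hk]
  · exact ⟨0, Submodule.zero_mem _, zero_pow_q 𝔽 n⟩
  · rintro _ _ ⟨y, hy, rfl⟩ ⟨y', hy', rfl⟩
    exact ⟨y + y', Submodule.add_mem _ hy hy', add_pow_q 𝔽 n y y'⟩
  · rintro r _ ⟨y, hy, rfl⟩
    obtain ⟨d, rfl⟩ := exists_root_q 𝔽 n r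
    exact ⟨d • y, Submodule.smul_mem _ d hy, smul_pow d y _⟩

theorem sup_pow {Z : Set W} {S : Set (W → K)} {u : W → K}
    (hu : u ∈ fv K Z ⊔ Asp (Fintype.card 𝔽) K 0 S) :
    u ^ Fintype.card 𝔽 ∈ fv K Z ⊔ Asp (Fintype.card 𝔽) K 0 S := by
  obtain ⟨i, hi, a, ha, rfl⟩ := Submodule.mem_sup.1 hu
  have := add_pow_q 𝔽 1 i a
  rw [pow_one] at this
  rw [this]
  exact Submodule.add_mem_sup (pow_mem hi _) (Asp_pow_card ha)

theorem step {Z : Set W} {y y' : W → K} (h : y - y' ^ Fintype.card 𝔽 ∈ fv K Z) (k : ℕ) :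
    y ^ Fintype.card 𝔽 ^ k - y' ^ Fintype.card 𝔽 ^ (k + 1) ∈ fv K Z := by
  have := pow_mem h (Fintype.card 𝔽 ^ k)
  rwa [sub_pow_q, ← pow_mul, ← pow_succ'] at this

theorem last {Z : Set W} {y y' : W → K} (h : y - y' ^ Fintype.card 𝔽 ∈ fv K Z)
    (h' : y' ∈ fv K Z ⊔ Asp (Fintype.card 𝔽) K 0 {y}) : y' ∈ fv K Z := by
  obtain ⟨i, hi, a, ha, e⟩ := Submodule.mem_sup.1 h'
  have key : ∃ p : K[X], p.coeff 1 = 0 ∧ a - (fun x => p.eval (y' x)) ∈ fv K Z := by
    refine Asp_induction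
      (p := fun a => ∃ p : K[X], p.coeff 1 = 0 ∧ a - (fun x => p.eval (y' x)) ∈ fv K Z)
      ha ?_ ?_ ?_ ?_
    · rintro g rfl k -
      refine ⟨X ^ Fintype.card 𝔽 ^ (k + 1), ?_, ?_⟩
      · rw [coeff_X_pow, if_neg]
        exact (Nat.one_lt_pow (Nat.succ_ne_zero k) Fintype.one_lt_card).ne
      · have : (fun x => (X ^ Fintype.card 𝔽 ^ (k + 1) : K[X]).eval (y' x)) =
            y' ^ Fintype.card 𝔽 ^ (k + 1) := by
          funext x
          simp
        rw [this]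
        exact step h k
    · refine ⟨0, by simp, ?_⟩
      have : (0 : W → K) - (fun x => (0 : K[X]).eval (y' x)) = 0 := by
        funext x
        simp
      rw [this]
      exact Submodule.zero_mem _
    · rintro a b ⟨p, hp, ha⟩ ⟨r, hr, hb⟩
      refine ⟨p + r, by rw [coeff_add, hp, hr, add_zero], ?_⟩
      have : a + b - (fun x => (p + r).eval (y' x)) =
          (a - fun x => p.eval (y' x)) + (b - fun x => r.eval (y' x)) := by
        funext x
        simp only [Pi.add_apply, Pi.sub_apply, eval_add]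
        ring
      rw [this]
      exact Submodule.add_mem _ ha hb
    · rintro c a ⟨p, hp, ha⟩
      refine ⟨c • p, by rw [coeff_smul, hp, smul_zero], ?_⟩
      have : c • a - (fun x => (c • p).eval (y' x)) = c • (a - fun x => p.eval (y' x)) := by
        funext x
        simp only [Pi.smul_apply, Pi.sub_apply, eval_smul, smul_eq_mul]
        ring
      rw [this]
      exact Submodule.smul_mem _ c ha
  obtain ⟨p, hp, hk⟩ := key
  refine of_poly (p := X - p) one_ne_zero (by simp [hp]) ?_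
  have : (fun x => (X - p).eval (y' x)) = i + (a - fun x => p.eval (y' x)) := by
    funext x
    have := congrFun e x
    simp only [Pi.add_apply, Pi.sub_apply, eval_sub, eval_X] at this ⊢
    rw [← add_sub_assoc, this]
  rw [this]
  exact Submodule.add_mem _ hi hk

end BC2

open BC2 in
theorem blockC2 (hNOE : St_NOE) : St_C2 := by
  intro 𝔽 K W _ _ _ _ _ S Z f hS H
  have H' : ∀ n, ∃ y ∈ Asp (Fintype.card 𝔽) K 0 S, f - y ^ Fintype.card 𝔽 ^ n ∈ fv K Z :=
    fun n => by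
      obtain ⟨h, hh, hf⟩ := H n
      obtain ⟨y, hy, rfl⟩ := root hh
      exact ⟨y, hy, hf⟩
  choose y hy hf using H'
  have h1 : ∀ n, y n - y (n + 1) ^ Fintype.card 𝔽 ∈ fv K Z := fun n => by
    refine of_pow (q_pow_ne_zero 𝔽 n) ?_
    rw [sub_pow_q, ← pow_mul, ← pow_succ']
    have := Submodule.sub_mem _ (hf (n + 1)) (hf n)
    rwa [sub_sub_sub_cancel_left] at this
  let P : ℕ → Submodule K (W → K) := fun n => fv K Z ⊔ Asp (Fintype.card 𝔽) K 0 {y n}
  have hP : Monotone P := monotone_nat_of_le_succ fun n => by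
    refine sup_le le_sup_left (Asp_le ?_)
    rintro g rfl k -
    rw [← sub_add_cancel (y n ^ Fintype.card 𝔽 ^ k) (y (n + 1) ^ Fintype.card 𝔽 ^ (k + 1))]
    exact Submodule.add_mem_sup (step (h1 n) k) (pow_mem_Asp rfl (Nat.zero_le _))
  have hN : ∀ u, u ∈ ⨆ n, P n ↔ ∃ n, u ∈ P n := fun u =>
    Submodule.mem_iSup_of_directed _ hP.directed_le
  obtain ⟨s, hs, hsN, e⟩ := hNOE 𝔽 K W S (Asp (Fintype.card 𝔽) K 0 S ⊓ ⨆ n, P n) hS inf_le_left
    fun u hu => ⟨Asp_pow_card hu.1, by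
      obtain ⟨n, hn⟩ := (hN u).1 hu.2
      exact (hN _).2 ⟨n, sup_pow hn⟩⟩
  have hν : ∀ u, ∃ n, u ∈ s → u ∈ P n := fun u => by
    by_cases hu : u ∈ s
    · obtain ⟨n, hn⟩ := (hN u).1 (hsN hu).2
      exact ⟨n, fun _ => hn⟩
    · exact ⟨0, fun h => (hu h).elim⟩
  choose ν hν using hν
  obtain ⟨m, hm⟩ := (hs.image ν).bddAbove
  have h2 : Asp (Fintype.card 𝔽) K 0 s ≤ P m := Asp_le fun g hg k _ =>
    pow_q_mem (fun _ => sup_pow) (hP (hm ⟨g, hg, rfl⟩) (hν g hg)) k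
  have h3 : y (m + 1) ∈ P m := h2 (e ▸ ⟨hy _, (hN _).2
    ⟨m + 1, Submodule.mem_sup_right (mem_Asp rfl)⟩⟩)
  have h4 := Submodule.add_mem _ (hf (m + 1)) (pow_mem (last (h1 m) h3) (Fintype.card 𝔽 ^ (m + 1)))
  rwa [sub_add_cancel] at h4

end Pool.Agent.Lib.TM
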