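import Pool.Agent.Lib.TM.Util

/-! Row CIR1: one circuit. -/

set_option autoImplicit false

namespace Pool.Agent.Lib.TM

open Polynomial Pool.Agent.Lib.MP_795114_nt

namespace BCIR1

variable {𝔽 K α : Type} [Field 𝔽] [Fintype 𝔽] [Field K] [Algebra 𝔽 K] [Fintype α]
  {Z : Set (α → K)} {f h : α → K[X]}

theorem left (hf : Fv 𝔽 Z f) (G : Module.End 𝔽 K) (e : ∀ a, lin 𝔽 (h a) = G * lin 𝔽 (f a)) :
    Fv 𝔽 Z h := by
  refine (hf.image G).subset ?_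
  rintro _ ⟨z, hz, rfl⟩
  exact ⟨_, ⟨z, hz, rfl⟩, by simp [e, map_sum]⟩

theorem sub (hf : Fv 𝔽 Z f) (hh : Fv 𝔽 Z h) : Fv 𝔽 Z (f - h) := by
  refine (Set.Finite.image2 (· - ·) hf hh).subset ?_
  rintro _ ⟨z, hz, rfl⟩
  exact ⟨_, ⟨z, hz, rfl⟩, _, ⟨z, hz, rfl⟩, by simp [Finset.sum_sub_distrib]⟩

theorem sat (hh : Fv 𝔽 Z h) (G : Module.End 𝔽 K) (hG : ∀ T : Set K, T.Finite → (G ⁻¹' T).Finite)
    (e : ∀ a, lin 𝔽 (h a) = G * lin 𝔽 (f a)) : Fv 𝔽 Z f := by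
  refine (hG _ hh).subset ?_
  rintro _ ⟨z, hz, rfl⟩
  exact ⟨z, hz, by simp [e, map_sum]⟩

theorem right (hf : Fv 𝔽 Z f) (P : α → Module.End 𝔽 K) (hP : ∀ z ∈ Z, (fun a => P a (z a)) ∈ Z)
    (e : ∀ a, lin 𝔽 (h a) = lin 𝔽 (f a) * P a) : Fv 𝔽 Z h := by
  refine hf.subset ?_
  rintro _ ⟨z, hz, rfl⟩
  exact ⟨_, hP z hz, by simp [e]⟩

theorem lin_one : lin 𝔽 (1 : K[X]) = 1 := by
  ext x
  rw [← monomial_zero_one, lin_monomial]
  simp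

/-- An element of least support and least degree. -/
theorem exists_min (hf : Fv 𝔽 Z f) (h0 : f ≠ 0) : ∃ (g : α → K[X]) (a₀ : α), Fv 𝔽 Z g ∧
    g a₀ ≠ 0 ∧ (∀ a, f a = 0 → g a = 0) ∧ ∀ g', Fv 𝔽 Z g' → (∀ a, g a = 0 → g' a = 0) →
      (g' a₀).degree < (g a₀).degree → g' = 0 := by
  classical
  obtain ⟨f₁, ⟨a1, a2, a3⟩, m1⟩ := (measure fun g : α → K[X] =>
    (Finset.univ.filter fun a => g a ≠ 0).card).wf.has_min
    {g | Fv 𝔽 Z g ∧ g ≠ 0 ∧ ∀ a, f a = 0 → g a = 0} ⟨f, hf, h0, fun _ h => h⟩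
  obtain ⟨a₀, ha₀⟩ := Function.ne_iff.1 a2
  obtain ⟨f₂, ⟨b1, b2, b3⟩, m2⟩ := (measure fun g : α → K[X] => (g a₀).natDegree).wf.has_min
    {g | Fv 𝔽 Z g ∧ g a₀ ≠ 0 ∧ ∀ a, f₁ a = 0 → g a = 0} ⟨f₁, a1, ha₀, fun _ h => h⟩
  refine ⟨f₂, a₀, b1, b2, fun a h => b3 a (a3 a h), fun g c1 c2 c3 => ?_⟩
  have c4 : ∀ a, f₁ a = 0 → g a = 0 := fun a h => c2 a (b3 a h)
  by_contra c5
  by_cases c6 : g a₀ = 0
  · refine m1 g ⟨c1, c5, fun a h => c4 a (a3 a h)⟩ (Finset.card_lt_card ⟨fun a => ?_, fun hs => ?_⟩)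
    · simp only [Finset.mem_filter, Finset.mem_univ, true_and]
      exact fun h h' => h (c4 a h')
    · exact (Finset.mem_filter.1 (hs (Finset.mem_filter.2 ⟨Finset.mem_univ a₀, ha₀⟩))).2 c6
  · exact m2 g ⟨c1, c6, c4⟩ (natDegree_lt_natDegree c6 c3)

omit [Fintype 𝔽] in
theorem exists_pow_eq (P : Module.End 𝔽 K) {s : Set K} (hs : s.Finite) (hP : Set.MapsTo P s s) :
    ∃ m n : ℕ, m ≠ n ∧ ∀ x ∈ s, (P ^ m) x = (P ^ n) x := by
  have := hs.to_subtype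
  obtain ⟨m, n, hne, e⟩ := Finite.exists_ne_map_eq_of_infinite fun k : ℕ => (hP.restrict)^[k]
  refine ⟨m, n, hne, fun x hx => ?_⟩
  rw [Module.End.coe_pow, Module.End.coe_pow, ← hP.coe_iterate_restrict ⟨x, hx⟩,
    ← hP.coe_iterate_restrict ⟨x, hx⟩, e]

omit [Fintype 𝔽] in
theorem pow_inj {θ : K} (hθ : Transcendental 𝔽 θ) {m n : ℕ} (e : θ ^ m = θ ^ n) : m = n := by
  have := transcendental_iff_injective.1 hθ (a₁ := X ^ m) (a₂ := X ^ n) (by simpa using e)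
  simpa using congrArg natDegree this

end BCIR1

open BCIR1 in
theorem blockCIR1 (hLT : St_LT) (hSK1 : St_SK1) (hSK2 : St_SK2) : St_CIR1 := by
  intro 𝔽 K α _ _ _ _ _ _ θ φ lv Z hθ hφ hZ hno f₀ hf₀ hne
  obtain ⟨inj, s2, s3, s4, -⟩ := hSK1 𝔽 K
  obtain ⟨t1, t2, t3, -⟩ := hSK2 𝔽 K
  have hmu : ∀ u v : K[X], ∃ w : K[X], lin 𝔽 w = lin 𝔽 u * lin 𝔽 v ∧
      w.coeff 0 = u.coeff 0 * v.coeff 0 := fun u v => by
    obtain ⟨w, e, -, e'⟩ := s2 u v 0 0 (by simp) (by simp)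
    exact ⟨w, e, by simpa using e'⟩
  choose mu m1 m2 using hmu
  have hpw : ∀ (u : K[X]) (n : ℕ), ∃ w : K[X], lin 𝔽 w = lin 𝔽 u ^ n ∧
      w.coeff 0 = u.coeff 0 ^ n := fun u n => by
    induction n with
    | zero => exact ⟨1, by simp [lin_one], by simp⟩
    | succ n ih =>
      obtain ⟨w, e, e'⟩ := ih
      exact ⟨mu w u, by rw [m1, e, pow_succ], by rw [m2, e', pow_succ]⟩
  choose pw p1 p2 using hpw
  have mz : ∀ u, mu u 0 = 0 := fun u => inj (by simp [m1])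
  have zm : ∀ u, mu 0 u = 0 := fun u => inj (by simp [m1])
  obtain ⟨f, a₀, hf, h0, hsub, hmin⟩ := exists_min hf₀ hne
  obtain ⟨ψ, hψ⟩ : ∃ ψ : α → K[X], ψ = fun a => pw (φ a) (Fintype.card 𝔽 ^ lv a) := ⟨_, rfl⟩
  have q1 : ∀ a, lin 𝔽 (ψ a) = lin 𝔽 (φ a) ^ Fintype.card 𝔽 ^ lv a := fun a => by rw [hψ, p1]
  have q2 : ∀ a, (ψ a).coeff 0 = θ ^ Fintype.card 𝔽 ^ lv a := fun a => by rw [hψ, p2, hφ]
  obtain ⟨χ, r, e1, e2⟩ := t1 (mu (f a₀) (ψ a₀)) (f a₀) h0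
  have hχ : ∀ a, lin 𝔽 (f a) * lin 𝔽 (ψ a) = lin 𝔽 χ * lin 𝔽 (f a) := by
    have z := hmin ((fun a => mu (f a) (ψ a)) - fun a => mu χ (f a))
      (sub (right hf _ hZ fun a => by rw [m1, q1]) (left hf _ fun a => m1 _ _))
      (fun a h => by simp [h, mz, zm]) (by
        have : mu (f a₀) (ψ a₀) - mu χ (f a₀) = r := inj (by rw [map_sub, e1, m1]; abel)
        rwa [Pi.sub_apply, this])
    intro a
    rw [← m1, ← m1, sub_eq_zero.1 (congrFun z a)]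
  obtain ⟨a₁, h1⟩ : ∃ a, (f a).coeff 0 ≠ 0 := by
    by_contra! hc
    choose v hv using fun a => s4 (f a) (hc a)
    have v0 : v a₀ ≠ 0 := fun h => h0 (inj (by simp [hv, h]))
    have z := hmin v (sat hf _ (t2 X X_ne_zero) hv)
      (fun a h => by_contra fun h' => (s3 _ _ _ (hv a) X_ne_zero h').1 h)
      (degree_lt_degree (by rw [(s3 _ _ _ (hv a₀) X_ne_zero v0).2, natDegree_X]; omega))
    exact v0 (congrFun z a₀)
  have h2 : f a₁ ≠ 0 := fun h => h1 (by simp [h])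
  obtain ⟨m, n, hmn, e3⟩ := exists_pow_eq (lin 𝔽 (ψ a₁)) (t2 _ h2 {0} (Set.finite_singleton 0))
    fun x hx => by
      have := congrArg (fun P : Module.End 𝔽 K => P x) (hχ a₁)
      simp only [Module.End.mul_apply] at this
      rw [Set.mem_preimage, this, show lin 𝔽 (f a₁) x = 0 from hx, map_zero]
      rfl
  obtain ⟨g, r', e4, e5⟩ := t1 (pw (ψ a₁) m - pw (ψ a₁) n) (f a₁) h2
  rw [map_sub, p1, p1] at e4
  obtain rfl : r' = 0 := t3 _ _ h1 e5 fun x hx => by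
    have := congrArg (fun P : Module.End 𝔽 K => P x) e4
    simp only [Module.End.mul_apply, LinearMap.add_apply, LinearMap.sub_apply, hx, map_zero,
      zero_add, e3 x hx, sub_self] at this
    exact this.symm
  rw [map_zero, add_zero] at e4
  have g0 : g ≠ 0 := by
    rintro rfl
    rw [map_zero, zero_mul, sub_eq_zero, ← p1, ← p1] at e4
    have := congrArg (fun p => coeff p 0) (inj e4)
    simp only [p2, q2, ← pow_mul] at this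
    exact hmn (Nat.eq_of_mul_eq_mul_left (pow_pos Fintype.card_pos _) (pow_inj hθ this))
  have e6 : lin 𝔽 g * lin 𝔽 χ = lin 𝔽 (ψ a₁) * lin 𝔽 g := by
    rw [← m1, ← m1, ← sub_eq_zero, ← map_sub]
    by_contra hc
    refine (s3 (mu g χ - mu (ψ a₁) g) (f a₁) 0 ?_ (fun h => hc (by rw [h, map_zero])) h2).1 rfl
    rw [map_zero, map_sub, m1, m1, sub_mul, mul_assoc, ← hχ, ← mul_assoc, mul_assoc _ (lin 𝔽 g),
      ← e4, sub_mul, mul_sub, ← pow_succ, ← pow_succ, ← pow_succ', ← pow_succ', sub_self]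
  have key : ∀ b, f b ≠ 0 → lv b = lv a₁ ∧
      lin 𝔽 (mu g (f b)) * lin 𝔽 (φ b) = lin 𝔽 (φ a₁) * lin 𝔽 (mu g (f b)) := fun b hb => by
    have u0 := (s3 _ _ _ (m1 g (f b)) g0 hb).1
    obtain ⟨l1, l2⟩ := hLT 𝔽 K θ (φ a₁) (φ b) _ (lv b) (lv a₁) hθ (hφ _) (hφ _) u0 (by
      rw [← q1, ← q1, m1, mul_assoc, hχ, ← mul_assoc, e6, mul_assoc])
    have l3 : lv a₁ - lv b = 0 :=
      by_contra fun h => u0 (hno a₁ b _ _ (Nat.pos_of_ne_zero h) l2)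
    rw [l3, pow_zero, pow_one] at l2
    exact ⟨by omega, l2⟩
  refine ⟨f, hf, fun h => h0 (congrFun h a₀), hsub,
    fun a b ha hb => (key a ha).1.trans (key b hb).1.symm, fun h hh => ?_⟩
  refine sat (h := fun a => mu g (h a)) (left hf (lin 𝔽 (φ a₁) * lin 𝔽 g) fun a => ?_) _ (t2 g g0)
    fun a => m1 _ _
  rw [m1, hh, ← mul_assoc, mul_assoc _ (lin 𝔽 g), ← m1]
  by_cases ha : f a = 0
  · simp [ha, mz]
  · exact (key a ha).2

end Pool.Agent.Lib.TM
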