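import Pool.Agent.Lib.TM.Util

/-! Row CIRC: from circuits to all relations. -/

set_option autoImplicit false

namespace Pool.Agent.Lib.TM

open Polynomial Pool.Agent.Lib.MP_795114_nt

namespace BCIRC

variable {𝔽 K α : Type} [Field 𝔽] [Field K] [Algebra 𝔽 K] [Fintype α] {Z : Set (α → K)}

/-- The function `z ↦ ∑ e_a(z_a)` takes finitely many values on `Z`. -/
def Fe (Z : Set (α → K)) (e : α → Module.End 𝔽 K) : Prop :=
  ((fun z : α → K => ∑ a, e a (z a)) '' Z).Finite

theorem Fe.zero : Fe Z (fun _ => (0 : Module.End 𝔽 K)) :=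
  (Set.finite_singleton 0).subset (by rintro _ ⟨z, -, rfl⟩; simp)

theorem Fe.add {e e' : α → Module.End 𝔽 K} (h : Fe Z e) (h' : Fe Z e') :
    Fe Z fun a => e a + e' a :=
  (h.image2 (· + ·) h').subset (by
    rintro _ ⟨z, hz, rfl⟩
    exact ⟨_, ⟨z, hz, rfl⟩, _, ⟨z, hz, rfl⟩, by simp [Finset.sum_add_distrib]⟩)

theorem Fe.sub {e e' : α → Module.End 𝔽 K} (h : Fe Z e) (h' : Fe Z e') :
    Fe Z fun a => e a - e' a :=
  (h.image2 (· - ·) h').subset (by
    rintro _ ⟨z, hz, rfl⟩
    exact ⟨_, ⟨z, hz, rfl⟩, _, ⟨z, hz, rfl⟩, by simp [Finset.sum_sub_distrib]⟩)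

theorem Fe.left {e : α → Module.End 𝔽 K} (h : Fe Z e) (v : Module.End 𝔽 K) :
    Fe Z fun a => v * e a :=
  (h.image v).subset (by
    rintro _ ⟨z, hz, rfl⟩
    exact ⟨_, ⟨z, hz, rfl⟩, by simp [map_sum]⟩)

theorem Fe.sat {e : α → Module.End 𝔽 K} {v : Module.End 𝔽 K}
    (hv : ∀ T : Set K, T.Finite → (v ⁻¹' T).Finite) (h : Fe Z fun a => v * e a) : Fe Z e :=
  (hv _ h).subset (by
    rintro _ ⟨z, hz, rfl⟩
    exact ⟨z, hz, by simp [map_sum]⟩)

end BCIRC

open BCIRC in
theorem blockCIRC (hCIR1 : St_CIR1) (hSK1 : St_SK1) (hSK2 : St_SK2) : St_CIRC := by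
  intro 𝔽 K α _ _ _ _ _ _ θ φ lv Z hθ hφ hZ hno
  classical
  obtain ⟨inj, mul, -⟩ := hSK1 𝔽 K
  obtain ⟨-, fin, -, ore⟩ := hSK2 𝔽 K
  have pr : ∀ u v : K[X], ∃ w : K[X], lin 𝔽 w = lin 𝔽 u * lin 𝔽 v := fun u v =>
    let ⟨w, hw, _⟩ := mul u v 0 0 (by simp) (by simp)
    ⟨w, hw⟩
  choose m hm using pr
  have key : ∀ (n : ℕ) (f : α → K[X]), (Finset.univ.filter fun a => f a ≠ 0).card ≤ n →
      Fe Z (fun a => lin 𝔽 (f a)) → (∀ j, Fe Z fun a => lin 𝔽 (if lv a = j then f a else 0)) ∧
        Fe Z fun a => lin 𝔽 (f a) * lin 𝔽 (φ a) := by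
    intro n
    induction n with
    | zero =>
      intro f hn _
      have f0 : ∀ a, f a = 0 := fun a => by
        by_contra h
        exact Finset.card_ne_zero.2 ⟨a, Finset.mem_filter.2 ⟨Finset.mem_univ a, h⟩⟩
          (Nat.le_zero.1 hn)
      simpa only [f0, ite_self, map_zero, zero_mul, forall_const, and_self] using Fe.zero
    | succ n ih =>
      intro f hn hf
      by_cases f0 : f = 0
      · simpa only [f0, Pi.zero_apply, ite_self, map_zero, zero_mul, forall_const, and_self]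
          using Fe.zero
      obtain ⟨f', h1, h2, h3, h4, h5⟩ := hCIR1 𝔽 K α θ φ lv Z hθ hφ hZ hno f hf f0
      obtain ⟨a₀, ha⟩ := Function.ne_iff.1 h2
      obtain ⟨v, w, hv, e⟩ := ore (f' a₀) (f a₀) ha
      obtain ⟨g, hg⟩ : ∃ g : α → K[X], ∀ a,
          lin 𝔽 (g a) = lin 𝔽 v * lin 𝔽 (f a) - lin 𝔽 w * lin 𝔽 (f' a) :=
        ⟨fun a => m v (f a) - m w (f' a), fun a => by rw [map_sub, hm, hm]⟩
      have g0 : ∀ a, f a = 0 → g a = 0 := fun a h => inj (by
        rw [hg, h, h3 a h, map_zero, mul_zero, mul_zero, sub_zero])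
      have g1 : g a₀ = 0 := inj (by rw [hg, e, sub_self, map_zero])
      have lt : (Finset.univ.filter fun a => g a ≠ 0) ⊂ Finset.univ.filter fun a => f a ≠ 0 := by
        refine (Finset.ssubset_iff_of_subset fun a h => ?_).2 ⟨a₀, ?_, ?_⟩
        · exact Finset.mem_filter.2 ⟨Finset.mem_univ a, fun h' => (Finset.mem_filter.1 h).2 (g0 a h')⟩
        · exact Finset.mem_filter.2 ⟨Finset.mem_univ _, fun h' => ha (h3 _ h')⟩
        · exact fun h => (Finset.mem_filter.1 h).2 g1
      obtain ⟨i1, i2⟩ := ih g (Nat.le_of_lt_succ ((Finset.card_lt_card lt).trans_le hn)) (by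
        simp only [hg]
        exact (hf.left _).sub (Fe.left h1 _))
      refine ⟨fun j => Fe.sat (fin v hv) ?_, Fe.sat (fin v hv) ?_⟩
      · have k : Fe Z fun a => lin 𝔽 (if lv a = j then f' a else 0) := by
          by_cases hj : lv a₀ = j
          · have : ∀ a, (if lv a = j then f' a else 0) = f' a := fun a => by
              split_ifs with h
              · rfl
              · by_contra h'
                exact h ((h4 a a₀ (Ne.symm h') ha).trans hj)
            simp only [this]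
            exact h1
          · have : ∀ a, (if lv a = j then f' a else 0) = 0 := fun a => by
              split_ifs with h
              · by_contra h'
                exact hj ((h4 a₀ a ha h').trans h)
              · rfl
            simp only [this, map_zero]
            exact Fe.zero
        convert (i1 j).add (k.left (lin 𝔽 w)) using 2 with a
        split_ifs
        · rw [hg, sub_add_cancel]
        · simp
      · have k : Fe Z fun a => lin 𝔽 (f' a) * lin 𝔽 (φ a) := by
          have := h5 (fun a => m (f' a) (φ a)) fun a => hm _ _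
          simp only [Fv, hm] at this
          exact this
        convert i2.add (k.left (lin 𝔽 w)) using 2 with a
        rw [hg, sub_mul, mul_assoc, mul_assoc, sub_add_cancel]
  intro f hf
  obtain ⟨k1, k2⟩ := key _ f le_rfl hf
  refine ⟨k1, fun h hh => ?_⟩
  simp only [Fv, hh]
  exact k2

end Pool.Agent.Lib.TM
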