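import Pool.Agent.Lib.TM.Util

/-! Block CNT: a multiple of a torsion module with finite torsion layers has finite index. -/

set_option autoImplicit false

namespace Pool.Agent.Lib.TM

open Pool.Agent.Lib.MP_795114_nt

namespace BCNT

variable {A M : Type} [CommRing A] [AddCommGroup M] [Module A M]

theorem card_le (V W : Submodule A M) (c : A) (hV : (V : Set M).Finite)
    (hc : {x : M | c • x = 0}.Finite) (hW : ∀ x ∈ V, c • x ∈ W) :
    (W.mkQ '' (V : Set M)).ncard ≤ {x : M | c • x = 0}.ncard := by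
  have : Finite V := hV
  let f : V →+ V := DistribSMul.toAddMonoidHom V c
  have h1 : Nat.card (V ⧸ f.range) = Nat.card f.ker := AddSubgroup.index_range
  have h2 : Nat.card f.ker ≤ {x : M | c • x = 0}.ncard := by
    have : Finite {x : M | c • x = 0} := hc
    exact Nat.card_le_card_of_injective
      (fun x : f.ker => (⟨x.1.1, congrArg Subtype.val x.2⟩ : {x : M | c • x = 0}))
      fun x y h => Subtype.ext (Subtype.ext (Subtype.mk.inj h))
  refine le_trans ?_ (h1.trans_le h2)
  refine Nat.card_le_card_of_surjective (fun q : V ⧸ f.range =>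
    (⟨W.mkQ q.out.1, q.out.1, q.out.2, rfl⟩ : W.mkQ '' (V : Set M))) ?_
  rintro ⟨_, x, hx, rfl⟩
  refine ⟨((⟨x, hx⟩ : V) : V ⧸ f.range), Subtype.ext ?_⟩
  obtain ⟨y, hy⟩ := (QuotientAddGroup.eq_iff_sub_mem).1
    (Quotient.out_eq' ((⟨x, hx⟩ : V) : V ⧸ f.range))
  refine (Submodule.Quotient.eq W).2 ?_
  have e : c • y.1 = (((⟨x, hx⟩ : V) : V ⧸ f.range).out : V).1 - x := congrArg Subtype.val hy
  exact e ▸ hW y.1 y.2

end BCNT

theorem blockCNT : St_CNT := by
  classical
  intro A M _ _ _ _ U c ht hf hc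
  let W : Submodule A M := U.map (LinearMap.lsmul A M c)
  have hfin : (W.mkQ '' (U : Set M)).Finite := by
    by_contra hinf
    obtain ⟨s, hs, hcard⟩ := Set.Infinite.exists_subset_card_eq hinf
      ({x : M | c • x = 0}.ncard + 1)
    have hx : ∀ q : s, ∃ x ∈ U, W.mkQ x = q := fun q => hs q.2
    choose x hxU hxq using hx
    choose a ha0 ha using ht
    have hb : ∏ q : s, a (x q) ≠ 0 := Finset.prod_ne_zero_iff.2 fun q _ => ha0 _
    let V : Submodule A M := U ⊓ Submodule.torsionBy A M (∏ q : s, a (x q))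
    have hV : (V : Set M).Finite := (hf _ hb).subset fun y hy => hy.2
    have h1 := BCNT.card_le V W c hV (hf c hc) fun y hy => ⟨y, hy.1, rfl⟩
    have h2 : (s : Set (M ⧸ W)) ⊆ W.mkQ '' (V : Set M) := fun q hq => by
      refine ⟨x ⟨q, hq⟩, ⟨hxU _, ?_⟩, hxq _⟩
      obtain ⟨d, hd⟩ := Finset.dvd_prod_of_mem (fun q : s => a (x q)) (Finset.mem_univ ⟨q, hq⟩)
      change (∏ q : s, a (x q)) • x ⟨q, hq⟩ = 0
      rw [hd, mul_comm, mul_smul, ha, smul_zero]
    have h3 := Set.ncard_le_ncard h2 (hV.image _)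
    rw [Set.ncard_coe_finset, hcard] at h3
    omega
  refine FI_mono (FI_ker (fun x hx y hy => U.sub_mem hx hy) W.mkQ
    (fun x _ y _ => map_sub _ x y) hfin) (fun x hx => ?_) subset_rfl
  exact (Submodule.Quotient.mk_eq_zero W).1 hx.2

end Pool.Agent.Lib.TM
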