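import Pool.Agent.Lib.TM.Util

/-! A Drinfeld module is evaluation of polynomials at one twisted polynomial. -/

set_option autoImplicit false

namespace Pool.Agent.Lib.TM

open Polynomial Pool.Agent.Lib.MP_795114_nt

theorem blockDR (hSK1 : St_SK1) : St_DR := by
  intro 𝔽 K _ _ _ _ _ δ φ h
  obtain ⟨hi, -, hd, -, hl, -⟩ := hSK1 𝔽 K
  choose p hp h0 using fun a => hl (φ a) (h.mem a)
  have hC : ∀ c x : K, lin 𝔽 (C c) x = c * x := fun c x => by
    rw [← monomial_zero_left, lin_monomial, pow_zero, pow_one]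
  have hz : φ 0 = 0 := by simpa using h.map_add 0 0
  have hc : ∀ (c : 𝔽) (x : K), (φ (C c)).eval x = c • x := fun c x => by
    rcases eq_or_ne c 0 with rfl | hc
    · simp [hz]
    have e : lin 𝔽 (1 : K[X]) = lin 𝔽 (p (C c)) * lin 𝔽 (p (C c⁻¹)) := by
      ext y
      rw [Module.End.mul_apply, ← hp, ← hp, ← eval_comp, ← h.map_mul, ← C_mul,
        mul_inv_cancel₀ hc, C_1, h.map_one, eval_X, ← C_1, hC, one_mul]
    have n1 : lin 𝔽 (1 : K[X]) ≠ 0 := fun e0 => one_ne_zero (hi (e0.trans (map_zero _).symm))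
    have d := (hd _ _ _ e (fun e0 => n1 (by rw [e, e0, map_zero, zero_mul]))
      (fun e0 => n1 (by rw [e, e0, map_zero, mul_zero]))).2
    rw [natDegree_one] at d
    rw [hp, eq_C_of_natDegree_eq_zero (show (p (C c)).natDegree = 0 by omega), hC, h0,
      h.coeff_one, Algebra.smul_def, ← δ.commutes]
    rfl
  refine ⟨p X, (h0 X).trans (h.coeff_one X), Nat.pos_of_ne_zero fun e => h.ne ?_, fun a => ?_⟩
  · refine Polynomial.funext fun x => ?_
    rw [hp, eq_C_of_natDegree_eq_zero e, hC, h0, h.coeff_one, eval_mul, eval_C, eval_X]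
  · induction a using Polynomial.induction_on with
    | C c => intro x; rw [hc, aeval_C, Module.algebraMap_end_apply]
    | add a b ha hb => intro x; rw [h.map_add, eval_add, ha, hb, map_add, LinearMap.add_apply]
    | monomial n c ha =>
      intro x
      rw [pow_succ, ← mul_assoc, h.map_mul, eval_comp, ha, hp, map_mul _ _ X, aeval_X,
        Module.End.mul_apply]

end Pool.Agent.Lib.TM
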