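import Pool.Agent.Lib.TM.Util

/-! Embedding a finitely generated domain into a power series ring over a finite field. -/

set_option autoImplicit false

namespace Pool.Agent.Lib.TM

open Polynomial

namespace BE

theorem frob (𝔽 R : Type) [Field 𝔽] [Fintype 𝔽] [CommRing R] [Algebra 𝔽 R] (a : ℕ) :
    ∃ φ : R →ₐ[𝔽] R, ∀ x, φ x = x ^ Fintype.card 𝔽 ^ a :=
  ⟨FiniteField.frobeniusAlgHom 𝔽 R ^ a, fun x => by
    rw [AlgHom.coe_pow, FiniteField.coe_frobeniusAlgHom, pow_iterate]⟩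

theorem point {𝔽 A σ : Type} [Field 𝔽] [Field A] [Infinite A] [Algebra 𝔽 A]
    (P : MvPolynomial σ 𝔽) (hP : P ≠ 0) : ∃ c : σ → A, MvPolynomial.aeval c P ≠ 0 := by
  by_contra h
  push Not at h
  apply hP
  apply MvPolynomial.map_injective (algebraMap 𝔽 A) (algebraMap 𝔽 A).injective
  rw [map_zero]
  refine MvPolynomial.funext fun x => ?_
  rw [map_zero, MvPolynomial.eval_map]
  exact h x

theorem hensel {k : Type} [Field k] (f : (PowerSeries k)[X]) (hf : f.Monic) (w : k)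
    (h0 : PowerSeries.constantCoeff (f.eval (PowerSeries.C w)) = 0)
    (h1 : PowerSeries.constantCoeff ((derivative f).eval (PowerSeries.C w)) ≠ 0) :
    ∃ x, f.eval x = 0 := by
  obtain ⟨x, hx, _⟩ := HenselianRing.is_henselian (R := PowerSeries k)
    (I := Ideal.span {PowerSeries.X}) f hf (PowerSeries.C w)
    (by rw [Ideal.mem_span_singleton, PowerSeries.X_dvd_iff]; exact h0)
    ((PowerSeries.isUnit_iff_constantCoeff.mpr (isUnit_iff_ne_zero.mpr h1)).map _)
  exact ⟨x, hx⟩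

theorem data {𝔽 σ : Type} [Field 𝔽] [Fintype 𝔽] [Finite σ] (μ : (MvPolynomial σ 𝔽)[X])
    (hμ : μ.Monic) (hdeg : 0 < μ.natDegree) (P : MvPolynomial σ 𝔽) (hP : P ≠ 0) :
    ∃ (k : Type) (_ : Field k) (_ : Finite k) (_ : Algebra 𝔽 k) (c : σ → k) (w : k),
      MvPolynomial.aeval c P ≠ 0 ∧ μ.eval₂ (MvPolynomial.aeval c).toRingHom w = 0 := by
  let A := AlgebraicClosure 𝔽
  obtain ⟨c, hc⟩ := point (A := A) P hP
  obtain ⟨w, hw⟩ := IsAlgClosed.exists_root
    (μ.map (MvPolynomial.aeval (R := 𝔽) c).toRingHom) (by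
      rw [hμ.degree_map]
      exact (natDegree_pos_iff_degree_pos.mp hdeg).ne')
  let S : Set A := Set.range c ∪ {w}
  have hS : S.Finite := (Set.finite_range c).union (Set.finite_singleton w)
  have : Finite S := hS
  let k := IntermediateField.adjoin 𝔽 S
  have : FiniteDimensional 𝔽 k := IntermediateField.finiteDimensional_adjoin
    fun x _ => (Algebra.IsIntegral.isIntegral x)
  let c' : σ → k := fun i => ⟨c i, IntermediateField.subset_adjoin _ _ (Or.inl ⟨i, rfl⟩)⟩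
  let w' : k := ⟨w, IntermediateField.subset_adjoin _ _ (Or.inr rfl)⟩
  have hcomp : (k.val).comp (MvPolynomial.aeval c') = MvPolynomial.aeval c := by
    ext i
    simp [c']
  refine ⟨k, inferInstance, Module.finite_of_finite 𝔽, inferInstance, c', w', ?_, ?_⟩
  · intro h
    apply hc
    rw [← hcomp, AlgHom.comp_apply, h, map_zero]
  · apply k.val.toRingHom.injective
    rw [map_zero, hom_eval₂]
    rw [IsRoot.def, eval_map, ← hcomp] at hw
    exact hw

end BE

theorem blockE (hE1 : St_E1) (hE2 : St_E2) : St_E := by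
  intro 𝔽 B _ _ _ _ _ _ θ hθ
  obtain ⟨σ, _, i₀, a, μ, u, v, Δ, hμ, hdeg, hΔ, hbez, hT⟩ := hE2 𝔽 B θ hθ
  refine ⟨Fintype.card 𝔽 ^ a, pow_pos Fintype.card_pos a, fun β hβ => ?_⟩
  have hβ' : (aeval (MvPolynomial.X i₀ : MvPolynomial σ 𝔽) β) ≠ 0 := fun h =>
    MvPolynomial.transcendental_X 𝔽 i₀ ⟨β, hβ, h⟩
  obtain ⟨k, _, _, _, c, w, hc, hw⟩ := BE.data μ hμ hdeg _ (mul_ne_zero hΔ hβ')
  rw [map_mul, ← aeval_algHom_apply, MvPolynomial.aeval_X] at hc
  obtain ⟨y, hy, hyc, hy0⟩ := hE1 𝔽 k σ i₀ c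
  let ψ : MvPolynomial σ 𝔽 →ₐ[𝔽] PowerSeries k := MvPolynomial.aeval y
  have hcomp : (PowerSeries.constantCoeff (R := k)).comp ψ.toRingHom =
      (MvPolynomial.aeval c).toRingHom := by
    refine MvPolynomial.ringHom_ext (fun r => ?_) (fun i => ?_)
    · simp [ψ, PowerSeries.algebraMap_apply]
    · simp [ψ, hyc]
  have hev : ∀ f : (MvPolynomial σ 𝔽)[X], PowerSeries.constantCoeff
      ((f.map ψ.toRingHom).eval (PowerSeries.C w)) =
        f.eval₂ (MvPolynomial.aeval c).toRingHom w := fun f => by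
    rw [eval_map, hom_eval₂, hcomp, PowerSeries.constantCoeff_C]
  have hΔc : MvPolynomial.aeval c Δ ≠ 0 := left_ne_zero_of_mul hc
  have hder : (derivative μ).eval₂ (MvPolynomial.aeval c).toRingHom w ≠ 0 := fun h => by
    have := congrArg (eval₂ (MvPolynomial.aeval c).toRingHom w) hbez
    rw [eval₂_add, eval₂_mul, eval₂_mul, hw, h, eval₂_C] at this
    exact hΔc (by simpa using this.symm)
  obtain ⟨x, hx⟩ := BE.hensel (μ.map ψ.toRingHom) (hμ.map _) w (by rw [hev, hw])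
    (by rw [derivative_map, hev]; exact hder)
  have hunit : IsUnit (ψ Δ) := by
    refine PowerSeries.isUnit_iff_constantCoeff.mpr (isUnit_iff_ne_zero.mpr ?_)
    have := congrArg (fun f => f Δ) hcomp
    exact fun h => hΔc (this.symm.trans h)
  obtain ⟨j, hj, hjθ⟩ := hT (PowerSeries k) ψ x hy hunit hx
  obtain ⟨φ, hφ⟩ := BE.frob 𝔽 (PowerSeries k) a
  obtain ⟨φ', hφ'⟩ := BE.frob 𝔽 k a
  refine ⟨k, inferInstance, Fintype.ofFinite k, inferInstance, c i₀ ^ Fintype.card 𝔽 ^ a, j, hj,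
    ?_, ?_⟩
  · rw [hjθ, show ψ (MvPolynomial.X i₀) = y i₀ from MvPolynomial.aeval_X y i₀, hy0, ← hφ,
      map_add, hφ, hφ, map_pow]
  · rw [← hφ', aeval_algHom_apply, hφ']
    exact pow_ne_zero _ (right_ne_zero_of_mul hc)

end Pool.Agent.Lib.TM
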