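import Pool.Agent.Lib.TM.Util

/-! Block E1: algebraically independent power series with given constant terms. -/

set_option autoImplicit false

namespace Pool.Agent.Lib.TM

open Polynomial

namespace BE1
variable {𝔽 k : Type} [Field 𝔽] [Field k] [Finite k] [Algebra 𝔽 k]

theorem exists_tr (S : Set (PowerSeries k)) (hS : S.Finite) (c : k) : ∃ f : PowerSeries k,
    Transcendental (Algebra.adjoin 𝔽 S) f ∧ PowerSeries.constantCoeff f = c := by
  have : Finite 𝔽 := Finite.of_injective _ (algebraMap 𝔽 k).injective
  have : Countable (Algebra.adjoin 𝔽 S) := by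
    rw [← Cardinal.mk_le_aleph0_iff]
    refine (Algebra.cardinalMk_adjoin_le 𝔽 S).trans ?_
    simp [hS.countable.le_aleph0]
  by_contra h
  have h1 : Function.Injective fun a : ℕ → k =>
      PowerSeries.C c + PowerSeries.X * PowerSeries.mk a := fun a b e =>
    funext fun n => by
      simpa using congrArg (PowerSeries.coeff (n + 1)) e
  have h2 := (Algebraic.countable (Algebra.adjoin 𝔽 S) (PowerSeries k)).preimage_of_injOn
    h1.injOn
  have : Uncountable (ℕ → k) := by
    rw [← Cardinal.aleph0_lt_mk_iff, Cardinal.mk_arrow]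
    simpa using Cardinal.cantor' _ (Cardinal.one_lt_iff_nontrivial.mpr inferInstance)
  refine Set.not_countable_univ (h2.mono fun a _ => ?_)
  by_contra h3
  exact h ⟨_, h3, by simp⟩

omit [Finite k] in
theorem tr_X (c : k) : Transcendental 𝔽 (PowerSeries.C c + PowerSeries.X : PowerSeries k) := by
  rintro ⟨p, hp, h⟩
  have h1 : aeval (PowerSeries.C c + PowerSeries.X : PowerSeries k) p =
      ((taylor c (p.map (algebraMap 𝔽 k)) : k[X]) : PowerSeries k) := by
    rw [← aeval_map_algebraMap k, taylor_apply, comp_eq_aeval]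
    have := aeval_algHom_apply (Polynomial.coeToPowerSeries.algHom k) (X + C c)
      (p.map (algebraMap 𝔽 k))
    simpa [add_comm] using this
  rw [h1, Polynomial.coe_eq_zero_iff, taylor_eq_zero, Polynomial.map_eq_zero] at h
  exact hp h

end BE1
open BE1

theorem blockE1 : St_E1 := by
  intro 𝔽 k σ _ _ _ _ _ i₀ c
  classical
  have key : ∀ s : Finset σ, ∃ y : σ → PowerSeries k, AlgebraicIndepOn 𝔽 y (insert i₀ s) ∧
      (∀ i, PowerSeries.constantCoeff (y i) = c i) ∧
      y i₀ = PowerSeries.C (c i₀) + PowerSeries.X := fun s => by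
    induction s using Finset.induction_on with
    | empty =>
      refine ⟨fun i => PowerSeries.C (c i) + PowerSeries.X, ?_, by simp, rfl⟩
      rw [Finset.coe_empty, insert_empty_eq]
      exact algebraicIndependent_unique_type_iff.mpr (tr_X (c i₀))
    | insert a s ha ih =>
      obtain ⟨y, h1, h2, h3⟩ := ih
      by_cases h : a = i₀
      · exact ⟨y, by simpa [h] using h1, h2, h3⟩
      obtain ⟨f, h4, h5⟩ := exists_tr (𝔽 := 𝔽) (y '' insert i₀ s) (Set.toFinite _) (c a)
      have h6 : ∀ i ∈ insert i₀ (s : Set σ), Function.update y a f i = y i := fun i hi =>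
        Function.update_of_ne (by rintro rfl; simp [h, ha] at hi) _ _
      refine ⟨Function.update y a f, ?_, fun i => ?_, by rw [h6 _ (by simp), h3]⟩
      · rw [Finset.coe_insert, Set.insert_comm]
        refine AlgebraicIndepOn.insert ?_ ?_
        · change AlgebraicIndependent 𝔽 _
          rwa [funext fun i : ↥(insert i₀ (s : Set σ)) => h6 i i.2]
        · rwa [Set.image_congr h6, Function.update_self]
      · by_cases h7 : i = a
        · rw [h7, Function.update_self, h5]
        · rw [Function.update_of_ne h7, h2]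
  have := Fintype.ofFinite σ
  obtain ⟨y, h1, h2⟩ := key Finset.univ
  exact ⟨y, AlgebraicIndepOn.univ.mp (h1.mono (by simp)), h2⟩

end Pool.Agent.Lib.TM
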