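import Pool.Agent.Lib.TM.Util

/-! Block E2: a finitely generated domain embeds, after a Frobenius power, into an etale cover. -/

set_option autoImplicit false
set_option linter.style.haveILetI false

namespace Pool.Agent.Lib.TM

open Polynomial

namespace BE2

theorem clr {P L : Type} [CommRing P] [IsDomain P] [Field L] [Algebra P L] [IsFractionRing P L]
    (r : L[X]) : ∃ d : P, d ≠ 0 ∧ ∃ r' : P[X], r'.map (algebraMap P L) = C (algebraMap P L d) * r := by
  obtain ⟨d, hd, e⟩ := IsLocalization.integerNormalization_spec (nonZeroDivisors P) r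
  exact ⟨d, nonZeroDivisors.ne_zero hd, _, by rw [e, ← smul_eq_C_mul, algebraMap_smul]⟩

theorem etale (P L E : Type) [CommRing P] [IsDomain P] [IsIntegrallyClosed P] [Field L]
    [Algebra P L] [IsFractionRing P L] [Field E] [Algebra L E] [Algebra P E] [IsScalarTower P L E]
    [FiniteDimensional L E] [Algebra.IsSeparable L E] (s : Finset E) :
    ∃ (μ u v : P[X]) (Δ : P), μ.Monic ∧ 0 < μ.natDegree ∧ Δ ≠ 0 ∧ u * μ + v * derivative μ = C Δ ∧
      ∀ (T K : Type) [CommRing T] [Field K] [Algebra T K] (ψ : P →+* T) (w : T),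
        Function.Injective ((algebraMap T K).comp ψ) → IsUnit (ψ Δ) → (μ.map ψ).eval w = 0 →
        ∃ φ : E →+* K, (∀ p, φ (algebraMap P E p) = algebraMap T K (ψ p)) ∧
          ∀ b ∈ s, φ b ∈ (algebraMap T K).range := by
  classical
  have inj := IsFractionRing.injective P L
  obtain ⟨y, y0, hw⟩ := ((IsFractionRing.isAlgebraic_iff P L E).2 (Algebra.IsAlgebraic.isAlgebraic
    (Field.powerBasisOfFiniteOfSeparable L E).gen)).exists_integral_multiple
  set ω := y • (Field.powerBasisOfFiniteOfSeparable L E).gen with hω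
  have top : Algebra.adjoin L {ω} = ⊤ := by
    refine (Field.powerBasisOfFiniteOfSeparable L E).adjoin_eq_top_of_gen_mem_adjoin ?_
    have := Subalgebra.smul_mem _ (Algebra.self_mem_adjoin_singleton L ω) (algebraMap P L y)⁻¹
    rwa [hω, ← algebraMap_smul L y, inv_smul_smul₀ ((map_ne_zero_iff _ inj).2 y0),
      algebraMap_smul, ← hω] at this
  have mp := minpoly.isIntegrallyClosed_eq_field_fractions' L hw
  obtain ⟨a, b, hab⟩ : IsCoprime (minpoly L ω) (derivative (minpoly L ω)) :=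
    Algebra.IsSeparable.isSeparable L ω
  obtain ⟨d₁, h₁, u, hu⟩ := clr (P := P) a
  obtain ⟨d₂, h₂, v, hv⟩ := clr (P := P) b
  have den : ∀ e : E, ∃ d : P, d ≠ 0 ∧ ∃ r : P[X], algebraMap P E d * e = aeval ω r := fun e => by
    have : e ∈ Algebra.adjoin L {ω} := top ▸ Algebra.mem_top
    rw [Algebra.adjoin_singleton_eq_range_aeval] at this
    obtain ⟨r, rfl⟩ := this
    obtain ⟨d, d0, r', hr⟩ := clr (P := P) r
    refine ⟨d, d0, r', ?_⟩
    rw [← aeval_map_algebraMap L, hr, map_mul, aeval_C, ← IsScalarTower.algebraMap_apply]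
    rfl
  choose d d0 r hr using den
  refine ⟨minpoly P ω, C (∏ e ∈ s, d e) * C d₂ * u, C (∏ e ∈ s, d e) * C d₁ * v,
    (∏ e ∈ s, d e) * (d₁ * d₂), minpoly.monic hw, minpoly.natDegree_pos hw,
    mul_ne_zero (Finset.prod_ne_zero_iff.2 fun e _ => d0 e) (mul_ne_zero h₁ h₂),
    map_injective _ inj ?_, fun T K _ _ _ ψ w hψ hΔ hw0 => ?_⟩
  · simp only [Polynomial.map_add, Polynomial.map_mul, map_C, hu, hv, ← derivative_map, ← mp,
      map_mul]
    linear_combination (C (algebraMap P L (∏ e ∈ s, d e)) * C (algebraMap P L d₁) *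
      C (algebraMap P L d₂)) * hab
  · letI : Algebra L K := (IsFractionRing.lift hψ).toAlgebra
    have al : ∀ p, algebraMap L K (algebraMap P L p) = algebraMap T K (ψ p) :=
      IsFractionRing.lift_algebraMap hψ
    have ev : ∀ r : P[X], aeval (algebraMap T K w) (r.map (algebraMap P L)) =
        algebraMap T K ((r.map ψ).eval w) := fun r => by
      rw [aeval_def, eval₂_map, eval_map, hom_eval₂]
      congr 1
      exact RingHom.ext al
    let pb := PowerBasis.ofAdjoinEqTop' (hw.tower_top (A := L)) top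
    have g : pb.gen = ω := PowerBasis.ofAdjoinEqTop'_gen _ _
    let φ := pb.lift (algebraMap T K w) (by rw [g, mp, ev, hw0, map_zero])
    have φP : ∀ p, φ (algebraMap P E p) = algebraMap T K (ψ p) := fun p => by
      rw [IsScalarTower.algebraMap_apply P L E, φ.commutes, al]
    refine ⟨φ.toRingHom, φP, fun e he => ?_⟩
    have h := congrArg φ (hr e)
    rw [map_mul, φP, ← aeval_map_algebraMap L, ← g, pb.lift_aeval, ev] at h
    obtain ⟨c, hc⟩ := (isUnit_of_dvd_unit
      (map_dvd ψ ((Finset.dvd_prod_of_mem d he).mul_right _)) hΔ).exists_left_inv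
    refine ⟨c * ((r e).map ψ).eval w, ?_⟩
    rw [map_mul, ← h, ← mul_assoc, ← map_mul, hc, map_one, one_mul]
    rfl

theorem expo (𝔽 L₀ L : Type) [Field 𝔽] [Fintype 𝔽] [Field L₀] [Field L] [Algebra 𝔽 L]
    [Algebra L₀ L] [FiniteDimensional L₀ L] : ∃ (a : ℕ) (f : L →+* separableClosure L₀ L),
      ∀ x : L, (f x : L) = x ^ Fintype.card 𝔽 ^ a := by
  obtain ⟨p, hp, n, pp, hn⟩ := FiniteField.card' 𝔽
  haveI : CharP L p := charP_of_injective_algebraMap (algebraMap 𝔽 L).injective p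
  haveI : ExpChar L p := ExpChar.prime pp
  haveI : ExpChar (separableClosure L₀ L) p :=
    RingHom.expChar _ (algebraMap (separableClosure L₀ L) L).injective p
  obtain ⟨e, he⟩ := (IsPurelyInseparable.hasExponent_iff' (separableClosure L₀ L) L p).1
    inferInstance
  refine ⟨e, (FiniteField.frobeniusAlgHom 𝔽 L ^ e : L →ₐ[𝔽] L).toRingHom.codRestrict _ fun x => ?_,
    frob_pow_apply 𝔽 e⟩
  obtain ⟨z, hz⟩ := he x
  obtain ⟨k, hk⟩ : p ^ e ∣ Fintype.card 𝔽 ^ e := pow_dvd_pow_of_dvd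
    (hn ▸ dvd_pow_self p n.ne_zero) e
  show (FiniteField.frobeniusAlgHom 𝔽 L ^ e : L →ₐ[𝔽] L) x ∈ _
  rw [frob_pow_apply, hk, pow_mul, ← hz]
  exact pow_mem z.2 k

theorem core (𝔽 P B L₀ L : Type) [Field 𝔽] [Fintype 𝔽] [CommRing P] [IsDomain P]
    [IsIntegrallyClosed P] [CommRing B] [IsDomain B] [Algebra 𝔽 P] [Algebra P B] [Algebra 𝔽 B]
    [IsScalarTower 𝔽 P B] [Algebra.IsAlgebraic P B] [Algebra.FiniteType 𝔽 B] [Field L₀] [Field L]
    [Algebra P L₀] [IsFractionRing P L₀] [Algebra B L] [IsFractionRing B L] [Algebra P L]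
    [Algebra L₀ L] [IsScalarTower P B L] [IsScalarTower P L₀ L] [Algebra 𝔽 L]
    [FaithfulSMul P L] :
    ∃ (a : ℕ) (μ u v : P[X]) (Δ : P), μ.Monic ∧ 0 < μ.natDegree ∧ Δ ≠ 0 ∧
      u * μ + v * derivative μ = C Δ ∧
      ∀ (T : Type) [CommRing T] [IsDomain T] [Algebra 𝔽 T] (ψ : P →ₐ[𝔽] T) (w : T),
        Function.Injective ψ → IsUnit (ψ Δ) → (μ.map ψ.toRingHom).eval w = 0 →
        ∃ j : B →ₐ[𝔽] T, Function.Injective j ∧
          ∀ p, j (algebraMap P B p) = ψ p ^ Fintype.card 𝔽 ^ a := by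
  classical
  haveI : Algebra.FiniteType P B := .of_restrictScalars_finiteType 𝔽 P B
  haveI : Algebra.IsAlgebraic L₀ L := IsFractionRing.comap_isAlgebraic_iff.1
    ((IsFractionRing.isAlgebraic_iff' P B L).1 inferInstance)
  haveI : Algebra.EssFiniteType B L := .of_isLocalization L (nonZeroDivisors B)
  haveI : Algebra.EssFiniteType P L := .comp P B L
  haveI : Algebra.EssFiniteType L₀ L := .of_comp P _ _
  haveI : FiniteDimensional L₀ L := Algebra.finite_of_essFiniteType_of_isAlgebraic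
  obtain ⟨a, f₀, ha⟩ := expo 𝔽 L₀ L
  obtain ⟨s, hs⟩ := Algebra.FiniteType.out (R := 𝔽) (A := B)
  let f := f₀.comp (algebraMap B L)
  have fP : ∀ p, f (algebraMap P B p) = algebraMap P _ p ^ Fintype.card 𝔽 ^ a := fun p =>
    Subtype.ext ((ha _).trans (by rw [← IsScalarTower.algebraMap_apply]; rfl))
  have fi : Function.Injective f := f₀.injective.comp (IsFractionRing.injective B L)
  obtain ⟨μ, u, v, Δ, h1, h2, h3, h4, h5⟩ := etale P L₀ _ (s.image f)
  refine ⟨a, μ, u, v, Δ, h1, h2, h3, h4, fun T _ _ _ ψ w hψ hΔ hw => ?_⟩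
  have iT := IsFractionRing.injective T (FractionRing T)
  obtain ⟨φ, φP, φs⟩ := h5 T (FractionRing T) ψ.toRingHom w (iT.comp hψ) hΔ hw
  have jP : ∀ p, φ (f (algebraMap P B p)) = algebraMap T _ (ψ p ^ Fintype.card 𝔽 ^ a) :=
    fun p => by rw [fP, map_pow, φP, map_pow]; rfl
  let j₀ : B →ₐ[𝔽] FractionRing T :=
    { φ.comp f with
      commutes' := fun c => by
        rw [IsScalarTower.algebraMap_apply 𝔽 P B]
        refine (jP _).trans ?_
        rw [ψ.commutes, ← map_pow, FiniteField.pow_card_pow, ← IsScalarTower.algebraMap_apply] }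
  have hr : ∀ b, j₀ b ∈ (IsScalarTower.toAlgHom 𝔽 T (FractionRing T)).range := fun b =>
    (Algebra.adjoin_le (S := (IsScalarTower.toAlgHom 𝔽 T (FractionRing T)).range.comap j₀)
      fun b hb => φs _ (Finset.mem_image_of_mem f hb)) (hs ▸ Algebra.mem_top)
  let e := AlgEquiv.ofInjective (IsScalarTower.toAlgHom 𝔽 T (FractionRing T)) iT
  have hj : ∀ b, algebraMap T _ (e.symm (j₀.codRestrict _ hr b)) = φ (f b) := fun b =>
    congrArg Subtype.val (e.apply_symm_apply ⟨_, hr b⟩)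
  exact ⟨e.symm.toAlgHom.comp (j₀.codRestrict _ hr),
    fun b b' h => fi (φ.injective ((hj b).symm.trans ((congrArg _ h).trans (hj b')))),
    fun p => iT ((hj _).trans (jP p))⟩

end BE2

theorem blockE2 : St_E2 := by
  intro 𝔽 B _ _ _ _ _ _ θ hθ
  obtain ⟨s, hs⟩ := Algebra.FiniteType.out (R := 𝔽) (A := B)
  haveI : Algebra.IsAlgebraic (Algebra.adjoin 𝔽 (insert θ (s : Set B))) B := ⟨fun b =>
    isAlgebraic_algebraMap (⟨b, Algebra.adjoin_mono (Set.subset_insert _ _)
      (hs ▸ Algebra.mem_top)⟩ : Algebra.adjoin 𝔽 (insert θ (s : Set B)))⟩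
  obtain ⟨t, h1, h2, hb⟩ := exists_isTranscendenceBasis_between (R := 𝔽) {θ} (insert θ (s : Set B))
    (by simp) ((algebraicIndependent_singleton_iff (⟨θ, rfl⟩ : ({θ} : Set B))).2 hθ)
  letI : Algebra (MvPolynomial t 𝔽) B := (MvPolynomial.aeval (R := 𝔽) ((↑) : t → B)).toAlgebra
  haveI : IsScalarTower 𝔽 (MvPolynomial t 𝔽) B :=
    .of_algebraMap_eq fun c => ((MvPolynomial.aeval ((↑) : t → B)).commutes c).symm
  haveI : FaithfulSMul (MvPolynomial t 𝔽) B := (faithfulSMul_iff_algebraMap_injective _ _).2 hb.1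
  haveI : Algebra.IsAlgebraic (MvPolynomial t 𝔽) B :=
    have := hb.isAlgebraic
    .of_ringHom_of_comp_eq hb.1.aevalEquiv (RingHom.id B) hb.1.aevalEquiv.surjective
      Function.injective_id (RingHom.ext fun p => hb.1.algebraMap_aevalEquiv p)
  letI := FractionRing.liftAlgebra (MvPolynomial t 𝔽) (FractionRing B)
  haveI := FractionRing.isScalarTower_liftAlgebra (MvPolynomial t 𝔽) (FractionRing B)
  obtain ⟨a, μ, u, v, Δ, h1', h2', h3, h4, h5⟩ := BE2.core 𝔽 (MvPolynomial t 𝔽) B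
    (FractionRing (MvPolynomial t 𝔽)) (FractionRing B)
  refine ⟨t, ((s.finite_toSet.insert θ).subset h2).to_subtype, ⟨θ, h1 rfl⟩, a, μ, u, v, Δ, h1', h2',
    h3, h4, fun T _ _ _ ψ w hψ hΔ hw => ?_⟩
  obtain ⟨j, hj, e⟩ := h5 T ψ w hψ hΔ hw
  refine ⟨j, hj, ?_⟩
  rw [← e]
  exact congrArg j (MvPolynomial.aeval_X ((↑) : t → B) ⟨θ, h1 rfl⟩).symm

end Pool.Agent.Lib.TM
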