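import Pool.Agent.Lib.TM.B_INT

/-! The torsion points killed by a nonzero polynomial are finite in number. -/

set_option autoImplicit false

namespace Pool.Agent.Lib.TM

open Polynomial

theorem blockFIN : St_FIN := by
  intro 𝔽 K M ι _ _ _ _ _ _ _ _ _ g hinj hg a ha
  let S : Type := {x : M // a • x = 0}
  let g' : ι → (S → M) →ₗ[𝔽] (S → K) := fun i => (g i).compLeft S
  have h1 : ∀ f ∈ Orb K g, (fun (z : S → M) (s : S) => f (z s)) ∈ Orb K g' := fun f hf => by
    induction hf using Submodule.span_induction with
    | mem _ h =>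
      obtain ⟨j, l, rfl⟩ := h
      exact Submodule.subset_span ⟨j, l, rfl⟩
    | zero => exact (Orb K g').zero_mem
    | add _ _ _ _ h h' => exact (Orb K g').add_mem h h'
    | smul r _ _ h => exact (Orb K g').smul_mem r h
  have hg' : B1 K g' := fun i => h1 _ (hg i)
  have h2 : ∀ i, IsIntegral K (g' i Subtype.val) :=
    blockINT 𝔽 K (S → K) (S → M) ι g' hg' Subtype.val a ha (funext fun s => s.2)
  choose p hp hp0 using h2
  have h3 : ∀ i (s : S), g i s.1 ∈ (p i).rootSet K := fun i s => by
    rw [(hp i).mem_rootSet]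
    have h := congrArg (Pi.evalAlgHom K (fun _ : S => K) s) (show aeval (g' i Subtype.val) (p i) = 0
      from hp0 i)
    rw [← aeval_algHom_apply, map_zero] at h
    exact h
  have h4 : Function.Injective fun (s : S) (i : ι) => (⟨g i s.1, h3 i s⟩ : (p i).rootSet K) := by
    intro s t h
    refine Subtype.ext (sub_eq_zero.1 (hinj _ fun i => ?_))
    rw [map_sub, sub_eq_zero]
    exact congrArg Subtype.val (congrFun h i)
  have h5 : Finite S := Finite.of_injective _ h4
  exact Set.finite_coe_iff.1 h5

end Pool.Agent.Lib.TM
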