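import Pool.Agent.Lib.TM.Util

/-! Block FIX: an integral separable element fixed by all endomorphisms lies in the base ring. -/

set_option autoImplicit false

namespace Pool.Agent.Lib.TM

theorem blockFIX : St_FIX := by
  intro O E Ω _ _ _ _ _ _ _ _ _ _ _ _ y hi hs hf
  have : IsAlgClosure E Ω := ⟨inferInstance, inferInstance⟩
  have h1 : y ∈ (⊥ : Subalgebra E Ω) := by
    by_contra hn
    obtain ⟨z, hz, hc⟩ :=
      (notMem_iff_exists_ne_and_isConjRoot hs (IsAlgClosed.splits _)).1 hn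
    obtain ⟨σ, hσ⟩ := hc.symm.exists_algEquiv
    exact hz ((hf (σ.toAlgHom.restrictScalars O)).symm.trans hσ)
  obtain ⟨e, rfl⟩ := Algebra.mem_bot.1 h1
  obtain ⟨f, rfl⟩ := IsIntegrallyClosed.isIntegral_iff.1
    ((isIntegral_algHom_iff (IsScalarTower.toAlgHom O E Ω) (algebraMap E Ω).injective).1 hi)
  exact ⟨f, IsScalarTower.algebraMap_apply O E Ω f⟩

end Pool.Agent.Lib.TM
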