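import Pool.Agent.Lib.TM.Util

set_option autoImplicit false

namespace Pool.Agent.Lib.TM

open Polynomial Pool.Agent.Lib.MP_795114_nt

namespace BGEO

/-- `b = γ a`, for `a` in the integral closure. -/
def Rel {B K : Type} [CommRing B] [Field K] [Algebra B K]
    (γ : integralClosure B K →ₐ[B] integralClosure B K) (a b : K) : Prop :=
  ∃ v : integralClosure B K, (v : K) = a ∧ (γ v : K) = b

section
variable {B K : Type} [CommRing B] [Field K] [Algebra B K]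
  {γ : integralClosure B K →ₐ[B] integralClosure B K}

theorem Rel.eq {a b : K} (h : Rel γ a b) (v : integralClosure B K) (hv : (v : K) = a) :
    (γ v : K) = b := by
  obtain ⟨w, e, e'⟩ := h
  rw [← e', Subtype.ext (hv.trans e.symm)]

theorem Rel.unique {a b c : K} (h : Rel γ a b) (h' : Rel γ a c) : b = c := by
  obtain ⟨w, e, e'⟩ := h'
  rw [← e', h.eq w e]

theorem Rel.zero : Rel γ (0 : K) 0 := ⟨0, rfl, by simp⟩

theorem Rel.add {a b c d : K} (h : Rel γ a b) (h' : Rel γ c d) : Rel γ (a + c) (b + d) := by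
  obtain ⟨v, rfl, rfl⟩ := h
  obtain ⟨w, rfl, rfl⟩ := h'
  exact ⟨v + w, rfl, by simp⟩

theorem Rel.asp {q s : ℕ} {W : Type} {S : Set (W → K)} {f : W → K} (hf : f ∈ Asp q B s S)
    {x y : W} (h : ∀ g ∈ S, Rel γ (g x) (g y)) : Rel γ (f x) (f y) := by
  refine Asp_induction (p := fun f => Rel γ (f x) (f y)) hf ?_ Rel.zero
    (fun _ _ e e' => e.add e') ?_
  · intro g hg k _
    obtain ⟨v, e, e'⟩ := h g hg
    exact ⟨v ^ q ^ k, by simp [e], by simp [e']⟩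
  · rintro r f ⟨v, e, e'⟩
    exact ⟨r • v, by simp [e], by simp [e']⟩

end

theorem fin_gen (hNOE : St_NOE) (𝔽 : Type) {K W : Type} [Field 𝔽] [Fintype 𝔽] [Field K]
    [Algebra 𝔽 K] {G E : Set (W → K)} (hG : G.Finite) (hE : E ⊆ Asp (Fintype.card 𝔽) K 0 G) :
    ∃ E' : Set (W → K), E'.Finite ∧ E' ⊆ Asp (Fintype.card 𝔽) K 0 G ∧ Zer E' = Zer E := by
  have hle : Asp (Fintype.card 𝔽) K 0 E ≤ Asp (Fintype.card 𝔽) K 0 G := Asp_le_Asp hE
  obtain ⟨s, hs, h1, h2⟩ := hNOE 𝔽 K W G _ hG hle fun f hf => Asp_pow_card hf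
  refine ⟨s, hs, h1.trans hle, ?_⟩
  rw [← Zer_Asp (R := K) (Fintype.card_ne_zero (α := 𝔽)) s, ← h2,
    Zer_Asp (Fintype.card_ne_zero (α := 𝔽))]

theorem descend (𝔽 : Type) {K V : Type} [Field 𝔽] [Field K] [Algebra 𝔽 K] [AddCommGroup V]
    [Module K V] {S T : Set V} (hT : T.Finite) (h : T ⊆ Submodule.span K S) :
    ∃ C : Set K, C.Finite ∧ ∀ B : Subalgebra 𝔽 K, C ⊆ B → T ⊆ Submodule.span B S := by
  choose C hC hC' using fun f : T => span_descend 𝔽 (h f.2)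
  have := hT.to_subtype
  exact ⟨⋃ f, C f, Set.finite_iUnion hC, fun B hB f hf =>
    hC' ⟨f, hf⟩ B ((Set.subset_iUnion C _).trans hB)⟩

end BGEO

open BGEO in
theorem blockGEO (hABS : St_ABS) (hINT : St_INT) (hNOE : St_NOE) : St_GEO := by
  intro 𝔽 K N _ _ _ _ _ _ _ _ _ n r θ co m S E hθ hsep hS hZ hB2 hm hOrb hE
  obtain ⟨S', hS'f, hS', hZS⟩ := fin_gen hNOE 𝔽 (Set.finite_range _) hS
  obtain ⟨E', hE'f, hE', hZE⟩ := fin_gen hNOE 𝔽 (Set.finite_range _) hE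
  rw [← hZE]
  simp only [← hZS] at hZ
  set g : Fin n ⊕ Fin r → N →ₗ[𝔽] K := Sum.elim co m with hg
  have hgK : ∀ i, (g i : N → K) ∈ Asp (Fintype.card 𝔽) K 0 (Fn co) := by
    rintro (i | i)
    · exact mem_Asp ⟨i, rfl⟩
    · exact hm i
  have hOg : Orb K m ≤ Orb K g :=
    Submodule.span_mono fun _ ⟨i, l, e⟩ => ⟨Sum.inr i, l, e⟩
  obtain ⟨C1, f1, d1⟩ := descend 𝔽 hS'f hS'
  obtain ⟨C2, f2, d2⟩ := descend 𝔽 hE'f hE'
  obtain ⟨C3, f3, d3⟩ := descend 𝔽 (Set.finite_range fun i => (g i : N → K))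
    (Set.range_subset_iff.2 hgK)
  obtain ⟨C4, f4, d4⟩ := descend 𝔽 (Set.finite_range fun i => (g i : N → K) ^ Fintype.card 𝔽)
    (Set.range_subset_iff.2 fun i => hOg (hOrb (Asp_pow_card (hgK i))))
  obtain ⟨C5, f5, d5⟩ := descend 𝔽
    (Set.finite_range fun i => (fun x => co i ((X : 𝔽[X]) • x)) - θ • (co i : N → K))
    (Set.range_subset_iff.2 hB2)
  set C : Set K := insert θ (C1 ∪ C2 ∪ C3 ∪ C4 ∪ C5) with hC
  have hCf : C.Finite := ((((f1.union f2).union f3).union f4).union f5).insert θ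
  set B : Subalgebra 𝔽 K := Algebra.adjoin 𝔽 C with hB
  have hCB : C ⊆ B := Algebra.subset_adjoin
  have hFG : B.FG := Subalgebra.fg_def.2 ⟨C, hCf, rfl⟩
  have e1 : S' ⊆ Asp (Fintype.card 𝔽) B 0 (Pr (Fin n) K) :=
    d1 B fun x hx => hCB (by simp [hC, hx])
  have e2 : E' ⊆ Asp (Fintype.card 𝔽) B 0 (Fn co) := d2 B fun x hx => hCB (by simp [hC, hx])
  have e3 : ∀ i, (g i : N → K) ∈ Asp (Fintype.card 𝔽) B 0 (Fn co) := fun i =>
    d3 B (fun x hx => hCB (by simp [hC, hx])) ⟨i, rfl⟩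
  have e4 : B1 B g := fun i => d4 B (fun x hx => hCB (by simp [hC, hx])) ⟨i, rfl⟩
  set θ' : B := ⟨θ, hCB (by simp [hC])⟩ with hθ'
  have e5 : B2 θ' co := fun i => d5 B (fun x hx => hCB (by simp [hC, hx])) ⟨i, rfl⟩
  have hco : Fn co ⊆ Fn g := fun _ ⟨i, e⟩ => ⟨Sum.inl i, e⟩
  have e6 : B2 θ' g := fun i => Asp_mono le_rfl hco (e5.comp_X_sub (e3 i))
  have : Algebra.FiniteType 𝔽 B := (Subalgebra.fg_iff_finiteType B).1 hFG
  have : IsNoetherianRing B := Algebra.FiniteType.isNoetherianRing 𝔽 B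
  set M : Submodule 𝔽[X] N := Submodule.torsion 𝔽[X] N with hM
  have hMem : ∀ x : N, x ∈ M ↔ ∃ a : 𝔽[X], a ≠ 0 ∧ a • x = 0 := fun x =>
    ⟨fun ⟨a, ha⟩ => ⟨a, nonZeroDivisors.ne_zero a.2, ha⟩,
      fun ⟨a, ha, e⟩ => ⟨⟨a, mem_nonZeroDivisors_of_ne_zero ha⟩, e⟩⟩
  set gM : Fin n ⊕ Fin r → M →ₗ[𝔽] K := fun i => g i ∘ₗ M.subtype.restrictScalars 𝔽 with hgM
  have hdat : Dat θ' gM :=
    { tors := fun x => let ⟨a, ha, e⟩ := (hMem x).1 x.2; ⟨a, ha, Subtype.ext e⟩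
      sep := fun x hx => Subtype.ext (hsep x fun i => hx (Sum.inl i))
      b1 := e4.transfer M.subtype (RingHom.id K) (RingHom.id B) (fun _ => rfl) fun _ _ => rfl
      b2 := e6.transfer M.subtype (RingHom.id K) (RingHom.id B) (fun _ => rfl) fun _ _ => rfl }
  set EM : Set (M → K) := (fun e => e ∘ Subtype.val) '' E' with hEM
  have hEMs : EM ⊆ Asp (Fintype.card 𝔽) B 0 (Fn gM) := by
    rintro _ ⟨e, he, rfl⟩
    refine Asp_transfer (S := Fn co) (S' := Fn gM) Subtype.val (RingHom.id K) (RingHom.id B)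
      (fun _ => rfl) ?_ (e2 he)
    rintro _ ⟨i, rfl⟩
    exact ⟨Sum.inl i, rfl⟩
  have hZM : ∀ x : M, x ∈ Zer EM ↔ (x : N) ∈ Zer E' := fun x =>
    ⟨fun h e he => h _ ⟨e, he, rfl⟩, fun h _ ⟨e, he, e'⟩ => e' ▸ h e he⟩
  have hθt : Transcendental 𝔽 θ' := fun h => hθ (h.algebraMap (A := K))
  obtain ⟨J, hJ⟩ := hABS 𝔽 K M _ B θ' gM EM hFG hθt hdat hEMs (by
    intro γ
    let R : N → N → Prop := fun x y => ∀ i, Rel γ (co i x) (co i y)
    have hR : ∀ {x y : N}, R x y → ∀ {f : N → K}, f ∈ Asp (Fintype.card 𝔽) B 0 (Fn co) →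
        Rel γ (f x) (f y) := fun h _ hf => Rel.asp hf fun _ ⟨i, e⟩ => e ▸ h i
    have huniq : ∀ {x y z : N}, R x y → R x z → y = z := fun h h' =>
      sub_eq_zero.1 (hsep _ fun i => by rw [map_sub, (h i).unique (h' i), sub_self])
    have hsm : ∀ (a : 𝔽[X]) {x y : N}, R x y → R (a • x) (a • y) := fun a _ _ h i =>
      hR h (e5.comp_smul a (mem_Asp ⟨i, rfl⟩))
    have hadd : ∀ {x y x' y' : N}, R x y → R x' y' → R (x + x') (y + y') := fun h h' i => by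
      rw [map_add, map_add]; exact (h i).add (h' i)
    have hzero : R 0 0 := fun i => by rw [map_zero]; exact Rel.zero
    have hex : ∀ x : M, ∃ y : M, R x y := fun x => by
      obtain ⟨a, ha, e⟩ := (hMem x).1 x.2
      have hint : ∀ i, IsIntegral B (co i x) := fun i =>
        hINT 𝔽 B K N _ g e4 x a ha e (Sum.inl i)
      have hx : (fun i => co i x) ∈ Zer S' := (hZ _).2 ⟨x, fun _ => rfl⟩
      obtain ⟨y, hy⟩ := (hZ fun i => (γ ⟨co i x, hint i⟩ : K)).1 fun s hs => by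
        have : Rel γ (s fun i => co i x) (s fun i => (γ ⟨co i x, hint i⟩ : K)) :=
          Rel.asp (e1 hs) fun _ ⟨i, e⟩ => e ▸ ⟨⟨co i x, hint i⟩, rfl, rfl⟩
        rw [hx s hs] at this
        exact this.unique Rel.zero
      have hxy : R x y := fun i => ⟨⟨co i x, hint i⟩, rfl, (hy i).symm⟩
      refine ⟨⟨y, (hMem y).2 ⟨a, ha, ?_⟩⟩, hxy⟩
      have := hsm a hxy
      rw [e] at this
      exact huniq this hzero
    choose f hf using hex
    refine ⟨{ toFun := f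
              map_add' := fun x y => Subtype.ext (huniq (hf (x + y)) (hadd (hf x) (hf y)))
              map_smul' := fun a x => Subtype.ext (huniq (hf (a • x)) (hsm a (hf x))) }, ?_⟩
    intro i x v hv
    exact (hR (hf x) (e3 i)).eq v hv)
  refine ⟨J, FI_mono (FI_image hJ M.subtype.toAddMonoidHom) ?_ ?_⟩
  · rintro _ ⟨_, ⟨z, hz, hz', rfl⟩, rfl⟩
    refine ⟨fun j => z j, fun j => (hMem _).1 (z j).2, fun a => ?_, by simp⟩
    simpa using (hZM _).1 (hz' a)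
  · rintro x ⟨hx, hx'⟩
    exact ⟨⟨x, (hMem x).2 hx'⟩, (hZM _).2 hx, rfl⟩

end Pool.Agent.Lib.TM
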