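import Pool.Agent.Lib.TM.Util

/-! Values at torsion points are integral. -/

set_option autoImplicit false

namespace Pool.Agent.Lib.TM

open Polynomial

namespace BINT

theorem orbit_finite {𝔽 M : Type} [Field 𝔽] [Fintype 𝔽] [AddCommGroup M] [Module 𝔽[X] M] {x : M}
    {a : 𝔽[X]} (ha : a ≠ 0) (hx : a • x = 0) : (Set.range fun b : 𝔽[X] => b • x).Finite := by
  have : Finite (degreeLT 𝔽 a.natDegree) :=
    Finite.of_equiv _ (degreeLTEquiv 𝔽 a.natDegree).symm.toEquiv
  refine (Set.finite_range fun b : degreeLT 𝔽 a.natDegree => b.1 • x).subset ?_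
  rintro _ ⟨b, rfl⟩
  refine ⟨⟨b % a, mem_degreeLT.2 ?_⟩, ?_⟩
  · rw [← degree_eq_natDegree ha]
    exact degree_mod_lt b ha
  · conv_rhs => rw [← EuclideanDomain.mod_add_div b a]
    simp only [add_smul, mul_comm a, mul_smul, hx, smul_zero, add_zero]

theorem integral_of_closed {R Ω : Type} [CommRing R] [CommRing Ω] [Algebra R Ω]
    [IsNoetherianRing R] {N : Submodule R Ω} (hN : N.FG) {y : Ω} {d : ℕ → ℕ} (hd : StrictMono d)
    (hy : ∀ k, y ^ d k ∈ N) : IsIntegral R y := by
  have := isNoetherian_of_fg_of_noetherian N hN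
  let C : ℕ → Submodule R Ω := fun k => Submodule.span R {z | ∃ l < k, z = y ^ d l}
  have hC : Monotone C := fun k k' h => Submodule.span_mono fun _ ⟨l, hl, e⟩ => ⟨l, hl.trans_le h, e⟩
  obtain ⟨n, hn⟩ := monotone_stabilizes_iff_noetherian.2 this
    ⟨fun k => (C k).comap N.subtype, fun _ _ h => Submodule.comap_mono (hC h)⟩
  have h1 : y ^ d n ∈ C n := by
    have h : (⟨_, hy n⟩ : N) ∈ (C (n + 1)).comap N.subtype :=
      Submodule.subset_span ⟨n, n.lt_succ_self, rfl⟩
    exact (hn (n + 1) n.le_succ).ge h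
  have h2 : ∀ z ∈ C n, ∃ p : R[X], p.degree < d n ∧ aeval y p = z := fun z hz => by
    induction hz using Submodule.span_induction with
    | mem _ h =>
      obtain ⟨l, hl, rfl⟩ := h
      exact ⟨X ^ d l, (degree_X_pow_le _).trans_lt (by exact_mod_cast hd hl), by simp⟩
    | zero => exact ⟨0, WithBot.bot_lt_coe _, map_zero _⟩
    | add _ _ _ _ h h' =>
      obtain ⟨p, hp, rfl⟩ := h
      obtain ⟨p', hp', rfl⟩ := h'
      exact ⟨p + p', (degree_add_le _ _).trans_lt (max_lt hp hp'), map_add _ _ _⟩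
    | smul r _ _ h =>
      obtain ⟨p, hp, rfl⟩ := h
      exact ⟨r • p, (degree_smul_le _ _).trans_lt hp, map_smul _ _ _⟩
  obtain ⟨p, hp, e⟩ := h2 _ h1
  exact ⟨X ^ d n - p, monic_X_pow_sub hp, by rw [← aeval_def, map_sub, e]; simp⟩

end BINT

open BINT in
theorem blockINT : St_INT := by
  intro 𝔽 R Ω M ι _ _ _ _ _ _ _ _ _ _ _ _ _ _ g hg x a ha hx i
  let N : Submodule R Ω := Submodule.span R {z | ∃ (j : ι) (b : 𝔽[X]), z = g j (b • x)}
  have hN : N.FG := Submodule.fg_span (((Set.finite_univ (α := ι)).image2 (fun j w => g j w)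
    (orbit_finite ha hx)).subset (by rintro _ ⟨j, b, rfl⟩; exact ⟨j, trivial, _, ⟨b, rfl⟩, rfl⟩))
  have h1 : ∀ f ∈ Orb R g, ∀ b : 𝔽[X], f (b • x) ∈ N := fun f hf b => by
    induction hf using Submodule.span_induction with
    | mem _ h =>
      obtain ⟨j, l, rfl⟩ := h
      exact Submodule.subset_span ⟨j, X ^ l * b, by rw [mul_smul]⟩
    | zero => exact N.zero_mem
    | add _ _ _ _ h h' => exact N.add_mem h h'
    | smul r _ _ h => exact N.smul_mem r h
  have h2 : ∀ z ∈ N, z ^ Fintype.card 𝔽 ∈ N := fun z hz => by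
    induction hz using Submodule.span_induction with
    | mem _ h =>
      obtain ⟨j, b, rfl⟩ := h
      exact h1 _ (hg j) b
    | zero => rw [zero_pow Fintype.card_ne_zero]; exact N.zero_mem
    | add u v _ _ h h' =>
      have e := add_pow_q 𝔽 1 u v
      rw [pow_one] at e
      exact e ▸ N.add_mem h h'
    | smul r _ _ h => rw [_root_.smul_pow]; exact N.smul_mem _ h
  exact integral_of_closed hN (pow_right_strictMono₀ (Fintype.one_lt_card (α := 𝔽)))
    (pow_q_mem h2 (Submodule.subset_span ⟨i, 1, by rw [one_smul]⟩))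

end Pool.Agent.Lib.TM
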