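import Pool.Agent.Lib.TM.Util

/-! Inertia has no trivial subquotient on the small torsion points. -/

set_option autoImplicit false

namespace Pool.Agent.Lib.TM

open Polynomial

namespace BL

theorem aeval_ne_zero {𝔽 k : Type} [Field 𝔽] [Field k] [Algebra 𝔽 k] (c : k) {e : ℕ} (he : 0 < e)
    {a : 𝔽[X]} (ha : a ≠ 0) :
    aeval (PowerSeries.C c + PowerSeries.X ^ e : PowerSeries k) a ≠ 0 := by
  have h1 : (PowerSeries.C c + PowerSeries.X ^ e : PowerSeries k) =
      (coeToPowerSeries.algHom k).restrictScalars 𝔽 (X ^ e + C c) := by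
    simp [add_comm]
  rw [h1, aeval_algHom_apply]
  intro h
  have h2 : aeval (X ^ e + C c : k[X]) a = 0 :=
    Polynomial.coe_injective k (by simpa using h)
  rw [← aeval_map_algebraMap k, ← comp_eq_aeval, comp_eq_zero_iff] at h2
  rcases h2 with h2 | ⟨-, h2⟩
  · exact ha ((Polynomial.map_eq_zero _).1 h2)
  · have := congrArg natDegree h2
    rw [natDegree_X_pow_add_C, natDegree_C] at this
    omega

theorem core (hFIX : St_FIX) (hINT : St_INT) (hLC : St_LC) (hPB2 : St_PB2) (hPB3 : St_PB3)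
    (hSEP : St_SEP) (hSUB : St_SUB) {𝔽 k E Ω M ι : Type} [Field 𝔽] [Fintype 𝔽] [Field k]
    [IsAlgClosed k] [Algebra 𝔽 k] [Field Ω] [IsAlgClosed Ω] [Algebra (PowerSeries k) Ω]
    [Algebra 𝔽 Ω] [IsScalarTower 𝔽 (PowerSeries k) Ω] [Field E] [Algebra (PowerSeries k) E]
    [IsFractionRing (PowerSeries k) E] [Algebra E Ω] [IsScalarTower (PowerSeries k) E Ω]
    [Algebra.IsAlgebraic E Ω] [Algebra 𝔽 E] [IsScalarTower 𝔽 (PowerSeries k) E]
    [IsScalarTower 𝔽 E Ω]
    [AddCommGroup M] [Module 𝔽 M] [Module 𝔽[X] M] [IsScalarTower 𝔽 𝔽[X] M] [Finite ι]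
    {c : k} {e : ℕ} {ϖ : 𝔽[X]} {g : ι → M →ₗ[𝔽] Ω} {𝔐 : Submodule (PowerSeries k) Ω}
    {W : Submodule 𝔽[X] M} {w : M} (hO : Function.Injective (algebraMap (PowerSeries k) Ω))
    (he : 0 < e) (hϖ : Irreducible ϖ) (hc0 : aeval c ϖ = 0)
    (hc : ∀ i j, i < j → j ≤ e → c ^ Fintype.card 𝔽 ^ i ≠ c ^ Fintype.card 𝔽 ^ j)
    (hD : Dat (PowerSeries.C c + PowerSeries.X ^ e : PowerSeries k) g)
    (hG : GalFull (PowerSeries k) g) (h1 : (1 : Ω) ∉ 𝔐)
    (hq : ∀ y ∈ 𝔐, y ^ Fintype.card 𝔽 ∈ 𝔐) (hWf : (W : Set M).Finite)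
    (hW : ∀ x ∈ W, ϖ • x = 0 ∧ ∀ i, g i x ∈ 𝔐) (hw0 : ϖ • w = 0) (hw : ∀ i, g i w ∈ 𝔐)
    (hgal : ∀ f, IsGal (PowerSeries k) g f → (∀ x ∈ W, f x ∈ W) ∧ f w - w ∈ W) : w ∈ W := by
  have hsep : ∀ i x, IsSeparable E (g i x) := fun i x => by
    obtain ⟨a, ha, hx⟩ := hD.tors x
    refine hSEP 𝔽 E Ω M ι _ g (hD.b2.transfer LinearMap.id (RingHom.id Ω)
      (algebraMap (PowerSeries k) E) (IsScalarTower.algebraMap_apply _ E Ω) fun _ _ => rfl)
      x a hx ?_ i
    rw [aeval_algebraMap_apply]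
    exact (map_ne_zero_iff _ (IsFractionRing.injective _ _)).2 (aeval_ne_zero c he ha)
  have hint : ∀ i x, IsIntegral (PowerSeries k) (g i x) := fun i x =>
    let ⟨a, ha, hx⟩ := hD.tors x
    hINT 𝔽 _ Ω M ι g hD.b1 x a ha hx i
  have hsep' : ∀ h ∈ Asp (Fintype.card 𝔽) (PowerSeries k) 0 (Fn g), ∀ x, IsSeparable E (h x) :=
    fun h hh x => mem_separableClosure_iff.1 <| Asp_apply_mem
      (N := (separableClosure E Ω).toSubalgebra.toSubmodule.restrictScalars (PowerSeries k)) hh (by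
        rintro _ ⟨i, rfl⟩ n -
        exact pow_mem (mem_separableClosure_iff.2 (hsep i x)) _)
  have hint' : ∀ h ∈ Asp (Fintype.card 𝔽) (PowerSeries k) 0 (Fn g), ∀ x,
      IsIntegral (PowerSeries k) (h x) :=
    fun h hh x => Asp_apply_mem (N := (integralClosure (PowerSeries k) Ω).toSubmodule) hh (by
      rintro _ ⟨i, rfl⟩ n -
      exact (hint i x).pow _)
  have hM : ∀ h ∈ Asp (Fintype.card 𝔽) (PowerSeries k) 0 (Fn g), ∀ x, (∀ i, g i x ∈ 𝔐) →
      h x ∈ 𝔐 := fun h hh x hx => Asp_apply_mem hh (by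
    rintro _ ⟨i, rfl⟩ n -
    exact pow_q_mem hq (hx i) n)
  let W' : Submodule 𝔽[X] M := W ⊔ Submodule.span 𝔽[X] {w}
  have hW' : ∀ x ∈ W', ϖ • x = 0 ∧ (∀ i, g i x ∈ 𝔐) ∧
      ∀ f, IsGal (PowerSeries k) g f → f x - x ∈ W := fun x hx => by
    obtain ⟨y, hy, z, hz, rfl⟩ := Submodule.mem_sup.1 hx
    obtain ⟨a, rfl⟩ := Submodule.mem_span_singleton.1 hz
    refine ⟨by rw [smul_add, (hW y hy).1, smul_comm, hw0, smul_zero, add_zero], fun i => ?_,
      fun f hf => ?_⟩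
    · rw [map_add]
      exact 𝔐.add_mem ((hW y hy).2 i) (hM _ (hD.b2.comp_smul a (mem_Asp ⟨i, rfl⟩)) w hw)
    · rw [map_add, map_smul, add_sub_add_comm, ← smul_sub]
      exact W.add_mem (W.sub_mem ((hgal f hf).1 y hy) hy) (W.smul_mem a (hgal f hf).2)
  let N : Submodule (PowerSeries k) (W' → PowerSeries k) :=
    { carrier := {f | ∃ h ∈ Asp (Fintype.card 𝔽) (PowerSeries k) 0 (Fn g), (∀ x ∈ W, h x = 0) ∧
        ∀ x : W', algebraMap _ Ω (f x) = h x}
      zero_mem' := ⟨0, Submodule.zero_mem _, fun _ _ => rfl, fun _ => map_zero _⟩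
      add_mem' := fun ⟨h, hh, h0, e⟩ ⟨h', hh', h0', e'⟩ => ⟨h + h', Submodule.add_mem _ hh hh',
        fun x hx => by rw [Pi.add_apply, h0 x hx, h0' x hx, add_zero],
        fun x => by rw [Pi.add_apply, map_add, e, e', Pi.add_apply]⟩
      smul_mem' := fun r _ ⟨h, hh, h0, e⟩ => ⟨r • h, Submodule.smul_mem _ r hh,
        fun x hx => by rw [Pi.smul_apply, h0 x hx, smul_zero],
        fun x => by rw [Pi.smul_apply, smul_eq_mul, map_mul, e, Pi.smul_apply, Algebra.smul_def]⟩ }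
  have lift : ∀ h ∈ Asp (Fintype.card 𝔽) (PowerSeries k) 0 (Fn g), (∀ x ∈ W, h x = 0) →
      ∃ f ∈ N, ∀ x : W', algebraMap _ Ω (f x) = h x := fun h hh h0 => by
    have : ∀ x : W', ∃ f : PowerSeries k, algebraMap _ Ω f = h x := fun x =>
      hFIX _ E Ω _ (hint' h hh x) (hsep' h hh x) fun γ => by
        obtain ⟨f, hf⟩ := hG γ
        rw [← Asp_gal hh γ (y := f x) (by rintro _ ⟨i, rfl⟩; exact hf i x)]
        obtain ⟨h, rfl⟩ := Asp_Fn_linear hh
        rw [← sub_eq_zero, ← map_sub]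
        exact h0 _ ((hW' x x.2).2.2 f ⟨γ, hf⟩)
    choose f hf using this
    exact ⟨f, ⟨h, hh, h0, hf⟩, hf⟩
  have hN : N = ⊥ := by
    refine hLC 𝔽 k W' c e ϖ (fun x => (X : 𝔽[X]) • x) N he hϖ hc0 hc ?_ ?_ ?_ ?_
    · rintro f ⟨h, hh, -, e⟩ x
      by_contra hne
      obtain ⟨u, hu⟩ := (PowerSeries.isUnit_iff_constantCoeff.2 (Ne.isUnit hne)).exists_left_inv
      have := 𝔐.smul_mem u (hM h hh x (hW' x x.2).2.1)
      rw [← e, Algebra.smul_def, ← map_mul, hu, map_one] at this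
      exact h1 this
    · rintro f ⟨h, hh, h0, e⟩
      exact ⟨_, hD.b2.comp_X hh, fun x hx => h0 _ (W.smul_mem _ hx), fun x => e _⟩
    · rintro f ⟨h, hh, h0, e'⟩
      obtain ⟨h', hh', hs⟩ := hPB3 𝔽 k M Ω (Fn g) _ (hD.b2.comp_X_sub hh)
      have h0' : ∀ j, j < Fintype.card 𝔽 → ∀ x ∈ W, h' j x = 0 := fun j hj x hx =>
        hPB2 𝔽 k E Ω (fun j => h' j x) (fun j => hsep' _ (hh' j) x) (by
          have := congrFun hs x
          simp only [Pi.sub_apply, Pi.smul_apply, h0 x hx, h0 _ (W.smul_mem X hx), smul_zero,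
            sub_zero, Finset.sum_apply, Pi.pow_apply] at this
          exact this.symm) j hj
      have : ∀ j, ∃ f' ∈ N, j < Fintype.card 𝔽 → ∀ x : W', algebraMap _ Ω (f' x) = h' j x :=
        fun j => by
          by_cases hj : j < Fintype.card 𝔽
          · obtain ⟨f', hf', e⟩ := lift _ (hh' j) (h0' j hj)
            exact ⟨f', hf', fun _ => e⟩
          · exact ⟨0, N.zero_mem, fun h => (hj h).elim⟩
      choose f' hf' e'' using this
      have : f ∘ (fun x : W' => (X : 𝔽[X]) • x) -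
          (PowerSeries.C c + PowerSeries.X ^ e : PowerSeries k) • f =
          ∑ j ∈ Finset.range (Fintype.card 𝔽),
            (PowerSeries.X : PowerSeries k) ^ j • f' j ^ Fintype.card 𝔽 ^ 1 := by
        refine funext fun x => hO ?_
        have := congrFun hs x
        simp only [Pi.sub_apply, Pi.smul_apply, Finset.sum_apply, Pi.pow_apply] at this
        simp only [Algebra.smul_def] at this
        simp only [Pi.sub_apply, Pi.smul_apply, Finset.sum_apply, Pi.pow_apply, smul_eq_mul,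
          Function.comp_apply, map_sub, map_mul, e', map_sum, pow_one]
        refine this.trans (Finset.sum_congr rfl fun j hj => ?_)
        rw [map_pow _ (f' j x), e'' j (Finset.mem_range.1 hj)]
      rw [this]
      exact Submodule.sum_mem _ fun j _ => Submodule.smul_mem _ _ (pow_mem_Asp (hf' j) le_rfl)
    · rintro f ⟨h, hh, -, e'⟩ x
      obtain ⟨h, rfl⟩ := Asp_Fn_linear hh
      refine hO ?_
      have h2 : ∀ m, (fun x : W' => (X : 𝔽[X]) • x)^[m] x = (X : 𝔽[X]) ^ m • x := fun m => by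
        rw [smul_iterate]
      rw [map_zero, map_sum, ← map_zero h, ← (hW' x x.2).1]
      conv_rhs => rw [ϖ.as_sum_range_C_mul_X_pow, Finset.sum_smul, map_sum]
      refine Finset.sum_congr rfl fun m _ => ?_
      rw [h2, Algebra.smul_def, map_mul, e', ← IsScalarTower.algebraMap_apply, ← Algebra.smul_def,
        ← smul_eq_C_mul, smul_assoc, map_smul]
      rfl
  by_contra hne
  obtain ⟨h, hh, h0, hw'⟩ := hSUB 𝔽 k (PowerSeries k) E Ω M ι g W w hWf hD.sep hint hsep hG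
    (fun f hf => (hgal f hf).1) hne
  obtain ⟨f, hf, e'⟩ := lift h hh h0
  rw [hN, Submodule.mem_bot] at hf
  have := e' ⟨w, Submodule.mem_sup_right (Submodule.mem_span_singleton_self w)⟩
  rw [hf, Pi.zero_apply, map_zero] at this
  exact hw' this.symm

end BL

theorem blockL (hFIX : St_FIX) (hINT : St_INT) (hLC : St_LC) (hPB2 : St_PB2) (hPB3 : St_PB3)
    (hSEP : St_SEP) (hSUB : St_SUB) : St_L := by
  intro 𝔽 k Ω M ι _ _ _ _ _ _ _ _ _ _ _ _ _ _ _ _ c e ϖ g 𝔐 W w hO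
  have : FaithfulSMul (PowerSeries k) Ω := (faithfulSMul_iff_algebraMap_injective _ _).2 hO
  let _ : Algebra (FractionRing (PowerSeries k)) Ω := FractionRing.liftAlgebra _ Ω
  have : IsScalarTower (PowerSeries k) (FractionRing (PowerSeries k)) Ω :=
    FractionRing.isScalarTower_liftAlgebra _ Ω
  have : Algebra.IsAlgebraic (FractionRing (PowerSeries k)) Ω :=
    IsFractionRing.comap_isAlgebraic_iff.1
      (inferInstance : Algebra.IsAlgebraic (PowerSeries k) Ω)
  have : IsScalarTower 𝔽 (FractionRing (PowerSeries k)) Ω :=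
    IsScalarTower.of_algebraMap_eq fun a => by
      rw [IsScalarTower.algebraMap_apply 𝔽 (PowerSeries k) (FractionRing (PowerSeries k)),
        ← IsScalarTower.algebraMap_apply, ← IsScalarTower.algebraMap_apply]
  exact BL.core (E := FractionRing (PowerSeries k)) hFIX hINT hLC hPB2 hPB3 hSEP hSUB hO

end Pool.Agent.Lib.TM
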