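import Pool.Agent.Lib.TM.Util

/-! The local computation at a point of finite characteristic. -/

set_option autoImplicit false

namespace Pool.Agent.Lib.TM

open Polynomial

namespace BLC

variable {k W : Type} [Field k]

/-- Functions with all values divisible by `t ^ m`. -/
def Dv (k W : Type) [Field k] (m : ℕ) : Submodule (PowerSeries k) (W → PowerSeries k) where
  carrier := {f | ∀ w, PowerSeries.X ^ m ∣ f w}
  zero_mem' _ := dvd_zero _
  add_mem' h h' w := dvd_add (h w) (h' w)
  smul_mem' r _ h w := (h w).mul_left r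

theorem Dv_mono {m m' : ℕ} (h : m' ≤ m) : Dv k W m ≤ Dv k W m' :=
  fun _ hf w => (pow_dvd_pow _ h).trans (hf w)

theorem Dv_smul {m : ℕ} (a : ℕ) {f : W → PowerSeries k} (hf : f ∈ Dv k W m) :
    (PowerSeries.X ^ a : PowerSeries k) • f ∈ Dv k W (a + m) := fun w => by
  rw [pow_add]; exact mul_dvd_mul_left _ (hf w)

theorem Dv_aeval (φ : W → W) (p : k[X]) {m : ℕ} {f : W → PowerSeries k} (hf : f ∈ Dv k W m) :
    aeval (LinearMap.funLeft k (PowerSeries k) φ : Module.End k _) p f ∈ Dv k W m :=
  aeval_apply_smul_mem_of_le_comap (q := (Dv k W m).restrictScalars k) hf p _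
    fun _ h w => h (φ w)

theorem xc_apply (φ : W → W) (c : k) (f : W → PowerSeries k) :
    aeval (LinearMap.funLeft k (PowerSeries k) φ : Module.End k _) (X - C c) f =
      f ∘ φ - (PowerSeries.C c : PowerSeries k) • f := by
  ext w : 1
  simp [LinearMap.funLeft_apply, Module.algebraMap_end_apply, PowerSeries.smul_eq_C_mul]

theorem it_apply (φ : W → W) (m : ℕ) (f : W → PowerSeries k) (w : W) :
    ((LinearMap.funLeft k (PowerSeries k) φ : Module.End k _) ^ m) f w = f (φ^[m] w) := by
  induction m generalizing w with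
  | zero => rfl
  | succ m ih => rw [pow_succ', Module.End.mul_apply, LinearMap.funLeft_apply, ih]; rfl

end BLC

open BLC in
theorem blockLC : St_LC := by
  intro 𝔽 k W _ _ _ _ c e ϖ φ N he hirr hc hne h0 hφ hθ hϖ
  set q := Fintype.card 𝔽 with hq
  have hq2 : 2 ≤ q := Fintype.one_lt_card
  set T : Module.End k (W → PowerSeries k) := LinearMap.funLeft k (PowerSeries k) φ with hT
  obtain ⟨h, hh⟩ : ∏ j ∈ Finset.range (e + 1), (X - C (c ^ q ^ j)) ∣ ϖ.map (algebraMap 𝔽 k) :=
    Finset.prod_dvd_of_coprime (fun i hi j hj hij => isCoprime_X_sub_C_of_isUnit_sub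
      (sub_ne_zero.mpr (by
        simp only [Finset.coe_range, Set.mem_Iio] at hi hj
        rcases lt_or_gt_of_ne hij with h | h
        exacts [hne i j h (by omega), (hne j i h (by omega)).symm])).isUnit) fun j _ => by
      rw [dvd_iff_isRoot, IsRoot, eval_map_algebraMap, hq, ← frob_pow_apply, aeval_algHom_apply, hc,
        map_zero]
  rw [Finset.prod_range_succ', pow_zero, pow_one, mul_right_comm, mul_comm _ h] at hh
  set P : ℕ → k[X] := fun j => ∏ i ∈ Finset.range j, (X - C (c ^ q ^ (i + 1))) with hP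
  have hR : (h * P e).eval c ≠ 0 := fun h1 => by
    obtain ⟨r, hr⟩ := dvd_iff_isRoot.mpr h1
    exact not_isUnit_X_sub_C c ((PerfectField.separable_of_irreducible hirr).map.squarefree (X - C c)
      ⟨r, by rw [hh, hr]; ring⟩)
  have hA : ∀ j, ∀ g ∈ Asp q (PowerSeries k) j (N : Set (W → PowerSeries k)),
      g ∘ φ ∈ Asp q (PowerSeries k) j (N : Set (W → PowerSeries k)) := fun j g hg => by
    simpa using Asp_comp (t := 0) φ (fun g hg => mem_Asp (hφ g hg)) hg
  have hB : ∀ j, ∀ g ∈ Asp q (PowerSeries k) j (N : Set (W → PowerSeries k)),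
      g ∘ φ - (PowerSeries.C c + PowerSeries.X ^ e : PowerSeries k) ^ q ^ j • g ∈
        Asp q (PowerSeries k) (j + 1) (N : Set (W → PowerSeries k)) := fun j g hg => by
    refine Asp_induction (p := fun g => g ∘ φ - (PowerSeries.C c + PowerSeries.X ^ e :
      PowerSeries k) ^ q ^ j • g ∈ Asp q (PowerSeries k) (j + 1) (N : Set (W → PowerSeries k))) hg
      (fun g hg l hl => ?_) ?_ (fun f f' a b => ?_) fun r f a => ?_
    · rcases hl.eq_or_lt with rfl | hl
      · have := Asp_pow (hθ g hg) j
        rwa [sub_pow_q, _root_.smul_pow, add_comm 1] at this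
      · exact Submodule.sub_mem _ (hA _ _ (pow_mem_Asp hg hl))
          (Submodule.smul_mem _ _ (pow_mem_Asp hg hl))
    · convert Submodule.zero_mem _; ext : 1; simp
    · convert Submodule.add_mem _ a b using 1; ext : 1; simp; ring
    · convert Submodule.smul_mem _ r a using 1; ext : 1; simp; ring
  have step : ∀ ν, 0 < ν → N ≤ Dv k W ν → N ≤ Dv k W (ν + 1) := fun ν hν hN f hf => by
    have h1 : ∀ j, Asp q (PowerSeries k) j (N : Set (W → PowerSeries k)) ≤ Dv k W (ν * q ^ j) :=
      fun j => Asp_le fun g hg l hl => Dv_mono (Nat.mul_le_mul_left _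
        (Nat.pow_le_pow_right (by omega) hl)) fun w => by
          rw [pow_mul]; exact pow_dvd_pow_of_dvd (hN hg w) _
    have h2 : ∀ g ∈ Asp q (PowerSeries k) 1 (N : Set (W → PowerSeries k)), ∀ j, aeval T (P j) g ∈
        Asp q (PowerSeries k) (j + 1) (N : Set (W → PowerSeries k)) ⊔ Dv k W (e + (ν + 1)) := by
      intro g hg j
      induction j with
      | zero => simpa [hP] using Submodule.mem_sup_left hg
      | succ j ih =>
        obtain ⟨a, ha, b, hb, hab⟩ := Submodule.mem_sup.mp ih
        have h3 : 2 ≤ q ^ (j + 1) := hq2.trans (Nat.le_self_pow (by omega) q)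
        simp only [hP] at hab ⊢
        rw [Finset.prod_range_succ, mul_comm, map_mul, Module.End.mul_apply, ← hab, map_add]
        refine add_mem ?_ (Submodule.mem_sup_right (Dv_aeval φ _ hb))
        convert add_mem (Submodule.mem_sup_left (hB _ a ha)) (Submodule.mem_sup_right
          (Dv_mono (m' := e + (ν + 1)) (by nlinarith)
            (Dv_smul (e * q ^ (j + 1)) (h1 _ ha)))) using 1
        rw [xc_apply, add_pow_q, add_smul, map_pow, pow_mul]
        abel
    have h3 : e + (ν + 1) ≤ ν * q ^ (e + 1) := by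
      have := (Nat.lt_two_pow_self (n := e + 1)).trans_le (Nat.pow_le_pow_left hq2 _)
      nlinarith
    have h4 := Dv_aeval φ h ((sup_le ((h1 _).trans (Dv_mono h3)) le_rfl) (h2 _ (hθ f hf) e))
    have h5 : aeval T (ϖ.map (algebraMap 𝔽 k)) f = 0 := funext fun w => by
      rw [aeval_eq_sum_range' (natDegree_map_le.trans_lt (Nat.lt_succ_self _)), LinearMap.sum_apply,
        Finset.sum_apply, Pi.zero_apply, ← hϖ f hf w]
      refine Finset.sum_congr rfl fun m _ => ?_
      rw [LinearMap.smul_apply, Pi.smul_apply, it_apply, coeff_map, algebraMap_smul]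
    have h6 : aeval T (X - C c) f = (f ∘ φ - (PowerSeries.C c + PowerSeries.X ^ e :
        PowerSeries k) • f) + (PowerSeries.X ^ e : PowerSeries k) • f := by
      rw [xc_apply, add_smul]; abel
    have h7 : aeval T (X - C c) ((PowerSeries.X ^ e : PowerSeries k) • f) ∈
        Dv k W (e + (ν + 1)) := by
      convert Dv_smul e (show aeval T (X - C c) f ∈ Dv k W (ν + 1) from h6 ▸ add_mem
        (Dv_mono (by nlinarith) (h1 _ (hθ f hf))) (Dv_mono (by omega) (Dv_smul e (hN hf)))) using 1
      rw [xc_apply, xc_apply]; ext : 1; simp; ring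
    obtain ⟨r, hr⟩ := X_sub_C_dvd_sub_C_eval (p := h * P e) (a := c)
    have h8 := Dv_aeval φ r h7
    rw [← Module.End.mul_apply, ← map_mul, mul_comm r, ← hr, map_sub, LinearMap.sub_apply, aeval_C,
      Module.algebraMap_end_apply] at h8
    rw [hh, map_mul, Module.End.mul_apply, h6, map_add, add_eq_zero_iff_eq_neg'] at h5
    rw [← Module.End.mul_apply, ← map_mul] at h4
    intro w
    have h9 := (neg_mem (add_mem h8 h4)) w
    rw [h5, sub_add_eq_add_sub, neg_add_cancel, zero_sub, neg_neg, Pi.smul_apply, Pi.smul_apply,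
      pow_add, smul_eq_mul, ← mul_smul_comm, mul_dvd_mul_iff_left (pow_ne_zero _ PowerSeries.X_ne_zero),
      PowerSeries.smul_eq_C_mul] at h9
    exact ((IsUnit.mk0 _ hR).map PowerSeries.C).dvd_mul_left.mp h9
  have all : ∀ ν, N ≤ Dv k W (ν + 1) := fun ν => by
    induction ν with
    | zero => exact fun f hf w => by simpa using PowerSeries.X_dvd_iff.mpr (h0 f hf w)
    | succ ν ih => exact step _ ν.succ_pos ih
  exact (Submodule.eq_bot_iff _).mpr fun f hf => funext fun w => PowerSeries.ext fun m =>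
    PowerSeries.X_pow_dvd_iff.mp (all m hf w) m m.lt_succ_self

end Pool.Agent.Lib.TM
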