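import Pool.Agent.Lib.TM.Util

/-! Block LT: comparison of lowest terms. -/

set_option autoImplicit false

namespace Pool.Agent.Lib.TM

open Polynomial Pool.Agent.Lib.MP_795114_nt

namespace BLT

variable (𝔽 : Type) {K : Type} [Field 𝔽] [Fintype 𝔽] [Field K] [Algebra 𝔽 K]

/-- The operator `f` has order at least `m` and coefficient `c` in degree `m`. -/
def Lo (m : ℕ) (c : K) (f : Module.End 𝔽 K) : Prop :=
  ∃ w : K[X], lin 𝔽 w = f ∧ X ^ m ∣ w ∧ w.coeff m = c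

/-- The two facts on products that are used. -/
def Sk (K : Type) [Field K] [Algebra 𝔽 K] : Prop :=
  Function.Injective (lin 𝔽 : K[X] → Module.End 𝔽 K) ∧
    ∀ (u v : K[X]) (m n : ℕ), X ^ m ∣ u → X ^ n ∣ v → ∃ w : K[X], lin 𝔽 w = lin 𝔽 u * lin 𝔽 v ∧
      X ^ (m + n) ∣ w ∧ w.coeff (m + n) = u.coeff m * v.coeff n ^ Fintype.card 𝔽 ^ m

variable {𝔽}

theorem Lo.mul (h : Sk 𝔽 K) {m n : ℕ} {c d : K} {f g : Module.End 𝔽 K} (hf : Lo 𝔽 m c f)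
    (hg : Lo 𝔽 n d g) : Lo 𝔽 (m + n) (c * d ^ Fintype.card 𝔽 ^ m) (f * g) := by
  obtain ⟨u, rfl, hu, rfl⟩ := hf
  obtain ⟨v, rfl, hv, rfl⟩ := hg
  exact h.2 u v m n hu hv

theorem Lo.one : Lo 𝔽 0 (1 : K) 1 := by
  refine ⟨monomial 0 1, ?_, by simp, by simp⟩
  ext x
  rw [lin_monomial]
  simp

theorem Lo.pow (h : Sk 𝔽 K) {c : K} {f : Module.End 𝔽 K} (hf : Lo 𝔽 0 c f) (k : ℕ) :
    Lo 𝔽 0 (c ^ k) (f ^ k) := by
  induction k with
  | zero => simpa using Lo.one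
  | succ k ih => simpa [pow_succ] using ih.mul h hf

theorem Lo.sub {m : ℕ} {c d : K} {f g : Module.End 𝔽 K} (hf : Lo 𝔽 m c f) (hg : Lo 𝔽 m d g) :
    Lo 𝔽 m (c - d) (f - g) := by
  obtain ⟨u, rfl, hu, rfl⟩ := hf
  obtain ⟨v, rfl, hv, rfl⟩ := hg
  exact ⟨u - v, map_sub _ _ _, dvd_sub hu hv, coeff_sub _ _ _⟩

theorem Lo.uniq (h : Sk 𝔽 K) {m : ℕ} {c d : K} {f : Module.End 𝔽 K} (hf : Lo 𝔽 m c f)
    (hg : Lo 𝔽 m d f) : c = d := by
  obtain ⟨u, rfl, -, rfl⟩ := hf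
  obtain ⟨v, e, -, rfl⟩ := hg
  rw [h.1 e]

theorem Lo.zero (m : ℕ) : Lo 𝔽 m (0 : K) 0 := ⟨0, map_zero _, dvd_zero _, coeff_zero _⟩

theorem lo_trail (u : K[X]) : Lo 𝔽 u.natTrailingDegree u.trailingCoeff (lin 𝔽 u) :=
  ⟨u, rfl, X_pow_dvd_iff.2 fun _ hd => coeff_eq_zero_of_lt_natTrailingDegree hd, rfl⟩

omit [Fintype 𝔽] in
theorem pow_inj {θ : K} (hθ : Transcendental 𝔽 θ) {a b : ℕ} (h : θ ^ a = θ ^ b) : a = b := by
  have h1 : (X ^ a - X ^ b : 𝔽[X]) = 0 :=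
    transcendental_iff.1 hθ _ (by simp only [map_sub, map_pow, aeval_X, h, sub_self])
  have h2 := congrArg natDegree (sub_eq_zero.1 h1)
  simpa using h2

/-- The operator `v ↦ A v - v B`. -/
noncomputable def dd (A B : Module.End 𝔽 K) : Module.End 𝔽 (Module.End 𝔽 K) :=
  LinearMap.mulLeft 𝔽 A - LinearMap.mulRight 𝔽 B

theorem dd_pow (A B u : Module.End 𝔽 K) (j : ℕ) :
    (dd A B ^ Fintype.card 𝔽 ^ j) u =
      A ^ Fintype.card 𝔽 ^ j * u - u * B ^ Fintype.card 𝔽 ^ j := by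
  obtain ⟨p, hp, n, hpp, hn⟩ := FiniteField.card' 𝔽
  have : Fact p.Prime := ⟨hpp⟩
  have : CharP (Module.End 𝔽 (Module.End 𝔽 K)) p :=
    charP_of_injective_algebraMap (algebraMap 𝔽 _).injective p
  have h := sub_pow_char_pow_of_commute (R := Module.End 𝔽 (Module.End 𝔽 K)) p (n * j)
    (LinearMap.commute_mulLeft_right (R := 𝔽) A B)
  rw [LinearMap.pow_mulLeft, LinearMap.pow_mulRight] at h
  rw [hn, ← pow_mul]
  exact LinearMap.congr_fun h u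

theorem Lo.dd (h : Sk 𝔽 K) {m : ℕ} {a b c : K} {A B f : Module.End 𝔽 K} (hA : Lo 𝔽 0 a A)
    (hB : Lo 𝔽 0 b B) (hf : Lo 𝔽 m c f) :
    Lo 𝔽 m ((a - b ^ Fintype.card 𝔽 ^ m) * c) (dd A B f) := by
  have h1 := hA.mul h hf
  have h2 := hf.mul h hB
  rw [zero_add, pow_zero, pow_one] at h1
  rw [add_zero] at h2
  have h3 := h1.sub h2
  rwa [mul_comm c, ← sub_mul] at h3

theorem Lo.dd_pow (h : Sk 𝔽 K) {m : ℕ} {a b c : K} {A B f : Module.End 𝔽 K} (hA : Lo 𝔽 0 a A)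
    (hB : Lo 𝔽 0 b B) (hf : Lo 𝔽 m c f) (k : ℕ) :
    Lo 𝔽 m ((a - b ^ Fintype.card 𝔽 ^ m) ^ k * c) ((BLT.dd A B ^ k) f) := by
  induction k with
  | zero => simpa using hf
  | succ k ih =>
    rw [pow_succ', pow_succ', mul_assoc, Module.End.mul_apply]
    exact Lo.dd h hA hB ih

end BLT

open BLT

theorem blockLT (hSK1 : St_SK1) : St_LT := by
  intro 𝔽 K _ _ _ _ _ θ α β u j j' hθ hα hβ hu e
  have h : Sk 𝔽 K := ⟨(hSK1 𝔽 K).1, (hSK1 𝔽 K).2.1⟩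
  have lα : Lo 𝔽 0 θ (lin 𝔽 α) := ⟨α, rfl, by simp, hα⟩
  have lβ : Lo 𝔽 0 θ (lin 𝔽 β) := ⟨β, rfl, by simp, hβ⟩
  have lu := lo_trail (𝔽 := 𝔽) u
  have hc : u.trailingCoeff ≠ 0 := trailingCoeff_eq_zero.not.2 hu
  set m := u.natTrailingDegree
  set c := u.trailingCoeff
  have hm : j + m = j' := by
    have h1 := lu.mul h (lβ.pow h (Fintype.card 𝔽 ^ j))
    have h2 := (lα.pow h (Fintype.card 𝔽 ^ j')).mul h lu
    rw [add_zero, e] at h1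
    rw [zero_add, pow_zero, pow_one] at h2
    have h3 := h1.uniq h h2
    rw [mul_comm c, ← pow_mul, ← pow_add] at h3
    exact q_pow_inj 𝔽 (pow_inj hθ (mul_right_cancel₀ hc h3))
  have hm' : j' - j = m := by omega
  refine ⟨by omega, ?_⟩
  rw [hm']
  have lA := lα.pow h (Fintype.card 𝔽 ^ m)
  set A := lin 𝔽 α ^ Fintype.card 𝔽 ^ m with hA
  have h0 : (dd A (lin 𝔽 β) ^ Fintype.card 𝔽 ^ j) (lin 𝔽 u) = 0 := by
    rw [dd_pow, hA, ← pow_mul, ← pow_add, add_comm m, hm, e, sub_self]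
  obtain ⟨w, hw, -, hw0⟩ := Lo.dd h lA lβ lu
  rw [sub_self, zero_mul] at hw0
  have hw1 : w = 0 := by
    by_contra hne
    have hc' : w.trailingCoeff ≠ 0 := trailingCoeff_eq_zero.not.2 hne
    have h1 := Lo.dd_pow h lA lβ (lo_trail (𝔽 := 𝔽) w) (Fintype.card 𝔽 ^ j)
    rw [hw, ← Module.End.mul_apply, ← pow_succ, pow_succ', Module.End.mul_apply, h0,
      map_zero] at h1
    have h2 := h1.uniq h (Lo.zero _)
    have h3 := pow_eq_zero_iff (q_pow_ne_zero 𝔽 j) |>.1 ((mul_eq_zero.1 h2).resolve_right hc')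
    have h4 := q_pow_inj 𝔽 (pow_inj hθ (sub_eq_zero.1 h3))
    exact hc' (by rw [trailingCoeff, ← h4, hw0])
  rw [hw1, map_zero] at hw
  exact (sub_eq_zero.1 hw.symm).symm

end Pool.Agent.Lib.TM
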