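import Pool.Agent.Lib.TM.Util

/-! The residue map on the integral closure of a power series ring. -/

set_option autoImplicit false

namespace Pool.Agent.Lib.TM

open Polynomial IsLocalRing

namespace BN1

theorem dist {A : Type} [CommRing A] [IsDomain A] [IsLocalRing A]
    [IsAdicComplete (maximalIdeal A) A] {μ : A[X]} (hm : μ.Monic) (hi : Irreducible μ)
    (h0 : μ.coeff 0 ∈ maximalIdeal A) : μ.IsDistinguishedAt (maximalIdeal A) := by
  obtain ⟨f, h, H⟩ := (μ : PowerSeries A).exists_isWeierstrassFactorization fun h => by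
    have := congrArg (PowerSeries.coeff μ.natDegree) h
    simp [hm.coeff_natDegree] at this
  have hd : f ∣ μ := by
    rw [← Ideal.mem_span_singleton, ← Ideal.Quotient.eq_zero_iff_mem]
    refine H.isDistinguishedAt.algEquivQuotient.injective ?_
    rw [map_zero]
    exact Ideal.Quotient.eq_zero_iff_mem.2 (Ideal.mem_span_singleton.2 ⟨h, H.eq_mul⟩)
  rcases hi.dvd_iff.1 hd with hu | ha
  · have h1 := H.eq_mul
    rw [H.isDistinguishedAt.monic.eq_one_of_isUnit hu, Polynomial.coe_one, one_mul] at h1
    have h2 := PowerSeries.isUnit_iff_constantCoeff.1 (h1 ▸ H.isUnit)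
    rw [Polynomial.constantCoeff_coe] at h2
    exact ((mem_maximalIdeal _).1 h0 h2).elim
  · exact eq_of_monic_of_associated hm H.isDistinguishedAt.monic ha ▸ H.isDistinguishedAt

theorem exists_res {O S k : Type} [CommRing O] [CommRing S] [Algebra O S] [Algebra.IsIntegral O S]
    [Field k] [IsAlgClosed k] (hO : Function.Injective (algebraMap O S)) (r : O →+* k)
    (hr : Function.Surjective r) : ∃ res : S →+* k, ∀ f, res (algebraMap O S f) = r f := by
  have := RingHom.ker_isMaximal_of_surjective r hr
  obtain ⟨Q, hQ, hQ'⟩ := Ideal.exists_ideal_over_maximal_of_isIntegral (S := S) (RingHom.ker r)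
    (by rw [(RingHom.injective_iff_ker_eq_bot _).1 hO]; exact bot_le)
  have : Q.LiesOver (RingHom.ker r) := ⟨hQ'.symm⟩
  let _ : Algebra (O ⧸ RingHom.ker r) k := (RingHom.kerLift r).toAlgebra
  have : FaithfulSMul (O ⧸ RingHom.ker r) k :=
    (faithfulSMul_iff_algebraMap_injective _ _).2 (RingHom.kerLift_injective r)
  have : FaithfulSMul (O ⧸ RingHom.ker r) (S ⧸ Q) := inferInstance
  have : Module.IsTorsionFree (O ⧸ RingHom.ker r) (S ⧸ Q) :=
    Module.isTorsionFree_iff_faithfulSMul.2 this
  let l : (S ⧸ Q) →ₐ[O ⧸ RingHom.ker r] k := IsAlgClosed.lift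
  exact ⟨l.toRingHom.comp (Ideal.Quotient.mk Q), fun f => l.commutes (Ideal.Quotient.mk _ f)⟩

end BN1

theorem blockN1 : St_N1 := by
  intro k Ω _ _ _ _ hO
  have hS : Function.Injective (algebraMap (PowerSeries k) (integralClosure (PowerSeries k) Ω)) :=
    fun a b h => hO (congrArg Subtype.val h)
  obtain ⟨res, hres⟩ := BN1.exists_res hS PowerSeries.constantCoeff fun c => ⟨PowerSeries.C c, rfl⟩
  refine ⟨res, hres, fun γ τ hγ x y hy => ?_⟩
  have : IsAdicComplete (maximalIdeal (PowerSeries k)) (PowerSeries k) := by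
    rw [PowerSeries.maximalIdeal_eq_span_X]; infer_instance
  have hmax : ∀ f : PowerSeries k, f ∈ maximalIdeal _ ↔ PowerSeries.constantCoeff f = 0 :=
    fun f => by rw [PowerSeries.maximalIdeal_eq_span_X, Ideal.mem_span_singleton,
      PowerSeries.X_dvd_iff]
  set m := x - algebraMap (PowerSeries k) _ (PowerSeries.C (res x)) with hm
  set m' := y - algebraMap (PowerSeries k) _ (PowerSeries.C (τ (res x))) with hm'
  have h1 : (m' : Ω) = γ m := by
    change (y : Ω) - algebraMap (PowerSeries k) Ω _ = γ (x - algebraMap (PowerSeries k) Ω _)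
    rw [map_sub, hγ, hy, PowerSeries.map_C]
  have h2 : res m = 0 := by rw [hm, map_sub, hres, PowerSeries.constantCoeff_C, sub_self]
  have hi : IsIntegral (PowerSeries k) m := Algebra.IsIntegral.isIntegral m
  have h3 := minpoly.aeval (PowerSeries k) m
  have hd := BN1.dist (minpoly.monic hi) (minpoly.irreducible hi) (by
    have := congrArg res h3
    rw [aeval_def, hom_eval₂, h2, eval₂_at_zero, map_zero] at this
    exact (hmax _).2 ((hres _).symm.trans this))
  rw [(minpoly.monic hi).as_sum] at h3
  have h4 : m' ^ (minpoly (PowerSeries k) m).natDegree +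
      ∑ i ∈ Finset.range (minpoly (PowerSeries k) m).natDegree, algebraMap (PowerSeries k) _
        (PowerSeries.map τ ((minpoly (PowerSeries k) m).coeff i)) * m' ^ i = 0 := by
    have := congrArg (fun z : integralClosure (PowerSeries k) Ω => γ z) h3
    refine Subtype.ext ?_
    simpa [h1, hγ] using this
  have h5 := congrArg res h4
  rw [map_add, map_sum, map_zero, Finset.sum_eq_zero, add_zero, map_pow] at h5
  · have h6 := pow_eq_zero_iff (minpoly.natDegree_pos hi).ne' |>.1 h5
    rwa [hm', map_sub, hres, PowerSeries.constantCoeff_C, sub_eq_zero] at h6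
  · intro i hi'
    have := (hmax _).1 (hd.mem (Finset.mem_range.1 hi'))
    rw [map_mul, hres]
    exact mul_eq_zero_of_left ((congrArg τ this).trans (map_zero τ)) _

end Pool.Agent.Lib.TM
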