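import Pool.Agent.Lib.TM.Util

/-! Block N2: embedding of a normal integral extension. -/

set_option autoImplicit false

namespace Pool.Agent.Lib.TM

open Polynomial

theorem blockN2 : St_N2 := by
  intro B V Ω _ _ _ _ _ _ _ _ j hi hj hs
  letI := j.toAlgebra
  haveI : FaithfulSMul B V := (faithfulSMul_iff_algebraMap_injective B V).2 hi
  haveI : FaithfulSMul B Ω := (faithfulSMul_iff_algebraMap_injective B Ω).2 hj
  let ρ : V →ₐ[B] Ω := IsAlgClosed.lift
  have h1 : Function.Injective ρ := by
    have : RingHom.ker (ρ : V →+* Ω) = ⊥ := Ideal.eq_bot_of_comap_eq_bot (R := B) (by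
      rw [RingHom.comap_ker, ρ.comp_algebraMap]
      exact (RingHom.injective_iff_ker_eq_bot _).1 hj)
    exact (RingHom.injective_iff_ker_eq_bot (ρ : V →+* Ω)).2 this
  refine ⟨ρ, h1, ρ.commutes, fun γ hγ => ?_⟩
  let γA : Ω →ₐ[B] Ω := ⟨γ, hγ⟩
  have h2 : ∀ v, ∃ w, ρ w = γA (ρ v) := fun v => by
    obtain ⟨p, hp, h0⟩ := Algebra.IsIntegral.isIntegral (R := B) v
    obtain ⟨s, e⟩ := hs p hp
    have h3 : aeval (γA (ρ v)) p = 0 := by
      rw [aeval_algHom_apply, aeval_algHom_apply, aeval_def, h0, map_zero, map_zero]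
    rw [aeval_def, ← ρ.comp_algebraMap, ← eval₂_map, e, eval₂_multiset_prod, Multiset.map_map,
      Multiset.prod_eq_zero_iff, Multiset.mem_map] at h3
    obtain ⟨w, -, h4⟩ := h3
    refine ⟨w, (sub_eq_zero.1 ?_).symm⟩
    simpa using h4
  choose g hg using h2
  exact ⟨{ toFun := g
           map_one' := h1 (by simp [hg])
           map_mul' := fun x y => h1 (by simp [hg])
           map_zero' := h1 (by simp [hg])
           map_add' := fun x y => h1 (by simp [hg])
           commutes' := fun b => h1 (by simp [hg]) }, hg⟩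

end Pool.Agent.Lib.TM
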