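import Pool.Agent.Lib.TM.Util

/-! An injective endomorphism extends to an algebraically closed algebraic extension. -/

set_option autoImplicit false

namespace Pool.Agent.Lib.TM

namespace BN3

/-- A copy of a type. -/
def Cp (Ω : Type) : Type := Ω

end BN3

theorem blockN3 : St_N3 := by
  intro O Ω _ _ _ _ _ _ σ₀ h1 h2
  let _ : Field (BN3.Cp Ω) := inferInstanceAs (Field Ω)
  have : IsAlgClosed (BN3.Cp Ω) := inferInstanceAs (IsAlgClosed Ω)
  let _ : Algebra O (BN3.Cp Ω) := RingHom.toAlgebra (R := O) (S := BN3.Cp Ω)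
    ((algebraMap O Ω).comp σ₀)
  have : FaithfulSMul O Ω := (faithfulSMul_iff_algebraMap_injective O Ω).mpr h1
  have : FaithfulSMul O (BN3.Cp Ω) :=
    (faithfulSMul_iff_algebraMap_injective O (BN3.Cp Ω)).mpr (h1.comp h2)
  let φ : Ω →ₐ[O] BN3.Cp Ω := IsAlgClosed.lift
  exact ⟨φ.toRingHom, fun f => φ.commutes f⟩

end Pool.Agent.Lib.TM
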