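import Pool.Agent.Lib.TM.Util

/-! Frobenius stable subspaces are finitely generated. -/

set_option autoImplicit false

namespace Pool.Agent.Lib.TM

open Polynomial Pool.Agent.Lib.MP_795114_nt

namespace BNOE

variable (𝔽 : Type) {K W : Type} [Field 𝔽] [Fintype 𝔽] [Field K] [Algebra 𝔽 K]

/-- The elements of degree less than `d` in `g`. -/
def VV (S : Set (W → K)) (g : W → K) (d : ℕ) : Submodule K (W → K) :=
  Asp (Fintype.card 𝔽) K 0 S ⊔ Submodule.span K {f | ∃ k, k < d ∧ f = g ^ Fintype.card 𝔽 ^ k}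

variable {𝔽} {S : Set (W → K)} {g : W → K}

omit [Field 𝔽] [Algebra 𝔽 K] in
theorem VV_mono {d e : ℕ} (h : d ≤ e) : VV 𝔽 S g d ≤ VV 𝔽 S g e :=
  sup_le_sup_left (Submodule.span_mono (by rintro _ ⟨k, hk, rfl⟩; exact ⟨k, by omega, rfl⟩)) _

omit [Field 𝔽] [Algebra 𝔽 K] in
theorem pow_mem_VV {k d : ℕ} (h : k < d) : g ^ Fintype.card 𝔽 ^ k ∈ VV 𝔽 S g d :=
  Submodule.mem_sup_right (Submodule.subset_span ⟨k, h, rfl⟩)

omit [Field 𝔽] [Algebra 𝔽 K] in
theorem VV_zero : VV 𝔽 S g 0 = Asp (Fintype.card 𝔽) K 0 S := by simp [VV]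

omit [Field 𝔽] [Algebra 𝔽 K] in
theorem exists_VV {f : W → K} (hf : f ∈ Asp (Fintype.card 𝔽) K 0 (insert g S)) :
    ∃ d, f ∈ VV 𝔽 S g d := by
  refine Asp_induction (p := fun f => ∃ d, f ∈ VV 𝔽 S g d) hf ?_ ⟨0, Submodule.zero_mem _⟩ ?_ ?_
  · rintro h (rfl | hh) k hk
    · exact ⟨k + 1, pow_mem_VV (by omega)⟩
    · exact ⟨0, Submodule.mem_sup_left (pow_mem_Asp hh hk)⟩
  · rintro f f' ⟨d, hd⟩ ⟨e, he⟩
    exact ⟨d + e, Submodule.add_mem _ (VV_mono (by omega) hd) (VV_mono (by omega) he)⟩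
  · rintro r f ⟨d, hd⟩
    exact ⟨d, Submodule.smul_mem _ r hd⟩

omit [Field 𝔽] [Algebra 𝔽 K] in
theorem VV_succ {d : ℕ} {f : W → K} (hf : f ∈ VV 𝔽 S g (d + 1)) :
    ∃ c : K, f - c • g ^ Fintype.card 𝔽 ^ d ∈ VV 𝔽 S g d := by
  have : VV 𝔽 S g (d + 1) ≤ VV 𝔽 S g d ⊔ Submodule.span K {g ^ Fintype.card 𝔽 ^ d} := by
    refine sup_le (le_sup_left.trans le_sup_left) (Submodule.span_le.2 ?_)
    rintro _ ⟨k, hk, rfl⟩
    rcases Nat.lt_succ_iff_lt_or_eq.1 hk with h | rfl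
    · exact Submodule.mem_sup_left (pow_mem_VV h)
    · exact Submodule.mem_sup_right (Submodule.subset_span rfl)
  obtain ⟨y, hy, z, hz, rfl⟩ := Submodule.mem_sup.1 (this hf)
  obtain ⟨c, rfl⟩ := Submodule.mem_span_singleton.1 hz
  exact ⟨c, by rwa [add_sub_cancel_right]⟩

theorem VV_pow {d : ℕ} {f : W → K} (hf : f ∈ VV 𝔽 S g d) (k : ℕ) :
    f ^ Fintype.card 𝔽 ^ k ∈ VV 𝔽 S g (d + k) := by
  obtain ⟨y, hy, z, hz, rfl⟩ := Submodule.mem_sup.1 hf
  rw [add_pow_q 𝔽]
  refine Submodule.add_mem _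
    (Submodule.mem_sup_left (Asp_mono (Nat.zero_le _) subset_rfl (Asp_pow hy k))) ?_
  clear hf
  induction hz using Submodule.span_induction with
  | mem _ h =>
    obtain ⟨j, hj, rfl⟩ := h
    rw [← pow_mul, ← pow_add]
    exact pow_mem_VV (by omega)
  | zero => rw [zero_pow_q]; exact Submodule.zero_mem _
  | add _ _ _ _ e e' => rw [add_pow_q 𝔽]; exact Submodule.add_mem _ e e'
  | smul r _ _ e => rw [_root_.smul_pow]; exact Submodule.smul_mem _ _ e

end BNOE

open BNOE in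
theorem blockNOE : St_NOE := by
  intro 𝔽 K W _ _ _ _ S N hS
  induction S, hS using Set.Finite.induction_on generalizing N with
  | empty =>
    intro h _
    exact ⟨∅, Set.finite_empty, Set.empty_subset _, le_antisymm h (Asp_le fun _ hg => hg.elim)⟩
  | @insert g S _ _ ih =>
    intro h hN
    obtain ⟨s, s1, s2, s3⟩ := ih (N ⊓ Asp (Fintype.card 𝔽) K 0 S) inf_le_right
      fun f hf => ⟨hN f hf.1, Asp_pow_card hf.2⟩
    have s4 : s ⊆ N := fun f hf => (s2 hf).1
    have hle : ∀ t : Set (W → K), t ⊆ N → Asp (Fintype.card 𝔽) K 0 t ≤ N := fun t ht =>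
      Asp_le fun f hf k _ => pow_q_mem hN (ht hf) k
    by_cases hex : ∃ d, ∃ f ∈ N, f ∈ VV 𝔽 S g (d + 1) ∧ f ∉ VV 𝔽 S g d
    · classical
      obtain ⟨f0, a1, a2, a3⟩ := Nat.find_spec hex
      have hmin : ∀ e < Nat.find hex, ∀ f ∈ N, f ∈ VV 𝔽 S g (e + 1) → f ∈ VV 𝔽 S g e := by
        intro e he f hf hf'
        by_contra hc
        exact Nat.find_min hex he ⟨f, hf, hf', hc⟩
      set d := Nat.find hex
      obtain ⟨c, hc⟩ := VV_succ a2
      have hc0 : c ≠ 0 := by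
        rintro rfl
        exact a3 (by simpa using hc)
      have b1 : c⁻¹ • f0 ∈ N := N.smul_mem _ a1
      have b2 : c⁻¹ • f0 - g ^ Fintype.card 𝔽 ^ d ∈ VV 𝔽 S g d := by
        have := Submodule.smul_mem _ c⁻¹ hc
        rwa [smul_sub, smul_smul, inv_mul_cancel₀ hc0, one_smul] at this
      have key : ∀ e, ∀ f ∈ N, f ∈ VV 𝔽 S g e →
          f ∈ Asp (Fintype.card 𝔽) K 0 (insert (c⁻¹ • f0) s) := by
        intro e
        induction e with
        | zero =>
          intro f hf hf'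
          rw [VV_zero] at hf'
          exact Asp_mono le_rfl (Set.subset_insert _ _) (s3.le ⟨hf, hf'⟩)
        | succ e ihe =>
          intro f hf hf'
          rcases lt_or_ge e d with he | he
          · exact ihe f hf (hmin e he f hf hf')
          obtain ⟨k, rfl⟩ := Nat.exists_eq_add_of_le he
          obtain ⟨c', hc'⟩ := VV_succ hf'
          have b3 := VV_pow b2 k
          rw [sub_pow_q 𝔽, ← pow_mul, ← pow_add] at b3
          have b4 := Submodule.sub_mem _ hc' (Submodule.smul_mem _ c' b3)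
          rw [smul_sub, sub_sub_sub_cancel_right] at b4
          have b5 := Submodule.add_mem _
            (ihe _ (N.sub_mem hf (N.smul_mem c' (pow_q_mem hN b1 k))) b4)
            (Submodule.smul_mem _ c' (pow_mem_Asp (Set.mem_insert _ _) (Nat.zero_le k)))
          rwa [sub_add_cancel] at b5
      have s5 : insert (c⁻¹ • f0) s ⊆ N := Set.insert_subset b1 s4
      refine ⟨_, s1.insert _, s5, le_antisymm (fun f hf => ?_) (hle _ s5)⟩
      obtain ⟨e, he⟩ := exists_VV (h hf)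
      exact key e f hf he
    · push Not at hex
      refine ⟨s, s1, s4, le_antisymm (fun f hf => ?_) (hle _ s4)⟩
      obtain ⟨e, he⟩ := exists_VV (h hf)
      refine s3.le ⟨hf, ?_⟩
      induction e with
      | zero => rwa [VV_zero] at he
      | succ e ihe => exact ihe (hex e f hf he)

end Pool.Agent.Lib.TM
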