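import Pool.Agent.Lib.TM.Util

/-! Power series are generated by the powers of the variable over the `q`-th powers. -/

set_option autoImplicit false

namespace Pool.Agent.Lib.TM

open PowerSeries

namespace BPB1

theorem coeff_pow_q (𝔽 k : Type) [Field 𝔽] [Fintype 𝔽] [Field k] [Algebra 𝔽 k]
    (d : PowerSeries k) (n : ℕ) : coeff n (d ^ Fintype.card 𝔽) =
      if Fintype.card 𝔽 ∣ n then coeff (n / Fintype.card 𝔽) d ^ Fintype.card 𝔽 else 0 := by
  obtain ⟨p, hp, m, hp', e⟩ := FiniteField.card' 𝔽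
  have : Fact p.Prime := ⟨hp'⟩
  have : CharP k p := charP_of_injective_algebraMap (algebraMap 𝔽 k).injective p
  rw [e]
  have h : d ^ p ^ (m : ℕ) = PowerSeries.map (iterateFrobenius k p m)
      (PowerSeries.expand (p ^ (m : ℕ)) (pow_ne_zero _ hp'.ne_zero) d) :=
    (MvPowerSeries.map_iterateFrobenius_expand p hp'.ne_zero d m).symm
  rw [h, coeff_map, coeff_expand]
  split_ifs
  · rfl
  · exact map_zero _

end BPB1

theorem blockPB1 : St_PB1 := by
  intro 𝔽 k _ _ _ _ _ c
  have q0 : 0 < Fintype.card 𝔽 := Fintype.card_pos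
  choose ρ hρ using fun a : k => IsAlgClosed.exists_pow_nat_eq a q0
  refine ⟨fun j => PowerSeries.mk fun m => ρ (coeff (Fintype.card 𝔽 * m + j) c), ?_⟩
  ext n
  rw [map_sum, Finset.sum_eq_single (n % Fintype.card 𝔽)]
  · have e : n - n % Fintype.card 𝔽 = Fintype.card 𝔽 * (n / Fintype.card 𝔽) :=
      Nat.sub_eq_of_eq_add (Nat.div_add_mod n _).symm
    rw [coeff_X_pow_mul', if_pos (Nat.mod_le n _), BPB1.coeff_pow_q, e, if_pos (dvd_mul_right _ _),
      Nat.mul_div_cancel_left _ q0, coeff_mk, hρ, Nat.div_add_mod]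
  · intro j hj hn
    rw [coeff_X_pow_mul']
    split_ifs with h
    · rw [BPB1.coeff_pow_q, if_neg]
      rintro ⟨t, ht⟩
      refine hn ?_
      rw [(Nat.sub_eq_iff_eq_add h).1 ht, Nat.mul_add_mod, Nat.mod_eq_of_lt (Finset.mem_range.1 hj)]
    · rfl
  · exact fun h => (h (Finset.mem_range.2 (Nat.mod_lt n q0))).elim

end Pool.Agent.Lib.TM
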