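import Pool.Agent.Lib.TM.Util

/-! The powers of the variable are independent over the `q`-th powers of a separable extension. -/

set_option autoImplicit false

namespace Pool.Agent.Lib.TM

namespace BPB2

open PowerSeries

theorem coeff_pow {k : Type} [Field k] (p n : ℕ) [ExpChar k p] (d : PowerSeries k) (m : ℕ) :
    coeff m (d ^ p ^ n) = if p ^ n ∣ m then coeff (m / p ^ n) d ^ p ^ n else 0 := by
  have h : d ^ p ^ n = PowerSeries.map (iterateFrobenius k p n)
      (PowerSeries.expand (p ^ n) (pow_ne_zero n (expChar_ne_zero k p)) d) :=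
    (MvPowerSeries.map_iterateFrobenius_expand p (expChar_ne_zero k p) d n).symm
  rw [h, coeff_map, coeff_expand]
  split_ifs
  · rfl
  · exact map_zero _

theorem ps {k : Type} [Field k] (p n : ℕ) [ExpChar k p] (d : ℕ → PowerSeries k)
    (h : ∑ j ∈ Finset.range (p ^ n), X ^ j * d j ^ p ^ n = 0) (j : ℕ) (hj : j < p ^ n) :
    d j = 0 := by
  ext m
  have a := congrArg (coeff (p ^ n * m + j)) h
  rw [map_sum, Finset.sum_eq_single_of_mem j (Finset.mem_range.2 hj), coeff_X_pow_mul, coeff_pow,
    if_pos (dvd_mul_right _ _), Nat.mul_div_cancel_left _ (Nat.zero_lt_of_lt hj)] at a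
  · exact (pow_eq_zero_iff (Nat.zero_lt_of_lt hj).ne').1 a
  · intro i hi hij
    rw [coeff_X_pow_mul']
    split_ifs with h1
    · rw [coeff_pow, if_neg]
      rintro ⟨c, hc⟩
      have e : (p ^ n * m + j) % p ^ n = (p ^ n * c + i) % p ^ n := by
        rw [← hc, Nat.sub_add_cancel h1]
      rw [Nat.mul_add_mod, Nat.mul_add_mod, Nat.mod_eq_of_lt hj,
        Nat.mod_eq_of_lt (Finset.mem_range.1 hi)] at e
      exact hij e.symm
    · rfl

theorem fr {k E : Type} [Field k] [Field E] [Algebra (PowerSeries k) E]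
    [IsFractionRing (PowerSeries k) E] (p n : ℕ) [ExpChar k p] (c : ℕ → E)
    (h : ∑ j ∈ Finset.range (p ^ n), (X : PowerSeries k) ^ j • c j ^ p ^ n = 0) (j : ℕ)
    (hj : j < p ^ n) : c j = 0 := by
  obtain ⟨b, hb⟩ := IsLocalization.exist_integer_multiples (nonZeroDivisors (PowerSeries k))
    (Finset.range (p ^ n)) c
  choose! d hd using hb
  have e : ∑ j ∈ Finset.range (p ^ n), X ^ j * d j ^ p ^ n = 0 := by
    refine IsFractionRing.injective (PowerSeries k) E ?_
    rw [map_zero, map_sum, ← smul_zero (b.1 ^ p ^ n), ← h, Finset.smul_sum]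
    refine Finset.sum_congr rfl fun i hi => ?_
    rw [← smul_eq_mul, Algebra.algebraMap_eq_smul_one, smul_assoc, ← Algebra.algebraMap_eq_smul_one,
      map_pow, hd i hi, smul_pow, smul_comm]
  have := hd j (Finset.mem_range.2 hj)
  rw [ps p n d e j hj, map_zero, Algebra.smul_def] at this
  exact (mul_eq_zero.1 this.symm).resolve_left
    (IsFractionRing.to_map_ne_zero_of_mem_nonZeroDivisors b.2)

end BPB2

theorem blockPB2 : St_PB2 := by
  intro 𝔽 k E Ω _ _ _ _ _ _ _ _ _ _ _ h hs h0 j hj
  obtain ⟨p, _, n, hp, hq⟩ := FiniteField.card' 𝔽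
  rw [hq] at h0 hj
  have : Fact p.Prime := ⟨hp⟩
  have : CharP k p := charP_of_injective_algebraMap (algebraMap 𝔽 k).injective p
  have : CharP E p := charP_of_injective_ringHom
    ((algebraMap (PowerSeries k) E).comp PowerSeries.C).injective p
  have : CharP Ω p := charP_of_injective_algebraMap (algebraMap E Ω).injective p
  obtain ⟨b, hb, hsp, hli⟩ := exists_linearIndependent E (Set.range h)
  have li := hli.map_pow_expChar_pow_of_isSeparable' p n fun x => by
    obtain ⟨i, hi⟩ := hb x.2
    exact hi ▸ hs i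
  have hc : ∀ i, ∃ c : b →₀ E, Finsupp.linearCombination E ((↑) : b → Ω) c = h i := fun i => by
    rw [← LinearMap.mem_range, Finsupp.range_linearCombination, Subtype.range_coe, hsp]
    exact Submodule.subset_span ⟨i, rfl⟩
  choose c hc using hc
  have z : (0 : E) ^ p ^ (n : ℕ) = 0 := zero_pow (pow_pos hp.pos _).ne'
  have key := linearIndependent_iff.1 li (∑ i ∈ Finset.range (p ^ (n : ℕ)),
    algebraMap (PowerSeries k) E (PowerSeries.X ^ i) • (c i).mapRange (· ^ p ^ (n : ℕ)) z) (by
      rw [map_sum, ← h0]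
      refine Finset.sum_congr rfl fun i _ => ?_
      rw [map_smul, algebraMap_smul, ← hc, Finsupp.linearCombination_apply,
        Finsupp.linearCombination_apply, Finsupp.sum_mapRange_index (by simp),
        Finsupp.sum, Finsupp.sum, sum_pow_char_pow]
      simp only [smul_pow])
  have : c j = 0 := Finsupp.ext fun x => BPB2.fr p n (fun i => c i x) (by
    have := DFunLike.congr_fun key x
    simpa only [Finsupp.finsetSum_apply, Finsupp.smul_apply, Finsupp.mapRange_apply,
      algebraMap_smul, Finsupp.zero_apply] using this) j hj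
  rw [← hc, this, map_zero]

end Pool.Agent.Lib.TM
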