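import Pool.Agent.Lib.TM.Util

/-! Block PB3: expansion of additive functions along the basis `1, t, …, t ^ (q - 1)`. -/

set_option autoImplicit false

namespace Pool.Agent.Lib.TM

theorem blockPB3 (hPB1 : St_PB1) : St_PB3 := by
  intro 𝔽 k W Ω _ _ _ _ _ _ _ _ S f hf
  suffices h : ∀ c : PowerSeries k, ∃ h : ℕ → W → Ω,
      (∀ j, h j ∈ Asp (Fintype.card 𝔽) (PowerSeries k) 0 S) ∧
      c • f = ∑ j ∈ Finset.range (Fintype.card 𝔽),
        (PowerSeries.X : PowerSeries k) ^ j • h j ^ Fintype.card 𝔽 by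
    simpa only [one_smul] using h 1
  refine Asp_induction (p := fun f => ∀ c : PowerSeries k, ∃ h : ℕ → W → Ω,
      (∀ j, h j ∈ Asp (Fintype.card 𝔽) (PowerSeries k) 0 S) ∧
      c • f = ∑ j ∈ Finset.range (Fintype.card 𝔽),
        (PowerSeries.X : PowerSeries k) ^ j • h j ^ Fintype.card 𝔽) hf
    (fun g hg l hl c => ?_) (fun c => ⟨0, fun _ => Submodule.zero_mem _, ?_⟩)
    (fun f f' e e' c => ?_) fun r f e c => by rw [smul_smul]; exact e _
  · obtain ⟨d, hd⟩ := hPB1 𝔽 k c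
    obtain ⟨l, rfl⟩ := Nat.exists_eq_add_of_le' hl
    refine ⟨fun j => d j • g ^ Fintype.card 𝔽 ^ l,
      fun j => Submodule.smul_mem _ _ (pow_mem_Asp hg (Nat.zero_le l)), ?_⟩
    conv_lhs => rw [hd, Finset.sum_smul]
    refine Finset.sum_congr rfl fun j _ => ?_
    rw [_root_.smul_pow, ← pow_mul, ← pow_succ, mul_smul]
  · simp [zero_pow (Fintype.card_ne_zero (α := 𝔽))]
  · obtain ⟨h, hh, e⟩ := e c
    obtain ⟨h', hh', e'⟩ := e' c
    refine ⟨h + h', fun j => Submodule.add_mem _ (hh j) (hh' j), ?_⟩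
    rw [smul_add, e, e', ← Finset.sum_add_distrib]
    refine Finset.sum_congr rfl fun j _ => ?_
    have := add_pow_q 𝔽 1 (h j) (h' j)
    rw [pow_one] at this
    rw [Pi.add_apply, this, smul_add]

end Pool.Agent.Lib.TM
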