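import Pool.Agent.Lib.TM.Util

/-! Block PROD: a product of Drinfeld modules is an abelian `A`-module. -/

set_option autoImplicit false

namespace Pool.Agent.Lib.TM

open Polynomial Pool.Agent.Lib.MP_795114_nt

namespace BPROD

variable {K : Type} [Field K] {n : ℕ}

theorem eval_aeval_X (x : Fin n → K) (i : Fin n) (f : K[X]) :
    MvPolynomial.eval x (aeval (MvPolynomial.X i : MvPolynomial (Fin n) K) f) = f.eval (x i) := by
  induction f using Polynomial.induction_on' with
  | add p q hp hq => rw [map_add, map_add, hp, hq, eval_add]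
  | monomial k c =>
    rw [aeval_monomial, map_mul, map_pow, MvPolynomial.eval_X, eval_monomial,
      MvPolynomial.algebraMap_eq, MvPolynomial.eval_C]

theorem coeff_aeval_X (i j : Fin n) (f : K[X]) :
    MvPolynomial.coeff (Finsupp.single j 1) (aeval (MvPolynomial.X i : MvPolynomial (Fin n) K) f) =
      if j = i then f.coeff 1 else 0 := by
  induction f using Polynomial.induction_on' with
  | add p q hp hq =>
    rw [map_add, MvPolynomial.coeff_add, hp, hq, coeff_add]
    split_ifs <;> simp
  | monomial k c =>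
    rw [aeval_monomial, MvPolynomial.algebraMap_eq, MvPolynomial.coeff_C_mul,
      MvPolynomial.coeff_X_pow, coeff_monomial]
    by_cases hj : j = i
    · subst hj
      rw [if_pos rfl]
      by_cases hk : k = 1
      · subst hk; simp
      · rw [if_neg hk, if_neg, mul_zero]
        intro h
        exact hk (Finsupp.single_injective j h)
    · rw [if_neg hj, if_neg, mul_zero]
      intro h
      have := congrArg (fun g => g j) h
      simp [Ne.symm hj] at this

theorem linPart_aeval_X (i : Fin n) (f : K[X]) (v : Fin n → K) :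
    linPart (aeval (MvPolynomial.X i : MvPolynomial (Fin n) K) f) v = f.coeff 1 * v i := by
  unfold linPart
  simp only [coeff_aeval_X, ite_mul, zero_mul]
  rw [Finset.sum_ite_eq' Finset.univ i fun j => f.coeff 1 * v j, if_pos (Finset.mem_univ _)]

theorem aeval_X_mem {q : ℕ} (i : Fin n) {f : K[X]} (hf : f ∈ Lam1 q K) :
    aeval (MvPolynomial.X i : MvPolynomial (Fin n) K) f ∈ Lam q K n := by
  induction hf using Submodule.span_induction with
  | mem x hx =>
    obtain ⟨k, rfl⟩ := hx
    rw [map_pow, aeval_X]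
    exact Submodule.subset_span ⟨i, k, rfl⟩
  | zero => rw [map_zero]; exact Submodule.zero_mem _
  | add x y _ _ hx hy => rw [map_add]; exact Submodule.add_mem _ hx hy
  | smul a x _ hx => rw [map_smul]; exact Submodule.smul_mem _ _ hx

/-- Every `τ`-polynomial composed with a power of `lin p` lies in a subspace that contains the
functions `τ ^ k ∘ (lin p) ^ l` with `k < deg p`. -/
theorem lin_mem (hSK1 : St_SK1) (hSK2 : St_SK2) {𝔽 : Type} [Field 𝔽] [Fintype 𝔽] [IsAlgClosed K]
    [Algebra 𝔽 K] {W : Type} (u₀ : W → K) (p : K[X]) (hp : 0 < p.natDegree)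
    (S : Submodule K (W → K))
    (hS : ∀ k < p.natDegree, ∀ l : ℕ,
      (fun x => ((lin 𝔽 p ^ l) (u₀ x)) ^ Fintype.card 𝔽 ^ k) ∈ S) (N : ℕ) :
    ∀ u : K[X], u.natDegree < N → ∀ l : ℕ, (fun x => lin 𝔽 u ((lin 𝔽 p ^ l) (u₀ x))) ∈ S := by
  obtain ⟨hinj, hmul, hdeg, -⟩ := hSK1 𝔽 K
  have hp0 : p ≠ 0 := by
    rintro rfl
    simp at hp
  have small : ∀ r : K[X], r.degree < p.degree → ∀ l : ℕ,
      (fun x => lin 𝔽 r ((lin 𝔽 p ^ l) (u₀ x))) ∈ S := by
    intro r hr l
    have e : (fun x => lin 𝔽 r ((lin 𝔽 p ^ l) (u₀ x))) =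
        ∑ k ∈ r.support, r.coeff k • fun x => ((lin 𝔽 p ^ l) (u₀ x)) ^ Fintype.card 𝔽 ^ k := by
      funext x
      rw [lin_apply, sum_def, Finset.sum_apply]
      rfl
    rw [e]
    refine Submodule.sum_mem _ fun k hk => Submodule.smul_mem _ _ (hS k ?_ l)
    have h1 : (k : WithBot ℕ) < p.degree := (le_degree_of_mem_supp k hk).trans_lt hr
    rw [degree_eq_natDegree hp0] at h1
    exact_mod_cast h1
  induction N with
  | zero => intro u hu; omega
  | succ N ih =>
    intro u hu l
    obtain ⟨χ, r, e, hr⟩ := (hSK2 𝔽 K).1 u p hp0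
    have e' : (fun x => lin 𝔽 u ((lin 𝔽 p ^ l) (u₀ x))) =
        (fun x => lin 𝔽 χ ((lin 𝔽 p ^ (l + 1)) (u₀ x))) +
          fun x => lin 𝔽 r ((lin 𝔽 p ^ l) (u₀ x)) := by
      funext x
      rw [e, pow_succ', Pi.add_apply, LinearMap.add_apply, Module.End.mul_apply,
        Module.End.mul_apply]
    rw [e']
    refine Submodule.add_mem _ ?_ (small r hr l)
    by_cases hχ : χ = 0
    · subst hχ
      simp only [map_zero, LinearMap.zero_apply]
      exact Submodule.zero_mem _
    obtain ⟨w, hw, -⟩ := hmul χ p 0 0 (by simp) (by simp)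
    obtain ⟨hw0, hwd⟩ := hdeg χ p w hw hχ hp0
    have hu' : u = w + r := hinj (by rw [map_add, hw, e])
    have hlt : r.degree < w.degree := by
      refine hr.trans_le ?_
      rw [degree_eq_natDegree hp0, degree_eq_natDegree hw0]
      exact_mod_cast (by omega : p.natDegree ≤ w.natDegree)
    have : u.natDegree = w.natDegree := by
      rw [hu']
      exact natDegree_eq_of_degree_eq (degree_add_eq_left_of_degree_lt hlt)
    exact ih χ (by omega) (l + 1)

end BPROD

open BPROD in
theorem blockPROD (hDR : St_DR) (hSK1 : St_SK1) (hSK2 : St_SK2) : St_PROD := by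
  intro 𝔽 K _ _ _ _ _ δ n φ hφ
  choose p _ hp hev using fun i => hDR 𝔽 K δ (φ i) (hφ i)
  have hΦ : ∀ a x i, polyMap (prodPhi φ a) x i = aeval (lin 𝔽 (p i)) a (x i) := by
    intro a x i
    rw [← hev]
    exact eval_aeval_X x i _
  refine ⟨⟨⟨∅, by simp, by simp⟩,
    fun a => ⟨fun i => aeval_X_mem i ((hφ i).mem a), fun _ _ => Set.mem_univ _⟩, ?_, ?_, ?_, ?_⟩, ?_⟩
  · intro a b x _
    ext i
    simp [hΦ]
  · intro a b x _
    ext i
    simp [hΦ]
  · intro c x _
    ext i
    simp [hΦ]
  · intro a v _ i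
    rw [prodPhi, linPart_aeval_X, (hφ i).coeff_one]
  · set R : ℕ := Finset.univ.sup fun i => (p i).natDegree with hR
    let e : Fin n × Fin R ≃ Fin (n * R) := finProdFinEquiv
    let m : Fin (n * R) → MvPolynomial (Fin n) K := fun r =>
      MvPolynomial.X (e.symm r).1 ^ Fintype.card 𝔽 ^ ((e.symm r).2 : ℕ)
    let g : Fin (n * R) × ℕ → (Fin n → K) → K := fun s x =>
      MvPolynomial.eval (polyMap (prodPhi φ (X ^ s.2)) x) (m s.1)
    refine ⟨n * R, m, fun r => Submodule.subset_span ⟨_, _, rfl⟩, fun f hf => ?_⟩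
    have key : (fun x => MvPolynomial.eval x f) ∈ Submodule.span K (Set.range g) := by
      induction hf using Submodule.span_induction with
      | mem y hy =>
        obtain ⟨i, k, rfl⟩ := hy
        have h1 := lin_mem hSK1 hSK2 (𝔽 := 𝔽) (fun x : Fin n → K => x i) (p i) (hp i)
          (Submodule.span K (Set.range g)) ?_ _ (monomial k 1) (Nat.lt_succ_self _) 0
        · simpa [lin_monomial] using h1
        intro j hj l
        have hjR : j < R := hj.trans_le (Finset.le_sup (f := fun i => (p i).natDegree)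
          (Finset.mem_univ i))
        refine Submodule.subset_span ⟨(e (i, ⟨j, hjR⟩), l), ?_⟩
        funext x
        simp only [g, m, Equiv.symm_apply_apply, map_pow, MvPolynomial.eval_X, hΦ, aeval_X]
      | zero => simp only [map_zero]; exact Submodule.zero_mem _
      | add y z _ _ hy hz => simp only [map_add]; exact Submodule.add_mem _ hy hz
      | smul a y _ hy =>
        simp only [MvPolynomial.smul_eval]
        exact Submodule.smul_mem _ a hy
    obtain ⟨c, hc⟩ := Finsupp.mem_span_range_iff_exists_finsupp.1 key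
    refine ⟨c, fun x _ => ?_⟩
    have := congrFun hc x
    simp only [Finsupp.sum, Finset.sum_apply, Pi.smul_apply, smul_eq_mul] at this
    exact this.symm

end Pool.Agent.Lib.TM
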