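import Pool.Agent.Lib.TM.Util

/-! Block Q: the factorisation by levels. -/

set_option autoImplicit false

namespace Pool.Agent.Lib.TM

open Polynomial Pool.Agent.Lib.MP_795114_nt

namespace BQ

theorem coprime_of {K : Type} [Field K] [IsAlgClosed K] (p : ℕ → K[X])
    (h : ∀ s s', s < s' → ∀ a, (p s).eval a = 0 → (p s').eval a ≠ 0) :
    Pairwise fun s s' => IsCoprime (p s) (p s') := by
  have key : ∀ s s', s < s' → IsCoprime (p s) (p s') := fun s s' hs =>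
    (isCoprime_iff_aeval_ne_zero_of_isAlgClosed (k := K) K _ _).2 fun a => by
      rw [coe_aeval_eq_eval]
      exact or_iff_not_imp_left.2 fun h0 => h s s' hs a (not_not.1 h0)
  intro s s' hs
  rcases hs.lt_or_gt with h1 | h1
  · exact key s s' h1
  · exact (key s' s h1).symm

theorem root_Qt (𝔽 : Type) {K : Type} [Field 𝔽] [Fintype 𝔽] [Field K] [IsAlgClosed K]
    [Algebra 𝔽 K] (Q : ℕ → K[X]) (s : ℕ) (a : K) (h : (Qt 𝔽 Q s).eval a = 0) :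
    ∃ j ≤ s, ∃ β : K, (Q j).eval β = 0 ∧ a = β ^ Fintype.card 𝔽 ^ (s - j) := by
  rw [Qt, eval_prod, Finset.prod_eq_zero_iff] at h
  obtain ⟨j, hj, h⟩ := h
  obtain ⟨β, rfl⟩ := exists_root_q 𝔽 (s - j) a
  rw [tw_eval] at h
  exact ⟨j, Nat.lt_succ_iff.1 (Finset.mem_range.1 hj), β, pow_eq_zero_iff (q_pow_ne_zero 𝔽 _) |>.1 h,
    rfl⟩

end BQ

theorem blockQ (hQ1 : St_Q1) (hQ2 : St_Q2) (hQ3 : St_Q3) : St_Q := by
  intro 𝔽 K _ _ _ _ _ θ P hθ hP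
  obtain ⟨P₀, Q, h0, hQ, hPQ, hal⟩ := hQ1 𝔽 K θ P hθ hP
  obtain ⟨J, R, hR, -, hQR, hroot⟩ := hQ2 𝔽 K θ Q hθ hQ hal
  obtain ⟨u, c, hc, hu⟩ := hQ3 𝔽 K θ (J + 1) R hθ J.succ_pos
    (BQ.coprime_of (fun j => dl θ (R j)) fun j j' hj a h1 h2 => by
      obtain ⟨β, hβ, e⟩ := (hroot j' a h2).1
      exact (hroot j a h1).2 j' hj β hβ e)
  refine ⟨P₀, J, R, u, c, h0.ne_zero, hR, hQR ▸ hPQ, hc, hu, BQ.coprime_of _ ?_⟩
  intro s s' hs a h1 h2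
  obtain ⟨j, hj, β, hβ, e⟩ := BQ.root_Qt 𝔽 _ s a h1
  obtain ⟨j', hj', β', hβ', e'⟩ := BQ.root_Qt 𝔽 _ s' a h2
  obtain ⟨b, hb, rfl⟩ := (hroot j' β' hβ').1
  refine (hroot j β hβ).2 (j + (s' - s)) (by omega) b hb (pow_q_inj 𝔽 (s - j) ?_)
  rw [← e, e', ← pow_mul, ← pow_mul, ← pow_add, ← pow_add]
  congr 2
  omega

end Pool.Agent.Lib.TM
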