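import Pool.Agent.Lib.TM.Util

/-! Splitting off the factor whose roots are algebraic over the constants. -/

set_option autoImplicit false

namespace Pool.Agent.Lib.TM

open Polynomial Pool.Agent.Lib.MP_795114_nt

namespace BQ1

variable {𝔽 K : Type} [Field 𝔽] [Field K] [Algebra 𝔽 K]

theorem eval_swap (L : Subalgebra 𝔽 K) (θ : K) (α : L) (P : 𝔽[X][X]) :
    aeval θ ((Bivariate.swap P).map (aeval α : 𝔽[X] →ₐ[𝔽] L).toRingHom) =
      (dl θ P).eval (α : K) := by
  induction P using Polynomial.induction_on' with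
  | add p q hp hq => simp only [dl, map_add, Polynomial.map_add, eval_add] at hp hq ⊢; rw [hp, hq]
  | monomial n f =>
    induction f using Polynomial.induction_on' with
    | add p q hp hq => simp only [dl, map_add, Polynomial.map_add, eval_add] at hp hq ⊢; rw [hp, hq]
    | monomial m r =>
      rw [Bivariate.swap_monomial_monomial]
      simp only [dl, Polynomial.map_monomial, eval_monomial, AlgHom.toRingHom_eq_coe,
        RingHom.coe_coe, aeval_monomial, map_mul, map_pow, ← IsScalarTower.algebraMap_apply]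
      rw [mul_right_comm]
      rfl

theorem minpoly_dvd {θ α : K} (hθ : Transcendental 𝔽 θ) (hα : IsAlgebraic 𝔽 α) {P : 𝔽[X][X]}
    (h : (dl θ P).eval α = 0) : (minpoly 𝔽 α).map C ∣ P := by
  have h1 := eval_swap (Subalgebra.algebraicClosure 𝔽 K) θ ⟨α, hα⟩ P
  rw [h] at h1
  have h2 := transcendental_iff.1 hθ.subalgebraAlgebraicClosure _ h1
  have h3 : C (minpoly 𝔽 α) ∣ Bivariate.swap P := by
    rw [C_dvd_iff_dvd_coeff]
    intro i
    refine minpoly.dvd 𝔽 α ?_
    have h4 := congrArg (fun p => ((coeff p i : Subalgebra.algebraicClosure 𝔽 K) : K)) h2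
    simp only [coeff_map, AlgHom.toRingHom_eq_coe, RingHom.coe_coe, coeff_zero,
      ZeroMemClass.coe_zero] at h4
    rw [← h4]
    exact aeval_algebraMap_apply K (⟨α, hα⟩ : Subalgebra.algebraicClosure 𝔽 K) _
  have h5 := map_dvd (Bivariate.swap (R := 𝔽)) h3
  rwa [Bivariate.swap_C, Bivariate.swap_swap_apply] at h5

end BQ1

theorem blockQ1 : St_Q1 := by
  intro 𝔽 K _ _ _ θ P hθ hP
  induction hn : P.natDegree using Nat.strong_induction_on generalizing P with
  | _ n ih =>
    by_cases h : ∃ α : K, IsAlgebraic 𝔽 α ∧ (dl θ P).eval α = 0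
    · obtain ⟨α, hα, h⟩ := h
      obtain ⟨P', rfl⟩ := BQ1.minpoly_dvd hθ hα h
      have m1 := minpoly.monic hα.isIntegral
      have m2 : ((minpoly 𝔽 α).map C : 𝔽[X][X]).Monic := m1.map _
      have m3 : P'.Monic := m2.of_mul_monic_left hP
      have d1 := minpoly.natDegree_pos hα.isIntegral
      rw [m2.natDegree_mul m3, m1.natDegree_map] at hn
      obtain ⟨P₀, Q, a1, a2, rfl, a4⟩ := ih P'.natDegree (by omega) P' m3 rfl
      exact ⟨minpoly 𝔽 α * P₀, Q, m1.mul a1, a2, by rw [Polynomial.map_mul, mul_assoc], a4⟩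
    · push Not at h
      exact ⟨1, P, monic_one, hP, by simp, h⟩

end Pool.Agent.Lib.TM
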