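import Pool.Agent.Lib.TM.Util

set_option autoImplicit false

namespace Pool.Agent.Lib.TM

open Polynomial Pool.Agent.Lib.MP_795114_nt

namespace BQ2

variable {𝔽 K : Type} [Field 𝔽] [Fintype 𝔽] [Field K] [Algebra 𝔽 K]

/-- `α` is the `q ^ k`-th power of a root of `dl θ Q`. -/
def Pw (θ : K) (Q : 𝔽[X][X]) (α : K) (k : ℕ) : Prop :=
  ∃ β : K, (dl θ Q).eval β = 0 ∧ α = β ^ Fintype.card 𝔽 ^ k

theorem dl_tw (θ : K) (Q : 𝔽[X][X]) (k : ℕ) : dl θ (tw 𝔽 k Q) = tw 𝔽 k (dl θ Q) := by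
  ext n
  rw [tw_coeff, dl, dl, coeff_map, coeff_map, tw_coeff, map_pow]

theorem pw_iff [IsAlgClosed K] (θ : K) (Q : 𝔽[X][X]) (α : K) (k : ℕ) :
    Pw θ Q α k ↔ (dl θ (tw 𝔽 k Q)).eval α = 0 := by
  rw [dl_tw]
  refine ⟨?_, fun h => ?_⟩
  · rintro ⟨β, h, rfl⟩
    rw [tw_eval, h, zero_pow_q]
  · obtain ⟨β, rfl⟩ := exists_root_q 𝔽 k α
    rw [tw_eval] at h
    exact ⟨β, pow_eq_zero_iff (q_pow_ne_zero 𝔽 k) |>.1 h, rfl⟩

theorem pw_finite {θ : K} {Q : 𝔽[X][X]} (hQ : Q.Monic)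
    (h : ∀ α : K, IsAlgebraic 𝔽 α → (dl θ Q).eval α ≠ 0) (α : K) : {k | Pw θ Q α k}.Finite := by
  classical
  have h0 : dl θ Q ≠ 0 := (hQ.map _).ne_zero
  have : ∀ k, ∃ β : K, Pw θ Q α k → (dl θ Q).eval β = 0 ∧ α = β ^ Fintype.card 𝔽 ^ k := fun k => by
    by_cases hk : Pw θ Q α k
    · obtain ⟨β, hβ⟩ := hk; exact ⟨β, fun _ => hβ⟩
    · exact ⟨0, fun h => (hk h).elim⟩
  choose β hβ using this
  refine Set.Finite.of_finite_image (f := β) ((dl θ Q).roots.toFinset.finite_toSet.subset ?_) ?_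
  · rintro _ ⟨k, hk, rfl⟩
    simpa [h0] using (hβ k hk).1
  · intro k hk k' hk' e
    by_contra hne
    refine h (β k) ⟨X ^ Fintype.card 𝔽 ^ k - X ^ Fintype.card 𝔽 ^ k', fun h' => hne ?_, ?_⟩
      (hβ k hk).1
    · have := congrArg natDegree (sub_eq_zero.1 h')
      rw [natDegree_X_pow, natDegree_X_pow] at this
      exact q_pow_inj 𝔽 this
    · rw [map_sub, aeval_X_pow, aeval_X_pow, ← (hβ k hk).2, e, ← (hβ k' hk').2, sub_self]

omit [Fintype 𝔽] in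
/-- A monic factor all of whose roots satisfy the same equations. -/
theorem factor {θ : K} (hθ : Transcendental 𝔽 θ) {D : 𝔽[X][X]} (hD : D.Monic) {α : K}
    (hα : (dl θ D).eval α = 0) : ∃ p : 𝔽[X][X], p.Monic ∧ 0 < p.natDegree ∧ p ∣ D ∧
      ∀ α' : K, (dl θ p).eval α' = 0 →
        ∀ P : 𝔽[X][X], (dl θ P).eval α' = 0 ↔ (dl θ P).eval α = 0 := by
  let _ : Algebra 𝔽[X] K := (aeval θ : 𝔽[X] →ₐ[𝔽] K).toRingHom.toAlgebra
  have hinj : Function.Injective (algebraMap 𝔽[X] K) := transcendental_iff_injective.1 hθ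
  have : FaithfulSMul 𝔽[X] K := (faithfulSMul_iff_algebraMap_injective _ _).2 hinj
  have e : ∀ (P : 𝔽[X][X]) (x : K), (dl θ P).eval x = aeval x P := fun P x =>
    eval_map_algebraMap P x
  simp only [e] at hα ⊢
  have hi : IsIntegral 𝔽[X] α := ⟨D, hD, hα⟩
  refine ⟨minpoly 𝔽[X] α, minpoly.monic hi, minpoly.natDegree_pos hi,
    minpoly.isIntegrallyClosed_dvd hi hα, fun α' hα' P => ?_⟩
  have hi' : IsIntegral 𝔽[X] α' := ⟨_, minpoly.monic hi, hα'⟩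
  refine ⟨fun h => ?_, fun h => ?_⟩
  · have h1 : minpoly 𝔽[X] α ∣ minpoly 𝔽[X] α' :=
      (minpoly.irreducible hi').dvd_symm (minpoly.irreducible hi)
        (minpoly.isIntegrallyClosed_dvd hi' hα')
    exact aeval_eq_zero_of_dvd_aeval_eq_zero (h1.trans (minpoly.isIntegrallyClosed_dvd hi' h))
      (minpoly.aeval _ _)
  · exact aeval_eq_zero_of_dvd_aeval_eq_zero (minpoly.isIntegrallyClosed_dvd hi h) hα'

end BQ2

open BQ2 in
theorem blockQ2 : St_Q2 := by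
  intro 𝔽 K _ _ _ _ _ θ Q hθ hQ h
  classical
  suffices H : ∀ (n : ℕ) (D : 𝔽[X][X]), D.natDegree = n → D.Monic → D ∣ Q →
      ∃ (J : ℕ) (R : ℕ → 𝔽[X][X]), (∀ j, (R j).Monic) ∧ (∀ j, J < j → R j = 1) ∧
        D = ∏ j ∈ Finset.range (J + 1), R j ∧
        ∀ j (α : K), (dl θ (R j)).eval α = 0 → Pw θ Q α j ∧ ∀ k, j < k → ¬ Pw θ Q α k by
    obtain ⟨J, R, h1, h2, h3, h4⟩ := H _ Q rfl hQ dvd_rfl
    exact ⟨J, R, h1, h2, h3, fun j α hα =>
      ⟨(h4 j α hα).1, fun k hk β hβ e => (h4 j α hα).2 k hk ⟨β, hβ, e⟩⟩⟩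
  intro n
  induction n using Nat.strong_induction_on with
  | _ n ih =>
  intro D hn hD hDQ
  rcases Nat.eq_zero_or_pos n with rfl | hpos
  · refine ⟨0, fun _ => 1, fun _ => monic_one, fun _ _ => rfl,
      by simpa using hD.natDegree_eq_zero.1 hn, fun j α hα => ?_⟩
    simp [dl] at hα
  obtain ⟨α, hα⟩ := IsAlgClosed.exists_root (dl θ D) (by
    rw [dl, hD.degree_map]
    exact (natDegree_pos_iff_degree_pos.1 (hn ▸ hpos)).ne')
  obtain ⟨p, hp, hp0, ⟨D', rfl⟩, hp'⟩ := factor hθ hD hα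
  have hD' : D'.Monic := hp.of_mul_monic_left hD
  obtain ⟨J, R, h1, h2, h3, h4⟩ := ih D'.natDegree
    (by rw [← hn, hp.natDegree_mul hD']; omega) D' rfl hD' ((dvd_mul_left _ _).trans hDQ)
  have hne : {k | Pw θ Q α k}.Nonempty := ⟨0, α, by
    obtain ⟨c, rfl⟩ := hDQ
    rw [dl, Polynomial.map_mul, eval_mul, ← dl, hα.eq_zero, zero_mul], by simp⟩
  obtain ⟨j, hj, hj'⟩ := (pw_finite hQ h α).exists_maximal hne
  refine ⟨max J j, fun i => (if i = j then p else 1) * R i, fun i => Monic.mul ?_ (h1 i),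
    fun i hi => ?_, ?_, fun i α' hα' => ?_⟩
  · split_ifs
    exacts [hp, monic_one]
  · have hij : i ≠ j := by omega
    simp only [if_neg hij, h2 i (by omega), one_mul]
  · rw [Finset.prod_mul_distrib, Finset.prod_ite_eq', if_pos (by simp), h3]
    congr 1
    exact Finset.prod_subset (Finset.range_mono (by omega)) fun i _ hi =>
      h2 i (by simpa [Nat.lt_succ_iff] using hi)
  · rw [dl, Polynomial.map_mul, eval_mul, mul_eq_zero] at hα'
    rcases hα' with hα' | hα'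
    · split_ifs at hα' with hi
      · subst hi
        have := fun k => (pw_iff θ Q α' k).trans ((hp' α' hα' _).trans (pw_iff θ Q α k).symm)
        exact ⟨(this _).2 hj, fun k hk hk' => absurd (hj' ((this k).1 hk') hk.le) (by omega)⟩
      · simp at hα'
    · exact h4 i α' hα'

end Pool.Agent.Lib.TM
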