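import Pool.Agent.Lib.TM.Util

/-! Block Q3: a partition of a non-zero constant. -/

set_option autoImplicit false

namespace Pool.Agent.Lib.TM

open Polynomial

theorem blockQ3 : St_Q3 := by
  intro 𝔽 K _ _ _ θ N R hθ hN h
  let F := FractionRing 𝔽[X]
  have hi : Function.Injective (aeval θ : 𝔽[X] →ₐ[𝔽] K).toRingHom :=
    transcendental_iff_injective.1 hθ
  have e : ∀ P : 𝔽[X][X], dl θ P = (P.map (algebraMap 𝔽[X] F)).map (IsFractionRing.lift hi) :=
    fun P => by
      rw [Polynomial.map_map, dl]
      exact congrArg (fun f => P.map f) (RingHom.ext fun a => (IsFractionRing.lift_algebraMap hi a).symm)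
  obtain ⟨μ, hμ⟩ := (exists_sum_eq_one_iff_pairwise_coprime (s := fun j => (R j).map (algebraMap 𝔽[X] F))
    (t := Finset.range N) ⟨0, Finset.mem_range.2 hN⟩).2 fun j j' hj => by
      have : IsCoprime (dl θ (R j)) (dl θ (R j')) := h fun c => hj (Subtype.ext c)
      rwa [e, e, isCoprime_map] at this
  choose b hb hm using fun j => IsLocalization.integerNormalization_spec (nonZeroDivisors 𝔽[X]) (μ j)
  refine ⟨fun j => C (∏ i ∈ (Finset.range N).erase j, b i) *
    IsLocalization.integerNormalization (nonZeroDivisors 𝔽[X]) (μ j), ∏ i ∈ Finset.range N, b i,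
    Finset.prod_ne_zero_iff.2 fun i _ => nonZeroDivisors.ne_zero (hb i),
    map_injective (algebraMap 𝔽[X] F) (IsFractionRing.injective _ _) ?_⟩
  rw [map_C, ← mul_one (C _), ← hμ, Finset.mul_sum, Polynomial.map_sum]
  refine Finset.sum_congr rfl fun j hj => ?_
  rw [Polynomial.map_mul, Polynomial.map_mul, hm, map_C, Polynomial.map_prod, Finset.erase_eq,
    ← Finset.prod_sdiff (Finset.singleton_subset_iff.2 hj), Finset.prod_singleton, map_mul, C_mul,
    ← algebraMap_smul F (b j), smul_eq_C_mul]
  ring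

end Pool.Agent.Lib.TM
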