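import Pool.Agent.Lib.TM.Util

/-! Block R: the projection along the `ϖ`-primary submodule `T`. -/

set_option autoImplicit false

namespace Pool.Agent.Lib.TM

namespace BR

variable {A M : Type} [CommRing A] [AddCommGroup M] [Module A M]

theorem maps {S : Set (Module.End A M)} {Γ Δ : AddSubgroup M} (hΔ : Δ ≤ Γ)
    (h : ∀ s ∈ S, ∀ x ∈ Γ, s x ∈ Δ) {ε : Module.End A M} (hε : ε ∈ NonUnitalSubring.closure S) :
    ∀ x ∈ Γ, ε x ∈ Δ := by
  induction hε using NonUnitalSubring.closure_induction with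
  | mem s hs => exact h s hs
  | zero => exact fun x _ => Δ.zero_mem
  | add a b _ _ ha hb => exact fun x hx => Δ.add_mem (ha x hx) (hb x hx)
  | neg a _ ha => exact fun x hx => Δ.neg_mem (ha x hx)
  | mul a b _ _ ha hb => exact fun x hx => ha _ (hΔ (hb x hx))

theorem pow_maps {Γ : AddSubgroup M} {ε : Module.End A M} (h : ∀ x ∈ Γ, ε x ∈ Γ) (N : ℕ) :
    ∀ x ∈ Γ, (ε ^ N) x ∈ Γ := by
  induction N with
  | zero => exact fun x hx => hx
  | succ N ih => exact fun x hx => by rw [pow_succ']; exact h _ (ih x hx)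

end BR

open BR

theorem blockR (hR1 : St_R1) : St_R := by
  intro A M _ _ _ T ϖ S hT hfin hS hW
  obtain ⟨ε, hε, h1⟩ := hR1 A M (T ⊓ Submodule.torsionBy A M ϖ) S
    ((hfin 1).subset fun x hx => by simpa using hx.2)
    (fun s hs x hx => ⟨hS s hs x, by
      have : ϖ • x = 0 := hx.2
      change ϖ • s x = 0
      rw [← map_smul, this, map_zero]⟩)
    fun W hV hst w hw hs => hW W (fun x hx => hV hx) hst w hw.1 hw.2 hs
  have mT : ∀ x, ε x ∈ T := fun x =>
    maps (Γ := ⊤) (Δ := T.toAddSubgroup) le_top (fun s hs x _ => hS s hs x) hε x trivial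
  have inj : ∀ x ∈ T, ε x = 0 → x = 0 := fun x hx h0 => by
    obtain ⟨k, hk⟩ := hT x hx
    induction k with
    | zero => simpa using hk
    | succ k ih =>
      refine ih ?_
      rw [← h1 (ϖ ^ k • x) ⟨T.smul_mem _ hx, by
        change ϖ • ϖ ^ k • x = 0
        rw [smul_smul, ← pow_succ', hk]⟩, map_smul, h0, smul_zero]
  have injp : ∀ (a : ℕ), ∀ x ∈ T, (ε ^ a) x = 0 → x = 0 := fun a => by
    induction a with
    | zero => exact fun x _ h => h
    | succ a ih => exact fun x hx h => inj x hx (ih _ (mT x) (by rwa [pow_succ] at h))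
  have dec : ∀ x, ∃ N, (ε ^ (N + 1)) x ∈ T ∧ ε (x - (ε ^ (N + 1)) x) = 0 := fun x => by
    obtain ⟨k, hk⟩ := hT _ (mT x)
    obtain ⟨a, b, hab, e⟩ := (hfin k).exists_lt_map_eq_of_forall_mem
      (f := fun n : ℕ => (ε ^ n) (ε x)) fun n => by
        change ϖ ^ k • (ε ^ n) (ε x) = 0
        rw [← map_smul, hk, map_zero]
    obtain ⟨N, rfl⟩ := Nat.exists_eq_add_of_lt hab
    refine ⟨N, by rw [pow_succ']; exact mT _, injp a _ (mT _) ?_⟩
    rw [map_sub, map_sub, e, sub_eq_zero, ← Module.End.mul_apply, ← Module.End.mul_apply,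
      ← Module.End.mul_apply, ← pow_succ, ← pow_succ, ← pow_add]
    congr 2
    omega
  have hc : IsCompl (LinearMap.ker ε) T := ⟨Submodule.disjoint_def.2 fun x h0 hx => inj x hx h0,
    Submodule.codisjoint_iff_exists_add_eq.2 fun x =>
      let ⟨_, a, b⟩ := dec x
      ⟨_, _, b, a, sub_add_cancel _ _⟩⟩
  have h0 : ∀ x ∈ T, (LinearMap.ker ε).projection T hc x = 0 := fun x hx =>
    (Submodule.projection_apply_eq_zero_iff hc).2 hx
  refine ⟨(LinearMap.ker ε).projection T hc, Submodule.sub_projection_mem hc, h0,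
    fun Γ hΓ x hx => ?_⟩
  obtain ⟨N, a, b⟩ := dec x
  have : (LinearMap.ker ε).projection T hc x = x - (ε ^ (N + 1)) x := by
    rw [← Submodule.projection_apply_of_mem_left hc (x := x - (ε ^ (N + 1)) x) b, map_sub, h0 _ a,
      sub_zero]
  rw [this]
  exact Γ.sub_mem hx (pow_maps (maps le_rfl hΓ hε) _ x hx)

end Pool.Agent.Lib.TM
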