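import Pool.Agent.Lib.TM.Util

/-! A finite module without trivial subquotients: the generated ring contains an identity. -/

set_option autoImplicit false

namespace Pool.Agent.Lib.TM

namespace BR1

variable {A M : Type} [CommRing A] [AddCommGroup M] [Module A M] {S : Set (Module.End A M)}

/-- Stable subgroups. -/
def St (S : Set (Module.End A M)) (W : AddSubgroup M) : Prop := ∀ s ∈ S, ∀ x ∈ W, s x ∈ W

/-- Stable subgroups without trivial subquotient. -/
def Gd (S : Set (Module.End A M)) (U : AddSubgroup M) : Prop :=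
  St S U ∧ ∀ W, St S W → ∀ w ∈ U, (∀ s ∈ S, s w ∈ W) → w ∈ W

theorem St.sup {U W : AddSubgroup M} (hU : St S U) (hW : St S W) : St S (U ⊔ W) := by
  intro s hs x hx
  obtain ⟨a, ha, b, hb, rfl⟩ := AddSubgroup.mem_sup.1 hx
  rw [map_add]
  exact AddSubgroup.add_mem_sup (hU s hs a ha) (hW s hs b hb)

theorem Gd.step {U W : AddSubgroup M} (hU : Gd S U) (hW : St S W) {w : M} (hw : w ∈ W ⊔ U)
    (h : ∀ s ∈ S, s w ∈ W) : w ∈ W := by
  obtain ⟨a, ha, b, hb, rfl⟩ := AddSubgroup.mem_sup.1 hw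
  refine W.add_mem ha (hU.2 W hW b hb fun s hs => ?_)
  have := W.sub_mem (h s hs) (hW s hs a ha)
  rwa [map_add, add_sub_cancel_left] at this

theorem Gd.sup {U U' : AddSubgroup M} (hU : Gd S U) (hU' : Gd S U') : Gd S (U ⊔ U') := by
  refine ⟨hU.1.sup hU'.1, fun W hW w hw h => hU.step hW ?_ h⟩
  obtain ⟨a, ha, b, hb, rfl⟩ := AddSubgroup.mem_sup.1 hw
  refine add_mem (AddSubgroup.mem_sup_right ha) (hU'.2 _ (hW.sup hU.1) b hb fun s hs => ?_)
  have := sub_mem (AddSubgroup.mem_sup_left (T := U) (h s hs))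
    (AddSubgroup.mem_sup_right (S := W) (hU.1 s hs a ha))
  rwa [map_add, add_sub_cancel_left] at this

theorem Gd.smul {U : AddSubgroup M} (hU : Gd S U) (a : A) :
    Gd S (U.map (DistribSMul.toAddMonoidHom M a)) := by
  constructor
  · rintro s hs _ ⟨x, hx, rfl⟩
    exact ⟨s x, hU.1 s hs x hx, (s.map_smul a x).symm⟩
  · rintro W hW _ ⟨x, hx, rfl⟩ h
    refine hU.2 (W.comap (DistribSMul.toAddMonoidHom M a)) (fun s hs y hy => ?_) x hx
      fun s hs => ?_
    · have := hW s hs _ hy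
      exact (s.map_smul a y ▸ this : a • s y ∈ W)
    · have := h s hs
      exact (s.map_smul a x ▸ this : a • s x ∈ W)

theorem good {V : Submodule A M} (hV : (V : Set M).Finite) (hS : ∀ s ∈ S, ∀ x ∈ V, s x ∈ V)
    (h : ∀ W : Submodule A M, W ≤ V → (∀ s ∈ S, ∀ x ∈ W, s x ∈ W) →
      ∀ w ∈ V, (∀ s ∈ S, s w ∈ W) → w ∈ W) : Gd S V.toAddSubgroup := by
  let U : Submodule A M :=
    { carrier := {x | ∃ U₀, Gd S U₀ ∧ U₀ ≤ V.toAddSubgroup ∧ x ∈ U₀}
      add_mem' := fun ⟨U₁, a1, a2, a3⟩ ⟨U₂, b1, b2, b3⟩ =>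
        ⟨U₁ ⊔ U₂, a1.sup b1, sup_le a2 b2, AddSubgroup.add_mem_sup a3 b3⟩
      zero_mem' := ⟨⊥, ⟨fun s _ x hx => by
          rw [AddSubgroup.mem_bot.1 hx, map_zero]
          exact zero_mem _, fun W _ w hw _ => by
          rw [AddSubgroup.mem_bot.1 hw]
          exact zero_mem _⟩, bot_le, zero_mem _⟩
      smul_mem' := fun a x ⟨U₁, a1, a2, a3⟩ => ⟨_, a1.smul a, by
          rintro _ ⟨y, hy, rfl⟩
          exact V.smul_mem a (a2 hy), x, a3, rfl⟩ }
  have hUV : U ≤ V := fun x ⟨_, _, a2, a3⟩ => a2 a3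
  have hU : Gd S U.toAddSubgroup :=
    ⟨fun s hs x ⟨U₁, a1, a2, a3⟩ => ⟨U₁, a1, a2, a1.1 s hs x a3⟩,
      fun W hW w ⟨_, a1, _, a3⟩ => a1.2 W hW w a3⟩
  by_contra hn
  have hlt : U.toAddSubgroup < V.toAddSubgroup := lt_of_le_of_ne hUV fun e => hn (e ▸ hU)
  have hfin : {U' : AddSubgroup M | U.toAddSubgroup < U' ∧ U' ≤ V.toAddSubgroup ∧ St S U'}.Finite :=
    (hV.finite_subsets.preimage (SetLike.coe_injective (A := AddSubgroup M)).injOn).subset
      fun U' hU' => hU'.2.1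
  obtain ⟨U', ⟨a1, a2, a3⟩, hmin⟩ := hfin.exists_minimal ⟨_, hlt, le_rfl, hS⟩
  refine a1.not_ge fun x hx => ⟨U', ⟨a3, fun W hW w hw hs => hU.step hW ?_ hs⟩, a2, hx⟩
  have st : St S (W ⊓ U') := fun s hs y hy => ⟨hW s hs y hy.1, a3 s hs y hy.2⟩
  rcases (le_sup_right : U.toAddSubgroup ≤ W ⊓ U' ⊔ U.toAddSubgroup).lt_or_eq with h1 | h1
  · have h2 : W ⊓ U' ⊔ U.toAddSubgroup ≤ U' := sup_le inf_le_right a1.le
    have h3 : W ⊓ U' ⊔ U.toAddSubgroup ≤ W ⊔ U.toAddSubgroup := sup_le_sup_right inf_le_left _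
    exact h3 (hmin ⟨h1, h2.trans a2, st.sup hU.1⟩ h2 hw)
  · refine AddSubgroup.mem_sup_right (h U hUV hU.1 w (a2 hw) fun s hs' => ?_)
    exact (le_sup_left.trans h1.ge : W ⊓ U' ≤ U.toAddSubgroup) ⟨hs s hs', a3 s hs' w hw⟩

end BR1

open BR1 in
theorem blockR1 : St_R1 := by
  intro A M _ _ _ V S hV hS h
  have hG := good hV hS h
  have hN : ∀ r ∈ NonUnitalSubring.closure S, ∀ x ∈ V, r x ∈ V := fun r hr => by
    induction hr using NonUnitalSubring.closure_induction with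
    | mem s hs => exact hS s hs
    | zero => exact fun x _ => V.zero_mem
    | add a b _ _ ha hb => exact fun x hx => V.add_mem (ha x hx) (hb x hx)
    | neg a _ ha => exact fun x hx => V.neg_mem (ha x hx)
    | mul a b _ _ ha hb => exact fun x hx => ha _ (hb x hx)
  suffices key : ∀ F : Set M, F.Finite → F ⊆ V → ∃ ε ∈ NonUnitalSubring.closure S,
      ∀ x ∈ F, ε x = x from key V hV subset_rfl
  intro F hF
  induction F, hF using Set.Finite.induction_on with
  | empty => exact fun _ => ⟨0, zero_mem _, fun _ hx => hx.elim⟩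
  | @insert y F _ _ ih =>
    intro hs
    obtain ⟨ε, h1, h2⟩ := ih fun x hx => hs (Or.inr hx)
    have hy : y ∈ V := hs (Or.inl rfl)
    let W : AddSubgroup M :=
      { carrier := {x | ∃ r ∈ NonUnitalSubring.closure S, (∀ z ∈ F, r z = 0) ∧ r y = x}
        add_mem' := by
          rintro _ _ ⟨r, a1, a2, rfl⟩ ⟨r', b1, b2, rfl⟩
          exact ⟨r + r', add_mem a1 b1, fun z hz => by simp [a2 z hz, b2 z hz], rfl⟩
        zero_mem' := ⟨0, zero_mem _, fun _ _ => rfl, rfl⟩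
        neg_mem' := by
          rintro _ ⟨r, a1, a2, rfl⟩
          exact ⟨-r, neg_mem a1, fun z hz => by simp [a2 z hz], rfl⟩ }
    obtain ⟨r, a1, a2, a3⟩ : y - ε y ∈ W := by
      refine hG.2 W ?_ _ (V.sub_mem hy (hN ε h1 y hy)) fun s hs' => ?_
      · rintro s hs' _ ⟨r, a1, a2, rfl⟩
        exact ⟨s * r, mul_mem (NonUnitalSubring.subset_closure hs') a1,
          fun z hz => by simp [a2 z hz], rfl⟩
      · have b1 := NonUnitalSubring.subset_closure hs'
        exact ⟨s - s * ε, sub_mem b1 (mul_mem b1 h1), fun z hz => by simp [h2 z hz], by simp⟩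
    refine ⟨ε + r, add_mem h1 a1, ?_⟩
    rintro x (rfl | hx)
    · simp [a3]
    · simp [h2 x hx, a2 x hx]

end Pool.Agent.Lib.TM
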