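import Pool.Agent.Lib.TM.Util

/-! Block RED: the reduction of the Frobenius element. -/

set_option autoImplicit false

namespace Pool.Agent.Lib.TM

open Polynomial

namespace BRED

theorem sub_mem {A M : Type} [CommRing A] [AddCommGroup M] [Module A M] {σ π : Module.End A M}
    {T : Submodule A M} (hσ : ∀ x ∈ T, σ x ∈ T) (h : ∀ x, x - π x ∈ T) (p : A[X]) (x : M) :
    aeval σ p x - aeval (π * σ) p x ∈ T := by
  have key : ∀ n : ℕ, (σ ^ n) x - ((π * σ) ^ n) x ∈ T := fun n => by
    induction n with
    | zero => simp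
    | succ n ih =>
      have := T.add_mem (hσ _ ih) (h (σ (((π * σ) ^ n) x)))
      rwa [map_sub, sub_add_sub_cancel, ← Module.End.mul_apply, ← pow_succ',
        ← Module.End.mul_apply π, ← Module.End.mul_apply, ← pow_succ'] at this
  induction p using Polynomial.induction_on' with
  | add p q hp hq =>
    simpa only [map_add, LinearMap.add_apply, add_sub_add_comm] using T.add_mem hp hq
  | monomial n a =>
    simpa only [aeval_monomial, Module.End.mul_apply, Module.algebraMap_end_apply, smul_sub] using
      T.smul_mem a (key n)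

theorem fix {A M : Type} [CommRing A] [AddCommGroup M] [Module A M] {σ π : Module.End A M}
    (h : ∀ x, π (π x) = π x) (p : A[X]) {x : M} (hx : π x = x) :
    π (aeval (π * σ) p x) = aeval (π * σ) p x := by
  induction p using Polynomial.induction_on' with
  | add p q hp hq => simp only [map_add, LinearMap.add_apply, hp, hq]
  | monomial n a =>
    simp only [aeval_monomial, Module.End.mul_apply, Module.algebraMap_end_apply, map_smul]
    congr 1
    rcases n with _ | n
    · simpa using hx
    · rw [pow_succ', Module.End.mul_apply, Module.End.mul_apply, h]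

theorem fin {𝔽 L : Type} [Field 𝔽] [Field L] [Algebra 𝔽 L] {q : ℕ} (hq : 1 < q) {p : 𝔽[X]}
    (hp : p ≠ 0) : {y : L | (p.sum fun m c => c • y ^ q ^ m) = 0}.Finite := by
  have h0 : (p.sum fun m c => monomial (q ^ m) c) ≠ 0 := fun h => by
    have := congrArg (coeff · (q ^ p.natDegree)) h
    simp only [sum_def, finsetSum_coeff, coeff_monomial, (Nat.pow_right_injective hq).eq_iff,
      Finset.sum_ite_eq', natDegree_mem_support_of_nonzero hp, if_true, coeff_zero] at this
    exact hp (leadingCoeff_eq_zero.1 this)
  refine ((p.sum fun m c => monomial (q ^ m) c).rootSet_finite L).subset fun y hy => ?_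
  refine (mem_rootSet_of_ne h0).2 ?_
  simpa only [sum_def, map_sum, aeval_monomial, ← Algebra.smul_def, Set.mem_ofPred_eq] using hy

end BRED

theorem blockRED (hRED1 : St_RED1) : St_RED := by
  intro 𝔽 k L M ι _ _ _ _ _ _ _ _ _ _ _ _ _ _ g σ π T hb hσ hT h1 h2
  have s1 : ∀ x ∈ T, σ x ∈ T := fun x hx => (hT _).2 fun i => by
    rw [hσ, (hT x).1 hx, zero_pow Fintype.card_ne_zero]
  have s2 : ∀ x, π (π x) = π x := fun x => by
    have := h2 _ (h1 x)
    rw [map_sub, sub_eq_zero] at this
    exact this.symm
  refine ⟨?_, fun g₀ hg => ?_⟩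
  · obtain ⟨P, hP, e⟩ := hRED1 𝔽 k L M ι g σ hb hσ
    refine ⟨P, hP, fun x hx => ?_⟩
    have := T.sub_mem ((hT _).2 fun i => e i x) (BRED.sub_mem s1 h1 P x)
    rw [sub_sub_cancel] at this
    rw [← BRED.fix s2 P hx, h2 _ this]
  have s3 : ∀ i x (m : ℕ), g i ((σ ^ m) x) = g i x ^ Fintype.card k ^ m := fun i x m => by
    induction m with
    | zero => simp
    | succ m ih => rw [pow_succ', Module.End.mul_apply, hσ, ih, ← pow_mul, ← pow_succ]
  have s4 : ∀ i x (p : 𝔽[X]), g i (aeval σ (p.map C : 𝔽[X][X]) x) =
      p.sum fun m c => c • g i x ^ Fintype.card k ^ m := fun i x p => by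
    induction p using Polynomial.induction_on' with
    | add p q hp hq =>
      rw [sum_add_index _ _ _ (by simp) (by simp [add_smul]), Polynomial.map_add, map_add,
        LinearMap.add_apply, map_add, hp, hq]
    | monomial n a =>
      rw [sum_monomial_index _ _ (by simp), map_monomial, aeval_monomial, Module.End.mul_apply,
        Module.algebraMap_end_apply, ← algebraMap_eq, algebraMap_smul, map_smul, s3]
  refine Set.Finite.of_finite_image (f := fun x i => g i x)
    ((Set.Finite.pi' fun _ : ι => BRED.fin (L := L) (Fintype.one_lt_card (α := k)) hg).subset ?_)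
    fun x hx y hy e => ?_
  · rintro _ ⟨x, hx, rfl⟩ i
    have := BRED.sub_mem s1 h1 (g₀.map C) x
    rw [hx.2, sub_zero] at this
    exact (s4 i x g₀).symm.trans ((hT _).1 this i)
  · have := h2 (x - y) ((hT _).2 fun i => by rw [map_sub]; exact sub_eq_zero.2 (congrFun e i))
    rwa [map_sub, hx.1, hy.1, sub_eq_zero] at this

end Pool.Agent.Lib.TM
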