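import Pool.Agent.Lib.TM.Util

/-! Block RED1: a monic polynomial relation for the Frobenius endomorphism. -/

set_option autoImplicit false

namespace Pool.Agent.Lib.TM

open Polynomial Pool.Agent.Lib.MP_795114_nt

namespace BRED1

/-- Linear forms on `M`, with the action of `𝔽[X]` by composition. -/
def Hm (𝔽 L M : Type) [Field 𝔽] [Field L] [Algebra 𝔽 L] [AddCommGroup M] [Module 𝔽 M] : Type :=
  M →ₗ[𝔽] L

variable {𝔽 k L M ι : Type} [Field 𝔽] [Field k] [Field L] [Algebra 𝔽 k] [Algebra k L] [Algebra 𝔽 L]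
  [IsScalarTower 𝔽 k L] [AddCommGroup M] [Module 𝔽 M] [Module 𝔽[X] M] [IsScalarTower 𝔽 𝔽[X] M]

instance hmGroup : AddCommGroup (Hm 𝔽 L M) := inferInstanceAs (AddCommGroup (M →ₗ[𝔽] L))

/-- The underlying linear form. -/
def val (h : Hm 𝔽 L M) : M →ₗ[𝔽] L := h

noncomputable instance hmModule : Module 𝔽[X] (Hm 𝔽 L M) where
  smul a h := val h ∘ₗ (LinearMap.lsmul 𝔽[X] M a).restrictScalars 𝔽
  one_smul h := LinearMap.ext fun x => congrArg (val h) (one_smul _ x)
  mul_smul a b h := LinearMap.ext fun x => congrArg (val h) (by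
    change (a * b) • x = b • a • x
    rw [mul_comm, mul_smul])
  smul_zero _ := rfl
  smul_add _ _ _ := rfl
  add_smul a b h := LinearMap.ext fun x =>
    (congrArg (val h) (add_smul a b x)).trans ((val h).map_add _ _)
  zero_smul h := LinearMap.ext fun x => (congrArg (val h) (zero_smul _ x)).trans (val h).map_zero

/-- Composition with an endomorphism. -/
noncomputable def pull (σ : Module.End 𝔽[X] M) : Module.End 𝔽[X] (Hm 𝔽 L M) where
  toFun h := val h ∘ₗ σ.restrictScalars 𝔽
  map_add' _ _ := rfl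
  map_smul' a h := LinearMap.ext fun x => congrArg (val h) (σ.map_smul a x).symm

/-- Multiplication by a scalar. -/
noncomputable def sc (c : k) : Module.End 𝔽[X] (Hm 𝔽 L M) where
  toFun h := (c • val h : M →ₗ[𝔽] L)
  map_add' h h' := smul_add c (val h) (val h')
  map_smul' _ _ := rfl

theorem aeval_val {N : Submodule 𝔽[X] (Hm 𝔽 L M)} (σ : Module.End 𝔽[X] M)
    (t : Module.End 𝔽[X] N) (ht : ∀ h x, val (t h).1 x = val h.1 (σ x)) (P : 𝔽[X][X]) (h : N)
    (x : M) : val (aeval t P h).1 x = val h.1 (aeval σ P x) := by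
  have pw : ∀ (n : ℕ) (h : N) x, val ((t ^ n) h).1 x = val h.1 ((σ ^ n) x) := fun n => by
    induction n with
    | zero => exact fun _ _ => rfl
    | succ n ih =>
      intro h x
      rw [pow_succ', Module.End.mul_apply, ht, ih, pow_succ, Module.End.mul_apply]
  induction P using Polynomial.induction_on' with
  | add p q hp hq =>
    rw [map_add, map_add, LinearMap.add_apply, LinearMap.add_apply, map_add, ← hp, ← hq]
    rfl
  | monomial n a =>
    rw [aeval_monomial, aeval_monomial, Module.End.mul_apply, Module.End.mul_apply,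
      Module.algebraMap_end_apply, Module.algebraMap_end_apply, ← map_smul (σ ^ n), ← pw]
    rfl

variable [Fintype 𝔽]

omit [Algebra 𝔽 k] [IsScalarTower 𝔽 k L] [IsScalarTower 𝔽 𝔽[X] M] in
theorem orb_pow {g : ι → M →ₗ[𝔽] L} (h : B1 k g) :
    ∀ f ∈ Orb k g, f ^ Fintype.card 𝔽 ∈ Orb k g := fun f hf => by
  induction hf using Submodule.span_induction with
  | mem _ e =>
    obtain ⟨i, l, rfl⟩ := e
    refine span_transfer (N := Orb k g) (fun x : M => (X : 𝔽[X]) ^ l • x) (RingHom.id L)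
      (RingHom.id k) (fun _ => rfl) ?_ (h i)
    rintro _ ⟨j, m, rfl⟩
    exact Submodule.subset_span ⟨j, m + l, funext fun x => by simp [pow_add, mul_smul]⟩
  | zero => rw [zero_pow Fintype.card_ne_zero]; exact Submodule.zero_mem _
  | add f f' _ _ e e' =>
    have := add_pow_q 𝔽 1 f f'
    simp only [pow_one] at this
    exact this ▸ Submodule.add_mem _ e e'
  | smul r f _ e => rw [_root_.smul_pow]; exact Submodule.smul_mem _ _ e

end BRED1

open BRED1 in
theorem blockRED1 : St_RED1 := by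
  intro 𝔽 k L M ι _ _ _ _ _ _ _ _ _ _ _ _ _ _ g σ hb hσ
  let N : Submodule 𝔽[X] (Hm 𝔽 L M) :=
    Submodule.span 𝔽[X] (Set.range fun c : k × ι => (sc c.1 (g c.2) : Hm 𝔽 L M))
  have hg : ∀ i, (g i : Hm 𝔽 L M) ∈ N := fun i =>
    Submodule.subset_span ⟨(1, i), one_smul k (g i)⟩
  have hsc : ∀ c : k, N ≤ N.comap (sc c) := fun c => Submodule.span_le.2 (by
    rintro _ ⟨d, rfl⟩
    exact Submodule.subset_span ⟨(c * d.1, d.2), mul_smul c d.1 (g d.2)⟩)
  have orb : ∀ f ∈ Orb k g, ∃ h ∈ N, ⇑(val h) = f := fun f hf => by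
    induction hf using Submodule.span_induction with
    | mem _ e =>
      obtain ⟨i, l, rfl⟩ := e
      exact ⟨_, N.smul_mem (X ^ l) (hg i), rfl⟩
    | zero => exact ⟨0, N.zero_mem, rfl⟩
    | add _ _ _ _ e e' =>
      obtain ⟨a, ha, rfl⟩ := e
      obtain ⟨b, hb, rfl⟩ := e'
      exact ⟨a + b, N.add_mem ha hb, rfl⟩
    | smul r _ _ e =>
      obtain ⟨a, ha, rfl⟩ := e
      exact ⟨sc r a, hsc r ha, rfl⟩
  have st : ∀ h ∈ N, pull σ h ∈ N := fun h hh =>
    (show N ≤ N.comap (pull σ) from Submodule.span_le.2 (by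
      rintro _ ⟨d, rfl⟩
      have m : (g d.2 : M → L) ∈ Orb k g :=
        Submodule.subset_span ⟨d.2, 0, funext fun x => by simp⟩
      obtain ⟨a, ha, e⟩ := orb _ (pow_q_mem (orb_pow hb) m (Module.finrank 𝔽 k))
      rw [← Module.card_eq_pow_finrank] at e
      have : a = pull σ (g d.2) := LinearMap.ext fun x => (congrFun e x).trans (hσ d.2 x).symm
      exact hsc d.1 (this ▸ ha))) hh
  have : Module.Finite 𝔽[X] N := Module.Finite.span_of_finite _ (Set.finite_range _)
  obtain ⟨P, hP, h0⟩ := LinearMap.exists_monic_and_aeval_eq_zero 𝔽[X] ((pull σ).restrict st)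
  refine ⟨P, hP, fun i x => ?_⟩
  have := aeval_val σ ((pull σ).restrict st) (fun _ _ => rfl) P ⟨g i, hg i⟩ x
  rw [h0] at this
  exact this.symm

end Pool.Agent.Lib.TM
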