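import Pool.Agent.Lib.TM.Util

/-! The values at a torsion point prime to the characteristic are separable. -/

set_option autoImplicit false

namespace Pool.Agent.Lib.TM

open Polynomial Pool.Agent.Lib.MP_795114_nt

namespace BSEP

variable (𝔽 : Type) {E Ω : Type} [Field 𝔽] [Fintype 𝔽] [Field E] [Field Ω] [Algebra E Ω]
  [Algebra 𝔽 Ω]

/-- The elements whose `q ^ n`-th power is separable. -/
def sub (E : Type) [Field E] [Algebra E Ω] (n : ℕ) : Submodule E Ω where
  carrier := {z | z ^ Fintype.card 𝔽 ^ n ∈ separableClosure E Ω}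
  zero_mem' := by
    show (0 : Ω) ^ Fintype.card 𝔽 ^ n ∈ separableClosure E Ω
    rw [zero_pow_q]; exact zero_mem _
  add_mem' {a b} ha hb := by
    show (a + b) ^ Fintype.card 𝔽 ^ n ∈ separableClosure E Ω
    rw [add_pow_q]; exact add_mem ha hb
  smul_mem' c z hz := by
    show (c • z) ^ Fintype.card 𝔽 ^ n ∈ separableClosure E Ω
    rw [Algebra.smul_def, mul_pow]
    exact mul_mem (pow_mem (IntermediateField.algebraMap_mem _ c) _) hz

theorem mem_sub {n : ℕ} {z : Ω} :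
    z ∈ sub 𝔽 E n ↔ z ^ Fintype.card 𝔽 ^ n ∈ separableClosure E Ω := Iff.rfl

theorem large [Algebra.IsAlgebraic E Ω] (y : Ω) :
    ∃ n, ∀ k, n ≤ k → y ^ Fintype.card 𝔽 ^ k ∈ separableClosure E Ω := by
  obtain ⟨p, hp, m, pp, hq⟩ := FiniteField.card' 𝔽
  have : CharP Ω p := charP_of_injective_algebraMap (algebraMap 𝔽 Ω).injective p
  have : ExpChar (separableClosure E Ω) p := ExpChar.prime pp
  obtain ⟨n, z, hz⟩ := IsPurelyInseparable.pow_mem (separableClosure E Ω) p y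
  refine ⟨n, fun k hk => ?_⟩
  obtain ⟨d, hd⟩ := Nat.exists_eq_add_of_le (hk.trans (Nat.le_mul_of_pos_left k m.pos))
  rw [hq, ← pow_mul, hd, pow_add, pow_mul, ← hz]
  exact pow_mem z.2 _

end BSEP

theorem blockSEP : St_SEP := by
  intro 𝔽 E Ω M ι _ _ _ _ _ _ _ _ _ _ _ _ _ _ θ g h x a ha hθ
  choose n hn using fun i => BSEP.large 𝔽 (E := E) (g i x)
  obtain ⟨N, hN⟩ := (Set.finite_range n).bddAbove
  have key : ∀ m, (∀ i, g i x ∈ BSEP.sub 𝔽 E m) → ∀ i, g i x ∈ BSEP.sub 𝔽 E 0 := fun m => by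
    induction m with
    | zero => exact id
    | succ m ih =>
      refine fun hm => ih fun i => ?_
      have h0 : (g i : M → Ω) ∈ Asp (Fintype.card 𝔽) E 0 (Fn g) := mem_Asp ⟨i, rfl⟩
      have h1 := Asp_apply_mem (h.comp_smul_sub a h0) (x := x)
        (N := BSEP.sub 𝔽 E m) (by
          rintro _ ⟨j, rfl⟩ k hk
          obtain ⟨d, rfl⟩ := Nat.exists_eq_add_of_le hk
          rw [BSEP.mem_sub, ← pow_mul, ← pow_add, show 1 + d + m = m + 1 + d by ring, pow_add, pow_mul]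
          exact pow_mem ((BSEP.mem_sub 𝔽).1 (hm j)) _)
      simp only [Pi.sub_apply, ha, map_zero, zero_sub, neg_mem_iff, Pi.smul_apply] at h1
      exact (Submodule.smul_mem_iff _ hθ).1 h1
  intro i
  have e := (BSEP.mem_sub 𝔽).1 (key N (fun j => (BSEP.mem_sub 𝔽).2 (hn j N (hN ⟨j, rfl⟩))) i)
  rwa [pow_zero, pow_one] at e

end Pool.Agent.Lib.TM
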