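import Pool.Agent.Lib.TM.Util

/-! The skew polynomial ring: products, degrees and comparison with additive polynomials. -/

set_option autoImplicit false

namespace Pool.Agent.Lib.TM

open Polynomial Pool.Agent.Lib.MP_795114_nt

namespace BSK1

variable (𝔽 : Type) {K : Type} [Field 𝔽] [Fintype 𝔽] [Field K] [Algebra 𝔽 K]

/-- The additive polynomial attached to `p`. -/
noncomputable def ex : Polynomial K →ₗ[K] Polynomial K :=
  Polynomial.lsum fun k => monomial (Fintype.card 𝔽 ^ k)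

omit [Field 𝔽] [Algebra 𝔽 K] in
theorem ex_monomial (k : ℕ) (c : K) :
    ex 𝔽 (monomial k c) = monomial (Fintype.card 𝔽 ^ k) c := by
  rw [ex, lsum_apply, sum_monomial_index _ _ (by simp)]

theorem eval_ex (p : Polynomial K) (x : K) : (ex 𝔽 p).eval x = lin 𝔽 p x := by
  induction p using Polynomial.induction_on' with
  | add p q hp hq => rw [map_add, map_add, eval_add, hp, hq, LinearMap.add_apply]
  | monomial k c => rw [ex_monomial, lin_monomial, eval_monomial]

omit [Algebra 𝔽 K] in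
theorem coeff_ex (p : Polynomial K) (j : ℕ) :
    (ex 𝔽 p).coeff (Fintype.card 𝔽 ^ j) = p.coeff j := by
  induction p using Polynomial.induction_on' with
  | add p q hp hq => rw [map_add, coeff_add, coeff_add, hp, hq]
  | monomial k c =>
    rw [ex_monomial, coeff_monomial, coeff_monomial]
    by_cases h : k = j
    · rw [if_pos h, if_pos (by rw [h])]
    · rw [if_neg h, if_neg fun e => h (q_pow_inj 𝔽 e)]

omit [Field 𝔽] [Algebra 𝔽 K] in
theorem ex_mem (p : Polynomial K) : ex 𝔽 p ∈ Lam1 (Fintype.card 𝔽) K := by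
  induction p using Polynomial.induction_on' with
  | add p q hp hq => rw [map_add]; exact Submodule.add_mem _ hp hq
  | monomial k c =>
    rw [ex_monomial, ← C_mul_X_pow_eq_monomial, ← smul_eq_C_mul]
    exact Submodule.smul_mem _ _ (Submodule.subset_span ⟨k, rfl⟩)

omit [Field 𝔽] [Algebra 𝔽 K] in
theorem exists_ex {f : Polynomial K} (hf : f ∈ Lam1 (Fintype.card 𝔽) K) : ∃ p, ex 𝔽 p = f := by
  have : Lam1 (Fintype.card 𝔽) K ≤ LinearMap.range (ex 𝔽 (K := K)) := by
    refine Submodule.span_le.2 ?_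
    rintro _ ⟨i, rfl⟩
    exact ⟨monomial i 1, by rw [ex_monomial, monomial_one_right_eq_X_pow]⟩
  exact this hf

theorem lin_inj [IsAlgClosed K] :
    Function.Injective (lin 𝔽 : Polynomial K → Module.End 𝔽 K) := by
  intro a b h
  have e : ex 𝔽 a = ex 𝔽 b := Polynomial.funext fun x => by rw [eval_ex, eval_ex, h]
  ext j
  rw [← coeff_ex 𝔽 a, ← coeff_ex 𝔽 b, e]

theorem lin_term (k : ℕ) (c : K) (v : Polynomial K) (x : K) :
    lin 𝔽 (monomial k c * tw 𝔽 k v) x = c * lin 𝔽 v x ^ Fintype.card 𝔽 ^ k := by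
  induction v using Polynomial.induction_on' with
  | add p q hp hq =>
    have : tw 𝔽 k (p + q) = tw 𝔽 k p + tw 𝔽 k q := Polynomial.map_add _
    rw [this, mul_add, map_add, map_add, LinearMap.add_apply, LinearMap.add_apply, hp, hq,
      add_pow_q, mul_add]
  | monomial j d =>
    have : tw 𝔽 k (monomial j d) = monomial j (d ^ Fintype.card 𝔽 ^ k) := by
      rw [tw, Polynomial.map_monomial]
      exact congrArg _ (frob_pow_apply 𝔽 k d)
    rw [this, monomial_mul_monomial, lin_monomial, lin_monomial, mul_pow, ← pow_mul, ← pow_add,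
      add_comm j k, mul_assoc]

/-- The skew product. -/
noncomputable def sk (u v : Polynomial K) : Polynomial K :=
  ∑ k ∈ u.support, monomial k (u.coeff k) * tw 𝔽 k v

theorem lin_sk (u v : Polynomial K) : lin 𝔽 (sk 𝔽 u v) = lin 𝔽 u * lin 𝔽 v := by
  ext x
  rw [sk, map_sum, LinearMap.sum_apply, Module.End.mul_apply, lin_apply 𝔽 u, sum_def]
  exact Finset.sum_congr rfl fun k _ => lin_term 𝔽 k _ v x

theorem coeff_term (k : ℕ) (c : K) (v : Polynomial K) (d : ℕ) :
    (monomial k c * tw 𝔽 k v).coeff d =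
      if k ≤ d then c * v.coeff (d - k) ^ Fintype.card 𝔽 ^ k else 0 := by
  rw [← C_mul_X_pow_eq_monomial, mul_assoc, coeff_C_mul, coeff_X_pow_mul', tw_coeff]
  split_ifs
  · rfl
  · rw [mul_zero]

theorem coeff_sk (u v : Polynomial K) (m n : ℕ)
    (h : ∀ k, k ≠ m → u.coeff k ≠ 0 → k ≤ m + n → v.coeff (m + n - k) = 0) :
    (sk 𝔽 u v).coeff (m + n) = u.coeff m * v.coeff n ^ Fintype.card 𝔽 ^ m := by
  rw [sk, finsetSum_coeff, Finset.sum_eq_single m]
  · rw [coeff_term, if_pos (Nat.le_add_right m n), Nat.add_sub_cancel_left]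
  · intro k hk hkm
    rw [coeff_term]
    split_ifs with hd
    · rw [h k hkm (mem_support_iff.1 hk) hd, zero_pow_q, mul_zero]
    · rfl
  · intro hm
    rw [notMem_support_iff.1 hm, monomial_zero_right, zero_mul, coeff_zero]

theorem coeff_sk_zero (u v : Polynomial K) (d : ℕ)
    (h : ∀ k, u.coeff k ≠ 0 → k ≤ d → v.coeff (d - k) = 0) : (sk 𝔽 u v).coeff d = 0 := by
  rw [sk, finsetSum_coeff]
  refine Finset.sum_eq_zero fun k hk => ?_
  rw [coeff_term]
  split_ifs with hd
  · rw [h k (mem_support_iff.1 hk) hd, zero_pow_q, mul_zero]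
  · rfl

end BSK1

theorem blockSK1 : St_SK1 := by
  intro 𝔽 K _ _ _ _ _
  refine ⟨BSK1.lin_inj 𝔽, fun u v m n hu hv => ?_, fun u v w h hu hv => ?_, fun u hu => ?_,
    fun f hf => ?_, fun p => ⟨_, BSK1.ex_mem 𝔽 p, BSK1.eval_ex 𝔽 p⟩⟩
  · rw [X_pow_dvd_iff] at hu hv
    refine ⟨BSK1.sk 𝔽 u v, BSK1.lin_sk 𝔽 u v, X_pow_dvd_iff.2 fun d hd => ?_, ?_⟩
    · refine BSK1.coeff_sk_zero 𝔽 u v d fun k hk hkd => hv _ ?_
      have : m ≤ k := not_lt.1 fun e => hk (hu k e)
      omega
    · refine BSK1.coeff_sk 𝔽 u v m n fun k hkm hk hkd => hv _ ?_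
      have : m ≤ k := not_lt.1 fun e => hk (hu k e)
      omega
  · have e : w = BSK1.sk 𝔽 u v := BSK1.lin_inj 𝔽 (h.trans (BSK1.lin_sk 𝔽 u v).symm)
    have c : w.coeff (u.natDegree + v.natDegree) ≠ 0 := by
      rw [e, BSK1.coeff_sk 𝔽 u v _ _ fun k hkm hk hkd => coeff_eq_zero_of_natDegree_lt (by
        have : k ≤ u.natDegree := le_natDegree_of_ne_zero hk
        omega)]
      exact mul_ne_zero (leadingCoeff_ne_zero.2 hu) (pow_ne_zero _ (leadingCoeff_ne_zero.2 hv))
    refine ⟨fun h0 => c (by rw [h0, coeff_zero]), le_antisymm ?_ (le_natDegree_of_ne_zero c)⟩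
    rw [natDegree_le_iff_coeff_eq_zero]
    intro d hd
    rw [e]
    refine BSK1.coeff_sk_zero 𝔽 u v d fun k hk hkd => coeff_eq_zero_of_natDegree_lt ?_
    have : k ≤ u.natDegree := le_natDegree_of_ne_zero hk
    omega
  · obtain ⟨v, hv⟩ : ∃ v, tw 𝔽 1 v = u.divX := Polynomial.map_surjective _ (fun c => by
      obtain ⟨d, hd⟩ := exists_root_q 𝔽 1 c
      exact ⟨d, (frob_pow_apply 𝔽 1 d).trans hd⟩) _
    refine ⟨v, LinearMap.ext fun x => ?_⟩
    have a := BSK1.lin_term 𝔽 1 (1 : K) v x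
    have b : (monomial 1 (1 : K)) * u.divX = u := by
      have := X_mul_divX_add u
      rw [hu, map_zero, add_zero] at this
      rwa [monomial_one_one_eq_X]
    rw [hv, b] at a
    rw [a, Module.End.mul_apply, ← monomial_one_one_eq_X, lin_monomial]
  · obtain ⟨p, rfl⟩ := BSK1.exists_ex 𝔽 hf
    refine ⟨p, BSK1.eval_ex 𝔽 p, ?_⟩
    rw [← BSK1.coeff_ex 𝔽 p 0, pow_zero]

end Pool.Agent.Lib.TM
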