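import Pool.Agent.Lib.TM.Util

/-! Block SK2: division, finite fibres, kernels and the Ore condition for `lin`. -/

set_option autoImplicit false
set_option linter.unusedSectionVars false

namespace Pool.Agent.Lib.TM

open Polynomial Pool.Agent.Lib.MP_795114_nt

namespace BSK2

variable (𝔽 : Type) {K : Type} [Field 𝔽] [Fintype 𝔽] [Field K] [Algebra 𝔽 K]

theorem tw_add (m : ℕ) (a b : K[X]) : tw 𝔽 m (a + b) = tw 𝔽 m a + tw 𝔽 m b :=
  Polynomial.map_add _

theorem tw_monomial (m k : ℕ) (d : K) :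
    tw 𝔽 m (monomial k d) = monomial k (d ^ Fintype.card 𝔽 ^ m) := by
  unfold tw
  rw [Polynomial.map_monomial]
  exact congrArg _ (frob_pow_apply 𝔽 m d)

theorem lin_mul (m : ℕ) (c : K) (b : K[X]) :
    lin 𝔽 (monomial m c * tw 𝔽 m b) = lin 𝔽 (monomial m c) * lin 𝔽 b := by
  induction b using Polynomial.induction_on' with
  | add p r hp hr => rw [tw_add, mul_add, map_add, map_add, mul_add, hp, hr]
  | monomial k d =>
    rw [tw_monomial, monomial_mul_monomial]
    ext x
    rw [Module.End.mul_apply, lin_monomial, lin_monomial, lin_monomial, mul_pow, ← pow_mul,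
      ← pow_add, add_comm k m, mul_assoc]

theorem tw_degree (m : ℕ) (b : K[X]) : (tw 𝔽 m b).degree = b.degree :=
  Polynomial.degree_map _ _

theorem tw_lc (m : ℕ) (b : K[X]) :
    (tw 𝔽 m b).leadingCoeff = b.leadingCoeff ^ Fintype.card 𝔽 ^ m := by
  rw [leadingCoeff, natDegree_eq_of_degree_eq (tw_degree 𝔽 m b), tw_coeff, leadingCoeff]

theorem divi (b : K[X]) (hb : b ≠ 0) (a : K[X]) :
    ∃ χ r : K[X], lin 𝔽 a = lin 𝔽 χ * lin 𝔽 b + lin 𝔽 r ∧ r.degree < b.degree := by
  induction a using WellFounded.induction (degree_lt_wf (R := K)) with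
  | _ a ih =>
    by_cases h : a.degree < b.degree
    · exact ⟨0, a, by simp, h⟩
    have hle : b.degree ≤ a.degree := not_lt.1 h
    have ha : a ≠ 0 := by
      rintro rfl
      exact hb (degree_eq_bot.1 (le_bot_iff.1 hle))
    have hn : b.natDegree ≤ a.natDegree := natDegree_le_natDegree hle
    set m := a.natDegree - b.natDegree with hm
    have hl : b.leadingCoeff ^ Fintype.card 𝔽 ^ m ≠ 0 := pow_ne_zero _ (leadingCoeff_ne_zero.2 hb)
    set c := a.leadingCoeff / b.leadingCoeff ^ Fintype.card 𝔽 ^ m with hc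
    have hc0 : c ≠ 0 := div_ne_zero (leadingCoeff_ne_zero.2 ha) hl
    have h1 : a.degree = (monomial m c * tw 𝔽 m b).degree := by
      rw [degree_mul, degree_monomial _ hc0, tw_degree, degree_eq_natDegree hb,
        degree_eq_natDegree ha, ← Nat.cast_add, hm, Nat.sub_add_cancel hn]
    have h2 : a.leadingCoeff = (monomial m c * tw 𝔽 m b).leadingCoeff := by
      rw [leadingCoeff_mul, leadingCoeff_monomial, tw_lc, hc, div_mul_cancel₀ _ hl]
    obtain ⟨χ, r, h3, h4⟩ := ih _ (degree_sub_lt_left h1 ha h2)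
    refine ⟨χ + monomial m c, r, ?_, h4⟩
    rw [map_sub, lin_mul, sub_eq_iff_eq_add] at h3
    rw [h3, map_add, add_mul]
    abel

/-- The additive polynomial. -/
noncomputable def qp (p : K[X]) : K[X] := p.sum fun k c => monomial (Fintype.card 𝔽 ^ k) c

theorem qp_eval (p : K[X]) (x : K) : (qp 𝔽 p).eval x = lin 𝔽 p x := by
  rw [lin_apply, qp, eval_sum]
  simp only [eval_monomial]

theorem qp_coeff (p : K[X]) (k : ℕ) : (qp 𝔽 p).coeff (Fintype.card 𝔽 ^ k) = p.coeff k := by
  rw [qp, coeff_sum, sum_def, Finset.sum_eq_single k]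
  · rw [coeff_monomial, if_pos rfl]
  · intro j _ hj
    rw [coeff_monomial, if_neg fun h => hj (q_pow_inj 𝔽 h)]
  · intro hk
    rw [notMem_support_iff.1 hk, map_zero, coeff_zero]

theorem qp_le (p : K[X]) : (qp 𝔽 p).natDegree ≤ Fintype.card 𝔽 ^ p.natDegree := by
  rw [qp, sum_def]
  refine natDegree_sum_le_of_forall_le _ _ fun k hk => (natDegree_monomial_le _).trans ?_
  exact Nat.pow_le_pow_right Fintype.card_pos (le_natDegree_of_mem_supp k hk)

theorem qp_ge {p : K[X]} (hp : p ≠ 0) : Fintype.card 𝔽 ^ p.natDegree ≤ (qp 𝔽 p).natDegree :=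
  le_natDegree_of_ne_zero (by rw [qp_coeff]; exact leadingCoeff_ne_zero.2 hp)

theorem qp_der (p : K[X]) : derivative (qp 𝔽 p) = C (p.coeff 0) := by
  have hq : ((Fintype.card 𝔽 : ℕ) : K) = 0 := by
    rw [← map_natCast (algebraMap 𝔽 K), FiniteField.cast_card_eq_zero, map_zero]
  rw [qp, sum_def, derivative_sum, Finset.sum_eq_single 0]
  · simp [derivative_monomial]
  · intro j _ hj
    rw [derivative_monomial, Nat.cast_pow, hq, zero_pow hj, mul_zero, map_zero]
  · intro hk
    rw [notMem_support_iff.1 hk, map_zero, map_zero]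

theorem fib {u : K[X]} (hu : u ≠ 0) {T : Set K} (hT : T.Finite) : (lin 𝔽 u ⁻¹' T).Finite := by
  refine (hT.biUnion (t := fun t => {x | (qp 𝔽 u - C t).IsRoot x}) fun t _ =>
    finite_setOfPred_isRoot fun h => ?_).subset fun x hx => ?_
  · have h1 := congrArg (fun p => coeff p (Fintype.card 𝔽 ^ u.natDegree)) h
    simp only [coeff_sub, qp_coeff, coeff_C_of_ne_zero (q_pow_ne_zero 𝔽 _), sub_zero,
      coeff_zero] at h1
    exact leadingCoeff_ne_zero.2 hu h1
  · exact Set.mem_biUnion hx (by simp [IsRoot.def, qp_eval])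

theorem ker [IsAlgClosed K] {u r : K[X]} (hu : u.coeff 0 ≠ 0) (hd : r.degree < u.degree)
    (h : ∀ x, lin 𝔽 u x = 0 → lin 𝔽 r x = 0) : r = 0 := by
  classical
  by_contra hr
  have hu0 : u ≠ 0 := fun h0 => hu (by rw [h0, coeff_zero])
  have hs : (qp 𝔽 u).Separable := by
    rw [separable_def, qp_der]
    exact ⟨0, C (u.coeff 0)⁻¹, by rw [zero_mul, zero_add, ← C_mul, inv_mul_cancel₀ hu, C_1]⟩
  have hc : (qp 𝔽 u).roots.toFinset.card = (qp 𝔽 u).natDegree := by
    rw [Multiset.toFinset_card_of_nodup (nodup_roots hs), IsAlgClosed.card_roots_eq_natDegree]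
  have h0 : qp 𝔽 r = 0 := by
    refine eq_zero_of_natDegree_lt_card_of_eval_eq_zero' _ (qp 𝔽 u).roots.toFinset
      (fun x hx => ?_) ?_
    · rw [qp_eval]
      refine h x ?_
      rw [← qp_eval]
      exact (isRoot_of_mem_roots (Multiset.mem_toFinset.1 hx))
    · rw [hc]
      refine (qp_le 𝔽 r).trans_lt (lt_of_lt_of_le ?_ (qp_ge 𝔽 hu0))
      exact Nat.pow_lt_pow_right Fintype.one_lt_card (natDegree_lt_natDegree hr hd)
  have h1 := qp_coeff 𝔽 r r.natDegree
  rw [h0, coeff_zero] at h1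
  exact leadingCoeff_ne_zero.2 hr h1.symm

theorem ore (a b : K[X]) (ha : a ≠ 0) :
    ∃ v w : K[X], v ≠ 0 ∧ lin 𝔽 v * lin 𝔽 b = lin 𝔽 w * lin 𝔽 a := by
  choose χ r h1 h2 using fun k : Fin (a.natDegree + 1) =>
    divi 𝔽 a ha (monomial k 1 * tw 𝔽 k b)
  let r' : Fin (a.natDegree + 1) → degreeLT K a.natDegree := fun k =>
    ⟨r k, mem_degreeLT.2 (by rw [← degree_eq_natDegree ha]; exact h2 k)⟩
  have hd : ¬ LinearIndependent K r' := fun h => by
    have := (degreeLTEquiv K a.natDegree).symm.finiteDimensional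
    have h3 := h.fintype_card_le_finrank
    rw [(degreeLTEquiv K a.natDegree).finrank_eq, Module.finrank_fin_fun, Fintype.card_fin] at h3
    omega
  obtain ⟨c, hc, k, hk⟩ := Fintype.not_linearIndependent_iff.1 hd
  have hr : ∑ j, c j • r j = 0 := by
    simpa [r'] using congrArg Subtype.val hc
  refine ⟨∑ j, c j • monomial j 1, ∑ j, c j • χ j, fun h => hk ?_, ?_⟩
  · have h4 := congrArg (fun p => coeff p k) h
    simpa [finsetSum_coeff, coeff_monomial, Fin.val_inj] using h4
  · have h5 := congrArg (lin 𝔽) hr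
    simp only [map_sum, map_smul, map_zero] at h5
    simp only [map_sum, map_smul, Finset.sum_mul, smul_mul_assoc, ← lin_mul, h1, smul_add,
      Finset.sum_add_distrib, h5, add_zero]

end BSK2

theorem blockSK2 (_hSK1 : St_SK1) : St_SK2 := fun 𝔽 _ _ _ _ _ _ =>
  ⟨fun a b hb => BSK2.divi 𝔽 b hb a, fun _ hu _ hT => BSK2.fib 𝔽 hu hT,
    fun _ _ hu hd h => BSK2.ker 𝔽 hu hd h, fun a b ha => BSK2.ore 𝔽 a b ha⟩

end Pool.Agent.Lib.TM
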