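import Pool.Agent.Lib.TM.Util

/-! Subspace polynomials are linear over the finite field. -/

set_option autoImplicit false

namespace Pool.Agent.Lib.TM

open Polynomial Pool.Agent.Lib.MP_795114_nt

namespace BSP

variable (𝔽 : Type) (Ω : Type) [Field 𝔽] [Fintype 𝔽] [Field Ω] [Algebra 𝔽 Ω]

/-- The span of the monomials whose degree is a power of `q`. -/
noncomputable def Lq : Submodule Ω (Polynomial Ω) :=
  Submodule.span Ω (Set.range fun k : ℕ => (X : Polynomial Ω) ^ Fintype.card 𝔽 ^ k)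

variable {𝔽 Ω}

omit [Field 𝔽] [Algebra 𝔽 Ω] in
theorem coeff_Lq {u : Polynomial Ω} (hu : u ∈ Lq 𝔽 Ω) (n : ℕ)
    (hn : ∀ k, n ≠ Fintype.card 𝔽 ^ k) : u.coeff n = 0 := by
  induction hu using Submodule.span_induction with
  | mem x h => obtain ⟨k, rfl⟩ := h; rw [coeff_X_pow, if_neg (hn k)]
  | zero => rfl
  | add x y _ _ hx hy => rw [coeff_add, hx, hy, add_zero]
  | smul c x _ hx => rw [coeff_smul, hx, smul_zero]

theorem pow_Lq {u : Polynomial Ω} (hu : u ∈ Lq 𝔽 Ω) : u ^ Fintype.card 𝔽 ∈ Lq 𝔽 Ω := by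
  induction hu using Submodule.span_induction with
  | mem x h =>
    obtain ⟨k, rfl⟩ := h
    exact Submodule.subset_span ⟨k + 1, by simp only [pow_succ, pow_mul]⟩
  | zero => rw [zero_pow Fintype.card_ne_zero]; exact Submodule.zero_mem _
  | add x y _ _ hx hy =>
    have h := add_pow_q 𝔽 1 x y
    rw [pow_one] at h
    rw [h]; exact Submodule.add_mem _ hx hy
  | smul c x _ hx => rw [_root_.smul_pow]; exact Submodule.smul_mem _ _ hx

theorem eval_Lq {u : Polynomial Ω} (hu : u ∈ Lq 𝔽 Ω) (c : 𝔽) (a z : Ω) :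
    u.eval (c • a + z) = c • u.eval a + u.eval z := by
  induction hu using Submodule.span_induction with
  | mem x h =>
    obtain ⟨k, rfl⟩ := h
    simp only [eval_pow, eval_X, add_pow_q 𝔽, smul_pow_q]
  | zero => simp
  | add x y _ _ hx hy => simp only [eval_add, hx, hy, smul_add]; ring
  | smul d x _ hx => simp only [eval_smul, hx, smul_eq_mul, mul_add, mul_smul_comm]

theorem exists_poly (t : Finset Ω) : ∃ u ∈ Lq 𝔽 Ω, u.Monic ∧ 0 < u.natDegree ∧
    u.natDegree ≤ Nat.card (Submodule.span 𝔽 (t : Set Ω)) ∧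
    ∀ y ∈ Submodule.span 𝔽 (t : Set Ω), u.eval y = 0 := by
  classical
  have fin : ∀ t : Finset Ω, Finite (Submodule.span 𝔽 (t : Set Ω)) := fun t =>
    haveI := Module.Finite.span_of_finite 𝔽 t.finite_toSet
    Module.finite_of_finite 𝔽
  induction t using Finset.induction_on with
  | empty =>
    have := fin ∅
    refine ⟨X, Submodule.subset_span ⟨0, by simp⟩, monic_X, by simp, ?_, by simp⟩
    rw [natDegree_X]
    exact Nat.card_pos
  | insert a t _ ih =>
    obtain ⟨u, hu, hm, h0, hd, hz⟩ := ih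
    by_cases ha : a ∈ Submodule.span 𝔽 (t : Set Ω)
    · rw [Finset.coe_insert, Submodule.span_insert_eq_span ha]
      exact ⟨u, hu, hm, h0, hd, hz⟩
    have hq := Fintype.one_lt_card (α := 𝔽)
    have h1 : (u.eval a ^ (Fintype.card 𝔽 - 1) • u).natDegree < (u ^ Fintype.card 𝔽).natDegree := by
      rw [hm.natDegree_pow]
      exact (natDegree_smul_le _ _).trans_lt (by nlinarith)
    have h2 := natDegree_sub_eq_left_of_natDegree_lt h1
    refine ⟨u ^ Fintype.card 𝔽 - u.eval a ^ (Fintype.card 𝔽 - 1) • u,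
      Submodule.sub_mem _ (pow_Lq hu) (Submodule.smul_mem _ _ hu),
      (hm.pow _).sub_of_left (degree_lt_degree h1), h2 ▸ (Nat.zero_le _).trans_lt h1, ?_, ?_⟩
    · have := fin (insert a t)
      rw [h2, hm.natDegree_pow, ← Nat.card_eq_fintype_card]
      refine (Nat.mul_le_mul_left _ hd).trans ?_
      rw [← Nat.card_prod]
      refine Nat.card_le_card_of_injective (fun p => ⟨p.1 • a + p.2, ?_⟩) ?_
      · rw [Finset.coe_insert]
        exact Submodule.mem_span_insert.2 ⟨p.1, p.2, p.2.2, rfl⟩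
      · rintro ⟨c, z⟩ ⟨c', z'⟩ h
        have h3 : c • a + (z : Ω) = c' • a + z' := congrArg Subtype.val h
        have h4 : c = c' := by
          by_contra h4
          refine ha ((Submodule.smul_mem_iff _ (sub_ne_zero.2 h4)).1 ?_)
          rw [show (c - c') • a = (z' : Ω) - z by rw [sub_smul]; linear_combination h3]
          exact Submodule.sub_mem _ z'.2 z.2
        subst h4
        exact Prod.ext rfl (Subtype.ext (add_left_cancel h3))
    · intro y hy
      rw [Finset.coe_insert] at hy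
      obtain ⟨c, z, hz', rfl⟩ := Submodule.mem_span_insert.1 hy
      have h := smul_pow_q 𝔽 1 c (u.eval a)
      rw [pow_one] at h
      rw [eval_sub, eval_pow, eval_smul, eval_Lq hu, hz z hz', add_zero, h, smul_eq_mul,
        mul_smul_comm, pow_sub_one_mul Fintype.card_ne_zero, sub_self]

end BSP

open BSP in
theorem blockSP : St_SP := by
  intro 𝔽 Ω _ _ _ _ S s hs n hn
  obtain ⟨u, hu, hm, -, hd, hz⟩ := exists_poly (𝔽 := 𝔽) s
  rw [hs, Submodule.span_eq] at hd hz
  have h1 : Nat.card S = s.card := by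
    rw [← Nat.card_eq_finsetCard]
    exact (Nat.card_congr (Equiv.setCongr hs)).symm
  have h2 : ∏ y ∈ s, (X - C y) ∣ u := Finset.prod_dvd_of_coprime
    (fun a _ b _ h => pairwise_coprime_X_sub_C Function.injective_id h)
    fun y hy => dvd_iff_isRoot.2 (hz y (by rw [← SetLike.mem_coe, ← hs]; exact hy))
  have h3 := eq_of_monic_of_dvd_of_natDegree_le (monic_prod_X_sub_C _ _) hm h2 (by
    rw [natDegree_finsetProd_X_sub_C_eq_card, ← h1]; exact hd)
  by_contra h
  exact hn (h3 ▸ coeff_Lq hu n fun k hk => h ⟨k, hk⟩)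

end Pool.Agent.Lib.TM
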