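import Pool.Agent.Lib.TM.Util

/-! Block `STAB`: stability of the zero set under twisted sums, up to finite index. -/

set_option autoImplicit false

namespace Pool.Agent.Lib.TM

open Polynomial Pool.Agent.Lib.MP_795114_nt

namespace BSTAB

variable {𝔽 K M ι : Type} [Field 𝔽] [Fintype 𝔽] [Field K] [Algebra 𝔽 K] [AddCommGroup M]
  [Module 𝔽 M] [Module 𝔽[X] M] [IsScalarTower 𝔽 𝔽[X] M]

/-- Families of recurrent sequences. -/
abbrev Rec (M : Type) [AddCommGroup M] [Module 𝔽[X] M] (J : ℕ) (R : ℕ → 𝔽[X][X]) : Type :=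
  {w : Fin (J + 1) → ℕ → M // ∀ (j : Fin (J + 1)) (l : ℕ),
    ∑ m ∈ Finset.range ((R j).natDegree + 1), (R j).coeff m • w j (l + m) = 0}

/-- The index type of the generators. -/
abbrev Idx (ι : Type) (J : ℕ) (R : ℕ → 𝔽[X][X]) : Type :=
  Σ j : Fin (J + 1), Fin (R j).natDegree × ι

/-- The generators. -/
def gen (g : ι → M →ₗ[𝔽] K) (J : ℕ) (R : ℕ → 𝔽[X][X]) (i : Idx ι J R) (w : Rec M J R) : K :=
  g i.2.2 (w.1 i.1 i.2.1)

/-- The shift. -/
def sh (J : ℕ) (R : ℕ → 𝔽[X][X]) (w : Rec M J R) : Rec M J R :=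
  ⟨fun j l => w.1 j (l + 1), fun j l => by
    have := w.2 j (l + 1)
    simpa only [add_right_comm l 1] using this⟩

/-- The twisted multiplication. -/
noncomputable def twm (J : ℕ) (R : ℕ → 𝔽[X][X]) (w : Rec M J R) : Rec M J R :=
  ⟨fun j l => (X : 𝔽[X]) ^ Fintype.card 𝔽 ^ (j : ℕ) • w.1 j l, fun j l => by
    simp only [smul_comm ((R j).coeff _) ((X : 𝔽[X]) ^ Fintype.card 𝔽 ^ (j : ℕ))]
    rw [← Finset.smul_sum, w.2 j l, smul_zero]⟩

variable {J : ℕ} {R : ℕ → 𝔽[X][X]} {θ : K} {g : ι → M →ₗ[𝔽] K}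

omit [Fintype 𝔽] [Module 𝔽 M] [IsScalarTower 𝔽 𝔽[X] M] in
theorem sh_iter (n : ℕ) (w : Rec M J R) (j : Fin (J + 1)) (l : ℕ) :
    ((sh J R)^[n] w).1 j l = w.1 j (l + n) := by
  induction n generalizing l with
  | zero => rfl
  | succ n ih =>
    rw [Function.iterate_succ_apply']
    change ((sh J R)^[n] w).1 j (l + 1) = _
    rw [ih, add_assoc, add_comm 1 n]

omit [Module 𝔽 M] [IsScalarTower 𝔽 𝔽[X] M] in
theorem twm_iter (n : ℕ) (w : Rec M J R) (j : Fin (J + 1)) (l : ℕ) :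
    ((twm J R)^[n] w).1 j l = ((X : 𝔽[X]) ^ Fintype.card 𝔽 ^ (j : ℕ)) ^ n • w.1 j l := by
  induction n with
  | zero => simp
  | succ n ih =>
    rw [Function.iterate_succ_apply']
    change (X : 𝔽[X]) ^ Fintype.card 𝔽 ^ (j : ℕ) • ((twm J R)^[n] w).1 j l = _
    rw [ih, pow_succ', mul_smul]

theorem Flt_mono {W κ : Type} {q : ℕ} {G : κ → W → K} {μ : κ → ℕ} {s s' : ℕ} (h : s' ≤ s) :
    Flt q G μ s ≤ Flt q G μ s' :=
  Submodule.span_mono fun _ ⟨i, k, hk, e⟩ => ⟨i, k, h.trans hk, e⟩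

theorem Flt_zero {W κ : Type} {q : ℕ} (G : κ → W → K) (μ : κ → ℕ) :
    Flt q G μ 0 = Asp q K 0 (Set.range G) := by
  unfold Flt Asp
  congr 1
  ext f
  constructor
  · rintro ⟨i, k, -, e⟩; exact ⟨_, ⟨i, rfl⟩, k, Nat.zero_le _, e⟩
  · rintro ⟨_, ⟨i, rfl⟩, k, -, e⟩; exact ⟨i, k, Nat.zero_le _, e⟩

theorem key (hB : B2 θ g) (hR : ∀ j, (R j).Monic) (j : Fin (J + 1)) (s l : ℕ) :
    ∀ f ∈ Asp (Fintype.card 𝔽) K s (Fn g), (fun w : Rec M J R => f (w.1 j l)) ∈
      Flt (Fintype.card 𝔽) (gen g J R) (fun i => (i.1 : ℕ)) (j + s) := by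
  induction l using Nat.strong_induction_on with
  | _ l ih =>
  intro f hf
  by_cases hl : l < (R j).natDegree
  · refine Asp_induction (p := fun f => (fun w : Rec M J R => f (w.1 j l)) ∈
      Flt (Fintype.card 𝔽) (gen g J R) (fun i => (i.1 : ℕ)) (j + s)) hf ?_
      (Submodule.zero_mem _) (fun _ _ e e' => Submodule.add_mem _ e e')
      fun r _ e => Submodule.smul_mem _ r e
    rintro _ ⟨i, rfl⟩ k hk
    exact Submodule.subset_span ⟨⟨j, ⟨l, hl⟩, i⟩, k, by simpa using hk, rfl⟩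
  · obtain ⟨l', rfl⟩ := Nat.exists_eq_add_of_le' (not_lt.1 hl)
    have e : (fun w : Rec M J R => f (w.1 j (l' + (R j).natDegree))) =
        -∑ m ∈ Finset.range (R j).natDegree,
          fun w : Rec M J R => f ((R j).coeff m • w.1 j (l' + m)) := by
      obtain ⟨f, rfl⟩ := Asp_Fn_linear hf
      ext w
      have h := w.2 j l'
      rw [Finset.sum_range_succ, (hR j).coeff_natDegree, one_smul] at h
      rw [Pi.neg_apply, Finset.sum_apply, ← map_sum, ← map_neg, eq_neg_of_add_eq_zero_right h]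
    rw [e]
    refine Submodule.neg_mem _ (Submodule.sum_mem _ fun m hm => ?_)
    exact ih (l' + m) (by have := Finset.mem_range.1 hm; omega) _ (hB.comp_smul _ hf)

theorem hypQ (hB : B2 θ g) (hR : ∀ j, (R j).Monic) (i : Idx ι J R) :
    aeval (LinearMap.funLeft K K (sh J R) : Module.End K (Rec M J R → K)) (dl θ (R i.1))
      (gen g J R i) ∈ Flt (Fintype.card 𝔽) (gen g J R) (fun i => (i.1 : ℕ)) (i.1 + 1) := by
  have hp : ∀ (n : ℕ) (f : Rec M J R → K),
      ((LinearMap.funLeft K K (sh J R) : Module.End K (Rec M J R → K)) ^ n) f =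
        f ∘ (sh J R)^[n] := fun n => by
    induction n with
    | zero => intro f; rfl
    | succ n ih =>
      intro f
      rw [pow_succ, Module.End.mul_apply, ih, Function.iterate_succ']
      rfl
  have e : aeval (LinearMap.funLeft K K (sh J R) : Module.End K (Rec M J R → K)) (dl θ (R i.1))
      (gen g J R i) = -∑ m ∈ Finset.range ((R i.1).natDegree + 1), fun w : Rec M J R =>
        ((fun x => g i.2.2 ((R i.1).coeff m • x)) - aeval θ ((R i.1).coeff m) • (g i.2.2 : M → K))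
          (w.1 i.1 (i.2.1 + m)) := by
    rw [aeval_eq_sum_range' (n := (R i.1).natDegree + 1) (p := dl θ (R i.1))
      (Nat.lt_succ_of_le natDegree_map_le), LinearMap.sum_apply]
    ext w
    have h := congrArg (g i.2.2) (w.2 i.1 i.2.1)
    rw [map_sum, map_zero] at h
    simp only [Finset.sum_apply, Pi.neg_apply, Pi.sub_apply, Pi.smul_apply, LinearMap.smul_apply,
      hp, Finset.sum_sub_distrib, h, zero_sub, neg_neg, Function.comp_apply, gen, sh_iter, dl,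
      coeff_map]
    rfl
  rw [e]
  refine Submodule.neg_mem _ (Submodule.sum_mem _ fun m _ => ?_)
  exact key hB hR i.1 1 _ _ (hB.comp_smul_sub _ (mem_Asp ⟨i.2.2, rfl⟩))

theorem comp_twm (hB : B2 θ g) (hR : ∀ j, (R j).Monic) {f : Rec M J R → K}
    (hf : f ∈ Asp (Fintype.card 𝔽) K 0 (Set.range (gen g J R))) :
    f ∘ twm J R ∈ Asp (Fintype.card 𝔽) K 0 (Set.range (gen g J R)) := by
  have := Asp_comp (t := 0) (S' := Set.range (gen g J R)) (twm J R) ?_ hf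
  · rwa [zero_add] at this
  rintro _ ⟨i, rfl⟩
  rw [← Flt_zero _ fun i => (i.1 : ℕ)]
  exact Flt_mono (Nat.zero_le _) (key hB hR i.1 0 i.2.1 _
    (hB.comp_smul ((X : 𝔽[X]) ^ Fintype.card 𝔽 ^ (i.1 : ℕ)) (mem_Asp ⟨i.2.2, rfl⟩)))

end BSTAB

open BSTAB in
theorem blockSTAB (hC : St_C) (hNOE : St_NOE) : St_STAB := by
  intro 𝔽 K M ι Y _ _ _ _ _ _ _ _ _ _ _ θ g E J R z hB hE hR hQ hz hzE
  let G := gen g J R
  let μ : Idx ι J R → ℕ := fun i => (i.1 : ℕ)
  let Z : Set (Rec M J R) := {w | ∀ l, ∑ j, w.1 j l ∈ Zer E}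
  have hfin : ∀ f ∈ Asp (Fintype.card 𝔽) K 0 (Set.range G), (f '' Z).Finite →
      ((f ∘ twm J R) '' Z).Finite := by
    rw [← Flt_zero G μ]
    refine hC 𝔽 K (Rec M J R) (Idx ι J R) G μ (sh J R) (twm J R) θ (fun j => dl θ (R j)) Z
      (fun _ => rfl) (fun i => key hB hR i.1 0 (i.2.1 + 1) _ (mem_Asp ⟨i.2.2, rfl⟩))
      (fun i => ?_) (hypQ hB hR) hQ fun w hw l => hw (l + 1)
    have := key hB hR i.1 1 i.2.1 _ (hB.comp_smul_sub
      ((X : 𝔽[X]) ^ Fintype.card 𝔽 ^ (i.1 : ℕ)) (mem_Asp ⟨i.2.2, rfl⟩))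
    rw [map_pow, aeval_X] at this
    exact this
  let N : Submodule K (Rec M J R → K) :=
    { carrier := {f | f ∈ Asp (Fintype.card 𝔽) K 0 (Set.range G) ∧ (f '' Z).Finite}
      zero_mem' := ⟨Submodule.zero_mem _, (Set.finite_singleton 0).subset (by
        rintro _ ⟨w, -, rfl⟩; rfl)⟩
      add_mem' := fun {f f'} h h' => ⟨Submodule.add_mem _ h.1 h'.1,
        (h.2.image2 (· + ·) h'.2).subset (by
          rintro _ ⟨w, hw, rfl⟩
          exact Set.mem_image2_of_mem ⟨w, hw, rfl⟩ ⟨w, hw, rfl⟩)⟩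
      smul_mem' := fun c f h => ⟨Submodule.smul_mem _ c h.1, (h.2.image (c • ·)).subset (by
        rintro _ ⟨w, hw, rfl⟩
        exact ⟨_, ⟨w, hw, rfl⟩, rfl⟩)⟩ }
  obtain ⟨s, hs, hsN, hNs⟩ := hNOE 𝔽 K (Rec M J R) (Set.range G) N (Set.finite_range _)
    (fun f hf => hf.1) fun f hf => ⟨Asp_pow_card hf.1,
      (hf.2.image (· ^ Fintype.card 𝔽)).subset (by
        rintro _ ⟨w, hw, rfl⟩
        exact ⟨_, ⟨w, hw, rfl⟩, rfl⟩)⟩
  let ζ : Y → Rec M J R := fun y => ⟨fun j l => z j l y, fun j l => hz j l y⟩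
  have hadd : ∀ f ∈ Asp (Fintype.card 𝔽) K 0 (Set.range G),
      ∀ y y', f (ζ (y + y')) = f (ζ y) + f (ζ y') := fun f hf y y' => by
    refine Asp_induction (p := fun f => f (ζ (y + y')) = f (ζ y) + f (ζ y')) hf ?_ (by simp)
      (fun f f' e e' => by simp only [Pi.add_apply, e, e']; ring)
      fun r f e => by simp only [Pi.smul_apply, e, smul_add]
    rintro _ ⟨i, rfl⟩ k -
    simp only [Pi.pow_apply, G, gen, ζ, map_add, add_pow_q]
  let φ : s → Y →+ K := fun f => AddMonoidHom.mk' (fun y => f.1 (ζ y)) (hadd _ (hsN f.2).1)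
  have := hs.to_subtype
  refine ⟨⨅ f, (φ f).ker, AddSubgroup.finiteIndex_iInf fun f => ?_, fun y hy a e he => ?_⟩
  · have : Finite (φ f).range := Set.Finite.to_subtype ((hsN f.2).2.subset (by
      rintro _ ⟨y, rfl⟩
      exact ⟨ζ y, fun l => hzE l y, rfl⟩))
    exact AddSubgroup.finiteIndex_ker _
  have hy0 : ∀ f ∈ N, f (ζ y) = 0 := fun f hf =>
    Asp_apply_eq_zero Fintype.card_ne_zero (hNs ▸ hf) fun f hf =>
      (AddSubgroup.mem_iInf.1 hy ⟨f, hf⟩ :)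
  obtain ⟨e, rfl⟩ := Asp_Fn_linear (hE he)
  have hN : ∀ n, (fun w : Rec M J R => e (∑ j, w.1 j 0)) ∘ (twm J R)^[n] ∈ N := fun n => by
    induction n with
    | zero =>
      refine ⟨?_, (Set.finite_singleton 0).subset ?_⟩
      · have : (fun w : Rec M J R => e (∑ j, w.1 j 0)) ∘ (twm J R)^[0] =
            ∑ j, fun w : Rec M J R => e (w.1 j 0) := by
          ext w; simp
        rw [this, ← Flt_zero G μ]
        exact Submodule.sum_mem _ fun j _ => Flt_mono (Nat.zero_le _) (key hB hR j 0 0 _ (hE he))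
      · rintro _ ⟨w, hw, rfl⟩
        exact hw 0 _ he
    | succ n ih => exact ⟨comp_twm hB hR ih.1, hfin _ ih.1 ih.2⟩
  simp only [pow_q_eq_sum 𝔽 a, Finset.sum_smul, smul_assoc]
  rw [Finset.sum_comm, map_sum]
  refine Finset.sum_eq_zero fun n _ => ?_
  have := hy0 _ (hN n)
  simp only [Function.comp_apply, twm_iter, ζ] at this
  rw [← Finset.smul_sum, map_smul, this, smul_zero]

end Pool.Agent.Lib.TM
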