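import Pool.Agent.Lib.TM.Util

/-! Block SUB: a Galois-stable finite submodule is cut out by additive polynomials over `O`. -/

set_option autoImplicit false

namespace Pool.Agent.Lib.TM

open Polynomial Pool.Agent.Lib.MP_795114_nt

namespace BSUB

theorem coeff_mem {Ω : Type} [Field Ω] (T : Subring Ω) (s : Finset Ω) (h : ∀ y ∈ s, y ∈ T) :
    ∀ n, (∏ y ∈ s, (X - C y)).coeff n ∈ T := by
  refine Finset.prod_induction _ (fun p : Polynomial Ω => ∀ n, p.coeff n ∈ T) (fun p r hp hr n => ?_)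
    (fun n => ?_) fun y hy n => ?_
  · rw [coeff_mul]; exact sum_mem fun c _ => mul_mem (hp _) (hr _)
  · rw [coeff_one]; split_ifs; exacts [one_mem _, zero_mem _]
  · rw [coeff_sub, coeff_X, coeff_C]
    refine sub_mem ?_ ?_ <;> split_ifs
    exacts [one_mem _, zero_mem _, h y hy, zero_mem _]

theorem coeff_fix {Ω : Type} [Field Ω] (γ : Ω →+* Ω) (s : Finset Ω) (h : ∀ y ∈ s, γ y ∈ s)
    (n : ℕ) : γ ((∏ y ∈ s, (X - C y)).coeff n) = (∏ y ∈ s, (X - C y)).coeff n := by
  classical
  have h1 : s.image γ = s := Finset.eq_of_subset_of_card_le (Finset.image_subset_iff.2 h)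
    (Finset.card_image_of_injective s γ.injective).ge
  rw [← coeff_map, Polynomial.map_prod]
  conv_rhs => rw [← h1, Finset.prod_image fun a _ b _ e => γ.injective e]
  simp

end BSUB
open BSUB

theorem blockSUB (hFIX : St_FIX) (hSP : St_SP) : St_SUB := by
  intro 𝔽 k O E Ω M ι _ _ _ _ _ _ _ _ _ _ _ _ _ _ _ _ _ _ _ _ _ _ _ g W w hW hsep hint hs hfull
    hst hw
  classical
  have := Fintype.ofFinite ι
  have : Finite W := hW
  let _ : Algebra k Ω := ((algebraMap O Ω).comp (algebraMap k O)).toAlgebra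
  obtain ⟨c, hc⟩ := Submodule.exists_forall_notMem_of_forall_ne_top
    (fun x : W => LinearMap.ker (Fintype.linearCombination k fun i => g i (w - x))) fun x h => by
      refine hw ?_
      have : w - x = 0 := hsep _ fun i => by
        have := h ▸ Submodule.mem_top (R := k) (x := Pi.single i (1 : k))
        simpa [Fintype.linearCombination_apply_single] using this
      rw [sub_eq_zero.1 this]; exact x.2
  have hl : (∑ i, algebraMap k O (c i) • (g i : M → Ω)) ∈ Asp (Fintype.card 𝔽) O 0 (Fn g) :=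
    Submodule.sum_mem _ fun i _ => Submodule.smul_mem _ _ (mem_Asp ⟨i, rfl⟩)
  obtain ⟨l, el⟩ := Asp_Fn_linear hl
  rw [← el] at hl
  have hl' : ∀ x, l x = ∑ i, algebraMap O Ω (algebraMap k O (c i)) * g i x := fun x => by
    rw [el]; simp [Algebra.smul_def]
  have hmem : ∀ y, y ∈ hW.toFinset.image l ↔ ∃ x ∈ W, l x = y := by simp
  have hu : ∀ n, ∃ f : O, algebraMap O Ω f = (∏ y ∈ hW.toFinset.image l, (X - C y)).coeff n := by
    intro n
    refine hFIX O E Ω _ (coeff_mem (integralClosure O Ω).toSubring _ (fun y hy => ?_) n)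
      (coeff_mem (separableClosure E Ω).toSubring _ (fun y hy => ?_) n) fun γ => ?_
    · obtain ⟨x, -, rfl⟩ := (hmem y).1 hy
      rw [hl']
      exact sum_mem fun i _ => mul_mem (Subalgebra.algebraMap_mem _ _) (hint i x)
    · obtain ⟨x, -, rfl⟩ := (hmem y).1 hy
      rw [hl']
      refine sum_mem fun i _ => mul_mem ?_ (hs i x)
      rw [IsScalarTower.algebraMap_apply O E Ω]
      exact (separableClosure E Ω).algebraMap_mem _
    · obtain ⟨f, hf⟩ := hfull γ
      refine coeff_fix γ.toRingHom _ (fun y hy => ?_) n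
      obtain ⟨x, hx, rfl⟩ := (hmem y).1 hy
      exact (hmem _).2 ⟨f x, hst f ⟨γ, hf⟩ x hx, Asp_gal hl γ (by rintro _ ⟨i, rfl⟩; exact hf i x)⟩
  have hq := hSP 𝔽 Ω ((W.restrictScalars 𝔽).map l) (hW.toFinset.image l) (by ext y; simp)
  refine ⟨fun x => (∏ y ∈ hW.toFinset.image l, (X - C y)).eval (l x), ?_, fun x hx => ?_, ?_⟩
  · generalize ∏ y ∈ hW.toFinset.image l, (X - C y) = u at hu hq
    choose f hf using hu
    have : (fun x => u.eval (l x)) = ∑ n ∈ u.support, f n • (l : M → Ω) ^ n := by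
      ext x; simp [eval_eq_sum, sum_def, Algebra.smul_def, hf]
    rw [this]
    refine Submodule.sum_mem _ fun n hn => Submodule.smul_mem _ _ ?_
    obtain ⟨j, rfl⟩ := hq n (mem_support_iff.1 hn)
    exact Asp_mono (Nat.zero_le _) subset_rfl (Asp_pow hl j)
  · simp only [eval_prod]
    exact Finset.prod_eq_zero ((hmem _).2 ⟨x, hx, rfl⟩) (by simp)
  · simp only [eval_prod]
    refine Finset.prod_ne_zero_iff.2 fun y hy h => ?_
    obtain ⟨x, hx, rfl⟩ := (hmem y).1 hy
    refine hc ⟨x, hx⟩ ?_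
    rw [LinearMap.mem_ker, Fintype.linearCombination_apply]
    have h2 : l (w - x) = 0 := by simpa using h
    rw [hl'] at h2
    exact h2

end Pool.Agent.Lib.TM
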