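import Pool.Agent.Lib.TM.Util

/-! Row T0: torsion points prime to `𝔪` do not reduce to zero. -/

set_option autoImplicit false

namespace Pool.Agent.Lib.TM

open Polynomial Pool.Agent.Lib.MP_795114_nt

namespace BT0

theorem nak {Ω : Type} [CommRing Ω] [IsDomain Ω] {𝔪 I : Ideal Ω} (hp : 𝔪.IsPrime) (hI : I.FG)
    {c : Ω} (hc : c ∉ 𝔪) (h : ∀ y ∈ I, c * y ∈ 𝔪 • I) : I = ⊥ := by
  have : Module.Finite Ω I := Module.Finite.iff_fg.2 hI
  obtain ⟨p, hm, -, hk, h0⟩ :=
    LinearMap.exists_monic_and_natDegree_eq_and_coeff_mem_pow_and_aeval_eq_zero Ω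
      (algebraMap Ω (Module.End Ω I) c) 𝔪 (by
        rintro _ ⟨y, rfl⟩
        exact (Submodule.mem_smul_top_iff _ _ _).2 (h y y.2))
  have h1 : p.eval c ≠ 0 := fun e => by
    rw [eval_eq_sum_range, Finset.sum_range_succ, hm.coeff_natDegree, one_mul] at e
    refine hc (hp.mem_of_pow_mem p.natDegree ?_)
    rw [eq_neg_of_add_eq_zero_right e]
    exact 𝔪.neg_mem (𝔪.sum_mem fun k hk' => 𝔪.mul_mem_right _
      (Ideal.pow_le_self (by have := Finset.mem_range.1 hk'; omega) (hk k)))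
  rw [aeval_algebraMap_apply, coe_aeval_eq_eval] at h0
  refine (Submodule.eq_bot_iff _).2 fun y hy => ?_
  have h2 := congrArg (fun f : Module.End Ω I => (f ⟨y, hy⟩ : Ω)) h0
  exact (mul_eq_zero.1 h2).resolve_left h1

end BT0

theorem blockT0 : St_T0 := by
  intro 𝔽 R Ω M ι _ _ _ _ _ _ _ _ _ _ _ _ _ _ θ g 𝔪 hp hB x a hx ha hc i
  have hfg : (Ideal.span (Set.range fun i => g i x)).FG :=
    Submodule.fg_span (Set.finite_range _)
  have hA : ∀ f ∈ Asp (Fintype.card 𝔽) R 1 (Fn g),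
      f x ∈ 𝔪 • Ideal.span (Set.range fun i => g i x) := fun f hf => by
    refine Asp_induction (p := fun f => f x ∈ 𝔪 • Ideal.span (Set.range fun i => g i x)) hf ?_
      (Submodule.zero_mem _) (fun _ _ e e' => Submodule.add_mem _ e e') fun r f e => ?_
    · rintro _ ⟨j, rfl⟩ k hk
      obtain ⟨n, hn⟩ : ∃ n, Fintype.card 𝔽 ^ k = n + 1 + 1 :=
        ⟨Fintype.card 𝔽 ^ k - 2, by
          have := Nat.one_lt_pow (n := k) (by omega) (Fintype.one_lt_card (α := 𝔽))
          omega⟩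
      rw [Pi.pow_apply, hn, pow_succ, pow_succ]
      exact Submodule.smul_mem_smul (𝔪.mul_mem_left _ (hx j)) (Ideal.subset_span ⟨j, rfl⟩)
    · rw [Pi.smul_apply, Algebra.smul_def r]
      exact Ideal.mul_mem_left _ _ e
  have h0 := BT0.nak hp hfg hc fun y hy => by
    refine Submodule.span_induction (p := fun y _ => algebraMap R Ω (aeval θ a) * y ∈
      𝔪 • Ideal.span (Set.range fun i => g i x)) ?_ (by simp) (fun u v _ _ e e' => ?_)
      (fun r u _ e => ?_) hy
    · rintro _ ⟨j, rfl⟩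
      have := Submodule.neg_mem _ (hA _ (hB.comp_smul_sub a (mem_Asp (S := Fn g) ⟨j, rfl⟩)))
      simpa [ha, Algebra.smul_def] using this
    · rw [mul_add]; exact Submodule.add_mem _ e e'
    · rw [smul_eq_mul r, mul_left_comm]; exact Ideal.mul_mem_left _ _ e
  exact (Submodule.eq_bot_iff _).1 h0 _ (Ideal.subset_span ⟨i, rfl⟩)

end Pool.Agent.Lib.TM
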