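import Pool.Agent.Lib.TM.Util

/-! Block TAN: on `F`, `Φ_T` is `δ(T) x` plus terms of order at least `q`. -/

set_option autoImplicit false

namespace Pool.Agent.Lib.TM

open Polynomial Pool.Agent.Lib.MP_795114_nt

namespace BTAN

variable {K : Type} [Field K] {n : ℕ}

/-- The linear part as a linear map to the dual space. -/
noncomputable def lp (K : Type) [Field K] (n : ℕ) :
    MvPolynomial (Fin n) K →ₗ[K] Module.Dual K (Fin n → K) :=
  LinearMap.mk₂ K linPart
    (fun f g v => by simp [linPart, add_mul, Finset.sum_add_distrib])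
    (fun c f v => by simp [linPart, Finset.mul_sum, mul_assoc])
    (fun f v w => by simp [linPart, mul_add, Finset.sum_add_distrib])
    (fun c f v => by simp [linPart, Finset.mul_sum, mul_left_comm])

theorem lp_apply (f : MvPolynomial (Fin n) K) (v : Fin n → K) : lp K n f v = linPart f v := rfl

theorem lp_X (j : Fin n) (v : Fin n → K) : lp K n (MvPolynomial.X j) v = v j := by
  rw [lp_apply, linPart, Finset.sum_eq_single j]
  · simp
  · intro b _ hb
    rw [MvPolynomial.coeff_X, if_neg, zero_mul]
    intro h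
    exact hb ((Finsupp.single_left_inj one_ne_zero).1 h).symm
  · simp

theorem lp_X_pow (j : Fin n) {m : ℕ} (hm : m ≠ 1) (v : Fin n → K) :
    lp K n (MvPolynomial.X j ^ m) v = 0 := by
  rw [lp_apply, linPart]
  refine Finset.sum_eq_zero fun b _ => ?_
  rw [MvPolynomial.coeff_X_pow, if_neg, zero_mul]
  intro h
  have := congrArg (fun s : Fin n →₀ ℕ => s.sum fun _ e => e) h
  simp at this
  exact hm this

theorem sub_lp_mem {q : ℕ} (hq : 1 < q) {e : MvPolynomial (Fin n) K} (he : e ∈ Lam q K n) :
    (fun x => MvPolynomial.eval x e - lp K n e x) ∈ Asp q K 1 (Pr (Fin n) K) := by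
  induction he using Submodule.span_induction with
  | mem _ h =>
    obtain ⟨j, i, rfl⟩ := h
    rcases Nat.eq_zero_or_pos i with rfl | hi
    · convert Submodule.zero_mem _ using 1
      ext x
      simp [lp_X]
    · convert pow_mem_Asp (q := q) (R := K) (S := Pr (Fin n) K) ⟨j, rfl⟩ hi using 1
      ext x
      rw [lp_X_pow j (Nat.one_lt_pow hi.ne' hq).ne']
      simp
  | zero => convert Submodule.zero_mem _ using 1; ext; simp
  | add _ _ _ _ e e' => convert Submodule.add_mem _ e e' using 1; ext; simp; ring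
  | smul r _ _ e => convert Submodule.smul_mem _ r e using 1; ext; simp; ring

/-- The polynomials vanishing on `F`. -/
noncomputable def van (F : Set (Fin n → K)) : Submodule K (MvPolynomial (Fin n) K) where
  carrier := {f | ∀ x ∈ F, MvPolynomial.eval x f = 0}
  zero_mem' x _ := by simp
  add_mem' ha hb x hx := by rw [map_add, ha x hx, hb x hx, add_zero]
  smul_mem' c f hf x hx := by simp [hf x hx]

end BTAN

open BTAN in
theorem blockTAN : St_TAN := by
  intro 𝔽 K _ _ _ _ δ n F Φ hA i
  set q := Fintype.card 𝔽 with hq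
  have hq1 : 1 < q := Fintype.one_lt_card
  let W : Subspace K (Module.Dual K (Fin n → K)) := (Lam q K n ⊓ van F).map (lp K n)
  have hϕ : lp K n (Φ X i) - δ X • LinearMap.proj i ∈ W := by
    rw [← Subspace.dualCoannihilator_dualAnnihilator_eq (W := W), Submodule.mem_dualAnnihilator]
    intro v hv
    rw [Submodule.mem_dualCoannihilator] at hv
    have hv' : v ∈ tangentSpace q F := fun f hf hf' => hv _ ⟨f, ⟨hf, hf'⟩, rfl⟩
    simp [lp_apply, hA.differential X v hv' i]
  obtain ⟨f, ⟨hf, hf'⟩, e⟩ := hϕ
  refine ⟨_, Submodule.sub_mem _ (sub_lp_mem hq1 ((hA.isEndo X).1 i)) (sub_lp_mem hq1 hf),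
    fun x hx => ?_⟩
  have h1 : MvPolynomial.eval x f = 0 := hf' x hx
  have h2 := LinearMap.congr_fun e x
  simp only [LinearMap.sub_apply, LinearMap.smul_apply, LinearMap.proj_apply, smul_eq_mul] at h2
  simp only [Pi.sub_apply, h1, h2]
  ring

end Pool.Agent.Lib.TM
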