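import Pool.Agent.Lib.TM.Defs

/-! Internal definitions and block statements.  Paper: `tm3_PAPER.md` in the team store. -/

set_option autoImplicit false

namespace Pool.Agent.Lib.TM

open Polynomial Pool.Agent.Lib.MP_795114_nt

/-! ### Internal definitions -/

/-- `R`-span of the powers `g ^ q ^ k`, `g ∈ S`, `k ≥ s`. -/
def Asp (q : ℕ) (R : Type) {W Ω : Type} [CommRing R] [CommRing Ω] [Algebra R Ω] (s : ℕ)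
    (S : Set (W → Ω)) : Submodule R (W → Ω) :=
  Submodule.span R {f | ∃ g ∈ S, ∃ k, s ≤ k ∧ f = g ^ q ^ k}

/-- Filtration by level. -/
def Flt (q : ℕ) {K W ι : Type} [Field K] (g : ι → W → K) (μ : ι → ℕ) (s : ℕ) :
    Submodule K (W → K) :=
  Submodule.span K {f | ∃ i k, s ≤ μ i + k ∧ f = g i ^ q ^ k}

/-- The set of functions underlying a family of linear maps. -/
def Fn {𝔽 M Ω ι : Type} [Field 𝔽] [AddCommGroup M] [Module 𝔽 M] [CommRing Ω] [Algebra 𝔽 Ω]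
    (g : ι → M →ₗ[𝔽] Ω) : Set (M → Ω) :=
  Set.range fun i => (g i : M → Ω)

/-- The coordinate functions. -/
def Pr (α K : Type) : Set ((α → K) → K) := Set.range fun (a : α) (z : α → K) => z a

/-- Common zeros. -/
def Zer {W Ω : Type} [Zero Ω] (E : Set (W → Ω)) : Set W := {x | ∀ e ∈ E, e x = 0}

section
variable {𝔽 M Ω ι : Type} [Field 𝔽] [AddCommGroup M] [Module 𝔽 M] [Module 𝔽[X] M]
  [CommRing Ω] [Algebra 𝔽 Ω]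

/-- `R`-span of the functions `x ↦ g i (T ^ l x)`. -/
def Orb (R : Type) [CommRing R] [Algebra R Ω] (g : ι → M →ₗ[𝔽] Ω) : Submodule R (M → Ω) :=
  Submodule.span R {f | ∃ (i : ι) (l : ℕ), f = fun x => g i ((X : 𝔽[X]) ^ l • x)}

/-- Condition (b1). -/
def B1 [Fintype 𝔽] (R : Type) [CommRing R] [Algebra R Ω] (g : ι → M →ₗ[𝔽] Ω) : Prop :=
  ∀ i, (g i : M → Ω) ^ Fintype.card 𝔽 ∈ Orb R g

/-- Condition (b2). -/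
def B2 [Fintype 𝔽] {R : Type} [CommRing R] [Algebra R Ω] (θ : R) (g : ι → M →ₗ[𝔽] Ω) : Prop :=
  ∀ i, (fun x => g i ((X : 𝔽[X]) • x)) - θ • (g i : M → Ω) ∈ Asp (Fintype.card 𝔽) R 1 (Fn g)

/-- `f` is induced by an `R`-endomorphism of the ring of values. -/
def IsGal (R : Type) [CommRing R] [Algebra R Ω] (g : ι → M →ₗ[𝔽] Ω)
    (f : Module.End 𝔽[X] M) : Prop :=
  ∃ γ : Ω →ₐ[R] Ω, ∀ i x, g i (f x) = γ (g i x)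

/-- Every `R`-endomorphism of the ring of values acts on `M`. -/
def GalFull (R : Type) [CommRing R] [Algebra R Ω] (g : ι → M →ₗ[𝔽] Ω) : Prop :=
  ∀ γ : Ω →ₐ[R] Ω, ∃ f : Module.End 𝔽[X] M, ∀ i x, g i (f x) = γ (g i x)

/-- The datum of the paper, section 0. -/
structure Dat [Fintype 𝔽] {R : Type} [CommRing R] [Algebra R Ω] (θ : R)
    (g : ι → M →ₗ[𝔽] Ω) : Prop where
  tors : ∀ x : M, ∃ a : 𝔽[X], a ≠ 0 ∧ a • x = 0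
  sep : ∀ x : M, (∀ i, g i x = 0) → x = 0
  b1 : B1 R g
  b2 : B2 θ g

end

/-- Twisted sums of torsion elements. -/
def TwS (𝔽 : Type) {M : Type} [Field 𝔽] [Fintype 𝔽] [AddCommGroup M] [Module 𝔽[X] M]
    (Γ : Set M) (J : ℕ) : Set M :=
  {x | ∃ z : Fin (J + 1) → M, (∀ j, ∃ a : 𝔽[X], a ≠ 0 ∧ a • z j = 0) ∧
    (∀ a : 𝔽[X], ∑ j : Fin (J + 1), a ^ Fintype.card 𝔽 ^ (j : ℕ) • z j ∈ Γ) ∧ x = ∑ j, z j}

/-- Raise the coefficients to the power `q ^ k`. -/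
noncomputable def tw (𝔽 : Type) {K : Type} [Field 𝔽] [Fintype 𝔽] [CommRing K] [Algebra 𝔽 K]
    (k : ℕ) (p : K[X]) : K[X] :=
  p.map (FiniteField.frobeniusAlgHom 𝔽 K ^ k : K →ₐ[𝔽] K).toRingHom

/-- The polynomial killing the graded piece of level `s`. -/
noncomputable def Qt (𝔽 : Type) {K : Type} [Field 𝔽] [Fintype 𝔽] [CommRing K] [Algebra 𝔽 K]
    (Q : ℕ → K[X]) (s : ℕ) : K[X] :=
  ∏ j ∈ Finset.range (s + 1), tw 𝔽 (s - j) (Q j)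

/-- Apply `a ↦ a(θ)` to the coefficients. -/
noncomputable def dl {𝔽 K : Type} [Field 𝔽] [CommRing K] [Algebra 𝔽 K] (θ : K) (P : 𝔽[X][X]) :
    K[X] :=
  P.map (aeval θ : 𝔽[X] →ₐ[𝔽] K).toRingHom

/-- `∑ p_k τ^k` as an `𝔽`-linear map `K → K`. -/
noncomputable def lin (𝔽 : Type) {K : Type} [Field 𝔽] [Fintype 𝔽] [Field K] [Algebra 𝔽 K] :
    K[X] →ₗ[K] Module.End 𝔽 K :=
  Polynomial.lsum fun k => LinearMap.toSpanSingleton K (Module.End 𝔽 K)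
    ((FiniteField.frobeniusAlgHom 𝔽 K).toLinearMap ^ k)

/-! ### Section 0 -/

def St_NOE : Prop := ∀ (𝔽 K W : Type) [Field 𝔽] [Fintype 𝔽] [Field K] [Algebra 𝔽 K]
    (S : Set (W → K)) (N : Submodule K (W → K)), S.Finite → N ≤ Asp (Fintype.card 𝔽) K 0 S →
    (∀ f ∈ N, f ^ Fintype.card 𝔽 ∈ N) →
    ∃ s : Set (W → K), s.Finite ∧ s ⊆ N ∧ N = Asp (Fintype.card 𝔽) K 0 s

def St_FIN : Prop := ∀ (𝔽 K M ι : Type) [Field 𝔽] [Fintype 𝔽] [Field K] [Algebra 𝔽 K]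
    [AddCommGroup M] [Module 𝔽 M] [Module 𝔽[X] M] [IsScalarTower 𝔽 𝔽[X] M] [Finite ι]
    (g : ι → M →ₗ[𝔽] K), (∀ x : M, (∀ i, g i x = 0) → x = 0) → B1 K g →
    ∀ a : 𝔽[X], a ≠ 0 → {x : M | a • x = 0}.Finite

def St_INT : Prop := ∀ (𝔽 R Ω M ι : Type) [Field 𝔽] [Fintype 𝔽] [CommRing R] [CommRing Ω]
    [Algebra 𝔽 R] [Algebra R Ω] [Algebra 𝔽 Ω] [IsScalarTower 𝔽 R Ω] [IsNoetherianRing R]
    [AddCommGroup M] [Module 𝔽 M] [Module 𝔽[X] M] [IsScalarTower 𝔽 𝔽[X] M] [Finite ι]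
    (g : ι → M →ₗ[𝔽] Ω), B1 R g → ∀ (x : M) (a : 𝔽[X]), a ≠ 0 → a • x = 0 →
    ∀ i, IsIntegral R (g i x)

def St_TAN : Prop := ∀ (𝔽 K : Type) [Field 𝔽] [Fintype 𝔽] [Field K] [Algebra 𝔽 K]
    (δ : 𝔽[X] → K) (n : ℕ) (F : Set (Fin n → K)) (Φ : 𝔽[X] → Fin n → MvPolynomial (Fin n) K),
    IsAModule δ F Φ → ∀ i, ∃ h ∈ Asp (Fintype.card 𝔽) K 1 (Pr (Fin n) K), ∀ x ∈ F,
      MvPolynomial.eval x (Φ X i) = δ X * x i + h x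

/-! ### Section 1: the algebraic part -/

def St_C1 : Prop := ∀ (K V : Type) [Field K] [AddCommGroup V] [Module K V]
    (W : ℕ → Submodule K V) (m J : Module.End K V) (t : ℕ → K) (Q : ℕ → K[X]),
    (∀ s, W (s + 1) ≤ W s) → Commute m J → (∀ s, ∀ f ∈ W s, m f ∈ W s) →
    (∀ s, ∀ f ∈ W s, J f - t s • f ∈ W (s + 1)) → (∀ s, ∀ f ∈ W s, aeval m (Q s) f ∈ W (s + 1)) →
    (Pairwise fun s s' => IsCoprime (Q s) (Q s')) →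
    ∀ n, ∃ r : K[X], ∀ f ∈ W 0, J f - aeval m r f ∈ W n

def St_C2 : Prop := ∀ (𝔽 K W : Type) [Field 𝔽] [Fintype 𝔽] [Field K] [IsAlgClosed K] [Algebra 𝔽 K]
    (S : Set (W → K)) (Z : Set W) (f : W → K), S.Finite →
    (∀ n, ∃ h ∈ Asp (Fintype.card 𝔽) K n S, ((f - h) '' Z).Finite) → (f '' Z).Finite

def St_C : Prop := ∀ (𝔽 K W ι : Type) [Field 𝔽] [Fintype 𝔽] [Field K] [IsAlgClosed K]
    [Algebra 𝔽 K] [Finite ι] (g : ι → W → K) (μ : ι → ℕ) (m J : W → W) (θ : K) (Q : ℕ → K[X])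
    (Z : Set W), (∀ x, m (J x) = J (m x)) →
    (∀ i, g i ∘ m ∈ Flt (Fintype.card 𝔽) g μ (μ i)) →
    (∀ i, g i ∘ J - θ ^ Fintype.card 𝔽 ^ μ i • g i ∈ Flt (Fintype.card 𝔽) g μ (μ i + 1)) →
    (∀ i, aeval (LinearMap.funLeft K K m : Module.End K (W → K)) (Q (μ i)) (g i) ∈
      Flt (Fintype.card 𝔽) g μ (μ i + 1)) →
    (Pairwise fun s s' => IsCoprime (Qt 𝔽 Q s) (Qt 𝔽 Q s')) → (∀ x ∈ Z, m x ∈ Z) →
    ∀ f ∈ Flt (Fintype.card 𝔽) g μ 0, (f '' Z).Finite → ((f ∘ J) '' Z).Finite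

def St_Q1 : Prop := ∀ (𝔽 K : Type) [Field 𝔽] [Field K] [Algebra 𝔽 K] (θ : K) (P : 𝔽[X][X]),
    Transcendental 𝔽 θ → P.Monic → ∃ (P₀ : 𝔽[X]) (Q : 𝔽[X][X]), P₀.Monic ∧ Q.Monic ∧
      P = P₀.map C * Q ∧ ∀ α : K, IsAlgebraic 𝔽 α → (dl θ Q).eval α ≠ 0

def St_Q2 : Prop := ∀ (𝔽 K : Type) [Field 𝔽] [Fintype 𝔽] [Field K] [IsAlgClosed K] [Algebra 𝔽 K]
    (θ : K) (Q : 𝔽[X][X]), Transcendental 𝔽 θ → Q.Monic →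
    (∀ α : K, IsAlgebraic 𝔽 α → (dl θ Q).eval α ≠ 0) →
    ∃ (J : ℕ) (R : ℕ → 𝔽[X][X]), (∀ j, (R j).Monic) ∧ (∀ j, J < j → R j = 1) ∧
      Q = ∏ j ∈ Finset.range (J + 1), R j ∧
      ∀ j (α : K), (dl θ (R j)).eval α = 0 →
        (∃ β : K, (dl θ Q).eval β = 0 ∧ α = β ^ Fintype.card 𝔽 ^ j) ∧
        ∀ k, j < k → ∀ β : K, (dl θ Q).eval β = 0 → α ≠ β ^ Fintype.card 𝔽 ^ k

def St_Q3 : Prop := ∀ (𝔽 K : Type) [Field 𝔽] [Field K] [Algebra 𝔽 K] (θ : K) (N : ℕ)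
    (R : ℕ → 𝔽[X][X]), Transcendental 𝔽 θ → 0 < N →
    (Pairwise fun j j' => IsCoprime (dl θ (R j)) (dl θ (R j'))) →
    ∃ (u : ℕ → 𝔽[X][X]) (c : 𝔽[X]), c ≠ 0 ∧
      ∑ j ∈ Finset.range N, u j * ∏ j' ∈ (Finset.range N).erase j, R j' = C c

def St_Q : Prop := ∀ (𝔽 K : Type) [Field 𝔽] [Fintype 𝔽] [Field K] [IsAlgClosed K] [Algebra 𝔽 K]
    (θ : K) (P : 𝔽[X][X]), Transcendental 𝔽 θ → P.Monic →
    ∃ (P₀ : 𝔽[X]) (J : ℕ) (R u : ℕ → 𝔽[X][X]) (c : 𝔽[X]), P₀ ≠ 0 ∧ (∀ j, (R j).Monic) ∧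
      P = P₀.map C * ∏ j ∈ Finset.range (J + 1), R j ∧ c ≠ 0 ∧
      ∑ j ∈ Finset.range (J + 1), u j * ∏ j' ∈ (Finset.range (J + 1)).erase j, R j' = C c ∧
      Pairwise fun s s' => IsCoprime (Qt 𝔽 (fun j => dl θ (R j)) s) (Qt 𝔽 (fun j => dl θ (R j)) s')

def St_STAB : Prop := ∀ (𝔽 K M ι Y : Type) [Field 𝔽] [Fintype 𝔽] [Field K] [IsAlgClosed K]
    [Algebra 𝔽 K] [AddCommGroup M] [Module 𝔽 M] [Module 𝔽[X] M] [IsScalarTower 𝔽 𝔽[X] M]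
    [Finite ι] [AddCommGroup Y] (θ : K) (g : ι → M →ₗ[𝔽] K) (E : Set (M → K)) (J : ℕ)
    (R : ℕ → 𝔽[X][X]) (z : Fin (J + 1) → ℕ → Y →+ M), B2 θ g →
    E ⊆ Asp (Fintype.card 𝔽) K 0 (Fn g) → (∀ j, (R j).Monic) →
    (Pairwise fun s s' =>
      IsCoprime (Qt 𝔽 (fun j => dl θ (R j)) s) (Qt 𝔽 (fun j => dl θ (R j)) s')) →
    (∀ (j : Fin (J + 1)) (l : ℕ) (y : Y),
      ∑ m ∈ Finset.range ((R j).natDegree + 1), (R j).coeff m • z j (l + m) y = 0) →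
    (∀ l y, ∑ j, z j l y ∈ Zer E) →
    ∃ Y₀ : AddSubgroup Y, Y₀.FiniteIndex ∧ ∀ y ∈ Y₀, ∀ a : 𝔽[X],
      ∑ j : Fin (J + 1), a ^ Fintype.card 𝔽 ^ (j : ℕ) • z j 0 y ∈ Zer E

def St_CNT : Prop := ∀ (A M : Type) [CommRing A] [IsDomain A] [AddCommGroup M] [Module A M]
    (U : Submodule A M) (c : A), (∀ x : M, ∃ a : A, a ≠ 0 ∧ a • x = 0) →
    (∀ a : A, a ≠ 0 → {x : M | a • x = 0}.Finite) → c ≠ 0 →
    FiniteIndexIn ((fun y => c • y) '' (U : Set M)) (U : Set M)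

def St_ALG : Prop := ∀ (𝔽 K M ι : Type) [Field 𝔽] [Fintype 𝔽] [Field K] [IsAlgClosed K]
    [Algebra 𝔽 K] [AddCommGroup M] [Module 𝔽 M] [Module 𝔽[X] M] [IsScalarTower 𝔽 𝔽[X] M]
    [Finite ι] (θ : K) (g : ι → M →ₗ[𝔽] K) (E : Set (M → K)) (U : Submodule 𝔽[X] M)
    (s : Module.End 𝔽[X] M) (P : 𝔽[X][X]), Transcendental 𝔽 θ →
    (∀ x : M, ∃ a : 𝔽[X], a ≠ 0 ∧ a • x = 0) →
    (∀ a : 𝔽[X], a ≠ 0 → {x : M | a • x = 0}.Finite) → B2 θ g →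
    E ⊆ Asp (Fintype.card 𝔽) K 0 (Fn g) → (∀ x ∈ U, s x ∈ U) → P.Monic →
    (∀ x ∈ U, aeval s P x = 0) →
    (∀ g₀ : 𝔽[X], g₀ ≠ 0 → {x | x ∈ U ∧ aeval s (g₀.map C : 𝔽[X][X]) x = 0}.Finite) →
    (∀ x ∈ U, x ∈ Zer E → s x ∈ Zer E) →
    ∃ J, FiniteIndexIn (TwS 𝔽 (Zer E) J) (Zer E ∩ U)

/-! ### Section 2: the arithmetic part -/

def St_E1 : Prop := ∀ (𝔽 k σ : Type) [Field 𝔽] [Field k] [Finite k] [Algebra 𝔽 k] [Finite σ]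
    (i₀ : σ) (c : σ → k), ∃ y : σ → PowerSeries k, AlgebraicIndependent 𝔽 y ∧
      (∀ i, PowerSeries.constantCoeff (y i) = c i) ∧ y i₀ = PowerSeries.C (c i₀) + PowerSeries.X

def St_E2 : Prop := ∀ (𝔽 B : Type) [Field 𝔽] [Fintype 𝔽] [CommRing B] [IsDomain B] [Algebra 𝔽 B]
    [Algebra.FiniteType 𝔽 B] (θ : B), Transcendental 𝔽 θ →
    ∃ (σ : Type) (_ : Finite σ) (i₀ : σ) (a : ℕ) (μ u v : (MvPolynomial σ 𝔽)[X])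
      (Δ : MvPolynomial σ 𝔽), μ.Monic ∧ 0 < μ.natDegree ∧ Δ ≠ 0 ∧
      u * μ + v * derivative μ = C Δ ∧
      ∀ (T : Type) [CommRing T] [IsDomain T] [Algebra 𝔽 T] (ψ : MvPolynomial σ 𝔽 →ₐ[𝔽] T) (w : T),
        Function.Injective ψ → IsUnit (ψ Δ) → (μ.map ψ.toRingHom).eval w = 0 →
        ∃ j : B →ₐ[𝔽] T, Function.Injective j ∧
          j θ = ψ (MvPolynomial.X i₀) ^ Fintype.card 𝔽 ^ a

def St_E : Prop := ∀ (𝔽 B : Type) [Field 𝔽] [Fintype 𝔽] [CommRing B] [IsDomain B] [Algebra 𝔽 B]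
    [Algebra.FiniteType 𝔽 B] (θ : B), Transcendental 𝔽 θ →
    ∃ e : ℕ, 0 < e ∧ ∀ β : 𝔽[X], β ≠ 0 →
      ∃ (k : Type) (_ : Field k) (_ : Fintype k) (_ : Algebra 𝔽 k) (c : k)
        (j : B →ₐ[𝔽] PowerSeries k), Function.Injective j ∧
        j θ = PowerSeries.C c + PowerSeries.X ^ e ∧ aeval c β ≠ 0

def St_N1 : Prop := ∀ (k Ω : Type) [Field k] [IsAlgClosed k] [Field Ω] [Algebra (PowerSeries k) Ω],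
    Function.Injective (algebraMap (PowerSeries k) Ω) →
    ∃ res : integralClosure (PowerSeries k) Ω →+* k,
      (∀ f, res (algebraMap (PowerSeries k) _ f) = PowerSeries.constantCoeff f) ∧
      ∀ (γ : Ω →+* Ω) (τ : k →+* k),
        (∀ f, γ (algebraMap (PowerSeries k) Ω f) = algebraMap _ Ω (PowerSeries.map τ f)) →
        ∀ x y : integralClosure (PowerSeries k) Ω, (y : Ω) = γ x → res y = τ (res x)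

def St_N2 : Prop := ∀ (B V Ω : Type) [CommRing B] [IsDomain B] [CommRing V] [IsDomain V]
    [Algebra B V] [Algebra.IsIntegral B V] [Field Ω] [IsAlgClosed Ω] (j : B →+* Ω),
    Function.Injective (algebraMap B V) → Function.Injective j →
    (∀ p : B[X], p.Monic → ∃ s : Multiset V,
      p.map (algebraMap B V) = (s.map fun v => X - C v).prod) →
    ∃ ρ : V →+* Ω, Function.Injective ρ ∧ (∀ b, ρ (algebraMap B V b) = j b) ∧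
      ∀ γ : Ω →+* Ω, (∀ b, γ (j b) = j b) → ∃ γ' : V →ₐ[B] V, ∀ v, ρ (γ' v) = γ (ρ v)

def St_N3 : Prop := ∀ (O Ω : Type) [CommRing O] [IsDomain O] [Field Ω] [IsAlgClosed Ω] [Algebra O Ω]
    [Algebra.IsAlgebraic O Ω] (σ₀ : O →+* O), Function.Injective (algebraMap O Ω) →
    Function.Injective σ₀ → ∃ σ : Ω →+* Ω, ∀ f, σ (algebraMap O Ω f) = algebraMap O Ω (σ₀ f)

def St_T0 : Prop := ∀ (𝔽 R Ω M ι : Type) [Field 𝔽] [Fintype 𝔽] [CommRing R] [CommRing Ω]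
    [IsDomain Ω] [Algebra 𝔽 R] [Algebra R Ω] [Algebra 𝔽 Ω] [IsScalarTower 𝔽 R Ω]
    [AddCommGroup M] [Module 𝔽 M] [Module 𝔽[X] M] [IsScalarTower 𝔽 𝔽[X] M] [Finite ι]
    (θ : R) (g : ι → M →ₗ[𝔽] Ω) (𝔪 : Ideal Ω), 𝔪.IsPrime → B2 θ g →
    ∀ (x : M) (a : 𝔽[X]), (∀ i, g i x ∈ 𝔪) → a • x = 0 → algebraMap R Ω (aeval θ a) ∉ 𝔪 →
    ∀ i, g i x = 0

def St_SEP : Prop := ∀ (𝔽 E Ω M ι : Type) [Field 𝔽] [Fintype 𝔽] [Field E] [Field Ω]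
    [Algebra 𝔽 E] [Algebra E Ω] [Algebra 𝔽 Ω] [IsScalarTower 𝔽 E Ω] [Algebra.IsAlgebraic E Ω]
    [AddCommGroup M] [Module 𝔽 M] [Module 𝔽[X] M] [IsScalarTower 𝔽 𝔽[X] M] [Finite ι]
    (θ : E) (g : ι → M →ₗ[𝔽] Ω), B2 θ g → ∀ (x : M) (a : 𝔽[X]), a • x = 0 → aeval θ a ≠ 0 →
    ∀ i, IsSeparable E (g i x)

def St_FIX : Prop := ∀ (O E Ω : Type) [CommRing O] [IsDomain O] [IsIntegrallyClosed O] [Field E]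
    [Algebra O E] [IsFractionRing O E] [Field Ω] [IsAlgClosed Ω] [Algebra O Ω] [Algebra E Ω]
    [IsScalarTower O E Ω] [Algebra.IsAlgebraic E Ω] (y : Ω), IsIntegral O y → IsSeparable E y →
    (∀ γ : Ω →ₐ[O] Ω, γ y = y) → ∃ f : O, algebraMap O Ω f = y

def St_PB1 : Prop := ∀ (𝔽 k : Type) [Field 𝔽] [Fintype 𝔽] [Field k] [IsAlgClosed k] [Algebra 𝔽 k]
    (c : PowerSeries k), ∃ d : ℕ → PowerSeries k,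
      c = ∑ j ∈ Finset.range (Fintype.card 𝔽), PowerSeries.X ^ j * d j ^ Fintype.card 𝔽

def St_PB2 : Prop := ∀ (𝔽 k E Ω : Type) [Field 𝔽] [Fintype 𝔽] [Field k] [Algebra 𝔽 k] [Field E]
    [Algebra (PowerSeries k) E] [IsFractionRing (PowerSeries k) E] [Field Ω]
    [Algebra (PowerSeries k) Ω] [Algebra E Ω] [IsScalarTower (PowerSeries k) E Ω] (h : ℕ → Ω),
    (∀ j, IsSeparable E (h j)) →
    ∑ j ∈ Finset.range (Fintype.card 𝔽),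
      (PowerSeries.X : PowerSeries k) ^ j • h j ^ Fintype.card 𝔽 = 0 →
    ∀ j, j < Fintype.card 𝔽 → h j = 0

def St_PB3 : Prop := ∀ (𝔽 k W Ω : Type) [Field 𝔽] [Fintype 𝔽] [Field k] [IsAlgClosed k]
    [Algebra 𝔽 k] [CommRing Ω] [Algebra (PowerSeries k) Ω] [Algebra 𝔽 Ω] (S : Set (W → Ω)),
    ∀ f ∈ Asp (Fintype.card 𝔽) (PowerSeries k) 1 S, ∃ h : ℕ → W → Ω,
      (∀ j, h j ∈ Asp (Fintype.card 𝔽) (PowerSeries k) 0 S) ∧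
      f = ∑ j ∈ Finset.range (Fintype.card 𝔽),
        (PowerSeries.X : PowerSeries k) ^ j • h j ^ Fintype.card 𝔽

def St_SP : Prop := ∀ (𝔽 Ω : Type) [Field 𝔽] [Fintype 𝔽] [Field Ω] [Algebra 𝔽 Ω]
    (S : Submodule 𝔽 Ω) (s : Finset Ω), (s : Set Ω) = S →
    ∀ n, (∏ y ∈ s, (X - C y)).coeff n ≠ 0 → ∃ k, n = Fintype.card 𝔽 ^ k

def St_SUB : Prop := ∀ (𝔽 k O E Ω M ι : Type) [Field 𝔽] [Fintype 𝔽] [Field k] [Infinite k]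
    [CommRing O] [IsDomain O] [IsIntegrallyClosed O] [Algebra k O] [Field E] [Algebra O E]
    [IsFractionRing O E] [Field Ω] [IsAlgClosed Ω] [Algebra O Ω] [Algebra E Ω]
    [IsScalarTower O E Ω] [Algebra.IsAlgebraic E Ω] [Algebra 𝔽 Ω]
    [AddCommGroup M] [Module 𝔽 M] [Module 𝔽[X] M] [IsScalarTower 𝔽 𝔽[X] M] [Finite ι]
    (g : ι → M →ₗ[𝔽] Ω) (W : Submodule 𝔽[X] M) (w : M), (W : Set M).Finite →
    (∀ x : M, (∀ i, g i x = 0) → x = 0) → (∀ i x, IsIntegral O (g i x)) →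
    (∀ i x, IsSeparable E (g i x)) → GalFull O g → (∀ f, IsGal O g f → ∀ x ∈ W, f x ∈ W) →
    w ∉ W → ∃ h ∈ Asp (Fintype.card 𝔽) O 0 (Fn g), (∀ x ∈ W, h x = 0) ∧ h w ≠ 0

def St_LC : Prop := ∀ (𝔽 k W : Type) [Field 𝔽] [Fintype 𝔽] [Field k] [Algebra 𝔽 k] (c : k)
    (e : ℕ) (ϖ : 𝔽[X]) (φ : W → W) (N : Submodule (PowerSeries k) (W → PowerSeries k)), 0 < e →
    Irreducible ϖ → aeval c ϖ = 0 →
    (∀ i j, i < j → j ≤ e → c ^ Fintype.card 𝔽 ^ i ≠ c ^ Fintype.card 𝔽 ^ j) →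
    (∀ f ∈ N, ∀ w, PowerSeries.constantCoeff (f w) = 0) → (∀ f ∈ N, f ∘ φ ∈ N) →
    (∀ f ∈ N, f ∘ φ - (PowerSeries.C c + PowerSeries.X ^ e : PowerSeries k) • f ∈
      Asp (Fintype.card 𝔽) (PowerSeries k) 1 (N : Set (W → PowerSeries k))) →
    (∀ f ∈ N, ∀ w, ∑ m ∈ Finset.range (ϖ.natDegree + 1), ϖ.coeff m • f (φ^[m] w) = 0) →
    N = ⊥

def St_L : Prop := ∀ (𝔽 k Ω M ι : Type) [Field 𝔽] [Fintype 𝔽] [Field k] [IsAlgClosed k]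
    [Algebra 𝔽 k] [Field Ω] [IsAlgClosed Ω] [Algebra (PowerSeries k) Ω]
    [Algebra.IsAlgebraic (PowerSeries k) Ω] [Algebra 𝔽 Ω] [IsScalarTower 𝔽 (PowerSeries k) Ω]
    [AddCommGroup M] [Module 𝔽 M] [Module 𝔽[X] M] [IsScalarTower 𝔽 𝔽[X] M] [Finite ι]
    (c : k) (e : ℕ) (ϖ : 𝔽[X]) (g : ι → M →ₗ[𝔽] Ω) (𝔐 : Submodule (PowerSeries k) Ω)
    (W : Submodule 𝔽[X] M) (w : M), Function.Injective (algebraMap (PowerSeries k) Ω) → 0 < e →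
    Irreducible ϖ → aeval c ϖ = 0 →
    (∀ i j, i < j → j ≤ e → c ^ Fintype.card 𝔽 ^ i ≠ c ^ Fintype.card 𝔽 ^ j) →
    Dat (PowerSeries.C c + PowerSeries.X ^ e : PowerSeries k) g → GalFull (PowerSeries k) g →
    (1 : Ω) ∉ 𝔐 → (∀ y ∈ 𝔐, y ^ Fintype.card 𝔽 ∈ 𝔐) → (W : Set M).Finite →
    (∀ x ∈ W, ϖ • x = 0 ∧ ∀ i, g i x ∈ 𝔐) → ϖ • w = 0 → (∀ i, g i w ∈ 𝔐) →
    (∀ f, IsGal (PowerSeries k) g f → (∀ x ∈ W, f x ∈ W) ∧ f w - w ∈ W) → w ∈ W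

def St_R1 : Prop := ∀ (A M : Type) [CommRing A] [AddCommGroup M] [Module A M] (V : Submodule A M)
    (S : Set (Module.End A M)), (V : Set M).Finite → (∀ s ∈ S, ∀ x ∈ V, s x ∈ V) →
    (∀ W : Submodule A M, W ≤ V → (∀ s ∈ S, ∀ x ∈ W, s x ∈ W) →
      ∀ w ∈ V, (∀ s ∈ S, s w ∈ W) → w ∈ W) →
    ∃ ε ∈ NonUnitalSubring.closure S, ∀ x ∈ V, ε x = x

def St_R : Prop := ∀ (A M : Type) [CommRing A] [AddCommGroup M] [Module A M] (T : Submodule A M)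
    (ϖ : A) (S : Set (Module.End A M)), (∀ x ∈ T, ∃ k : ℕ, ϖ ^ k • x = 0) →
    (∀ k : ℕ, {x : M | ϖ ^ k • x = 0}.Finite) → (∀ s ∈ S, ∀ x, s x ∈ T) →
    (∀ W : Submodule A M, (∀ x ∈ W, x ∈ T ∧ ϖ • x = 0) → (∀ s ∈ S, ∀ x ∈ W, s x ∈ W) →
      ∀ w ∈ T, ϖ • w = 0 → (∀ s ∈ S, s w ∈ W) → w ∈ W) →
    ∃ π : Module.End A M, (∀ x, x - π x ∈ T) ∧ (∀ x ∈ T, π x = 0) ∧
      ∀ Γ : AddSubgroup M, (∀ s ∈ S, ∀ x ∈ Γ, s x ∈ Γ) → ∀ x ∈ Γ, π x ∈ Γ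

def St_RED1 : Prop := ∀ (𝔽 k L M ι : Type) [Field 𝔽] [Fintype 𝔽] [Field k] [Fintype k] [Field L]
    [Algebra 𝔽 k] [Algebra k L] [Algebra 𝔽 L] [IsScalarTower 𝔽 k L]
    [AddCommGroup M] [Module 𝔽 M] [Module 𝔽[X] M] [IsScalarTower 𝔽 𝔽[X] M] [Finite ι]
    (g : ι → M →ₗ[𝔽] L) (σ : Module.End 𝔽[X] M), B1 k g →
    (∀ i x, g i (σ x) = g i x ^ Fintype.card k) →
    ∃ P : 𝔽[X][X], P.Monic ∧ ∀ i x, g i (aeval σ P x) = 0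

def St_RED : Prop := ∀ (𝔽 k L M ι : Type) [Field 𝔽] [Fintype 𝔽] [Field k] [Fintype k] [Field L]
    [Algebra 𝔽 k] [Algebra k L] [Algebra 𝔽 L] [IsScalarTower 𝔽 k L]
    [AddCommGroup M] [Module 𝔽 M] [Module 𝔽[X] M] [IsScalarTower 𝔽 𝔽[X] M] [Finite ι]
    (g : ι → M →ₗ[𝔽] L) (σ π : Module.End 𝔽[X] M) (T : Submodule 𝔽[X] M), B1 k g →
    (∀ i x, g i (σ x) = g i x ^ Fintype.card k) → (∀ x, x ∈ T ↔ ∀ i, g i x = 0) →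
    (∀ x, x - π x ∈ T) → (∀ x ∈ T, π x = 0) →
    (∃ P : 𝔽[X][X], P.Monic ∧ ∀ x, π x = x → aeval (π * σ) P x = 0) ∧
    ∀ g₀ : 𝔽[X], g₀ ≠ 0 → {x | π x = x ∧ aeval (π * σ) (g₀.map C : 𝔽[X][X]) x = 0}.Finite

def St_ARI : Prop := ∀ (𝔽 B V M ι : Type) [Field 𝔽] [Fintype 𝔽] [CommRing B] [IsDomain B]
    [Algebra 𝔽 B] [Algebra.FiniteType 𝔽 B] [CommRing V] [IsDomain V] [Algebra B V]
    [Algebra.IsIntegral B V] [Algebra 𝔽 V] [IsScalarTower 𝔽 B V]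
    [AddCommGroup M] [Module 𝔽 M] [Module 𝔽[X] M] [IsScalarTower 𝔽 𝔽[X] M] [Finite ι]
    (θ : B) (g : ι → M →ₗ[𝔽] V), Transcendental 𝔽 θ → Function.Injective (algebraMap B V) →
    (∀ p : B[X], p.Monic → ∃ s : Multiset V,
      p.map (algebraMap B V) = (s.map fun v => X - C v).prod) →
    Dat θ g → GalFull B g → (∀ a : 𝔽[X], a ≠ 0 → {x : M | a • x = 0}.Finite) →
    ∀ β : 𝔽[X], β ≠ 0 → ∃ (ϖ : 𝔽[X]) (π s : Module.End 𝔽[X] M) (P : 𝔽[X][X]),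
      Irreducible ϖ ∧ ¬ ϖ ∣ β ∧ (∀ x, ∃ k : ℕ, ϖ ^ k • (x - π x) = 0) ∧ (∀ x, π (π x) = π x) ∧
      (∀ x, π (s x) = s x) ∧ P.Monic ∧ (∀ x, π x = x → aeval s P x = 0) ∧
      (∀ g₀ : 𝔽[X], g₀ ≠ 0 → {x | π x = x ∧ aeval s (g₀.map C : 𝔽[X][X]) x = 0}.Finite) ∧
      ∀ Γ : AddSubgroup M, (∀ f, IsGal B g f → ∀ x ∈ Γ, f x ∈ Γ) → ∀ x ∈ Γ, π x ∈ Γ ∧ s x ∈ Γ

def St_ABS : Prop := ∀ (𝔽 K M ι : Type) [Field 𝔽] [Fintype 𝔽] [Field K] [IsAlgClosed K]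
    [Algebra 𝔽 K] [AddCommGroup M] [Module 𝔽 M] [Module 𝔽[X] M] [IsScalarTower 𝔽 𝔽[X] M]
    [Finite ι] (B : Subalgebra 𝔽 K) (θ : B) (g : ι → M →ₗ[𝔽] K) (E : Set (M → K)), B.FG →
    Transcendental 𝔽 θ → Dat θ g → E ⊆ Asp (Fintype.card 𝔽) B 0 (Fn g) →
    (∀ γ : integralClosure B K →ₐ[B] integralClosure B K, ∃ f : Module.End 𝔽[X] M,
      ∀ i x (v : integralClosure B K), (v : K) = g i x → (γ v : K) = g i (f x)) →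
    ∃ J, FiniteIndexIn (TwS 𝔽 (Zer E) J) (Zer E)

def St_GEO : Prop := ∀ (𝔽 K N : Type) [Field 𝔽] [Fintype 𝔽] [Field K] [IsAlgClosed K]
    [Algebra 𝔽 K] [AddCommGroup N] [Module 𝔽 N] [Module 𝔽[X] N] [IsScalarTower 𝔽 𝔽[X] N]
    (n r : ℕ) (θ : K) (co : Fin n → N →ₗ[𝔽] K) (m : Fin r → N →ₗ[𝔽] K)
    (S : Set ((Fin n → K) → K)) (E : Set (N → K)), Transcendental 𝔽 θ →
    (∀ x : N, (∀ i, co i x = 0) → x = 0) → S ⊆ Asp (Fintype.card 𝔽) K 0 (Pr (Fin n) K) →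
    (∀ y : Fin n → K, y ∈ Zer S ↔ ∃ x : N, ∀ i, co i x = y i) → B2 θ co →
    (∀ i, (m i : N → K) ∈ Asp (Fintype.card 𝔽) K 0 (Fn co)) →
    Asp (Fintype.card 𝔽) K 0 (Fn co) ≤ Orb K m → E ⊆ Asp (Fintype.card 𝔽) K 0 (Fn co) →
    ∃ J, FiniteIndexIn (TwS 𝔽 (Zer E) J) (Zer E ∩ {x | ∃ a : 𝔽[X], a ≠ 0 ∧ a • x = 0})

/-- Theorem A. -/
def St_A : Prop := ∀ (𝔽 K : Type) [Field 𝔽] [Fintype 𝔽] [Field K] [IsAlgClosed K] [Algebra 𝔽 K]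
    (δ : 𝔽[X] →ₐ[𝔽] K), Function.Injective δ → ∀ (n : ℕ) (F : Set (Fin n → K))
    (Φ : 𝔽[X] → Fin n → MvPolynomial (Fin n) K), IsAModule δ F Φ → IsAbelian F Φ →
    ∀ H : Set (Fin n → K), IsQVariety (Fintype.card 𝔽) H → H ⊆ F →
    ∃ J, TwistSum F Φ H J ⊆ H ∩ Tor F Φ ∧ FiniteIndexIn (TwistSum F Φ H J) (H ∩ Tor F Φ)

/-! ### Section 3: products of Drinfeld modules -/

def St_SK1 : Prop := ∀ (𝔽 K : Type) [Field 𝔽] [Fintype 𝔽] [Field K] [IsAlgClosed K] [Algebra 𝔽 K],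
    Function.Injective (lin 𝔽 : K[X] → Module.End 𝔽 K) ∧
    (∀ (u v : K[X]) (m n : ℕ), X ^ m ∣ u → X ^ n ∣ v → ∃ w : K[X], lin 𝔽 w = lin 𝔽 u * lin 𝔽 v ∧
      X ^ (m + n) ∣ w ∧ w.coeff (m + n) = u.coeff m * v.coeff n ^ Fintype.card 𝔽 ^ m) ∧
    (∀ u v w : K[X], lin 𝔽 w = lin 𝔽 u * lin 𝔽 v → u ≠ 0 → v ≠ 0 →
      w ≠ 0 ∧ w.natDegree = u.natDegree + v.natDegree) ∧
    (∀ u : K[X], u.coeff 0 = 0 → ∃ v : K[X], lin 𝔽 u = lin 𝔽 (X : K[X]) * lin 𝔽 v) ∧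
    (∀ f ∈ Lam1 (Fintype.card 𝔽) K, ∃ p : K[X], (∀ x, f.eval x = lin 𝔽 p x) ∧
      p.coeff 0 = f.coeff 1) ∧
    (∀ p : K[X], ∃ f ∈ Lam1 (Fintype.card 𝔽) K, ∀ x, f.eval x = lin 𝔽 p x)

def St_SK2 : Prop := ∀ (𝔽 K : Type) [Field 𝔽] [Fintype 𝔽] [Field K] [IsAlgClosed K] [Algebra 𝔽 K],
    (∀ a b : K[X], b ≠ 0 → ∃ χ r : K[X],
      lin 𝔽 a = lin 𝔽 χ * lin 𝔽 b + lin 𝔽 r ∧ r.degree < b.degree) ∧
    (∀ u : K[X], u ≠ 0 → ∀ T : Set K, T.Finite → (lin 𝔽 u ⁻¹' T).Finite) ∧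
    (∀ u r : K[X], u.coeff 0 ≠ 0 → r.degree < u.degree →
      (∀ x, lin 𝔽 u x = 0 → lin 𝔽 r x = 0) → r = 0) ∧
    (∀ a b : K[X], a ≠ 0 → ∃ v w : K[X], v ≠ 0 ∧ lin 𝔽 v * lin 𝔽 b = lin 𝔽 w * lin 𝔽 a)

def St_LT : Prop := ∀ (𝔽 K : Type) [Field 𝔽] [Fintype 𝔽] [Field K] [IsAlgClosed K] [Algebra 𝔽 K]
    (θ : K) (α β u : K[X]) (j j' : ℕ), Transcendental 𝔽 θ → α.coeff 0 = θ → β.coeff 0 = θ →
    u ≠ 0 → lin 𝔽 u * lin 𝔽 β ^ Fintype.card 𝔽 ^ j = lin 𝔽 α ^ Fintype.card 𝔽 ^ j' * lin 𝔽 u →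
    j ≤ j' ∧ lin 𝔽 u * lin 𝔽 β = lin 𝔽 α ^ Fintype.card 𝔽 ^ (j' - j) * lin 𝔽 u

/-- The function `z ↦ ∑ f_a(z_a)` takes finitely many values on `Z`. -/
def Fv (𝔽 : Type) {K α : Type} [Field 𝔽] [Fintype 𝔽] [Field K] [Algebra 𝔽 K] [Fintype α]
    (Z : Set (α → K)) (f : α → K[X]) : Prop :=
  ((fun z : α → K => ∑ a, lin 𝔽 (f a) (z a)) '' Z).Finite

/-- One circuit. -/
def St_CIR1 : Prop := ∀ (𝔽 K α : Type) [Field 𝔽] [Fintype 𝔽] [Field K] [IsAlgClosed K]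
    [Algebra 𝔽 K] [Fintype α] (θ : K) (φ : α → K[X]) (lv : α → ℕ) (Z : Set (α → K)),
    Transcendental 𝔽 θ → (∀ a, (φ a).coeff 0 = θ) →
    (∀ z ∈ Z, (fun a => (lin 𝔽 (φ a) ^ Fintype.card 𝔽 ^ lv a) (z a)) ∈ Z) →
    (∀ a b k (u : K[X]), 0 < k →
      lin 𝔽 u * lin 𝔽 (φ b) = lin 𝔽 (φ a) ^ Fintype.card 𝔽 ^ k * lin 𝔽 u → u = 0) →
    ∀ f : α → K[X], Fv 𝔽 Z f → f ≠ 0 → ∃ f' : α → K[X], Fv 𝔽 Z f' ∧ f' ≠ 0 ∧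
      (∀ a, f a = 0 → f' a = 0) ∧ (∀ a b, f' a ≠ 0 → f' b ≠ 0 → lv a = lv b) ∧
      ∀ h : α → K[X], (∀ a, lin 𝔽 (h a) = lin 𝔽 (f' a) * lin 𝔽 (φ a)) → Fv 𝔽 Z h

def St_CIRC : Prop := ∀ (𝔽 K α : Type) [Field 𝔽] [Fintype 𝔽] [Field K] [IsAlgClosed K]
    [Algebra 𝔽 K] [Fintype α] (θ : K) (φ : α → K[X]) (lv : α → ℕ) (Z : Set (α → K)),
    Transcendental 𝔽 θ → (∀ a, (φ a).coeff 0 = θ) →
    (∀ z ∈ Z, (fun a => (lin 𝔽 (φ a) ^ Fintype.card 𝔽 ^ lv a) (z a)) ∈ Z) →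
    (∀ a b k (u : K[X]), 0 < k →
      lin 𝔽 u * lin 𝔽 (φ b) = lin 𝔽 (φ a) ^ Fintype.card 𝔽 ^ k * lin 𝔽 u → u = 0) →
    ∀ f : α → K[X], Fv 𝔽 Z f → (∀ j, Fv 𝔽 Z fun a => if lv a = j then f a else 0) ∧
      ∀ h : α → K[X], (∀ a, lin 𝔽 (h a) = lin 𝔽 (f a) * lin 𝔽 (φ a)) → Fv 𝔽 Z h

/-- A Drinfeld module in terms of `lin`. -/
def St_DR : Prop := ∀ (𝔽 K : Type) [Field 𝔽] [Fintype 𝔽] [Field K] [IsAlgClosed K] [Algebra 𝔽 K]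
    (δ : 𝔽[X] →ₐ[𝔽] K) (φ : 𝔽[X] → K[X]), IsDrinfeld δ φ →
    ∃ p : K[X], p.coeff 0 = δ X ∧ 0 < p.natDegree ∧ ∀ a x, (φ a).eval x = aeval (lin 𝔽 p) a x

/-- The product is an abelian `A`-module. -/
def St_PROD : Prop := ∀ (𝔽 K : Type) [Field 𝔽] [Fintype 𝔽] [Field K] [IsAlgClosed K] [Algebra 𝔽 K]
    (δ : 𝔽[X] →ₐ[𝔽] K) (n : ℕ) (φ : Fin n → 𝔽[X] → K[X]), (∀ i, IsDrinfeld δ (φ i)) →
    IsAModule δ Set.univ (prodPhi φ) ∧ IsAbelian Set.univ (prodPhi φ)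

def St_Bback : Prop := ∀ (𝔽 K : Type) [Field 𝔽] [Fintype 𝔽] [Field K] [IsAlgClosed K]
    [Algebra 𝔽 K] (δ : 𝔽[X] →ₐ[𝔽] K), Function.Injective δ → ∀ (n : ℕ) (φ : Fin n → 𝔽[X] → K[X]),
    (∀ i, IsDrinfeld δ (φ i)) →
    (¬ ∃ (i j : Fin n) (k : ℕ) (u : K[X]), 0 < k ∧ u ∈ Lam1 (Fintype.card 𝔽) K ∧ u ≠ 0 ∧
      u.comp (φ j X) = (φ i (X ^ Fintype.card 𝔽 ^ k)).comp u) →
    Q1Holds Set.univ (prodPhi φ)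

def St_Bfwd : Prop := ∀ (𝔽 K : Type) [Field 𝔽] [Fintype 𝔽] [Field K] [IsAlgClosed K]
    [Algebra 𝔽 K] (δ : 𝔽[X] →ₐ[𝔽] K), Function.Injective δ → ∀ (n : ℕ) (φ : Fin n → 𝔽[X] → K[X]),
    (∀ i, IsDrinfeld δ (φ i)) →
    (∃ (i j : Fin n) (k : ℕ) (u : K[X]), 0 < k ∧ u ∈ Lam1 (Fintype.card 𝔽) K ∧ u ≠ 0 ∧
      u.comp (φ j X) = (φ i (X ^ Fintype.card 𝔽 ^ k)).comp u) →
    ¬ Q1Holds Set.univ (prodPhi φ)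

end Pool.Agent.Lib.TM
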