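import Pool.Agent.Lib.MP_795114_nt.Defs

set_option autoImplicit false

namespace Pool.Agent.Lib.TM

open Pool.Agent.Lib.MP_795114_nt

/-- `(F, Φ)` is abelian: the morphisms `F → K` form a finitely generated `K[T]`-module, where `T`
acts by `f ↦ f ∘ Φ_T`.  That is, there are finitely many `m_i ∈ Λ_n` such that every `f ∈ Λ_n`
agrees on `F` with a `K`-linear combination of the functions `m_i ∘ Φ_{T^l}`. -/
def IsAbelian {𝔽 K : Type*} [Field 𝔽] [Fintype 𝔽] [Field K] {n : ℕ} (F : Set (Fin n → K))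
    (Φ : Polynomial 𝔽 → Fin n → MvPolynomial (Fin n) K) : Prop :=
  ∃ (r : ℕ) (m : Fin r → MvPolynomial (Fin n) K), (∀ i, m i ∈ Lam (Fintype.card 𝔽) K n) ∧
    ∀ f ∈ Lam (Fintype.card 𝔽) K n, ∃ c : Fin r × ℕ →₀ K, ∀ x ∈ F,
      MvPolynomial.eval x f =
        c.sum fun p a => a * MvPolynomial.eval (polyMap (Φ (Polynomial.X ^ p.2)) x) (m p.1)

/-- `D_J`: the sums `z_0 + … + z_J` of torsion points with `∑_j Φ_{a^(q^j)}(z_j) ∈ H` for all
`a ∈ A`. -/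
def TwistSum {𝔽 K : Type*} [Field 𝔽] [Fintype 𝔽] [Field K] {n : ℕ} (F : Set (Fin n → K))
    (Φ : Polynomial 𝔽 → Fin n → MvPolynomial (Fin n) K) (H : Set (Fin n → K)) (J : ℕ) :
    Set (Fin n → K) :=
  {x | ∃ z : Fin (J + 1) → Fin n → K, (∀ j, z j ∈ Tor F Φ) ∧
    (∀ a : Polynomial 𝔽, ∑ j : Fin (J + 1), polyMap (Φ (a ^ Fintype.card 𝔽 ^ (j : ℕ))) (z j) ∈ H) ∧
    x = ∑ j, z j}

/-- `K{τ}`: the `K`-span of the monomials `X ^ (q ^ i)` in one variable. -/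
noncomputable def Lam1 (q : ℕ) (K : Type*) [Field K] : Submodule K (Polynomial K) :=
  Submodule.span K {f | ∃ i : ℕ, f = Polynomial.X ^ q ^ i}

/-- A Drinfeld module: a ring homomorphism `φ : A → K{τ}` (product = composition) such that the
coefficient of `X` in `φ_a` is `δ(a)` and `φ_T ≠ δ(T) X`. -/
structure IsDrinfeld {𝔽 K : Type*} [Field 𝔽] [Fintype 𝔽] [Field K] (δ : Polynomial 𝔽 → K)
    (φ : Polynomial 𝔽 → Polynomial K) : Prop where
  mem : ∀ a, φ a ∈ Lam1 (Fintype.card 𝔽) K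
  map_one : φ 1 = Polynomial.X
  map_add : ∀ a b, φ (a + b) = φ a + φ b
  map_mul : ∀ a b, φ (a * b) = (φ a).comp (φ b)
  coeff_one : ∀ a, (φ a).coeff 1 = δ a
  ne : φ Polynomial.X ≠ Polynomial.C (δ Polynomial.X) * Polynomial.X

/-- The product action `Φ_a(x_1, …, x_n) = (φ_{1,a}(x_1), …, φ_{n,a}(x_n))` on `K^n`. -/
noncomputable def prodPhi {𝔽 K : Type*} [Field 𝔽] [Field K] {n : ℕ}
    (φ : Fin n → Polynomial 𝔽 → Polynomial K) (a : Polynomial 𝔽) (i : Fin n) :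
    MvPolynomial (Fin n) K :=
  Polynomial.aeval (MvPolynomial.X i) (φ i a)

/-- The assertion of Q1 for `(F, Φ)`: every `q`-variety `H ⊆ F` contains an `A`-module `G` in `F`
such that `G ∩ Tor(F)` has finite index in `H ∩ Tor(F)`. -/
def Q1Holds {𝔽 K : Type*} [Field 𝔽] [Fintype 𝔽] [Field K] {n : ℕ} (F : Set (Fin n → K))
    (Φ : Polynomial 𝔽 → Fin n → MvPolynomial (Fin n) K) : Prop :=
  ∀ H : Set (Fin n → K), IsQVariety (Fintype.card 𝔽) H → H ⊆ F →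
    ∃ G : Set (Fin n → K), IsQVariety (Fintype.card 𝔽) G ∧ G ⊆ F ∧
      (∀ a, ∀ x ∈ G, polyMap (Φ a) x ∈ G) ∧ G ⊆ H ∧ FiniteIndexIn (G ∩ Tor F Φ) (H ∩ Tor F Φ)

end Pool.Agent.Lib.TM
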