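import Pool.Agent.Lib.TM.B_CNT
import Pool.Agent.Lib.TM.B_Q1
import Pool.Agent.Lib.TM.B_Q2
import Pool.Agent.Lib.TM.B_Q3
import Pool.Agent.Lib.TM.B_Q
import Pool.Agent.Lib.TM.B_C1
import Pool.Agent.Lib.TM.B_NOE
import Pool.Agent.Lib.TM.B_C2
import Pool.Agent.Lib.TM.B_C
import Pool.Agent.Lib.TM.B_STAB
import Pool.Agent.Lib.TM.B_ALG
import Pool.Agent.Lib.TM.B_E1
import Pool.Agent.Lib.TM.B_E2
import Pool.Agent.Lib.TM.B_E
import Pool.Agent.Lib.TM.B_FIX
import Pool.Agent.Lib.TM.B_INT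
import Pool.Agent.Lib.TM.B_LC
import Pool.Agent.Lib.TM.B_PB2
import Pool.Agent.Lib.TM.B_PB1
import Pool.Agent.Lib.TM.B_PB3
import Pool.Agent.Lib.TM.B_SEP
import Pool.Agent.Lib.TM.B_SP
import Pool.Agent.Lib.TM.B_SUB
import Pool.Agent.Lib.TM.B_L
import Pool.Agent.Lib.TM.B_N1
import Pool.Agent.Lib.TM.B_N2
import Pool.Agent.Lib.TM.B_N3
import Pool.Agent.Lib.TM.B_R1
import Pool.Agent.Lib.TM.B_R
import Pool.Agent.Lib.TM.B_RED1
import Pool.Agent.Lib.TM.B_RED
import Pool.Agent.Lib.TM.B_T0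
import Pool.Agent.Lib.TM.B_ARI
import Pool.Agent.Lib.TM.B_FIN
import Pool.Agent.Lib.TM.B_ABS
import Pool.Agent.Lib.TM.B_GEO
import Pool.Agent.Lib.TM.B_TAN
import Pool.Agent.Lib.TM.B_A

set_option autoImplicit false

namespace Pool.Agent.Lib.TM

theorem thmCNT : St_CNT := blockCNT

theorem thmQ1 : St_Q1 := blockQ1

theorem thmQ2 : St_Q2 := blockQ2

theorem thmQ3 : St_Q3 := blockQ3

theorem thmQ : St_Q := blockQ thmQ1 thmQ2 thmQ3

theorem thmC1 : St_C1 := blockC1

theorem thmNOE : St_NOE := blockNOE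

theorem thmC2 : St_C2 := blockC2 thmNOE

theorem thmC : St_C := blockC thmC1 thmC2

theorem thmSTAB : St_STAB := blockSTAB thmC thmNOE

theorem thmALG : St_ALG := blockALG thmCNT thmQ thmSTAB

theorem thmE1 : St_E1 := blockE1

theorem thmE2 : St_E2 := blockE2

theorem thmE : St_E := blockE thmE1 thmE2

theorem thmFIX : St_FIX := blockFIX

theorem thmINT : St_INT := blockINT

theorem thmLC : St_LC := blockLC

theorem thmPB2 : St_PB2 := blockPB2

theorem thmPB1 : St_PB1 := blockPB1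

theorem thmPB3 : St_PB3 := blockPB3 thmPB1

theorem thmSEP : St_SEP := blockSEP

theorem thmSP : St_SP := blockSP

theorem thmSUB : St_SUB := blockSUB thmFIX thmSP

theorem thmL : St_L := blockL thmFIX thmINT thmLC thmPB2 thmPB3 thmSEP thmSUB

theorem thmN1 : St_N1 := blockN1

theorem thmN2 : St_N2 := blockN2

theorem thmN3 : St_N3 := blockN3

theorem thmR1 : St_R1 := blockR1

theorem thmR : St_R := blockR thmR1

theorem thmRED1 : St_RED1 := blockRED1

theorem thmRED : St_RED := blockRED thmRED1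

theorem thmT0 : St_T0 := blockT0

theorem thmARI : St_ARI := blockARI thmE thmL thmN1 thmN2 thmN3 thmR thmRED thmT0

theorem thmFIN : St_FIN := blockFIN

theorem thmABS : St_ABS := blockABS thmALG thmARI thmFIN thmINT

theorem thmGEO : St_GEO := blockGEO thmABS thmINT thmNOE

theorem thmTAN : St_TAN := blockTAN

theorem thmA : St_A := blockA thmGEO thmTAN

end Pool.Agent.Lib.TM
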