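import Pool.Agent.Lib.TM.B_SK1
import Pool.Agent.Lib.TM.B_LT
import Pool.Agent.Lib.TM.B_SK2
import Pool.Agent.Lib.TM.B_CIR1
import Pool.Agent.Lib.TM.B_CIRC
import Pool.Agent.Lib.TM.B_DR
import Pool.Agent.Lib.TM.B_PROD
import Pool.Agent.Lib.TM.B_Bback
import Pool.Agent.Lib.TM.B_Bfwd
import Pool.Agent.Lib.TM.MainA

set_option autoImplicit false

namespace Pool.Agent.Lib.TM

theorem thmSK1 : St_SK1 := blockSK1

theorem thmLT : St_LT := blockLT thmSK1

theorem thmSK2 : St_SK2 := blockSK2 thmSK1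

theorem thmCIR1 : St_CIR1 := blockCIR1 thmLT thmSK1 thmSK2

theorem thmCIRC : St_CIRC := blockCIRC thmCIR1 thmSK1 thmSK2

theorem thmDR : St_DR := blockDR thmSK1

theorem thmPROD : St_PROD := blockPROD thmDR thmSK1 thmSK2

theorem thmBback : St_Bback := blockBback thmA thmCIRC thmDR thmNOE thmPROD thmSK1 thmSK2

theorem thmBfwd : St_Bfwd := blockBfwd thmDR thmSK1 thmSK2

end Pool.Agent.Lib.TM
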