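import Pool.Agent.Lib.TM.Defs

set_option autoImplicit false

namespace Pool.Agent.Lib.TM

open Pool.Agent.Lib.MP_795114_nt

/-- `T^u W`: the functions `h ∘ Φ_{T^u}` on `F`, for `h ∈ W`. -/
def pullT {𝔽 K : Type*} [Field 𝔽] [Field K] {n : ℕ} (F : Set (Fin n → K))
    (Φ : Polynomial 𝔽 → Fin n → MvPolynomial (Fin n) K) (u : ℕ) (W : Set (F → K)) : Set (F → K) :=
  {g | ∃ h ∈ W, ∀ x y : F, (y : Fin n → K) = polyMap (Φ (Polynomial.X ^ u)) x → g x = h y}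

/-- There are `u, v > 0` and `K`-spaces `W_0, W_1, …` of functions on `F`, with union the
morphisms `F → K` and `W_0` of finite dimension, such that `W_{i+1} = W_i + K τ^v W_i`,
`T^u W_i ⊆ W_{i+a}` and `W_{i+b} ⊆ W_i + T^u W_i` for all `i`.  For `a = b = 1` this is the
filtration form of purity: `W_{i+1} = W_i + K τ^v W_i = W_i + T^u W_i`. -/
def HasSlopeRange {𝔽 K : Type*} [Field 𝔽] [Fintype 𝔽] [Field K] {n : ℕ} (F : Set (Fin n → K))
    (Φ : Polynomial 𝔽 → Fin n → MvPolynomial (Fin n) K) (a b : ℕ) : Prop :=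
  ∃ (u v : ℕ) (W : ℕ → Submodule K (F → K)), 0 < u ∧ 0 < v ∧ FiniteDimensional K (W 0) ∧
    (∀ g : F → K, (∃ i, g ∈ W i) ↔
      ∃ f ∈ Lam (Fintype.card 𝔽) K n, ∀ x : F, g x = MvPolynomial.eval (x : Fin n → K) f) ∧
    (∀ i, W (i + 1) = W i ⊔ Submodule.span K ((fun g => g ^ Fintype.card 𝔽 ^ v) '' W i)) ∧
    (∀ i, pullT F Φ u (W i) ⊆ W (i + a)) ∧
    (∀ i, W (i + b) ≤ W i ⊔ Submodule.span K (pullT F Φ u (W i)))

end Pool.Agent.Lib.TM
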