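import Pool.Agent.Lib.TM.B_C2

/-! Linear algebra for modules with a narrow range of slopes. -/

set_option autoImplicit false

namespace Pool.Agent.Lib.TM

open Polynomial Module

namespace NSl

section Grow
variable {K V V' : Type} [Field K] [AddCommGroup V] [Module K V] [AddCommGroup V'] [Module K V']

theorem rank_null (f : V →ₗ[K] V') (U : Submodule K V) [FiniteDimensional K U] :
    finrank K (U.map f) + finrank K (U ⊓ LinearMap.ker f : Submodule K V) = finrank K U := by
  have := LinearMap.finrank_range_add_finrank_ker (f.domRestrict U)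
  rwa [LinearMap.range_domRestrict, LinearMap.ker_domRestrict,
    ← Submodule.finrank_map_subtype_eq, Submodule.map_comap_subtype] at this

theorem grow0 (t : End K V) (U : ℕ → Submodule K V) [∀ n, FiniteDimensional K (U n)]
    (hU : ∀ n, U (n + 1) = U n ⊔ (U n).map t) :
    ∃ n₀, ∀ n, n₀ ≤ n → ∀ x ∈ U (n + 1), t x ∈ U (n + 1) → x ∈ U n := by
  have hle : ∀ n, U n ≤ U (n + 1) := fun n => hU n ▸ le_sup_left
  have hK : ∀ n, U n ≤ U (n + 1) ⊓ (U (n + 1)).comap t := fun n =>
    le_inf (hle n) fun x hx => hU n ▸ Submodule.mem_sup_right ⟨x, hx, rfl⟩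
  have key : ∀ n, finrank K (U (n + 2)) +
      finrank K (U (n + 1) ⊓ (U (n + 1)).comap t : Submodule K V) =
      finrank K (U (n + 1)) + finrank K (U (n + 1)) := fun n => by
    have h1 := rank_null ((U (n + 1)).mkQ ∘ₗ t) (U (n + 1))
    have h2 := rank_null (U (n + 1)).mkQ (U (n + 2))
    rw [LinearMap.ker_comp, Submodule.ker_mkQ, Submodule.map_comp] at h1
    rw [Submodule.ker_mkQ, inf_eq_right.2 (hle _)] at h2
    have h3 : (U (n + 2)).map (U (n + 1)).mkQ = ((U (n + 1)).map t).map (U (n + 1)).mkQ := by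
      rw [hU (n + 1), Submodule.map_sup, Submodule.mkQ_map_self, bot_sup_eq]
    rw [h3] at h2
    omega
  have hm : ∀ n, finrank K (U n) ≤ finrank K (U (n + 1)) := fun n => Submodule.finrank_mono (hle n)
  have hk : ∀ n, finrank K (U n) ≤ finrank K (U (n + 1) ⊓ (U (n + 1)).comap t : Submodule K V) :=
    fun n => Submodule.finrank_mono (hK n)
  obtain ⟨n₀, h⟩ := WellFoundedLT.antitone_chain_condition
    (f := fun n => finrank K (U (n + 1)) - finrank K (U n)) (antitone_nat_of_succ_le fun n => by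
      have := key n; have := hm n; have := hm (n + 1); have := hk n
      change finrank K (U (n + 2)) - _ ≤ _
      omega)
  refine ⟨n₀, fun n hn x hx hx' => ?_⟩
  have h1 := (h n hn).symm.trans (h (n + 1) (by omega))
  have h2 : U n = U (n + 1) ⊓ (U (n + 1)).comap t := Submodule.eq_of_le_of_finrank_le (hK n) (by
    have h3 := key n
    have h4 := hm n
    have h5 : finrank K (U (n + 1)) ≤ finrank K (U (n + 2)) := hm (n + 1)
    change finrank K (U (n + 1)) - finrank K (U n) =
      finrank K (U (n + 2)) - finrank K (U (n + 1)) at h1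
    omega)
  exact h2 ▸ ⟨hx, hx'⟩

theorem grow (t : End K V) (U : ℕ → Submodule K V) [∀ n, FiniteDimensional K (U n)]
    (hU : ∀ n, U (n + 1) = U n ⊔ (U n).map t) (N : Submodule K V) (hN : ∀ x ∈ N, t x ∈ N) :
    ∃ n₀, ∀ n, n₀ ≤ n → ∀ x ∈ U (n + 1) ⊔ N, t x ∈ U (n + 1) ⊔ N → x ∈ U n ⊔ N := by
  obtain ⟨n₀, h⟩ := grow0 (N.mapQ N t hN) (fun n => (U n).map N.mkQ) fun n => by
    rw [hU, Submodule.map_sup, ← Submodule.map_comp, ← Submodule.map_comp, Submodule.mapQ_mkQ]
  have e : ∀ n x, x ∈ U n ⊔ N ↔ N.mkQ x ∈ (U n).map N.mkQ := fun n x => by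
    rw [← Submodule.mem_comap, Submodule.comap_map_mkQ, sup_comm]
  exact ⟨n₀, fun n hn x hx hx' => (e _ _).2 (h n hn _ ((e _ _).1 hx) ((e _ _).1 hx'))⟩

/-- The filtration generated by `t`. -/
def fil (t : End K V) (U₀ : Submodule K V) : ℕ → Submodule K V
  | 0 => U₀
  | n + 1 => fil t U₀ n ⊔ (fil t U₀ n).map t

instance (t : End K V) (U₀ : Submodule K V) [FiniteDimensional K U₀] (n : ℕ) :
    FiniteDimensional K (fil t U₀ n) := by
  induction n with
  | zero => exact ‹_›
  | succ n ih => exact inferInstanceAs (FiniteDimensional K ↥(fil t U₀ n ⊔ (fil t U₀ n).map t))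

theorem fil_mono (t : End K V) (U₀ : Submodule K V) : Monotone (fil t U₀) :=
  monotone_nat_of_le_succ fun _ => le_sup_left

theorem le_fil {t : End K V} {W : ℕ → Submodule K V} {b : ℕ}
    (h : ∀ i, W (i + b) ≤ W i ⊔ (W i).map t) (n : ℕ) : W (n * b) ≤ fil t (W 0) n := by
  induction n with
  | zero => rw [zero_mul]; exact le_rfl
  | succ n ih => rw [add_one_mul]; exact (h _).trans (sup_le_sup ih (Submodule.map_mono ih))

/-- Elements of slow growth lie in a fixed finite dimensional space modulo `N`. -/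
theorem slow (t : End K V) (W : ℕ → Submodule K V) [FiniteDimensional K (W 0)] (hW : Monotone W)
    {b : ℕ} (h : ∀ i, W (i + b) ≤ W i ⊔ (W i).map t) (N : Submodule K V) (hN : ∀ x ∈ N, t x ∈ N)
    {A Q : ℕ} (hA : A < Q * b) : ∃ n₀, ∀ (x : V) (c : ℕ),
      (∀ m, (t ^ (m * Q)) x ∈ W (m * A + c) ⊔ N) → x ∈ fil t (W 0) n₀ ⊔ N := by
  obtain ⟨n₀, h₀⟩ := grow t (fil t (W 0)) (fun _ => rfl) N hN
  refine ⟨n₀, fun x c hx => ?_⟩
  have hb : 0 < b := Nat.pos_of_ne_zero (by rintro rfl; omega)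
  have step : ∀ n, n₀ ≤ n → x ∈ fil t (W 0) (n + 1) ⊔ N → x ∈ fil t (W 0) n ⊔ N := by
    intro n hn h1
    by_contra h2
    have : ∀ l, (t ^ l) x ∈ fil t (W 0) (n + l + 1) ⊔ N ∧ (t ^ l) x ∉ fil t (W 0) (n + l) ⊔ N := by
      intro l
      induction l with
      | zero => exact ⟨h1, h2⟩
      | succ l ih =>
        rw [pow_succ', End.mul_apply]
        refine ⟨?_, fun h3 => ih.2 (h₀ _ (by omega) _ ih.1 h3)⟩
        obtain ⟨y, hy, z, hz, e⟩ := Submodule.mem_sup.1 ih.1
        rw [← e, map_add]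
        exact Submodule.add_mem_sup (Submodule.mem_sup_right ⟨y, hy, rfl⟩) (hN z hz)
    refine (this (c * Q)).2 (sup_le_sup_right ((hW ?_).trans (le_fil h _)) N (hx c))
    nlinarith [Nat.mul_le_mul_left c hA, Nat.zero_le (n * b)]
  have h1 : x ∈ fil t (W 0) (n₀ + c) ⊔ N := by
    have := hx 0
    rw [zero_mul, zero_mul, pow_zero, zero_add] at this
    exact sup_le_sup_right ((hW (by nlinarith)).trans (le_fil h _)) N this
  generalize c = d at h1
  induction d with
  | zero => exact h1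
  | succ d ih => exact ih (step _ (by omega) h1)

end Grow

section AR
variable {K V : Type} [Field K] [AddCommGroup V] [Module K V] {σ : K →+* K} (τ : V →ₛₗ[σ] V)

/-- Span of the `τ^k s`, `k ≤ n`. -/
def DD (S : Set V) (n : ℕ) : Submodule K V :=
  Submodule.span K {f | ∃ s ∈ S, ∃ k, k ≤ n ∧ f = τ^[k] s}

variable {τ}

theorem DD_mono {S S' : Set V} {n n' : ℕ} (hS : S ⊆ S') (hn : n ≤ n') : DD τ S n ≤ DD τ S' n' :=
  Submodule.span_mono fun _ ⟨s, hs, k, hk, e⟩ => ⟨s, hS hs, k, hk.trans hn, e⟩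

theorem mem_DD {S : Set V} {s : V} (hs : s ∈ S) {k n : ℕ} (hk : k ≤ n) : τ^[k] s ∈ DD τ S n :=
  Submodule.subset_span ⟨s, hs, k, hk, rfl⟩

theorem map_span_mem {S : Set V} {N : Submodule K V} (h : ∀ s ∈ S, τ s ∈ N) {f : V}
    (hf : f ∈ Submodule.span K S) : τ f ∈ N := by
  induction hf using Submodule.span_induction with
  | mem _ h' => exact h _ h'
  | zero => rw [map_zero]; exact N.zero_mem
  | add _ _ _ _ e e' => rw [map_add]; exact N.add_mem e e'
  | smul r _ _ e => rw [map_smulₛₗ]; exact N.smul_mem _ e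

theorem DD_map {S : Set V} {n : ℕ} {f : V} (hf : f ∈ DD τ S n) : τ f ∈ DD τ S (n + 1) := by
  refine map_span_mem ?_ hf
  rintro _ ⟨s, hs, k, hk, rfl⟩
  rw [← Function.iterate_succ_apply' τ]
  exact mem_DD hs (by omega)

theorem iter_mem {P : ℕ → Submodule K V} (h : ∀ n, ∀ f ∈ P n, τ f ∈ P (n + 1)) {n : ℕ} {f : V}
    (hf : f ∈ P n) (k : ℕ) : τ^[k] f ∈ P (n + k) := by
  induction k with
  | zero => exact hf
  | succ k ih => rw [Function.iterate_succ_apply']; exact h _ _ ih

theorem DD_le {P : ℕ → Submodule K V} (h : ∀ n, ∀ f ∈ P n, τ f ∈ P (n + 1)) (hP : Monotone P)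
    {S : Set V} {c : ℕ} (hS : ∀ s ∈ S, s ∈ P c) (n : ℕ) : DD τ S n ≤ P (n + c) := by
  refine Submodule.span_le.2 ?_
  rintro _ ⟨s, hs, k, hk, rfl⟩
  exact hP (by omega) (iter_mem h (hS s hs) k)

variable (τ) in
/-- Degree `< d` in `g` and `≤ n` in `S`. -/
def VV (S : Set V) (g : V) (d n : ℕ) : Submodule K V :=
  DD τ S n ⊔ Submodule.span K {f | ∃ k, k < d ∧ f = τ^[k] g}

variable {S : Set V} {g : V}

theorem VV_mono {d n n' : ℕ} (h : n ≤ n') : VV τ S g d n ≤ VV τ S g d n' :=
  sup_le_sup_right (DD_mono subset_rfl h) _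

theorem VV_succ {d n : ℕ} {f : V} (hf : f ∈ VV τ S g (d + 1) n) :
    ∃ c : K, f - c • τ^[d] g ∈ VV τ S g d n := by
  have : VV τ S g (d + 1) n ≤ VV τ S g d n ⊔ Submodule.span K {τ^[d] g} := by
    refine sup_le (le_sup_left.trans le_sup_left) (Submodule.span_le.2 ?_)
    rintro _ ⟨k, hk, rfl⟩
    rcases Nat.lt_succ_iff_lt_or_eq.1 hk with h | rfl
    · exact Submodule.mem_sup_left (Submodule.mem_sup_right (Submodule.subset_span ⟨k, h, rfl⟩))
    · exact Submodule.mem_sup_right (Submodule.subset_span rfl)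
  obtain ⟨y, hy, z, hz, rfl⟩ := Submodule.mem_sup.1 (this hf)
  obtain ⟨c, rfl⟩ := Submodule.mem_span_singleton.1 hz
  exact ⟨c, by rwa [add_sub_cancel_right]⟩

theorem VV_iter {d n : ℕ} {f : V} (hf : f ∈ VV τ S g d n) (k : ℕ) :
    τ^[k] f ∈ VV τ S g (d + k) (n + k) := by
  have := iter_mem (τ := τ) (P := fun k => VV τ S g (d + k) (n + k)) (n := 0) ?_ hf k
  · rwa [zero_add] at this
  intro k f hf
  obtain ⟨y, hy, z, hz, rfl⟩ := Submodule.mem_sup.1 hf
  rw [map_add]
  refine Submodule.add_mem_sup (DD_map hy) (map_span_mem ?_ hz)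
  rintro _ ⟨l, hl, rfl⟩
  exact Submodule.subset_span ⟨l + 1, by omega, (Function.iterate_succ_apply' τ _ _).symm⟩

theorem iter_sub (k : ℕ) (f f' : V) : τ^[k] (f - f') = τ^[k] f - τ^[k] f' := by
  induction k with
  | zero => rfl
  | succ k ih => simp only [Function.iterate_succ_apply', ih, map_sub]

/-- Finite generation with control of the degree. -/
theorem artinRees {S : Set V} (hS : S.Finite) (N : Submodule K V) (hN : ∀ f ∈ N, τ f ∈ N) :
    ∃ s : Set V, s.Finite ∧ s ⊆ N ∧ ∃ c, ∀ n, N ⊓ DD τ S n ≤ DD τ s (n + c) := by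
  induction S, hS using Set.Finite.induction_on with
  | empty => exact ⟨∅, Set.finite_empty, Set.empty_subset _, 0, fun _ => inf_le_right⟩
  | @insert g S _ _ ih =>
    classical
    obtain ⟨s, s1, s2, c, s3⟩ := ih
    have h0 : ∀ n, DD τ (insert g S) n ≤ VV τ S g (n + 1) n := fun n => by
      refine Submodule.span_le.2 ?_
      rintro _ ⟨_, rfl | hs, k, hk, rfl⟩
      · exact Submodule.mem_sup_right (Submodule.subset_span ⟨k, by omega, rfl⟩)
      · exact Submodule.mem_sup_left (mem_DD hs hk)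
    have h1 : ∀ n, ∀ f ∈ N, f ∈ VV τ S g 0 n → f ∈ DD τ s (n + c) := fun n f hf hf' =>
      s3 n ⟨hf, by simpa [VV] using hf'⟩
    have h2 : ∀ e n, (¬ ∃ f ∈ N, ∃ n, f - τ^[e] g ∈ VV τ S g e n) →
        ∀ f ∈ N, f ∈ VV τ S g (e + 1) n → f ∈ VV τ S g e n := fun e n h f hf hf' => by
      obtain ⟨a, ha⟩ := VV_succ hf'
      rcases eq_or_ne a 0 with rfl | h0
      · simpa using ha
      · refine (h ⟨a⁻¹ • f, N.smul_mem _ hf, n, ?_⟩).elim
        have := Submodule.smul_mem _ a⁻¹ ha
        rwa [smul_sub, smul_smul, inv_mul_cancel₀ h0, one_smul] at this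
    by_cases hex : ∃ d, ∃ f ∈ N, ∃ n, f - τ^[d] g ∈ VV τ S g d n
    · obtain ⟨f0, a1, n0, a2⟩ := Nat.find_spec hex
      refine ⟨insert f0 s, s1.insert _, Set.insert_subset a1 s2, n0 + c, fun n f hf => ?_⟩
      have key : ∀ e, e ≤ n + 1 → ∀ f ∈ N, f ∈ VV τ S g e (n + n0) →
          f ∈ DD τ (insert f0 s) (n + (n0 + c)) := by
        intro e
        induction e with
        | zero =>
          exact fun _ f hf hf' => DD_mono (Set.subset_insert _ _) (by omega) (h1 _ f hf hf')
        | succ e ihe =>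
          intro he f hf hf'
          rcases lt_or_ge e (Nat.find hex) with h | h
          · exact ihe (by omega) f hf (h2 _ _ (Nat.find_min hex h) f hf hf')
          obtain ⟨k, rfl⟩ := Nat.exists_eq_add_of_le h
          obtain ⟨a, ha⟩ := VV_succ hf'
          have b3 := VV_mono (n' := n + n0) (by omega) (VV_iter a2 k)
          rw [iter_sub, ← Function.iterate_add_apply, add_comm k] at b3
          have b4 := Submodule.sub_mem _ ha (Submodule.smul_mem _ a b3)
          rw [smul_sub, sub_sub_sub_cancel_right] at b4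
          have b5 := Submodule.add_mem _ (ihe (by omega) _ (N.sub_mem hf (N.smul_mem a
            (iter_mem (P := fun _ => N) (n := 0) (fun _ => hN) a1 k))) b4)
            (Submodule.smul_mem _ a (mem_DD (k := k) (Set.mem_insert _ _) (by omega)))
          rwa [sub_add_cancel] at b5
      exact key _ le_rfl f hf.1 (VV_mono (by omega) (h0 n hf.2))
    · refine ⟨s, s1, s2, c, fun n f hf => h1 n f hf.1 ?_⟩
      have := h0 n hf.2
      generalize n + 1 = e at this
      induction e with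
      | zero => exact this
      | succ e ihe => exact ihe (h2 _ _ (fun h => hex ⟨e, h⟩) f hf.1 this)

end AR

end NSl

end Pool.Agent.Lib.TM
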