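import Pool.Agent.Lib.TM.P_Lin

/-! A relation between different levels splits when the slopes lie in a narrow range. -/

set_option autoImplicit false

namespace Pool.Agent.Lib.TM

open Polynomial Module BC2

namespace NSl

variable (𝔽 : Type) {K P : Type} [Field 𝔽] [Fintype 𝔽] [Field K] [Algebra 𝔽 K]

/-- `f ↦ f ^ q ^ v` as a semilinear map. -/
noncomputable def fr (v : ℕ) (K P : Type) [Field K] [Algebra 𝔽 K] :
    (P → K) →ₛₗ[(FiniteField.frobeniusAlgHom 𝔽 K ^ v : K →ₐ[𝔽] K).toRingHom] (P → K) where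
  toFun f := f ^ Fintype.card 𝔽 ^ v
  map_add' := add_pow_q 𝔽 v
  map_smul' c f := by
    rw [_root_.smul_pow]
    exact congrArg (· • _) (frob_pow_apply 𝔽 v c).symm

theorem fr_iter (v k : ℕ) (f : P → K) : (fr 𝔽 v K P)^[k] f = f ^ Fintype.card 𝔽 ^ (v * k) := by
  induction k with
  | zero => simp
  | succ k ih =>
    rw [Function.iterate_succ_apply', ih, mul_add_one, pow_add, pow_mul f]
    rfl

theorem pow_funLeft (φ : P → P) (l : ℕ) (f : P → K) :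
    ((LinearMap.funLeft K K φ : End K (P → K)) ^ l) f = f ∘ φ^[l] := by
  induction l generalizing f with
  | zero => rfl
  | succ l ih => rw [pow_succ, End.mul_apply, ih, Function.iterate_succ']; rfl

/-- The hypotheses on the filtration. -/
structure Nar (φ : P → P) (W : ℕ → Submodule K (P → K)) (v a b : ℕ) : Prop where
  pos : 0 < v
  fin : FiniteDimensional K (W 0)
  frob : ∀ i, W (i + 1) = W i ⊔ Submodule.span K ((· ^ Fintype.card 𝔽 ^ v) '' W i)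
  up : ∀ i, (W i).map (LinearMap.funLeft K K φ) ≤ W (i + a)
  low : ∀ i, W (i + b) ≤ W i ⊔ (W i).map (LinearMap.funLeft K K φ)

variable {𝔽} {φ : P → P} {W : ℕ → Submodule K (P → K)} {v a b : ℕ}

omit [Field 𝔽] [Algebra 𝔽 K] in
theorem Nar.mono (h : Nar 𝔽 φ W v a b) : Monotone W :=
  monotone_nat_of_le_succ fun i => h.frob i ▸ le_sup_left

theorem Nar.fr_mem (h : Nar 𝔽 φ W v a b) (i : ℕ) (f : P → K) (hf : f ∈ W i) :
    fr 𝔽 v K P f ∈ W (i + 1) :=
  h.frob i ▸ Submodule.mem_sup_right (Submodule.subset_span ⟨f, hf, rfl⟩)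

omit [Field 𝔽] [Algebra 𝔽 K] in
theorem Nar.comp_mem (h : Nar 𝔽 φ W v a b) {i : ℕ} {f : P → K} (hf : f ∈ W i) (l : ℕ) :
    f ∘ φ^[l] ∈ W (i + l * a) := by
  induction l with
  | zero => simpa using hf
  | succ l ih => rw [add_one_mul, ← add_assoc]; exact h.up _ ⟨_, ih, rfl⟩

omit [Field 𝔽] [Algebra 𝔽 K] in
theorem Nar.mem_iSup (h : Nar 𝔽 φ W v a b) {f : P → K} : f ∈ ⨆ i, W i ↔ ∃ i, f ∈ W i :=
  Submodule.mem_iSup_of_directed _ h.mono.directed_le

theorem Nar.le_DD (h : Nar 𝔽 φ W v a b) {S : Set (P → K)} (hS : Submodule.span K S = W 0) (n : ℕ) :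
    W n ≤ DD (fr 𝔽 v K P) S n := by
  induction n with
  | zero => exact hS ▸ Submodule.span_le.2 fun s hs => mem_DD (k := 0) hs le_rfl
  | succ n ih =>
    rw [h.frob]
    refine sup_le (ih.trans (DD_mono subset_rfl (by omega))) (Submodule.span_le.2 ?_)
    rintro _ ⟨f, hf, rfl⟩
    exact DD_map (ih hf)

theorem Nar.small (h : Nar 𝔽 φ W v a b) {Y : Set P}
    (hY : ∀ f ∈ (⨆ i, W i) ⊓ fv K Y, f ∘ φ ∈ fv K Y) {A Q : ℕ} (hA : A < Q * b) {f : P → K} {c : ℕ}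
    (hf : ∀ m, f ∘ φ^[m * Q] ∈ W (m * A + c) ⊔ (⨆ i, W i) ⊓ fv K Y) : f ∈ fv K Y := by
  classical
  have := h.fin
  obtain ⟨n₀, h₀⟩ := slow (LinearMap.funLeft K K φ) W h.mono h.low ((⨆ i, W i) ⊓ fv K Y)
    (fun f hf => ⟨let ⟨i, hi⟩ := h.mem_iSup.1 hf.1; h.mem_iSup.2 ⟨_, h.up i ⟨f, hi, rfl⟩⟩,
      hY f hf⟩) hA
  have h1 : ∀ k, ∃ u : fil (LinearMap.funLeft K K φ) (W 0) n₀,
      f ^ Fintype.card 𝔽 ^ (v * k) - u ∈ fv K Y := fun k => by
    have := h₀ ((fr 𝔽 v K P)^[k] f) (c + k) fun m => by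
      rw [pow_funLeft, fr_iter, ← add_assoc]
      have := iter_mem (τ := fr 𝔽 v K P) (P := fun n => W n ⊔ (⨆ i, W i) ⊓ fv K Y) ?_ (hf m) k
      · rwa [fr_iter] at this
      intro n f hf
      obtain ⟨y, hy, z, hz, rfl⟩ := Submodule.mem_sup.1 hf
      rw [map_add]
      exact Submodule.add_mem_sup (h.fr_mem _ _ hy)
        ⟨let ⟨i, hi⟩ := h.mem_iSup.1 hz.1; h.mem_iSup.2 ⟨_, h.fr_mem _ _ hi⟩, pow_mem hz.2 _⟩
    obtain ⟨y, hy, z, hz, e⟩ := Submodule.mem_sup.1 this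
    exact ⟨⟨y, hy⟩, by rw [← fr_iter, ← e, add_sub_cancel_left]; exact hz.2⟩
  choose u hu using h1
  obtain ⟨s, g, hs, i, hi, hg⟩ := not_linearIndependent_iff.1
    (Module.Finite.not_linearIndependent_of_infinite (R := K) u)
  refine of_poly (p := ∑ k ∈ s, monomial (Fintype.card 𝔽 ^ (v * k)) (g k))
    (q_pow_ne_zero 𝔽 (v * i)) ?_ ?_
  · rw [finsetSum_coeff, Finset.sum_eq_single i _ (fun h => (h hi).elim)]
    · simpa using hg
    · intro k _ hk
      rw [coeff_monomial, if_neg fun e => hk (Nat.eq_of_mul_eq_mul_left h.pos (q_pow_inj 𝔽 e))]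
  · have h2 := Submodule.sum_mem (fv K Y) fun k (_ : k ∈ s) => Submodule.smul_mem _ (g k) (hu k)
    have h3 : ∑ k ∈ s, g k • (u k : P → K) = 0 := by simpa using congrArg Subtype.val hs
    simp only [smul_sub, Finset.sum_sub_distrib, h3, sub_zero] at h2
    convert h2 using 1
    ext x
    simp [eval_finsetSum]

theorem exists_bound {α : Type} {s : Set α} (hs : s.Finite) {p : α → ℕ → Prop}
    (hp : ∀ x n n', n ≤ n' → p x n → p x n') (h : ∀ x ∈ s, ∃ n, p x n) : ∃ n, ∀ x ∈ s, p x n := by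
  choose! ν hν using h
  obtain ⟨m, hm⟩ := (hs.image ν).bddAbove
  exact ⟨m, fun x hx => hp x _ _ (hm ⟨x, hx, rfl⟩) (hν x hx)⟩

theorem fv_pull {α : Type} {Z : Set (α → P)} {j : α} {f : P → K} :
    (fun z : α → P => f (z j)) ∈ fv K Z ↔ f ∈ fv K ((fun z => z j) '' Z) := by
  change Set.Finite _ ↔ Set.Finite _
  rw [Set.image_image]

theorem Nar.top (h : Nar 𝔽 φ W v a b) (hab : a < Fintype.card 𝔽 * b) {J : ℕ}
    {Z : Set (Fin J → P)} (hZ : ∀ z ∈ Z, (fun j : Fin J => φ^[Fintype.card 𝔽 ^ (j : ℕ)] (z j)) ∈ Z)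
    {j : Fin J} (hY : ∀ f ∈ (⨆ i, W i) ⊓ fv K ((fun z => z j) '' Z),
      f ∘ φ ∈ fv K ((fun z => z j) '' Z)) {f : Fin J → P → K} (hf : ∀ i, f i ∈ ⨆ n, W n)
    (hj : ∀ i, j < i → f i = 0) (hs : (fun z => ∑ i, f i (z i)) ∈ fv K Z) :
    f j ∈ fv K ((fun z => z j) '' Z) := by
  classical
  have := h.fin
  obtain ⟨S, hS, hS'⟩ := (Submodule.fg_def.1 (Module.Finite.iff_fg.1 h.fin))
  let pl : Fin J → (P → K) →ₗ[K] ((Fin J → P) → K) := fun i => LinearMap.funLeft K K fun z => z i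
  let B : ℕ → Submodule K ((Fin J → P) → K) := fun n => (W n).map (pl j) ⊔ fv K Z
  have hB : Monotone B := fun _ _ hn => sup_le_sup_right (Submodule.map_mono (h.mono hn)) _
  have hB' : ∀ n, ∀ x ∈ B n, fr 𝔽 v K _ x ∈ B (n + 1) := fun n x hx => by
    obtain ⟨_, ⟨y, hy, rfl⟩, z, hz, rfl⟩ := Submodule.mem_sup.1 hx
    rw [map_add]
    exact Submodule.add_mem_sup ⟨_, h.fr_mem _ _ hy, rfl⟩ (pow_mem hz _)
  have hN : ∀ x, x ∈ ⨆ n, B n ↔ ∃ n, x ∈ B n := fun _ =>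
    Submodule.mem_iSup_of_directed _ hB.directed_le
  obtain ⟨s, s1, s2, c, s3⟩ := artinRees (τ := fr 𝔽 v K _)
    (Set.finite_iUnion fun i => hS.image (pl i)) (⨆ n, B n)
    fun x hx => let ⟨n, hn⟩ := (hN x).1 hx; (hN _).2 ⟨_, hB' n x hn⟩
  obtain ⟨c', hc'⟩ := exists_bound s1 (p := fun x n => x ∈ B n) (fun _ _ _ e h => hB e h)
    fun x hx => (hN x).1 (s2 hx)
  obtain ⟨c₀, hc₀⟩ := exists_bound Set.finite_univ (p := fun i n => f i ∈ W n)
    (fun _ _ _ e h' => h.mono e h') fun i _ => h.mem_iSup.1 (hf i)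
  have hq : 0 < Fintype.card 𝔽 := Fintype.card_pos
  refine h.small hY (A := Fintype.card 𝔽 ^ (j : ℕ) / Fintype.card 𝔽 * a)
    (Q := Fintype.card 𝔽 ^ (j : ℕ)) (c := c₀ + c + c') ?_ fun m => ?_
  · have h1 := Nat.div_mul_le_self (Fintype.card 𝔽 ^ (j : ℕ)) (Fintype.card 𝔽)
    have h2 : 0 < Fintype.card 𝔽 ^ (j : ℕ) := pow_pos hq _
    refine lt_of_mul_lt_mul_left (a := Fintype.card 𝔽) ?_ (Nat.zero_le _)
    nlinarith [Nat.mul_le_mul_right a h1, Nat.mul_lt_mul_of_pos_left hab h2]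
  have hZm : ∀ z ∈ Z, (fun i : Fin J => φ^[m * Fintype.card 𝔽 ^ (i : ℕ)] (z i)) ∈ Z := by
    induction m with
    | zero => simp
    | succ m ih =>
      intro z hz
      simpa only [add_one_mul, Function.iterate_add_apply] using ih _ (hZ z hz)
  have h1 : ∑ i, pl i (f i ∘ φ^[m * Fintype.card 𝔽 ^ (i : ℕ)]) ∈ fv K Z :=
    Set.Finite.subset hs (by
      rintro _ ⟨z, hz, rfl⟩
      exact ⟨_, hZm z hz, by simp [pl]⟩)
  rw [← Finset.add_sum_erase _ _ (Finset.mem_univ j)] at h1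
  have h2 := h.comp_mem (hc₀ j trivial) (m * Fintype.card 𝔽 ^ (j : ℕ))
  have h3 := DD_le hB' hB hc' _ (s3 (m * (Fintype.card 𝔽 ^ (j : ℕ) / Fintype.card 𝔽 * a) + c₀)
    (x := ∑ i ∈ Finset.univ.erase j, pl i (f i ∘ φ^[m * Fintype.card 𝔽 ^ (i : ℕ)]))
    ⟨(hN _).2 ⟨_, by
      rw [← add_sub_cancel_left (pl j _) (∑ i ∈ Finset.univ.erase j, _), sub_eq_neg_add]
      exact Submodule.add_mem_sup (Submodule.neg_mem _ ⟨_, h2, rfl⟩) h1⟩,
    Submodule.sum_mem _ fun i hi => ?_⟩)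
  · obtain ⟨_, ⟨y, hy, rfl⟩, z, hz, e⟩ := Submodule.mem_sup.1 h3
    rw [← e, ← add_assoc, ← map_add] at h1
    have h4 := Submodule.sub_mem _ h1 hz
    rw [add_sub_cancel_right] at h4
    rw [← add_neg_cancel_right (f j ∘ _) y, add_comm _ (-y), ← add_assoc (m * _), ← add_assoc (m * _)]
    exact Submodule.add_mem_sup (Submodule.neg_mem _ hy) ⟨Submodule.add_mem _
      (h.mem_iSup.2 ⟨_, h2⟩) (h.mem_iSup.2 ⟨_, hy⟩), fv_pull.1 h4⟩
  · rcases lt_or_gt_of_ne (Finset.ne_of_mem_erase hi) with hlt | hlt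
    · have h4 := h.le_DD hS' _ (h.comp_mem (hc₀ i trivial) (m * Fintype.card 𝔽 ^ (i : ℕ)))
      have h5 : Fintype.card 𝔽 ^ (i : ℕ) ≤ Fintype.card 𝔽 ^ (j : ℕ) / Fintype.card 𝔽 := by
        rw [Nat.le_div_iff_mul_le hq, ← pow_succ]
        exact Nat.pow_le_pow_right hq hlt
      refine Submodule.mem_comap.1 (Submodule.span_le.2 ?_ h4)
      rintro _ ⟨s, hs, k, hk, rfl⟩
      have := mem_DD (τ := fr 𝔽 v K _) (S := ⋃ i, pl i '' S) (Set.mem_iUnion.2 ⟨i, s, hs, rfl⟩)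
        (hk.trans (by nlinarith [Nat.mul_le_mul_left m (Nat.mul_le_mul_right a h5)]) :
          k ≤ m * (Fintype.card 𝔽 ^ (j : ℕ) / Fintype.card 𝔽 * a) + c₀)
      rw [fr_iter] at this ⊢
      exact this
    · rw [hj i hlt]
      exact Submodule.zero_mem _

theorem Nar.split (h : Nar 𝔽 φ W v a b) (hab : a < Fintype.card 𝔽 * b) {J : ℕ}
    {Z : Set (Fin J → P)} (hZ : ∀ z ∈ Z, (fun j : Fin J => φ^[Fintype.card 𝔽 ^ (j : ℕ)] (z j)) ∈ Z)
    (hY : ∀ j, ∀ f ∈ (⨆ i, W i) ⊓ fv K ((fun z => z j) '' Z), f ∘ φ ∈ fv K ((fun z => z j) '' Z))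
    {f : Fin J → P → K} (hf : ∀ i, f i ∈ ⨆ n, W n) (hs : (fun z => ∑ i, f i (z i)) ∈ fv K Z)
    (j : Fin J) : f j ∈ fv K ((fun z => z j) '' Z) := by
  classical
  suffices H : ∀ k : ℕ, ∀ f : Fin J → P → K, (∀ i, f i ∈ ⨆ n, W n) → (∀ i : Fin J, k ≤ i → f i = 0) →
      (fun z => ∑ i, f i (z i)) ∈ fv K Z → f j ∈ fv K ((fun z => z j) '' Z) from
    H J f hf (fun i hi => absurd i.2 (not_lt.2 hi)) hs
  intro k
  induction k with
  | zero => exact fun f _ h0 _ => h0 j (Nat.zero_le _) ▸ Submodule.zero_mem _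
  | succ k ih =>
    intro f hf h0 hs
    by_cases hk : k < J
    · have h1 := h.top hab hZ (hY ⟨k, hk⟩) hf (fun i hi => h0 i hi) hs
      rcases eq_or_ne j ⟨k, hk⟩ with rfl | hj
      · exact h1
      have := ih (Function.update f ⟨k, hk⟩ 0) (fun i => ?_) (fun i hi => ?_) ?_
      · rwa [Function.update_of_ne hj] at this
      · rcases eq_or_ne i ⟨k, hk⟩ with rfl | hi
        · rw [Function.update_self]; exact Submodule.zero_mem _
        · rw [Function.update_of_ne hi]; exact hf i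
      · rcases eq_or_ne i ⟨k, hk⟩ with rfl | hi'
        · rw [Function.update_self]
        · rw [Function.update_of_ne hi']
          exact h0 i (lt_of_le_of_ne hi fun e => hi' (Fin.ext e.symm))
      · convert Submodule.sub_mem _ hs (fv_pull.2 h1) using 1
        ext z
        rw [Pi.sub_apply, ← Finset.add_sum_erase _ _ (Finset.mem_univ ⟨k, hk⟩),
          ← Finset.add_sum_erase _ (fun i => f i (z i)) (Finset.mem_univ ⟨k, hk⟩),
          Function.update_self, Pi.zero_apply, zero_add, add_sub_cancel_left]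
        exact Finset.sum_congr rfl fun i hi => by
          rw [Function.update_of_ne (Finset.ne_of_mem_erase hi)]
    · exact ih f hf (fun i hi => absurd (lt_of_le_of_lt hi i.2) hk) hs

end NSl

end Pool.Agent.Lib.TM
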