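import Pool.Agent.Lib.TM.PDefs
import Pool.Agent.Lib.TM.P_Split
import Pool.Agent.Lib.TM.MainA

/-! The assertion of the first question for a narrow range of slopes. -/

set_option autoImplicit false

namespace Pool.Agent.Lib.TM

open Polynomial Module BC2 Pool.Agent.Lib.MP_795114_nt

namespace NSl

variable {𝔽 K N ι : Type} [Field 𝔽] [Fintype 𝔽] [Field K] [IsAlgClosed K] [Algebra 𝔽 K]
  [AddCommGroup N] [Module 𝔽 N] [Module 𝔽[X] N] [IsScalarTower 𝔽 𝔽[X] N] [Finite ι]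
  {θ : K} {g : ι → N →ₗ[𝔽] K}

/-- Stability under `T ^ q ^ j` gives stability under `T`. -/
theorem stable (hθ : Transcendental 𝔽 θ) (h2 : B2 θ g) {j : ℕ} {Y : Set N}
    (hY : ∀ x ∈ Y, (X : 𝔽[X]) ^ Fintype.card 𝔽 ^ j • x ∈ Y) {f : N → K}
    (hf : f ∈ Asp (Fintype.card 𝔽) K 0 (Fn g)) (hf' : f ∈ fv K Y) (a : 𝔽[X]) :
    (fun x => f (a • x)) ∈ fv K Y := by
  have e : ∀ s, Flt (Fintype.card 𝔽) (fun i => (g i : N → K)) (fun _ => 0) s =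
      Asp (Fintype.card 𝔽) K s (Fn g) := fun s => by
    refine congrArg _ (Set.ext fun f => ⟨?_, ?_⟩)
    · rintro ⟨i, k, hk, rfl⟩; exact ⟨_, ⟨i, rfl⟩, k, by simpa using hk, rfl⟩
    · rintro ⟨_, ⟨i, rfl⟩, k, hk, rfl⟩; exact ⟨i, k, by simpa using hk, rfl⟩
  have hQ : ∀ s, Qt 𝔽 (fun s => if s = 0 then X - C (θ ^ Fintype.card 𝔽 ^ j) else (1 : K[X])) s =
      X - C (θ ^ Fintype.card 𝔽 ^ (j + s)) := fun s => by
    rw [Qt, Finset.prod_eq_single 0 (fun b _ hb => by simp [hb, tw]) (by simp), if_pos rfl, tw,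
      Polynomial.map_sub, map_X, map_C, pow_add, pow_mul, ← frob_pow_apply 𝔽 s]
    rfl
  have hX : ∀ f ∈ Asp (Fintype.card 𝔽) K 0 (Fn g), f ∈ fv K Y →
      (fun x => f ((X : 𝔽[X]) • x)) ∈ fv K Y := fun f hf hf' => by
    refine thmC 𝔽 K N ι (fun i => g i) (fun _ => 0)
      (fun x => (X : 𝔽[X]) ^ Fintype.card 𝔽 ^ j • x) (fun x => (X : 𝔽[X]) • x) θ
      (fun s => if s = 0 then X - C (θ ^ Fintype.card 𝔽 ^ j) else 1) Y (fun x => smul_comm _ _ _)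
      (fun i => ?_) (fun i => ?_) (fun i => ?_) (fun s s' hs => ?_) hY f (e 0 ▸ hf) hf'
    · rw [e]; exact h2.comp_smul _ (mem_Asp ⟨i, rfl⟩)
    · rw [e, pow_zero, pow_one]; exact h2 i
    · have := h2.comp_smul_sub (X ^ Fintype.card 𝔽 ^ j) (mem_Asp (S := Fn g) ⟨i, rfl⟩)
      rw [map_pow, aeval_X] at this
      rw [e, if_pos rfl, map_sub, aeval_X, aeval_C]
      exact this
    · beta_reduce
      rw [hQ, hQ]
      refine isCoprime_X_sub_C_of_isUnit_sub (Ne.isUnit (sub_ne_zero.2 fun h => hs ?_))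
      have := transcendental_iff_injective.1 hθ (a₁ := X ^ Fintype.card 𝔽 ^ (j + s))
        (a₂ := X ^ Fintype.card 𝔽 ^ (j + s')) (by simpa using h)
      have := q_pow_inj 𝔽 (by simpa using congrArg natDegree this)
      omega
  have hl : ∀ l : ℕ, (fun x => f ((X : 𝔽[X]) ^ l • x)) ∈ fv K Y := fun l => by
    induction l with
    | zero => simpa using hf'
    | succ l ih => simpa only [pow_succ, mul_smul] using hX _ (h2.comp_smul _ hf) ih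
  obtain ⟨f, rfl⟩ := Asp_Fn_linear hf
  convert Submodule.sum_mem _ fun l (_ : l ∈ Finset.range (a.natDegree + 1)) =>
    Submodule.smul_mem _ (algebraMap 𝔽 K (a.coeff l)) (hl l) using 1
  ext x
  conv_lhs => rw [a.as_sum_range_C_mul_X_pow, Finset.sum_smul, map_sum]
  rw [Finset.sum_apply]
  refine Finset.sum_congr rfl fun l _ => ?_
  rw [← smul_eq_C_mul, smul_assoc, map_smul, Pi.smul_apply, algebraMap_smul]

theorem untwist (hθ : Transcendental 𝔽 θ) (h2 : B2 θ g) {u v a b : ℕ} {W : ℕ → Submodule K (N → K)}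
    (h : Nar 𝔽 (fun x => (X : 𝔽[X]) ^ u • x) W v a b) (hab : a < Fintype.card 𝔽 * b)
    (hW : ⨆ i, W i = Asp (Fintype.card 𝔽) K 0 (Fn g)) {E : Set (N → K)}
    (hE : E ⊆ Asp (Fintype.card 𝔽) K 0 (Fn g)) (J : ℕ) :
    FiniteIndexIn {x | (∃ c : 𝔽[X], c ≠ 0 ∧ c • x = 0) ∧ ∀ c : 𝔽[X], c • x ∈ Zer E}
      (TwS 𝔽 (Zer E) J) := by
  let Z : Set (Fin (J + 1) → N) := {z | (∀ j, ∃ c : 𝔽[X], c ≠ 0 ∧ c • z j = 0) ∧
    ∀ c : 𝔽[X], ∑ j : Fin (J + 1), c ^ Fintype.card 𝔽 ^ (j : ℕ) • z j ∈ Zer E}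
  have hT : ∀ x : N, (∃ c : 𝔽[X], c ≠ 0 ∧ c • x = 0) ↔ x ∈ Submodule.torsion 𝔽[X] N := fun x =>
    ⟨fun ⟨c, hc, e⟩ => ⟨⟨c, mem_nonZeroDivisors_of_ne_zero hc⟩, e⟩,
      fun ⟨c, e⟩ => ⟨c, nonZeroDivisors.ne_zero c.2, e⟩⟩
  have hZc : ∀ c : 𝔽[X], ∀ z ∈ Z, (fun j : Fin (J + 1) => c ^ Fintype.card 𝔽 ^ (j : ℕ) • z j) ∈ Z :=
    fun c z hz => ⟨fun j => (hT _).2 (Submodule.smul_mem _ _ ((hT _).1 (hz.1 j))), fun c' => by
      simpa only [mul_pow, mul_smul] using hz.2 (c' * c)⟩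
  have hZsub : ∀ x ∈ Z, ∀ y ∈ Z, x - y ∈ Z := fun x hx y hy =>
    ⟨fun j => (hT _).2 (Submodule.sub_mem _ ((hT _).1 (hx.1 j)) ((hT _).1 (hy.1 j))), fun c => by
      simp only [Pi.sub_apply, smul_sub, Finset.sum_sub_distrib]
      exact (zerSub hE).sub_mem (hx.2 c) (hy.2 c)⟩
  have hst : ∀ j : Fin (J + 1), ∀ f ∈ Asp (Fintype.card 𝔽) K 0 (Fn g),
      f ∈ fv K ((fun z => z j) '' Z) → ∀ c : 𝔽[X],
      (fun x => f (c • x)) ∈ fv K ((fun z => z j) '' Z) := fun j f hf hf' =>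
    stable (j := j) hθ h2 (by rintro _ ⟨z, hz, rfl⟩; exact ⟨_, hZc X z hz, rfl⟩) hf hf'
  have hsp : ∀ e ∈ E, ∀ j, e ∈ fv K ((fun z => z j) '' Z) := fun e he =>
    h.split hab (Z := Z) (f := fun _ => e) (fun z hz => by
        simpa only [smul_iterate] using hZc (X ^ u) z hz)
      (fun j f hf => hst j f (hW ▸ hf.1) hf.2 _) (fun _ => hW ▸ hE he)
      ((Set.finite_singleton 0).subset (by
        rintro _ ⟨z, hz, rfl⟩
        obtain ⟨e, rfl⟩ := Asp_Fn_linear (hE he)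
        simpa using hz.2 1 e he))
  choose s hs hsN hNs using fun j : Fin (J + 1) => thmNOE 𝔽 K N (Fn g)
    (Asp (Fintype.card 𝔽) K 0 (Fn g) ⊓ fv K ((fun z => z j) '' Z)) (Set.finite_range _) inf_le_left
    fun f hf => ⟨Asp_pow_card hf.1, pow_mem hf.2 _⟩
  have := fun j => (hs j).to_subtype
  have hF0 := FI_ker hZsub (fun z (e : Σ j, s j) => e.2.1 (z e.1)) (fun x _ y _ => funext fun e => by
      obtain ⟨f, hf⟩ := Asp_Fn_linear (hsN _ e.2.2).1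
      simp only [Pi.sub_apply, ← hf, map_sub])
    ((Set.Finite.pi' fun e : Σ j, s j => (hsN _ e.2.2).2).subset (by
      rintro _ ⟨z, hz, rfl⟩ e; exact ⟨_, ⟨z, hz, rfl⟩, rfl⟩))
  refine FI_mono (FI_image hF0 (∑ j, Pi.evalAddMonoidHom _ j)) ?_ ?_
  · rintro _ ⟨z, ⟨hz, h0⟩, rfl⟩
    rw [AddMonoidHom.finsetSum_apply]
    refine ⟨(hT _).2 (Submodule.sum_mem _ fun j _ => (hT _).1 (hz.1 j)), fun c => ?_⟩
    rw [Finset.smul_sum]
    refine (zerSub hE).sum_mem fun j _ e he => ?_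
    have h5 : (fun x => e (c • x)) ∈ Asp (Fintype.card 𝔽) K 0 (s j) :=
      hNs j ▸ ⟨h2.comp_smul c (hE he), hst j e (hE he) (hsp e he j) c⟩
    exact Asp_apply_eq_zero Fintype.card_ne_zero h5 fun f hf => congrFun h0 ⟨j, f, hf⟩
  · rintro _ ⟨z, h1, h3, rfl⟩
    exact ⟨z, ⟨h1, h3⟩, AddMonoidHom.finsetSum_apply _ _ _⟩

omit [IsAlgClosed K] [Module 𝔽 N] [IsScalarTower 𝔽 𝔽[X] N] [Algebra 𝔽 K] in
theorem le_orb {u v a b : ℕ} {W : ℕ → Submodule K (N → K)}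
    (h : Nar 𝔽 (fun x => (X : 𝔽[X]) ^ u • x) W v a b) (hb : 0 < b) {r : ℕ} {m : Fin r → N → K}
    (hm : Submodule.span K (Set.range m) = W 0) (i : ℕ) : W i ≤
      Submodule.span K (Set.range fun (p : Fin r × ℕ) (x : N) => m p.1 ((X : 𝔽[X]) ^ p.2 • x)) := by
  refine (h.mono (Nat.le_mul_of_pos_right i hb)).trans ((le_fil h.low i).trans ?_)
  induction i with
  | zero =>
    refine hm.ge.trans (Submodule.span_mono ?_)
    rintro _ ⟨k, rfl⟩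
    exact ⟨(k, 0), by simp⟩
  | succ i ih =>
    refine sup_le ih ((Submodule.map_mono ih).trans ?_)
    rw [Submodule.map_span]
    refine Submodule.span_mono ?_
    rintro _ ⟨_, ⟨p, rfl⟩, rfl⟩
    exact ⟨(p.1, p.2 + u), funext fun x => by simp [pow_add, mul_smul]⟩

end NSl

open BA NSl in
theorem thmP (𝔽 K : Type) [Field 𝔽] [Fintype 𝔽] [Field K] [IsAlgClosed K] [Algebra 𝔽 K]
    (δ : 𝔽[X] →ₐ[𝔽] K) (hδ : Function.Injective δ) (n : ℕ) (F : Set (Fin n → K))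
    (Φ : 𝔽[X] → Fin n → MvPolynomial (Fin n) K) (hA : IsAModule δ F Φ) (a b : ℕ)
    (hS : HasSlopeRange F Φ a b) (hab : a < Fintype.card 𝔽 * b) : Q1Holds F Φ := by
  intro H hH hHF
  obtain ⟨u, v, W, -, hv, hfin, hW, hfr, hup, hlow⟩ := hS
  let N := sub hA.isQVariety
  let _ : Module 𝔽[X] N := act hA
  have hs : ∀ (a : 𝔽[X]) (x : N), ((a • x : N) : Fin n → K) = polyMap (Φ a) x := fun _ _ => rfl
  have : IsScalarTower 𝔽 𝔽[X] N := ⟨fun c a x => Subtype.ext <| by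
    rw [smul_eq_C_mul, hs, hA.map_mul _ _ _ x.2, hA.map_C _ _ ((hA.isEndo a).2 x x.2)]
    rfl⟩
  let W' : ℕ → Submodule K (N → K) := W
  have hp : ∀ i, pullT F Φ u (W i) =
      ((W' i).map (LinearMap.funLeft K K fun x : N => (X : 𝔽[X]) ^ u • x) : Set (N → K)) :=
    fun i => Set.ext fun f => ⟨fun ⟨h, hh, e⟩ => ⟨h, hh, funext fun x => (e x _ rfl).symm⟩,
      fun ⟨h, hh, e⟩ => ⟨h, hh, fun x y hy => e ▸ congrArg h (Subtype.ext hy.symm)⟩⟩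
  have hN : Nar 𝔽 (fun x : N => (X : 𝔽[X]) ^ u • x) W' v a b :=
    ⟨hv, hfin, hfr, fun i f hf => hup i (hp i ▸ hf), fun i => by
      have := hlow i
      rw [hp] at this
      exact this.trans (sup_le_sup_left (Submodule.span_eq _).le _)⟩
  let co : Fin n → N →ₗ[𝔽] K := fun i => LinearMap.proj i ∘ₗ N.subtype
  have hres : ∀ {s : ℕ} {f : (Fin n → K) → K}, f ∈ Asp (Fintype.card 𝔽) K s (Pr (Fin n) K) →
      (fun x : N => f x) ∈ Asp (Fintype.card 𝔽) K s (Fn co) := fun hf => by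
    refine Asp_transfer (S := Pr (Fin n) K) (S' := Fn co) Subtype.val (RingHom.id K)
      (RingHom.id K) (fun _ => rfl) ?_ hf
    rintro _ ⟨i, rfl⟩
    exact ⟨i, rfl⟩
  have hlam : ∀ f' ∈ Asp (Fintype.card 𝔽) K 0 (Fn co), ∃ e ∈ Lam (Fintype.card 𝔽) K n,
      ∀ x : N, f' x = MvPolynomial.eval (x : Fin n → K) e := fun f' hf' => by
    obtain ⟨f, hf, rfl⟩ := Asp_exists_comp (S := Pr (Fin n) K) Subtype.val
      (by rintro _ ⟨i, rfl⟩; exact ⟨_, ⟨i, rfl⟩, rfl⟩) hf'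
    obtain ⟨e, he, rfl⟩ := exists_Lam_of_Asp hf
    exact ⟨e, he, fun _ => rfl⟩
  have hW' : ⨆ i, W' i = Asp (Fintype.card 𝔽) K 0 (Fn co) := Submodule.ext fun f =>
    hN.mem_iSup.trans ((hW f).trans ⟨fun ⟨e, he, h⟩ => by
      rw [show f = fun x : N => MvPolynomial.eval (x : Fin n → K) e from funext h]
      exact hres (eval_mem_Asp he), hlam f⟩)
  have h2 : B2 (δ X) co := fun i => by
    obtain ⟨h, hh, e⟩ := thmTAN 𝔽 K δ n F Φ hA i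
    convert hres hh using 1
    ext x
    exact sub_eq_of_eq_add' (e x x.2)
  have hθ : Transcendental 𝔽 (δ X) := by
    rw [transcendental_iff_injective, show aeval (δ X) = δ from algHom_ext (by simp)]
    exact hδ
  have hab' : IsAbelian F Φ := by
    obtain ⟨r, m, hm⟩ := Submodule.fg_iff_exists_fin_generating_family.1
      (Module.Finite.iff_fg.1 hN.fin)
    choose m' hm' e using fun i => (hW (m i)).1 ⟨0, hm.le (Submodule.subset_span ⟨i, rfl⟩)⟩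
    refine ⟨r, m', hm', fun f hf => ?_⟩
    obtain ⟨i, hi⟩ := (hW _).2 ⟨f, hf, fun _ => rfl⟩
    obtain ⟨c, hc⟩ := Finsupp.mem_span_range_iff_exists_finsupp.1
      (le_orb hN (Nat.pos_of_ne_zero (by rintro rfl; omega)) hm i hi)
    refine ⟨c, fun x hx => (congrFun hc ⟨x, hx⟩).symm.trans ?_⟩
    rw [Finsupp.sum, Finsupp.sum, Finset.sum_apply]
    exact Finset.sum_congr rfl fun p _ => congrArg (c p * ·) (e _ _)
  obtain ⟨J, -, hFI⟩ := thmA 𝔽 K δ hδ n F Φ hA hab' H hH hHF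
  obtain ⟨S1, hS1, hH⟩ := hH
  obtain ⟨S0, hS0, hF⟩ := hA.isQVariety
  let E : Set (N → K) := (fun e (x : N) => MvPolynomial.eval (x : Fin n → K) e) '' S1
  have hE : E ⊆ Asp (Fintype.card 𝔽) K 0 (Fn co) := by
    rintro _ ⟨e, he, rfl⟩; exact hres (eval_mem_Asp (hS1 e he))
  have hZ : ∀ x : N, x ∈ Zer E ↔ (x : Fin n → K) ∈ H := fun x => by
    rw [hH]
    exact ⟨fun h e he => h _ ⟨e, he, rfl⟩, fun h _ ⟨e, he, e'⟩ => e' ▸ h e he⟩
  refine ⟨{x | x ∈ F ∧ ∀ c, polyMap (Φ c) x ∈ H},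
    ⟨{f | f ∈ Lam (Fintype.card 𝔽) K n ∧ ∀ x ∈ F, (∀ c, polyMap (Φ c) x ∈ H) →
      MvPolynomial.eval x f = 0}, fun f hf => hf.1, Set.ext fun x =>
      ⟨fun h f hf => hf.2 x h.1 h.2, fun h => ?_⟩⟩, fun x hx => hx.1,
    fun c x hx => ⟨(hA.isEndo c).2 x hx.1, fun c' => hA.map_mul c' c x hx.1 ▸ hx.2 _⟩,
    fun x hx => ?_, FI_trans (FI_mono (FI_image (untwist hθ h2 hN hab hW' hE J)
      N.subtype.toAddMonoidHom) ?_ ?_) hFI⟩
  · have hx : x ∈ F := by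
      rw [hF]
      exact fun e he => h e ⟨hS0 e he, fun y hy _ => (hF ▸ hy :) e he⟩
    refine ⟨hx, fun c => (hZ (c • (⟨x, hx⟩ : N))).1 fun e he => ?_⟩
    obtain ⟨f, hf, hf'⟩ := hlam _ (h2.comp_smul c (hE he))
    refine (hf' ⟨x, hx⟩).trans (h f ⟨hf, fun y hy hy' => (hf' ⟨y, hy⟩).symm.trans ?_⟩)
    have h3 : ((c • (⟨y, hy⟩ : N) : N) : Fin n → K) ∈ H := hy' c
    exact (hZ _).2 h3 e he
  · have := hx.2 1
    rwa [← hs 1 ⟨x, hx.1⟩, one_smul] at this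
  · rintro _ ⟨x, ⟨⟨c, hc, e⟩, hx⟩, rfl⟩
    exact ⟨⟨x.2, fun c => (hZ _).1 (hx c)⟩, x.2, c, hc, congrArg Subtype.val e⟩
  · rintro _ ⟨z, hz, hz', rfl⟩
    let z' : Fin (J + 1) → N := fun j => ⟨z j, (hz j).1⟩
    refine ⟨∑ j, z' j, ⟨z', fun j => ?_, fun c => (hZ _).2 ?_, rfl⟩, by simp [z']⟩
    · obtain ⟨c, hc, e⟩ := (hz j).2
      exact ⟨c, hc, Subtype.ext e⟩
    · rw [AddSubmonoidClass.coe_finsetSum]
      exact hz' c

end Pool.Agent.Lib.TM
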