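import Pool.Agent.Lib.TM.Blue

/-! Basic lemmas on `Asp`, `Orb`, `Zer`, `FiniteIndexIn`. -/

set_option autoImplicit false

namespace Pool.Agent.Lib.TM

open Polynomial Pool.Agent.Lib.MP_795114_nt

section Frob
variable (𝔽 : Type) [Field 𝔽] [Fintype 𝔽] {Ω : Type} [CommRing Ω] [Algebra 𝔽 Ω]

theorem frob_pow_apply (k : ℕ) (x : Ω) :
    (FiniteField.frobeniusAlgHom 𝔽 Ω ^ k : Ω →ₐ[𝔽] Ω) x = x ^ Fintype.card 𝔽 ^ k := by
  rw [AlgHom.coe_pow, FiniteField.coe_frobeniusAlgHom, pow_iterate]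

theorem add_pow_q (k : ℕ) (x y : Ω) :
    (x + y) ^ Fintype.card 𝔽 ^ k = x ^ Fintype.card 𝔽 ^ k + y ^ Fintype.card 𝔽 ^ k := by
  simp only [← frob_pow_apply, map_add]

theorem sub_pow_q (k : ℕ) (x y : Ω) :
    (x - y) ^ Fintype.card 𝔽 ^ k = x ^ Fintype.card 𝔽 ^ k - y ^ Fintype.card 𝔽 ^ k := by
  simp only [← frob_pow_apply, map_sub]

theorem sum_pow_q {α : Type} (k : ℕ) (s : Finset α) (x : α → Ω) :
    (∑ a ∈ s, x a) ^ Fintype.card 𝔽 ^ k = ∑ a ∈ s, x a ^ Fintype.card 𝔽 ^ k := by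
  simp only [← frob_pow_apply, map_sum]

theorem smul_pow_q (k : ℕ) (c : 𝔽) (x : Ω) :
    (c • x) ^ Fintype.card 𝔽 ^ k = c • x ^ Fintype.card 𝔽 ^ k := by
  simp only [← frob_pow_apply, map_smul]

theorem q_pow_ne_zero (k : ℕ) : Fintype.card 𝔽 ^ k ≠ 0 := pow_ne_zero _ Fintype.card_ne_zero

omit [Algebra 𝔽 Ω] in
theorem zero_pow_q (k : ℕ) : (0 : Ω) ^ Fintype.card 𝔽 ^ k = 0 := zero_pow (q_pow_ne_zero 𝔽 k)

theorem q_pow_inj {i j : ℕ} (h : Fintype.card 𝔽 ^ i = Fintype.card 𝔽 ^ j) : i = j :=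
  Nat.pow_right_injective (Fintype.one_lt_card (α := 𝔽)) h

/-- `a ^ q ^ j = a(T ^ q ^ j)`. -/
theorem pow_q_eq_sum (a : 𝔽[X]) (j : ℕ) : a ^ Fintype.card 𝔽 ^ j =
    ∑ m ∈ Finset.range (a.natDegree + 1), a.coeff m • ((X : 𝔽[X]) ^ Fintype.card 𝔽 ^ j) ^ m := by
  conv_lhs => rw [a.as_sum_range_C_mul_X_pow, sum_pow_q 𝔽]
  refine Finset.sum_congr rfl fun m _ => ?_
  rw [← smul_eq_C_mul, smul_pow_q, ← pow_mul, ← pow_mul, mul_comm]

theorem tw_coeff (k : ℕ) (p : Polynomial Ω) (n : ℕ) :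
    (tw 𝔽 k p).coeff n = p.coeff n ^ Fintype.card 𝔽 ^ k := by
  rw [tw, coeff_map]; exact frob_pow_apply 𝔽 k _

theorem tw_eval (k : ℕ) (p : Polynomial Ω) (x : Ω) :
    (tw 𝔽 k p).eval (x ^ Fintype.card 𝔽 ^ k) = p.eval x ^ Fintype.card 𝔽 ^ k := by
  rw [← frob_pow_apply, ← frob_pow_apply]
  exact eval_map_apply (FiniteField.frobeniusAlgHom 𝔽 Ω ^ k : Ω →ₐ[𝔽] Ω).toRingHom x

end Frob

theorem exists_root_q (𝔽 : Type) [Fintype 𝔽] [Field 𝔽] {K : Type} [Field K] [IsAlgClosed K]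
    (k : ℕ) (c : K) : ∃ d : K, d ^ Fintype.card 𝔽 ^ k = c :=
  IsAlgClosed.exists_pow_nat_eq c (Nat.pos_of_ne_zero (q_pow_ne_zero 𝔽 k))

theorem pow_q_inj (𝔽 : Type) [Fintype 𝔽] [Field 𝔽] {K : Type} [Field K] [Algebra 𝔽 K] (k : ℕ)
    {x y : K} (h : x ^ Fintype.card 𝔽 ^ k = y ^ Fintype.card 𝔽 ^ k) : x = y := by
  rw [← sub_eq_zero, ← sub_pow_q] at h
  exact sub_eq_zero.1 (pow_eq_zero_iff (q_pow_ne_zero 𝔽 k) |>.1 h)

theorem lin_monomial (𝔽 : Type) {K : Type} [Field 𝔽] [Fintype 𝔽] [Field K] [Algebra 𝔽 K] (k : ℕ)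
    (c x : K) : lin 𝔽 (monomial k c) x = c * x ^ Fintype.card 𝔽 ^ k := by
  rw [lin, lsum_apply, sum_monomial_index _ _ (by simp), LinearMap.toSpanSingleton_apply,
    LinearMap.smul_apply, smul_eq_mul, Module.End.coe_pow, AlgHom.coe_toLinearMap,
    FiniteField.coe_frobeniusAlgHom, pow_iterate]

theorem lin_apply (𝔽 : Type) {K : Type} [Field 𝔽] [Fintype 𝔽] [Field K] [Algebra 𝔽 K] (p : K[X])
    (x : K) : lin 𝔽 p x = p.sum fun k c => c * x ^ Fintype.card 𝔽 ^ k := by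
  conv_lhs => rw [p.sum_monomial_eq.symm, sum_def, map_sum, LinearMap.sum_apply]
  simp only [lin_monomial, sum_def]

section Asp
variable {q : ℕ} {R W Ω : Type} [CommRing R] [CommRing Ω] [Algebra R Ω]

theorem pow_mem_Asp {s k : ℕ} {S : Set (W → Ω)} {g : W → Ω} (hg : g ∈ S) (hk : s ≤ k) :
    g ^ q ^ k ∈ Asp q R s S := Submodule.subset_span ⟨g, hg, k, hk, rfl⟩

theorem mem_Asp {S : Set (W → Ω)} {g : W → Ω} (hg : g ∈ S) : g ∈ Asp q R 0 S := by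
  simpa using pow_mem_Asp (q := q) (R := R) hg (le_refl 0)

theorem Asp_mono {s s' : ℕ} {S S' : Set (W → Ω)} (hs : s' ≤ s) (hS : S ⊆ S') :
    Asp q R s S ≤ Asp q R s' S' :=
  Submodule.span_mono fun _ ⟨g, hg, k, hk, e⟩ => ⟨g, hS hg, k, hs.trans hk, e⟩

theorem Asp_le {s : ℕ} {S : Set (W → Ω)} {N : Submodule R (W → Ω)}
    (h : ∀ g ∈ S, ∀ k, s ≤ k → g ^ q ^ k ∈ N) : Asp q R s S ≤ N :=
  Submodule.span_le.2 fun _ ⟨g, hg, k, hk, e⟩ => e ▸ h g hg k hk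

/-- Induction over `Asp`. -/
theorem Asp_induction {s : ℕ} {S : Set (W → Ω)} {p : (W → Ω) → Prop} {f : W → Ω}
    (hf : f ∈ Asp q R s S) (gen : ∀ g ∈ S, ∀ k, s ≤ k → p (g ^ q ^ k)) (zero : p 0)
    (add : ∀ f f', p f → p f' → p (f + f')) (smul : ∀ (r : R) f, p f → p (r • f)) : p f := by
  induction hf using Submodule.span_induction with
  | mem _ h => obtain ⟨g, hg, k, hk, rfl⟩ := h; exact gen g hg k hk
  | zero => exact zero
  | add _ _ _ _ h h' => exact add _ _ h h'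
  | smul r _ _ h => exact smul r _ h

/-- Values: if all generators take a value in a set closed under the operations, so does `f`. -/
theorem Asp_apply_mem {s : ℕ} {S : Set (W → Ω)} {f : W → Ω} (hf : f ∈ Asp q R s S) {x : W}
    {N : Submodule R Ω} (h : ∀ g ∈ S, ∀ k, s ≤ k → g x ^ q ^ k ∈ N) : f x ∈ N :=
  Asp_induction (p := fun f => f x ∈ N) hf h N.zero_mem (fun _ _ => N.add_mem)
    fun r _ => N.smul_mem r

theorem Asp_apply_eq_zero (hq : q ≠ 0) {s : ℕ} {S : Set (W → Ω)} {f : W → Ω}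
    (hf : f ∈ Asp q R s S) {x : W} (h : ∀ g ∈ S, g x = 0) : f x = 0 :=
  (Submodule.mem_bot R).1 <| Asp_apply_mem hf fun g hg k _ => by
    rw [h g hg, zero_pow (pow_ne_zero _ hq)]; exact Submodule.zero_mem _

theorem Zer_Asp (hq : q ≠ 0) (S : Set (W → Ω)) : Zer (Asp q R 0 S : Set (W → Ω)) = Zer S :=
  Set.Subset.antisymm (fun _ h g hg => h g (mem_Asp hg)) fun _ h _ hf => Asp_apply_eq_zero hq hf h

/-- Compatibility with an endomorphism of the ring of values. -/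
theorem Asp_gal {s : ℕ} {S : Set (W → Ω)} {f : W → Ω} (hf : f ∈ Asp q R s S) (γ : Ω →ₐ[R] Ω)
    {x y : W} (h : ∀ g ∈ S, g y = γ (g x)) : f y = γ (f x) :=
  Asp_induction (p := fun f => f y = γ (f x)) hf
    (fun g hg k _ => by simp only [Pi.pow_apply, map_pow, h g hg]) (by simp)
    (fun f f' e e' => by simp only [Pi.add_apply, map_add, e, e'])
    fun r f e => by simp only [Pi.smul_apply, map_smul, e]

/-- Transfer along a map of points `u`, a map of values `ρ` and a map of scalars `j`. -/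
theorem span_transfer {R' W' Ω' : Type} [CommRing R'] [CommRing Ω'] [Algebra R' Ω'] (u : W' → W)
    (ρ : Ω →+* Ω') (j : R →+* R') (hρ : ∀ r, ρ (algebraMap R Ω r) = algebraMap R' Ω' (j r))
    {S : Set (W → Ω)} {N : Submodule R' (W' → Ω')} (h : ∀ g ∈ S, ρ ∘ g ∘ u ∈ N) {f : W → Ω}
    (hf : f ∈ Submodule.span R S) : ρ ∘ f ∘ u ∈ N := by
  induction hf using Submodule.span_induction with
  | mem g hg => exact h g hg
  | zero => convert N.zero_mem; ext; simp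
  | add f f' _ _ e e' => convert N.add_mem e e'; ext; simp
  | smul r f _ e =>
    convert N.smul_mem (j r) e
    ext
    simp [Algebra.smul_def, hρ]

theorem Asp_transfer {R' W' Ω' : Type} [CommRing R'] [CommRing Ω'] [Algebra R' Ω'] (u : W' → W)
    (ρ : Ω →+* Ω') (j : R →+* R') (hρ : ∀ r, ρ (algebraMap R Ω r) = algebraMap R' Ω' (j r))
    {s : ℕ} {S : Set (W → Ω)} {S' : Set (W' → Ω')} (h : ∀ g ∈ S, ρ ∘ g ∘ u ∈ S') {f : W → Ω}
    (hf : f ∈ Asp q R s S) : ρ ∘ f ∘ u ∈ Asp q R' s S' := by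
  refine span_transfer u ρ j hρ ?_ hf
  rintro _ ⟨g, hg, k, hk, rfl⟩
  convert pow_mem_Asp (q := q) (R := R') (h g hg) hk using 1
  ext; simp

/-- Pull a membership back along an injective map of values. -/
theorem span_of_injective {Ω' : Type} [CommRing Ω'] [Algebra R Ω'] (ρ : Ω →ₐ[R] Ω')
    (hρ : Function.Injective ρ) {S : Set (W → Ω)} {S' : Set (W → Ω')}
    (h : ∀ g' ∈ S', ∃ g ∈ S, ρ ∘ g = g') {f : W → Ω} (hf : ρ ∘ f ∈ Submodule.span R S') :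
    f ∈ Submodule.span R S := by
  have : Submodule.span R S' ≤ (Submodule.span R S).map (ρ.toLinearMap.compLeft W) :=
    Submodule.span_le.2 fun g' hg' =>
      let ⟨g, hg, e⟩ := h g' hg'
      ⟨g, Submodule.subset_span hg, e⟩
  obtain ⟨f', hf', e⟩ := this hf
  have : f' = f := funext fun x => hρ (congrFun e x)
  exact this ▸ hf'

/-- Every element of `Asp` over pulled-back generators is a pull-back. -/
theorem Asp_exists_comp {W' : Type} (u : W' → W) {s : ℕ} {S : Set (W → Ω)} {S' : Set (W' → Ω)}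
    (h : ∀ g' ∈ S', ∃ g ∈ S, g ∘ u = g') {f' : W' → Ω} (hf : f' ∈ Asp q R s S') :
    ∃ f ∈ Asp q R s S, f ∘ u = f' :=
  Asp_induction (p := fun f' => ∃ f ∈ Asp q R s S, f ∘ u = f') hf
    (fun g' hg' k hk => let ⟨g, hg, e⟩ := h g' hg'; ⟨_, pow_mem_Asp hg hk, e ▸ rfl⟩)
    ⟨0, Submodule.zero_mem _, rfl⟩
    (fun _ _ ⟨a, ha, e⟩ ⟨b, hb, e'⟩ => ⟨a + b, Submodule.add_mem _ ha hb, e ▸ e' ▸ rfl⟩)
    fun r _ ⟨a, ha, e⟩ => ⟨r • a, Submodule.smul_mem _ r ha, e ▸ rfl⟩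

end Asp

section AspF
variable {𝔽 : Type} [Field 𝔽] [Fintype 𝔽] {R W Ω : Type} [CommRing R] [CommRing Ω] [Algebra R Ω]
  [Algebra 𝔽 Ω]

theorem Asp_pow {s : ℕ} {S : Set (W → Ω)} {f : W → Ω} (hf : f ∈ Asp (Fintype.card 𝔽) R s S)
    (k : ℕ) : f ^ Fintype.card 𝔽 ^ k ∈ Asp (Fintype.card 𝔽) R (s + k) S :=
  Asp_induction (p := fun f => f ^ Fintype.card 𝔽 ^ k ∈ Asp (Fintype.card 𝔽) R (s + k) S) hf
    (fun g hg l hl => by
      rw [← pow_mul, ← pow_add]; exact pow_mem_Asp hg (by omega))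
    (by rw [zero_pow_q]; exact Submodule.zero_mem _)
    (fun f f' e e' => by rw [add_pow_q]; exact Submodule.add_mem _ e e')
    fun r f e => by rw [_root_.smul_pow]; exact Submodule.smul_mem _ _ e

theorem Asp_pow_card {S : Set (W → Ω)} {f : W → Ω} (hf : f ∈ Asp (Fintype.card 𝔽) R 0 S) :
    f ^ Fintype.card 𝔽 ∈ Asp (Fintype.card 𝔽) R 0 S := by
  simpa using Asp_mono (Nat.zero_le _) subset_rfl (Asp_pow hf 1)

theorem Asp_le_Asp {s t : ℕ} {S S' : Set (W → Ω)} (h : S ⊆ Asp (Fintype.card 𝔽) R t S') :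
    Asp (Fintype.card 𝔽) R s S ≤ Asp (Fintype.card 𝔽) R (t + s) S' :=
  Asp_le fun _ hg k hk => Asp_mono (by omega) subset_rfl (Asp_pow (h hg) k)

omit [Field 𝔽] in
/-- A submodule closed under `q`-th powers is closed under `q ^ k`-th powers. -/
theorem pow_q_mem {V : Type} [CommRing V] [Module R V] {N : Submodule R V}
    (h : ∀ f ∈ N, f ^ Fintype.card 𝔽 ∈ N) {f : V} (hf : f ∈ N) (k : ℕ) :
    f ^ Fintype.card 𝔽 ^ k ∈ N := by
  induction k with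
  | zero => simpa using hf
  | succ k ih => rw [pow_succ, pow_mul]; exact h _ ih

theorem Asp_comp {W' : Type} (u : W' → W) {s t : ℕ} {S : Set (W → Ω)} {S' : Set (W' → Ω)}
    (h : ∀ g ∈ S, g ∘ u ∈ Asp (Fintype.card 𝔽) R t S') {f : W → Ω}
    (hf : f ∈ Asp (Fintype.card 𝔽) R s S) : f ∘ u ∈ Asp (Fintype.card 𝔽) R (t + s) S' := by
  refine span_transfer u (RingHom.id Ω) (RingHom.id R) (fun _ => rfl) ?_ hf
  rintro _ ⟨g, hg, k, hk, rfl⟩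
  exact Asp_mono (by omega) subset_rfl (Asp_pow (h g hg) k)

variable {M : Type} [AddCommGroup M] [Module 𝔽 M]

/-- Elements of `Asp` over `𝔽`-linear generators are `𝔽`-linear. -/
theorem Asp_linear {s : ℕ} {S : Set (M → Ω)} (hS : ∀ g ∈ S, ∃ g' : M →ₗ[𝔽] Ω, ⇑g' = g) {f : M → Ω}
    (hf : f ∈ Asp (Fintype.card 𝔽) R s S) : ∃ f' : M →ₗ[𝔽] Ω, ⇑f' = f :=
  Asp_induction (p := fun f => ∃ f' : M →ₗ[𝔽] Ω, ⇑f' = f) hf
    (fun g hg k _ => by
      obtain ⟨g', rfl⟩ := hS g hg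
      exact ⟨(FiniteField.frobeniusAlgHom 𝔽 Ω ^ k : Ω →ₐ[𝔽] Ω).toLinearMap ∘ₗ g',
        funext fun x => frob_pow_apply 𝔽 k _⟩)
    ⟨0, rfl⟩ (fun _ _ ⟨a, e⟩ ⟨b, e'⟩ => ⟨a + b, e ▸ e' ▸ rfl⟩)
    fun r _ ⟨a, e⟩ => ⟨LinearMap.mulLeft 𝔽 (algebraMap R Ω r) ∘ₗ a, by
      ext x; simp [← e, Algebra.smul_def]⟩

theorem Asp_Fn_linear {ι : Type} {s : ℕ} {g : ι → M →ₗ[𝔽] Ω} {f : M → Ω}
    (hf : f ∈ Asp (Fintype.card 𝔽) R s (Fn g)) : ∃ f' : M →ₗ[𝔽] Ω, ⇑f' = f :=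
  Asp_linear (by rintro _ ⟨i, e⟩; exact ⟨g i, e⟩) hf

theorem Asp_Pr_linear {α K : Type} [Field K] [Algebra 𝔽 K] [Algebra R K] {s : ℕ} {f : (α → K) → K}
    (hf : f ∈ Asp (Fintype.card 𝔽) R s (Pr α K)) : ∃ f' : (α → K) →ₗ[𝔽] K, ⇑f' = f :=
  Asp_linear (by rintro _ ⟨a, e⟩; exact ⟨LinearMap.proj a, e⟩) hf

/-- `Zer E` as an `𝔽`-subspace. -/
def zerSub {ι : Type} {g : ι → M →ₗ[𝔽] Ω} {E : Set (M → Ω)}
    (hE : E ⊆ Asp (Fintype.card 𝔽) R 0 (Fn g)) : Submodule 𝔽 M where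
  carrier := Zer E
  zero_mem' e he := by obtain ⟨f, rfl⟩ := Asp_Fn_linear (hE he); exact f.map_zero
  add_mem' hx hy e he := by
    obtain ⟨f, rfl⟩ := Asp_Fn_linear (hE he); rw [map_add, hx _ he, hy _ he, add_zero]
  smul_mem' c x hx e he := by
    obtain ⟨f, rfl⟩ := Asp_Fn_linear (hE he); rw [map_smul, hx _ he, smul_zero]

variable [Module 𝔽[X] M] {ι : Type} {g : ι → M →ₗ[𝔽] Ω} {θ : R}

theorem B2.comp_X (h : B2 θ g) {s : ℕ} {f : M → Ω} (hf : f ∈ Asp (Fintype.card 𝔽) R s (Fn g)) :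
    (fun x => f ((X : 𝔽[X]) • x)) ∈ Asp (Fintype.card 𝔽) R s (Fn g) := by
  have := Asp_comp (t := 0) (S' := Fn g) (fun x : M => (X : 𝔽[X]) • x) ?_ hf
  · rw [zero_add] at this; exact this
  rintro _ ⟨i, rfl⟩
  have := Submodule.add_mem _ (Asp_mono (Nat.zero_le 1) subset_rfl (h i))
    (Submodule.smul_mem _ θ (mem_Asp (S := Fn g) ⟨i, rfl⟩))
  rwa [sub_add_cancel] at this

theorem B2.comp_X_sub (h : B2 θ g) {f : M → Ω} (hf : f ∈ Asp (Fintype.card 𝔽) R 0 (Fn g)) :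
    (fun x => f ((X : 𝔽[X]) • x)) - θ • f ∈ Asp (Fintype.card 𝔽) R 1 (Fn g) := by
  refine Asp_induction (p := fun f => (fun x => f ((X : 𝔽[X]) • x)) - θ • f ∈
    Asp (Fintype.card 𝔽) R 1 (Fn g)) hf ?_ ?_ (fun f f' e e' => ?_) fun r f e => ?_
  · rintro _ ⟨i, rfl⟩ k -
    rcases Nat.eq_zero_or_pos k with rfl | hk
    · simpa using h i
    · exact Submodule.sub_mem _ (h.comp_X (pow_mem_Asp ⟨i, rfl⟩ hk))
        (Submodule.smul_mem _ _ (pow_mem_Asp ⟨i, rfl⟩ hk))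
  · convert Submodule.zero_mem _; ext; simp
  · convert Submodule.add_mem _ e e' using 1; ext; simp; ring
  · convert Submodule.smul_mem _ r e using 1; ext; simp [smul_sub, smul_comm r θ]

variable [IsScalarTower 𝔽 𝔽[X] M] [Algebra 𝔽 R] [IsScalarTower 𝔽 R Ω]

theorem B2.comp_smul_aux (h : B2 θ g) (a : 𝔽[X]) : (∀ s, ∀ f ∈ Asp (Fintype.card 𝔽) R s (Fn g),
    (fun x => f (a • x)) ∈ Asp (Fintype.card 𝔽) R s (Fn g)) ∧
    ∀ f ∈ Asp (Fintype.card 𝔽) R 0 (Fn g),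
      (fun x => f (a • x)) - aeval θ a • f ∈ Asp (Fintype.card 𝔽) R 1 (Fn g) := by
  induction a using Polynomial.induction_on with
  | C c =>
    have : ∀ s, ∀ f ∈ Asp (Fintype.card 𝔽) R s (Fn g),
        (fun x => f ((C c : 𝔽[X]) • x)) = algebraMap 𝔽 R c • f := fun s f hf => by
      obtain ⟨f, rfl⟩ := Asp_Fn_linear hf
      ext x
      rw [← algebraMap_eq, algebraMap_smul, map_smul, Pi.smul_apply, algebraMap_smul]
    refine ⟨fun s f hf => this s f hf ▸ Submodule.smul_mem _ _ hf, fun f hf => ?_⟩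
    rw [this 0 f hf, aeval_C, sub_self]; exact Submodule.zero_mem _
  | add a b ha hb =>
    have : ∀ s, ∀ f ∈ Asp (Fintype.card 𝔽) R s (Fn g),
        (fun x => f ((a + b) • x)) = (fun x => f (a • x)) + fun x => f (b • x) := fun s f hf => by
      obtain ⟨f, rfl⟩ := Asp_Fn_linear hf
      ext x
      rw [add_smul, map_add, Pi.add_apply]
    refine ⟨fun s f hf => this s f hf ▸ Submodule.add_mem _ (ha.1 s f hf) (hb.1 s f hf),
      fun f hf => ?_⟩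
    rw [this 0 f hf, map_add, add_smul, add_sub_add_comm]
    exact Submodule.add_mem _ (ha.2 f hf) (hb.2 f hf)
  | monomial n c ih =>
    have e : ∀ f : M → Ω, (fun x => f ((C c * X ^ (n + 1) : 𝔽[X]) • x)) =
        fun x => (fun y => f ((C c * X ^ n : 𝔽[X]) • y)) ((X : 𝔽[X]) • x) := fun f => by
      ext x; rw [pow_succ, ← mul_assoc, mul_smul]
    refine ⟨fun s f hf => e f ▸ h.comp_X (ih.1 s f hf), fun f hf => ?_⟩
    have := Submodule.add_mem _ (h.comp_X_sub (ih.1 0 f hf))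
      (Submodule.smul_mem _ θ (ih.2 f hf))
    rw [e f]
    convert this using 1
    rw [smul_sub, sub_add_sub_cancel, smul_smul, pow_succ, ← mul_assoc, map_mul _ _ X, aeval_X,
      mul_comm θ]

theorem B2.comp_smul (h : B2 θ g) (a : 𝔽[X]) {s : ℕ} {f : M → Ω}
    (hf : f ∈ Asp (Fintype.card 𝔽) R s (Fn g)) :
    (fun x => f (a • x)) ∈ Asp (Fintype.card 𝔽) R s (Fn g) := (h.comp_smul_aux a).1 s f hf

theorem B2.comp_smul_sub (h : B2 θ g) (a : 𝔽[X]) {f : M → Ω}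
    (hf : f ∈ Asp (Fintype.card 𝔽) R 0 (Fn g)) :
    (fun x => f (a • x)) - aeval θ a • f ∈ Asp (Fintype.card 𝔽) R 1 (Fn g) :=
  (h.comp_smul_aux a).2 f hf

end AspF

section Transfer
variable {𝔽 : Type} [Field 𝔽] [Fintype 𝔽] {R R' M M' Ω Ω' ι : Type} [CommRing R] [CommRing R']
  [CommRing Ω] [CommRing Ω'] [Algebra R Ω] [Algebra R' Ω'] [Algebra 𝔽 Ω] [Algebra 𝔽 Ω']
  [AddCommGroup M] [Module 𝔽 M] [Module 𝔽[X] M] [AddCommGroup M'] [Module 𝔽 M'] [Module 𝔽[X] M']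
  {g : ι → M →ₗ[𝔽] Ω} {g' : ι → M' →ₗ[𝔽] Ω'}

theorem B1.transfer (h : B1 R g) (u : M' →ₗ[𝔽[X]] M) (ρ : Ω →+* Ω') (j : R →+* R')
    (hρ : ∀ r, ρ (algebraMap R Ω r) = algebraMap R' Ω' (j r))
    (hg : ∀ i x, g' i x = ρ (g i (u x))) : B1 R' g' := fun i => by
  have := span_transfer (N := Orb R' g') u ρ j hρ ?_ (h i)
  · convert this using 1; ext x; simp [hg]
  rintro _ ⟨i, l, rfl⟩
  exact Submodule.subset_span ⟨i, l, by ext x; simp [hg]⟩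

theorem B2.transfer {θ : R} (h : B2 θ g) (u : M' →ₗ[𝔽[X]] M) (ρ : Ω →+* Ω') (j : R →+* R')
    (hρ : ∀ r, ρ (algebraMap R Ω r) = algebraMap R' Ω' (j r))
    (hg : ∀ i x, g' i x = ρ (g i (u x))) : B2 (j θ) g' := fun i => by
  have := Asp_transfer (S' := Fn g') u ρ j hρ ?_ (h i)
  · convert this using 1; ext x; simp [hg, Algebra.smul_def, hρ]
  rintro _ ⟨i, rfl⟩
  exact ⟨i, by ext x; simp [hg]⟩

theorem B1.of_injective [Algebra R Ω'] {g' : ι → M →ₗ[𝔽] Ω'} (h : B1 R g') (ρ : Ω →ₐ[R] Ω')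
    (hρ : Function.Injective ρ) (hg : ∀ i x, g' i x = ρ (g i x)) : B1 R g := fun i => by
  refine span_of_injective ρ hρ ?_ (?_ : _ ∈ Orb R g')
  · rintro _ ⟨i, l, rfl⟩
    exact ⟨_, ⟨i, l, rfl⟩, by ext x; simp [hg]⟩
  · convert h i using 1; ext x; simp [hg]

theorem B2.of_injective [Algebra R Ω'] {g' : ι → M →ₗ[𝔽] Ω'} {θ : R} (h : B2 θ g')
    (ρ : Ω →ₐ[R] Ω') (hρ : Function.Injective ρ) (hg : ∀ i x, g' i x = ρ (g i x)) : B2 θ g :=
  fun i => by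
  refine span_of_injective ρ hρ ?_ (?_ : _ ∈ Asp (Fintype.card 𝔽) R 1 (Fn g'))
  · rintro _ ⟨_, ⟨i, rfl⟩, k, hk, rfl⟩
    exact ⟨_, ⟨_, ⟨i, rfl⟩, k, hk, rfl⟩, by ext x; simp [hg]⟩
  · convert h i using 1; ext x; simp [hg]

end Transfer

/-- Descent of coefficients to a finitely generated subalgebra. -/
theorem span_descend (𝔽 : Type) {K V : Type} [Field 𝔽] [Field K] [Algebra 𝔽 K] [AddCommGroup V]
    [Module K V] {S : Set V} {f : V} (hf : f ∈ Submodule.span K S) :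
    ∃ C : Set K, C.Finite ∧ ∀ B : Subalgebra 𝔽 K, C ⊆ B → f ∈ Submodule.span B S := by
  obtain ⟨c, hc, rfl⟩ := Finsupp.mem_span_iff_linearCombination K S f |>.1 hf
  refine ⟨Set.range c, c.finite_range, fun B hB => ?_⟩
  rw [Finsupp.linearCombination_apply, Finsupp.sum]
  exact Submodule.sum_mem _ fun i _ =>
    Submodule.smul_mem _ (⟨c i, hB ⟨i, rfl⟩⟩ : B) (Submodule.subset_span i.2)

section Lam
variable {q : ℕ} {K : Type} [Field K] {n : ℕ}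

theorem eval_mem_Asp {e : MvPolynomial (Fin n) K} (he : e ∈ Lam q K n) :
    (fun x => MvPolynomial.eval x e) ∈ Asp q K 0 (Pr (Fin n) K) := by
  induction he using Submodule.span_induction with
  | mem _ h =>
    obtain ⟨j, i, rfl⟩ := h
    convert pow_mem_Asp (q := q) (R := K) (S := Pr (Fin n) K) ⟨j, rfl⟩ (Nat.zero_le i) using 1
    ext; simp
  | zero => convert Submodule.zero_mem _ using 1; ext; simp
  | add _ _ _ _ e e' => convert Submodule.add_mem _ e e' using 1; ext; simp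
  | smul r _ _ e => convert Submodule.smul_mem _ r e using 1; ext; simp

theorem exists_Lam_of_Asp {f : (Fin n → K) → K} (hf : f ∈ Asp q K 0 (Pr (Fin n) K)) :
    ∃ e ∈ Lam q K n, (fun x => MvPolynomial.eval x e) = f := by
  refine Asp_induction (p := fun f => ∃ e ∈ Lam q K n, (fun x => MvPolynomial.eval x e) = f) hf
    ?_ ⟨0, Submodule.zero_mem _, by ext; simp⟩ ?_ ?_
  · rintro _ ⟨j, rfl⟩ k -
    exact ⟨_, Submodule.subset_span ⟨j, k, rfl⟩, by ext; simp⟩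
  · rintro _ _ ⟨a, ha, rfl⟩ ⟨b, hb, rfl⟩
    exact ⟨a + b, Submodule.add_mem _ ha hb, by ext; simp⟩
  · rintro r _ ⟨a, ha, rfl⟩
    exact ⟨r • a, Submodule.smul_mem _ r ha, by ext; simp⟩

end Lam

theorem mem_Asp_Pr_iff (𝔽 : Type) {K α : Type} [Field 𝔽] [Fintype 𝔽] [Field K] [Algebra 𝔽 K]
    [Fintype α] {f : (α → K) → K} : f ∈ Asp (Fintype.card 𝔽) K 0 (Pr α K) ↔
      ∃ p : α → K[X], f = fun z => ∑ a, lin 𝔽 (p a) (z a) := by
  classical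
  refine ⟨fun hf => Asp_induction
    (p := fun f => ∃ p : α → K[X], f = fun z => ∑ a, lin 𝔽 (p a) (z a)) hf ?_
      ⟨0, funext fun _ => by simp⟩ ?_ ?_, ?_⟩
  · rintro _ ⟨a, rfl⟩ k -
    refine ⟨Pi.single a (monomial k 1), funext fun z => ?_⟩
    rw [Finset.sum_eq_single a (fun b _ hb => by simp [hb]) (by simp)]
    simp [lin_monomial]
  · rintro _ _ ⟨p, rfl⟩ ⟨p', rfl⟩
    exact ⟨p + p', by ext; simp [Finset.sum_add_distrib]⟩
  · rintro r _ ⟨p, rfl⟩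
    exact ⟨r • p, by ext; simp [Finset.mul_sum]⟩
  · rintro ⟨p, rfl⟩
    have : (fun z : α → K => ∑ a, lin 𝔽 (p a) (z a)) = ∑ a, ∑ k ∈ (p a).support,
        (p a).coeff k • (fun z : α → K => z a) ^ Fintype.card 𝔽 ^ k := by
      ext z; simp [lin_apply, sum_def]
    rw [this]
    exact Submodule.sum_mem _ fun a _ => Submodule.sum_mem _ fun k _ =>
      Submodule.smul_mem _ _ (pow_mem_Asp ⟨a, rfl⟩ (Nat.zero_le k))

section FI
variable {G G' : Type} [AddCommGroup G] [AddCommGroup G']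

theorem FI_of_subset {B C : Set G} (h : C ⊆ B) : FiniteIndexIn B C :=
  ⟨{0}, Set.finite_singleton _, fun x hx => ⟨0, rfl, by simpa using h hx⟩⟩

theorem FI_mono {B B' C C' : Set G} (h : FiniteIndexIn B C) (hB : B ⊆ B') (hC : C' ⊆ C) :
    FiniteIndexIn B' C' :=
  let ⟨R, hR, e⟩ := h
  ⟨R, hR, fun x hx => let ⟨r, hr, e'⟩ := e x (hC hx); ⟨r, hr, hB e'⟩⟩

theorem FI_trans {B C D : Set G} (h : FiniteIndexIn B C) (h' : FiniteIndexIn C D) :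
    FiniteIndexIn B D := by
  obtain ⟨R, hR, e⟩ := h
  obtain ⟨R', hR', e'⟩ := h'
  refine ⟨_, hR'.image2 (· + ·) hR, fun x hx => ?_⟩
  obtain ⟨r', hr', h1⟩ := e' x hx
  obtain ⟨r, hr, h2⟩ := e _ h1
  exact ⟨_, Set.mem_image2_of_mem hr' hr, by rwa [← sub_sub]⟩

theorem FI_image {B C : Set G} (h : FiniteIndexIn B C) (f : G →+ G') :
    FiniteIndexIn (f '' B) (f '' C) := by
  obtain ⟨R, hR, e⟩ := h
  refine ⟨_, hR.image f, ?_⟩
  rintro _ ⟨x, hx, rfl⟩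
  obtain ⟨r, hr, h1⟩ := e x hx
  exact ⟨_, ⟨r, hr, rfl⟩, _, h1, map_sub _ _ _⟩

/-- The translates can be taken in `C`, and then one can intersect. -/
theorem FI_inter {B C Γ : Set G} (h : FiniteIndexIn B C) (hB : ∀ x ∈ B, ∀ y ∈ B, x - y ∈ B)
    (hΓ : ∀ x ∈ Γ, ∀ y ∈ Γ, x - y ∈ Γ) : FiniteIndexIn (Γ ∩ B) (Γ ∩ C) := by
  obtain ⟨R, hR, e⟩ := h
  have : ∀ r : G, ∃ y : G, (∃ x ∈ Γ, x - r ∈ B) → y ∈ Γ ∧ y - r ∈ B := fun r => by
    by_cases h : ∃ x ∈ Γ, x - r ∈ B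
    · obtain ⟨x, hx⟩ := h; exact ⟨x, fun _ => hx⟩
    · exact ⟨0, fun h' => (h h').elim⟩
  choose y hy using this
  refine ⟨_, hR.image y, fun x hx => ?_⟩
  obtain ⟨r, hr, h1⟩ := e x hx.2
  obtain ⟨h2, h3⟩ := hy r ⟨x, hx.1, h1⟩
  exact ⟨_, ⟨r, hr, rfl⟩, hΓ _ hx.1 _ h2, by simpa using hB _ h1 _ h3⟩

theorem FI_ker {C : Set G} (hC : ∀ x ∈ C, ∀ y ∈ C, x - y ∈ C) (f : G → G')
    (hf : ∀ x ∈ C, ∀ y ∈ C, f (x - y) = f x - f y) (h : (f '' C).Finite) :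
    FiniteIndexIn {x | x ∈ C ∧ f x = 0} C := by
  have : ∀ r : G', ∃ y : G, r ∈ f '' C → y ∈ C ∧ f y = r := fun r => by
    by_cases h : r ∈ f '' C
    · obtain ⟨x, hx⟩ := h; exact ⟨x, fun _ => hx⟩
    · exact ⟨0, fun h' => (h h').elim⟩
  choose y hy using this
  refine ⟨_, h.image y, fun x hx => ?_⟩
  obtain ⟨h1, h2⟩ := hy _ ⟨x, hx, rfl⟩
  exact ⟨_, ⟨_, ⟨x, hx, rfl⟩, rfl⟩, hC _ hx _ h1, by rw [hf _ hx _ h1, h2, sub_self]⟩

theorem FI_add {D C₁ C₂ C : Set G} (hD : ∀ x ∈ D, ∀ y ∈ D, x + y ∈ D) (h₁ : FiniteIndexIn D C₁)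
    (h₂ : FiniteIndexIn D C₂) (h : ∀ x ∈ C, ∃ y ∈ C₁, x - y ∈ C₂) : FiniteIndexIn D C := by
  obtain ⟨R, hR, e⟩ := h₁
  obtain ⟨R', hR', e'⟩ := h₂
  refine ⟨_, hR.image2 (· + ·) hR', fun x hx => ?_⟩
  obtain ⟨y, hy, hy'⟩ := h x hx
  obtain ⟨r, hr, h1⟩ := e _ hy
  obtain ⟨r', hr', h2⟩ := e' _ hy'
  refine ⟨_, Set.mem_image2_of_mem hr hr', ?_⟩
  convert hD _ h1 _ h2 using 1
  abel

theorem FI_of_finiteIndex (H : AddSubgroup G) [H.FiniteIndex] :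
    FiniteIndexIn (H : Set G) Set.univ := by
  refine ⟨Set.range (fun y : G ⧸ H => y.out), Set.finite_range _, fun x _ =>
    ⟨_, ⟨(x : G ⧸ H), rfl⟩, ?_⟩⟩
  exact (QuotientAddGroup.eq_iff_sub_mem).1 (Quotient.out_eq' _).symm

end FI

end Pool.Agent.Lib.TM
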